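import Mathlib

set_option autoImplicit false

/-! Represented matroids over a field, minors, girth. -/

namespace Pool.Agent.P.MP_c2d640_lc

variable {F : Type} [Field F] {m n : ℕ}

/-- Deletion of the element `e`: project the subspace to the other coordinates. -/
def delete (V : Submodule F (Fin (n + 1) → F)) (e : Fin (n + 1)) : Submodule F (Fin n → F) :=
  V.map (LinearMap.funLeft F F e.succAbove)

/-- Contraction of the element `e`: project the vectors of the subspace that vanish at `e` to the
other coordinates. -/
def contract (V : Submodule F (Fin (n + 1) → F)) (e : Fin (n + 1)) : Submodule F (Fin n → F) :=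
  (V ⊓ LinearMap.ker (LinearMap.proj e)).map (LinearMap.funLeft F F e.succAbove)

/-- Relabelling of the ground set by a permutation. -/
def relabel (V : Submodule F (Fin n → F)) (σ : Equiv.Perm (Fin n)) : Submodule F (Fin n → F) :=
  V.map (LinearMap.funLeft F F σ)

/-- A class of represented matroids (for every `n` a set of subspaces of `F ^ n`) is closed under
deletion, contraction and relabelling. -/
def MinorClosed (𝓜 : (n : ℕ) → Set (Submodule F (Fin n → F))) : Prop :=
  (∀ (n : ℕ) (V : Submodule F (Fin (n + 1) → F)) (e : Fin (n + 1)),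
    V ∈ 𝓜 (n + 1) → delete V e ∈ 𝓜 n) ∧
  (∀ (n : ℕ) (V : Submodule F (Fin (n + 1) → F)) (e : Fin (n + 1)),
    V ∈ 𝓜 (n + 1) → contract V e ∈ 𝓜 n) ∧
  ∀ (n : ℕ) (V : Submodule F (Fin n → F)) (σ : Equiv.Perm (Fin n)), V ∈ 𝓜 n → relabel V σ ∈ 𝓜 n

/-- The row space of a matrix. -/
def rowSpace (A : Matrix (Fin m) (Fin n) F) : Submodule F (Fin n → F) :=
  Submodule.span F (Set.range A.row)

/-- The signed incidence matrix of the directed multigraph with vertices `Fin m`, arcs `Fin n`
and the given tails and heads. -/
def incidence (F : Type) [Field F] (tail head : Fin n → Fin m) : Matrix (Fin m) (Fin n) F :=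
  Matrix.of fun i e => (if tail e = i then 1 else 0) - (if head e = i then 1 else 0)

/-- A circuit of the column matroid: a minimal linearly dependent set of columns. -/
def IsCircuit (A : Matrix (Fin m) (Fin n) F) (C : Finset (Fin n)) : Prop :=
  Minimal (fun S : Finset (Fin n) => ¬ LinearIndepOn F A.col (S : Set (Fin n))) C

/-- The girth of the column matroid: the least size of a circuit, `⊤` if there is none. -/
noncomputable def girth (A : Matrix (Fin m) (Fin n) F) : ℕ∞ :=
  ⨅ (C : Finset (Fin n)) (_ : IsCircuit A C), (C.card : ℕ∞)

/-- The list of the columns of a matrix. -/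
def columns (A : Matrix (Fin m) (Fin n) F) : List (List F) :=
  List.ofFn fun e => List.ofFn fun i => A i e

end Pool.Agent.P.MP_c2d640_lc
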