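import Pool.Agent.P.MP_c2d640_lc.Defs

set_option autoImplicit false
set_option linter.unusedSectionVars false

/-! Vector configurations: words, girth, rank, light cocircuits. -/

namespace Pool.Agent.P.MP_c2d640_lc

open Finset Submodule
open scoped Classical

variable {F V ι : Type} [Field F] [AddCommGroup V] [Module F V] [Fintype ι] [DecidableEq ι]

/-- The linear combination of the vectors `v e` with coefficients `y e`. -/
noncomputable abbrev ev (F : Type) [Field F] [Module F V] (v : ι → V) : (ι → F) →ₗ[F] V :=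
  Fintype.linearCombination F v

/-- The support of a coefficient vector. -/
noncomputable def supp (y : ι → F) : Finset ι := univ.filter fun e => y e ≠ 0

/-- The coefficient vector vanishes outside `E`. -/
def On (E : Finset ι) (y : ι → F) : Prop := ∀ e, e ∉ E → y e = 0

/-- Every dependency among the vectors indexed by `E` has at least `g` terms. -/
def Gir (F : Type) [Field F] [Module F V] (v : ι → V) (E : Finset ι) (g : ℕ) : Prop :=
  ∀ y : ι → F, On E y → ev F v y = 0 → y ≠ 0 → g ≤ #(supp y)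

/-- The rank of `E`. -/
noncomputable def rk (F : Type) [Field F] [Module F V] (v : ι → V) (E : Finset ι) : ℕ :=
  Module.finrank F (span F (v '' E))

/-- The configuration with `S` contracted. -/
noncomputable def con (F : Type) [Field F] [Module F V] (v : ι → V) (S : Finset ι) (e : ι) :
    V ⧸ span F (v '' S) := (span F (v '' S)).mkQ (v e)

/-- Every minor has a light cocircuit, for all positive weights. -/
def DD (F : Type) [Field F] [Module F V] (v : ι → V) (c : ℕ) : Prop :=
  ∀ (C S : Finset ι) (u : ι → ℕ) (r : ℕ), 1 ≤ r → (∀ e ∈ S, 1 ≤ u e) →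
    rk F v C + r ≤ rk F v (C ∪ S) →
    ∃ φ : Module.Dual F V, (∀ e ∈ C, φ (v e) = 0) ∧ (∃ e ∈ S, φ (v e) ≠ 0) ∧
      r * ∑ e ∈ S.filter (fun e => φ (v e) ≠ 0), u e ≤ c * ∑ e ∈ S, u e

/-- The dependencies on `E` with at most `k` terms. -/
noncomputable def words (F : Type) [Field F] [Fintype F] [Module F V] (v : ι → V) (E : Finset ι)
    (k : ℕ) : Finset (ι → F) :=
  univ.filter fun y => On E y ∧ ev F v y = 0 ∧ #(supp y) ≤ k

/-- `T` is shattered by `𝓕` in the sense of Natarajan. -/
def Shat (𝓕 : Finset (ι → F)) (T : Finset ι) : Prop :=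
  ∃ f g : ι → F, (∀ t ∈ T, f t ≠ g t) ∧
    ∀ A ⊆ T, ∃ y ∈ 𝓕, ∀ t ∈ T, y t = if t ∈ A then f t else g t

variable {v : ι → V} {E E' S : Finset ι} {y z : ι → F}

theorem ev_apply (y : ι → F) : ev F v y = ∑ e, y e • v e := Fintype.linearCombination_apply ..

theorem ev_single (e : ι) (a : F) : ev F v (Pi.single e a) = a • v e :=
  Fintype.linearCombination_apply_single ..

@[simp] theorem mem_supp {e : ι} : e ∈ supp y ↔ y e ≠ 0 := by simp [supp]

@[simp] theorem supp_zero : supp (0 : ι → F) = ∅ := by ext; simp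

theorem supp_add_subset (y z : ι → F) : supp (y + z) ⊆ supp y ∪ supp z := by
  intro e
  by_cases h : y e = 0 <;> simp [h]

theorem supp_sub_subset (y z : ι → F) : supp (y - z) ⊆ supp y ∪ supp z := by
  intro e
  by_cases h : y e = 0 <;> simp [h]

theorem card_supp_add_le (y z : ι → F) : #(supp (y + z)) ≤ #(supp y) + #(supp z) :=
  (card_le_card (supp_add_subset y z)).trans (card_union_le _ _)

theorem card_supp_sub_le (y z : ι → F) : #(supp (y - z)) ≤ #(supp y) + #(supp z) :=
  (card_le_card (supp_sub_subset y z)).trans (card_union_le _ _)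

theorem on_iff : On E y ↔ supp y ⊆ E :=
  ⟨fun h e he => by_contra fun h' => mem_supp.1 he (h e h'),
    fun h _ he => by_contra fun h' => he (h (mem_supp.2 h'))⟩

theorem On.mono (h : On E y) (hE : E ⊆ E') : On E' y := fun e he => h e fun h' => he (hE h')

theorem On.add (h : On E y) (h' : On E z) : On E (y + z) := fun e he => by simp [h e he, h' e he]

theorem On.sub (h : On E y) (h' : On E z) : On E (y - z) := fun e he => by simp [h e he, h' e he]

theorem On.single {e : ι} (h : e ∈ E) (a : F) : On E (Pi.single e a : ι → F) := fun x he =>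
  Pi.single_eq_of_ne (fun h' : x = e => he (h' ▸ h)) _

theorem On.card_le (h : On E y) : #(supp y) ≤ #E := card_le_card (on_iff.1 h)

theorem On.ev_eq (h : On E y) : ev F v y = ∑ e ∈ E, y e • v e := by
  rw [ev_apply]
  exact (sum_subset (subset_univ E) fun e _ he => by simp [h e he]).symm

theorem Gir.mono {g g' : ℕ} (h : Gir F v E g) (hE : E' ⊆ E) (hg : g' ≤ g) : Gir F v E' g' :=
  fun y h1 h2 h3 => hg.trans (h y (h1.mono hE) h2 h3)

theorem mem_span_iff_ev {x : V} : x ∈ span F (v '' S) ↔ ∃ y, On S y ∧ ev F v y = x := by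
  rw [mem_span_image_finset_iff_exists_fun' F]
  constructor
  · rintro ⟨c, rfl⟩
    have h : On S (fun e => if e ∈ S then c e else 0) := fun e he => by simp [he]
    exact ⟨_, h, by rw [h.ev_eq]; exact sum_congr rfl fun e he => by simp [he]⟩
  · rintro ⟨y, h, rfl⟩
    exact ⟨y, h.ev_eq.symm⟩

theorem On.ev_mem (h : On S y) : ev F v y ∈ span F (v '' S) := mem_span_iff_ev.2 ⟨y, h, rfl⟩

theorem indep_iff_ev : LinearIndepOn F v S ↔ ∀ y, On S y → ev F v y = 0 → y = 0 := by
  rw [linearIndepOn_finset_iff]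
  constructor
  · intro h y h1 h2
    funext e
    by_cases he : e ∈ S
    · exact h y (by rw [← h1.ev_eq (v := v), h2]) e he
    · exact h1 e he
  · intro h c hc e he
    have h1 : On S (fun e => if e ∈ S then c e else 0) := fun e he => by simp [he]
    have := congrFun (h _ h1 (by
      rw [h1.ev_eq, ← hc]; exact sum_congr rfl fun e he => by simp [he])) e
    simpa [he] using this

theorem Gir.indep {g : ℕ} (h : Gir F v E g) (hS : S ⊆ E) (hg : #S < g) : LinearIndepOn F v S :=
  indep_iff_ev.2 fun y h1 h2 => by_contra fun h3 => by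
    have := h y (h1.mono hS) h2 h3
    have := h1.card_le
    omega

theorem ev_con (y : ι → F) : ev F (con F v S) y = (span F (v '' S)).mkQ (ev F v y) := by
  simp [ev_apply, con, map_sum]

theorem ev_con_eq_zero : ev F (con F v S) y = 0 ↔ ev F v y ∈ span F (v '' S) := by
  rw [ev_con, mkQ_apply, Quotient.mk_eq_zero]

theorem span_con (E S : Finset ι) :
    span F (con F v S '' E) = (span F (v '' E)).map (span F (v '' S)).mkQ := by
  rw [map_span, Set.image_image]
  rfl

theorem con_mem_span {e : ι} :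
    con F v S e ∈ span F (con F v S '' E) ↔ v e ∈ span F (v '' (E ∪ S : Finset ι)) := by
  rw [span_con, coe_union, Set.image_union, span_union, con, ← mem_comap, comap_map_mkQ, sup_comm]

theorem rk_le_card (E : Finset ι) : rk F v E ≤ #E := by
  rw [rk, ← coe_image]
  exact (finrank_span_finset_le_card _).trans card_image_le

theorem rk_eq_card (h : LinearIndepOn F v E) : rk F v E = #E := by
  have := finrank_span_eq_card h
  rw [← Set.image_eq_range] at this
  simpa [rk] using this

variable [FiniteDimensional F V]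

theorem rk_mono (h : E ⊆ E') : rk F v E ≤ rk F v E' :=
  finrank_mono (span_mono (Set.image_mono (coe_subset.2 h)))

theorem rk_con (E S : Finset ι) : rk F (con F v S) E + rk F v S = rk F v (E ∪ S) := by
  set U := span F (v '' S) with hU
  have hle : U ≤ span F (v '' (E ∪ S : Finset ι)) :=
    span_mono (Set.image_mono (coe_subset.2 subset_union_right))
  have := LinearMap.finrank_range_add_finrank_ker
    (U.mkQ.domRestrict (span F (v '' (E ∪ S : Finset ι))))
  rw [LinearMap.range_domRestrict, LinearMap.ker_domRestrict, ker_mkQ,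
    (comapSubtypeEquivOfLe hle).finrank_eq] at this
  rw [rk, rk, rk, span_con, ← this, coe_union, Set.image_union, span_union, Submodule.map_sup,
    ← hU, mkQ_map_self, sup_bot_eq]

theorem DD.con {c : ℕ} (h : DD F v c) (S₀ : Finset ι) : DD F (con F v S₀) c := by
  intro C S u r h1 h2 h3
  have a1 := rk_con (F := F) (v := v) C S₀
  have a2 := rk_con (F := F) (v := v) (C ∪ S) S₀
  obtain ⟨φ, b1, b2, b3⟩ := h (C ∪ S₀) S u r h1 h2 (by rw [union_right_comm]; omega)
  have b4 : span F (v '' S₀) ≤ LinearMap.ker φ := span_le.2 (by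
    rintro _ ⟨e, he, rfl⟩
    exact b1 e (mem_union_right _ he))
  exact ⟨(span F (v '' S₀)).liftQ φ b4, fun e he => b1 e (mem_union_left _ he), b2, b3⟩

omit [FiniteDimensional F V] in
theorem Shat.mono {𝓕 : Finset (ι → F)} {T T' : Finset ι} (h : Shat 𝓕 T) (hT : T' ⊆ T) :
    Shat 𝓕 T' := by
  obtain ⟨f, g, h1, h2⟩ := h
  exact ⟨f, g, fun t ht => h1 t (hT ht), fun A hA =>
    let ⟨y, a1, a2⟩ := h2 A (hA.trans hT)
    ⟨y, a1, fun t ht => a2 t (hT ht)⟩⟩

omit [FiniteDimensional F V] in
theorem mem_words [Fintype F] {k : ℕ} :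
    y ∈ words F v E k ↔ On E y ∧ ev F v y = 0 ∧ #(supp y) ≤ k := by simp [words]

end Pool.Agent.P.MP_c2d640_lc

set_option autoImplicit false

/-! Expectations over random subsets: every entry of a list is selected independently with
probability `1 - κ`. -/

namespace Pool.Agent.P.MP_c2d640_lc

open Finset

variable {α : Type} [DecidableEq α]

/-- The expectation of `f D`, where each entry of the list is put into `D` with probability
`1 - κ`, independently. -/
noncomputable def ex (κ : ℝ) : List α → (Finset α → ℝ) → ℝ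
  | [], f => f ∅
  | e :: l, f => κ * ex κ l f + (1 - κ) * ex κ l fun D => f (insert e D)

theorem ex_realize : True := by
  have := @ex.eq_def
  trivial

variable {κ : ℝ}

@[simp] theorem ex_nil (f : Finset α → ℝ) : ex κ [] f = f ∅ := rfl

theorem ex_cons (e : α) (l : List α) (f : Finset α → ℝ) :
    ex κ (e :: l) f = κ * ex κ l f + (1 - κ) * ex κ l fun D => f (insert e D) := rfl

theorem ex_mono (h0 : 0 ≤ κ) (h1 : κ ≤ 1) (l : List α) : ∀ {f g : Finset α → ℝ},
    (∀ D ⊆ l.toFinset, f D ≤ g D) → ex κ l f ≤ ex κ l g := by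
  induction l with
  | nil => exact fun h => h ∅ (empty_subset _)
  | cons e l ih =>
    intro f g h
    rw [List.toFinset_cons] at h
    exact add_le_add
      (mul_le_mul_of_nonneg_left (ih fun D hD => h D (hD.trans (subset_insert _ _))) h0)
      (mul_le_mul_of_nonneg_left (ih fun D hD => h _ (insert_subset_insert _ hD))
        (sub_nonneg.2 h1))

theorem ex_congr (l : List α) : ∀ {f g : Finset α → ℝ},
    (∀ D ⊆ l.toFinset, f D = g D) → ex κ l f = ex κ l g := by
  induction l with
  | nil => exact fun h => h ∅ (empty_subset _)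
  | cons e l ih =>
    intro f g h
    rw [List.toFinset_cons] at h
    rw [ex_cons, ex_cons, ih fun D hD => h D (hD.trans (subset_insert _ _)),
      ih (f := fun D => f (insert e D)) fun D hD => h _ (insert_subset_insert _ hD)]

@[simp] theorem ex_const (l : List α) (a : ℝ) : ex κ l (fun _ => a) = a := by
  induction l with
  | nil => rfl
  | cons e l ih => rw [ex_cons, ih]; ring

theorem ex_add (l : List α) : ∀ f g : Finset α → ℝ,
    ex κ l (fun D => f D + g D) = ex κ l f + ex κ l g := by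
  induction l with
  | nil => exact fun _ _ => rfl
  | cons e l ih => intro f g; simp only [ex_cons, ih]; ring

theorem ex_sub (l : List α) : ∀ f g : Finset α → ℝ,
    ex κ l (fun D => f D - g D) = ex κ l f - ex κ l g := by
  induction l with
  | nil => exact fun _ _ => rfl
  | cons e l ih => intro f g; simp only [ex_cons, ih]; ring

theorem ex_const_mul (l : List α) (a : ℝ) : ∀ f : Finset α → ℝ,
    ex κ l (fun D => a * f D) = a * ex κ l f := by
  induction l with
  | nil => exact fun _ => rfl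
  | cons e l ih => intro f; simp only [ex_cons, ih]; ring

theorem ex_sum {β : Type*} (l : List α) (s : Finset β) (f : β → Finset α → ℝ) :
    ex κ l (fun D => ∑ b ∈ s, f b D) = ∑ b ∈ s, ex κ l (f b) := by
  classical
  induction s using Finset.induction_on with
  | empty => simp
  | insert b s hb ih => simp only [sum_insert hb, ex_add, ih]

theorem ex_nonneg (h0 : 0 ≤ κ) (h1 : κ ≤ 1) (l : List α) {f : Finset α → ℝ}
    (h : ∀ D, 0 ≤ f D) : 0 ≤ ex κ l f := by
  simpa using ex_mono h0 h1 l (f := fun _ => 0) fun D _ => h D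

/-- The probability of avoiding `Y`. -/
theorem ex_avoid (l : List α) (Y : Finset α) :
    ex κ l (fun D => if Disjoint D Y then 1 else 0) = κ ^ l.countP (· ∈ Y) := by
  induction l with
  | nil => simp
  | cons e l ih =>
    rw [ex_cons, ih]
    by_cases h : e ∈ Y
    · simp [h, pow_succ, mul_comm]
    · simp only [disjoint_insert_left, h, not_false_eq_true, true_and, ih, List.countP_cons,
        decide_false]
      simp
      ring

theorem countP_toList (s Y : Finset α) : s.toList.countP (· ∈ Y) = #(s ∩ Y) := by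
  rw [← filter_mem_eq_inter, List.countP_eq_length_filter,
    ← List.toFinset_card_of_nodup (s.nodup_toList.filter _)]
  congr 1
  ext
  simp

/-- The probability of avoiding `Y`, for a random subset of `s`. -/
theorem ex_avoid_toList (s Y : Finset α) :
    ex κ s.toList (fun D => if Disjoint D Y then 1 else 0) = κ ^ #(s ∩ Y) := by
  rw [ex_avoid, countP_toList]

theorem ex_append (l₁ l₂ : List α) : ∀ f : Finset α → ℝ,
    ex κ (l₁ ++ l₂) f = ex κ l₁ fun D₁ => ex κ l₂ fun D₂ => f (D₁ ∪ D₂) := by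
  induction l₁ with
  | nil => simp
  | cons e l ih => intro f; simp only [List.cons_append, ex_cons, ih, insert_union]

theorem exists_le_ex (h0 : 0 ≤ κ) (h1 : κ ≤ 1) (l : List α) (f : Finset α → ℝ) :
    ∃ D ⊆ l.toFinset, f D ≤ ex κ l f := by
  obtain ⟨D, a1, a2⟩ := exists_min_image l.toFinset.powerset f ⟨∅, by simp⟩
  refine ⟨D, mem_powerset.1 a1, ?_⟩
  simpa using ex_mono h0 h1 l (f := fun _ => f D) fun D' h => a2 D' (mem_powerset.2 h)

theorem ex_card_le (h0 : 0 ≤ κ) (h1 : κ ≤ 1) (l : List α) :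
    ex κ l (fun D => (#D : ℝ)) ≤ (1 - κ) * l.length := by
  induction l with
  | nil => simp
  | cons e l ih =>
    have : ex κ l (fun D => (#(insert e D) : ℝ)) ≤ ex κ l (fun D => (#D : ℝ) + 1) :=
      ex_mono h0 h1 l fun D _ => by exact_mod_cast card_insert_le e D
    rw [ex_add, ex_const] at this
    rw [ex_cons, List.length_cons]
    push_cast
    nlinarith

end Pool.Agent.P.MP_c2d640_lc

set_option autoImplicit false
set_option linter.unusedSectionVars false

/-! Natarajan's lemma, small biased families, information sets. -/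

namespace Pool.Agent.P.MP_c2d640_lc

open Finset Submodule
open scoped Classical

variable {F V ι : Type} [Field F] [AddCommGroup V] [Module F V] [Fintype ι] [DecidableEq ι]

theorem shat_proj_nt {𝓕 : Finset (ι → F)} {x : ι} {T : Finset ι} (hx : x ∉ T)
    (h : Shat (𝓕.image fun y => Function.update y x 0) T) : Shat 𝓕 T := by
  obtain ⟨f, g, h1, h2⟩ := h
  refine ⟨f, g, h1, fun A hA => ?_⟩
  obtain ⟨z, hz, h3⟩ := h2 A hA
  obtain ⟨y, hy, rfl⟩ := mem_image.1 hz
  refine ⟨y, hy, fun t ht => ?_⟩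
  have hne : t ≠ x := fun h => hx (h ▸ ht)
  rw [← h3 t ht, Function.update_of_ne hne]

theorem shat_ins_nt {𝓕 𝓖 : Finset (ι → F)} {x : ι} {T : Finset ι} (hx : x ∉ T) {a b : F}
    (hab : a ≠ b) (hG : ∀ z ∈ 𝓖, Function.update z x a ∈ 𝓕 ∧ Function.update z x b ∈ 𝓕)
    (h : Shat 𝓖 T) : Shat 𝓕 (insert x T) := by
  obtain ⟨f, g, h1, h2⟩ := h
  refine ⟨Function.update f x a, Function.update g x b, fun t ht => ?_, fun A hA => ?_⟩
  · rcases mem_insert.1 ht with rfl | ht
    · simpa using hab
    · have hne : t ≠ x := fun h => hx (h ▸ ht)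
      rw [Function.update_of_ne hne, Function.update_of_ne hne]
      exact h1 t ht
  · obtain ⟨z, hz, h3⟩ := h2 (A.erase x) (by
      intro t ht
      rcases mem_insert.1 (hA (mem_of_mem_erase ht)) with h | h
      · exact absurd h (ne_of_mem_erase ht)
      · exact h)
    refine ⟨Function.update z x (if x ∈ A then a else b), ?_, fun t ht => ?_⟩
    · split_ifs
      · exact (hG z hz).1
      · exact (hG z hz).2
    · rcases mem_insert.1 ht with rfl | ht
      · simp
      · have hne : t ≠ x := fun h => hx (h ▸ ht)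
        rw [Function.update_of_ne hne, Function.update_of_ne hne, Function.update_of_ne hne,
          h3 t ht]
        simp [hne]

theorem split_nt [Fintype F] (𝓕 : Finset (ι → F)) (x : ι) :
    #𝓕 ≤ #(𝓕.image fun y => Function.update y x 0) + ∑ p ∈ (univ : Finset F).offDiag,
      #((𝓕.image fun y => Function.update y x 0).filter
        fun z => Function.update z x p.1 ∈ 𝓕 ∧ Function.update z x p.2 ∈ 𝓕) := by
  set 𝓖 := 𝓕.image fun y => Function.update y x (0 : F) with hG
  have hex : ∀ z : ι → F, ∃ a : F, z ∈ 𝓖 → Function.update z x a ∈ 𝓕 := fun z => by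
    by_cases hz : z ∈ 𝓖
    · obtain ⟨y, hy, rfl⟩ := mem_image.1 hz
      exact ⟨y x, fun _ => by simpa using hy⟩
    · exact ⟨0, fun h => absurd h hz⟩
  choose σ hσ using hex
  have hsub : 𝓕 ⊆ (𝓖.image fun z => Function.update z x (σ z)) ∪
      (univ : Finset F).offDiag.biUnion fun p =>
        (𝓖.filter fun z => Function.update z x p.1 ∈ 𝓕 ∧ Function.update z x p.2 ∈ 𝓕).image
          fun z => Function.update z x p.1 := by
    intro y hy
    have hz : Function.update y x 0 ∈ 𝓖 := mem_image_of_mem _ hy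
    have he : Function.update (Function.update y x 0) x (y x) = y := by simp
    by_cases h : y x = σ (Function.update y x 0)
    · exact mem_union_left _ (mem_image.2 ⟨_, hz, by rw [← h, he]⟩)
    · refine mem_union_right _ (mem_biUnion.2 ⟨(y x, σ (Function.update y x 0)),
        mem_offDiag.2 ⟨mem_univ _, mem_univ _, h⟩, mem_image.2 ⟨_, mem_filter.2 ⟨hz, ?_, hσ _ hz⟩,
          he⟩⟩)
      rw [he]
      exact hy
  refine (card_le_card hsub).trans ((card_union_le _ _).trans (add_le_add card_image_le ?_))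
  exact card_biUnion_le.trans (sum_le_sum fun p _ => card_image_le)

theorem natarajan_aux_nt [Fintype F] (I : Finset ι) : ∀ (𝓕 : Finset (ι → F)) (N : ℕ),
    (∀ y ∈ 𝓕, On I y) → (∀ T ⊆ I, Shat 𝓕 T → #T ≤ N) →
      #𝓕 ≤ (1 + #I * Fintype.card F ^ 2) ^ N := by
  induction I using Finset.induction_on with
  | empty =>
    intro 𝓕 N h1 _
    have : 𝓕 ⊆ {0} := fun y hy => mem_singleton.2 (funext fun e => h1 y hy e (notMem_empty e))
    simpa using card_le_card this
  | insert x I hx ih =>
    intro 𝓕 N h1 h2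
    set 𝓖 := 𝓕.image fun y => Function.update y x (0 : F) with hG
    have hon : ∀ z ∈ 𝓖, On I z := fun z hz e he => by
      obtain ⟨y, hy, rfl⟩ := mem_image.1 hz
      by_cases h : e = x
      · simp [h]
      · rw [Function.update_of_ne h]
        exact h1 y hy e (by simp [h, he])
    have h0 := ih 𝓖 N hon fun T hT h =>
      h2 T (hT.trans (subset_insert _ _)) (shat_proj_nt (fun h' => hx (hT h')) h)
    have hs := split_nt 𝓕 x
    have hins : ∀ p ∈ (univ : Finset F).offDiag, ∀ T ⊆ I,
        Shat (𝓖.filter fun z => Function.update z x p.1 ∈ 𝓕 ∧ Function.update z x p.2 ∈ 𝓕) T →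
          #T + 1 ≤ N := fun p hp T hT h => by
      have hxT : x ∉ T := fun h' => hx (hT h')
      have := h2 (insert x T) (insert_subset_insert _ hT)
        (shat_ins_nt hxT (mem_offDiag.1 hp).2.2 (fun z hz => (mem_filter.1 hz).2) h)
      rwa [card_insert_of_notMem hxT] at this
    rw [card_insert_of_notMem hx]
    rcases N with _ | N
    · have he : ∀ p ∈ (univ : Finset F).offDiag,
          #(𝓖.filter fun z => Function.update z x p.1 ∈ 𝓕 ∧ Function.update z x p.2 ∈ 𝓕) = 0 :=
        fun p hp => by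
          by_contra hc
          obtain ⟨z, hz⟩ := card_pos.1 (Nat.pos_of_ne_zero hc)
          have := hins p hp ∅ (empty_subset _)
            ⟨0, 0, by simp, fun A _ => ⟨z, hz, by simp⟩⟩
          omega
      rw [sum_eq_zero he] at hs
      simpa using hs.trans (by simpa using h0)
    · have hb : ∀ p ∈ (univ : Finset F).offDiag,
          #(𝓖.filter fun z => Function.update z x p.1 ∈ 𝓕 ∧ Function.update z x p.2 ∈ 𝓕) ≤
            (1 + #I * Fintype.card F ^ 2) ^ N := fun p hp =>
        ih _ N (fun z hz => hon z (mem_filter.1 hz).1) fun T hT h => by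
          have := hins p hp T hT h
          omega
      have hsum := sum_le_card_nsmul _ _ _ hb
      have hc : #((univ : Finset F).offDiag) ≤ Fintype.card F ^ 2 := by
        rw [offDiag_card, card_univ, sq]
        omega
      rw [smul_eq_mul] at hsum
      set A := 1 + #I * Fintype.card F ^ 2 with hA
      set c := Fintype.card F ^ 2 with hc'
      have e1 : 1 + (#I + 1) * c = A + c := by rw [hA]; ring
      rw [e1, pow_succ]
      calc #𝓕 ≤ A ^ (N + 1) + c * A ^ N :=
            hs.trans (add_le_add h0 (hsum.trans (Nat.mul_le_mul_right _ hc)))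
        _ = A ^ N * (A + c) := by ring
        _ ≤ (A + c) ^ N * (A + c) :=
            Nat.mul_le_mul_right _ (Nat.pow_le_pow_left (Nat.le_add_right _ _) _)

theorem natarajan [Fintype F] (𝓕 : Finset (ι → F)) (N : ℕ) (h : ∀ T, Shat 𝓕 T → #T ≤ N) :
    #𝓕 ≤ (1 + Fintype.card ι * Fintype.card F ^ 2) ^ N := by
  simpa using natarajan_aux_nt univ 𝓕 N (fun y _ e he => absurd (mem_univ e) he) fun T _ => h T

theorem half_nt (x : ι → F) (l : List ι) (hl : l.Nodup) : ∀ c : F, (∃ t ∈ l, x t ≠ 0) →
    ex (1 / 2) l (fun D => if c + ∑ t ∈ D, x t = 0 then 1 else 0) ≤ 1 / 2 := by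
  induction l with
  | nil => simp
  | cons e l ih =>
    intro c h
    rw [List.nodup_cons] at hl
    have e1 : ex (1 / 2) l (fun D => if c + ∑ t ∈ insert e D, x t = 0 then (1 : ℝ) else 0) =
        ex (1 / 2) l (fun D => if (c + x e) + ∑ t ∈ D, x t = 0 then (1 : ℝ) else 0) :=
      ex_congr l fun D hD => by
        rw [sum_insert fun h' => hl.1 (List.mem_toFinset.1 (hD h')), add_assoc]
    rw [ex_cons, e1]
    by_cases he : x e = 0
    · have h' : ∃ t ∈ l, x t ≠ 0 := by
        obtain ⟨t, ht, h1⟩ := h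
        rcases List.mem_cons.1 ht with rfl | ht
        · exact absurd he h1
        · exact ⟨t, ht, h1⟩
      have a1 := ih hl.2 c h'
      have a2 := ih hl.2 (c + x e) h'
      linarith
    · have a1 := ex_mono (κ := 1 / 2) (by norm_num) (by norm_num) l
        (f := fun D => (if c + ∑ t ∈ D, x t = 0 then (1 : ℝ) else 0) +
          (if (c + x e) + ∑ t ∈ D, x t = 0 then (1 : ℝ) else 0)) (g := fun _ => 1) fun D _ => by
          by_cases h1 : c + ∑ t ∈ D, x t = 0
          · have h2 : ¬ (c + x e) + ∑ t ∈ D, x t = 0 := fun h2 => he (by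
              linear_combination h2 - h1)
            simp [h1, h2]
          · by_cases h2 : (c + x e) + ∑ t ∈ D, x t = 0 <;> simp [h1, h2]
      rw [ex_add, ex_const] at a1
      linarith

theorem weights_nt (T : Finset ι) (Φ : Finset (ι → F)) (hΦ : ∀ x ∈ Φ, ∃ t ∈ T, x t ≠ 0) (s : ℕ) :
    ∃ A : Fin s → Finset ι, (∀ j, A j ⊆ T) ∧
      ∑ x ∈ Φ, ∏ j, (if ∑ t ∈ A j, x t = 0 then (1 : ℝ) else 1 / 2) ≤ #Φ * (3 / 4) ^ s := by
  induction s with
  | zero => exact ⟨fun j => ∅, fun j => empty_subset _, by simp⟩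
  | succ s ih =>
    obtain ⟨A, h1, h2⟩ := ih
    set w : (ι → F) → ℝ := fun x => ∏ j, (if ∑ t ∈ A j, x t = 0 then (1 : ℝ) else 1 / 2) with hw
    have hw0 : ∀ x, 0 ≤ w x := fun x => prod_nonneg fun j _ => by split_ifs <;> norm_num
    obtain ⟨D, hD, h3⟩ := exists_le_ex (κ := 1 / 2) (by norm_num) (by norm_num) T.toList
      fun D => ∑ x ∈ Φ, w x * (if ∑ t ∈ D, x t = 0 then (1 : ℝ) else 1 / 2)
    rw [toList_toFinset] at hD
    rw [ex_sum] at h3
    have h4 : ∀ x ∈ Φ, ex (1 / 2) T.toList
        (fun D => w x * (if ∑ t ∈ D, x t = 0 then (1 : ℝ) else 1 / 2)) ≤ w x * (3 / 4) :=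
      fun x hx => by
        rw [ex_const_mul]
        refine mul_le_mul_of_nonneg_left ?_ (hw0 x)
        have a1 := half_nt x T.toList T.nodup_toList 0 (by simpa using hΦ x hx)
        have a2 : ex (1 / 2) T.toList (fun D => if ∑ t ∈ D, x t = 0 then (1 : ℝ) else 1 / 2) =
            ex (1 / 2) T.toList (fun D => 1 / 2 +
              1 / 2 * (if 0 + ∑ t ∈ D, x t = 0 then (1 : ℝ) else 0)) :=
          ex_congr _ fun D _ => by
            rw [zero_add]
            split_ifs <;> norm_num
        rw [a2, ex_add, ex_const, ex_const_mul]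
        linarith
    refine ⟨Fin.cons D A, fun j => Fin.cases hD h1 j, ?_⟩
    have h5 := h3.trans (sum_le_sum h4)
    rw [← sum_mul] at h5
    calc _ = ∑ x ∈ Φ, w x * (if ∑ t ∈ D, x t = 0 then (1 : ℝ) else 1 / 2) :=
          sum_congr rfl fun x _ => by
            rw [Fin.prod_univ_succ, mul_comm]
            rfl
      _ ≤ (∑ x ∈ Φ, w x) * (3 / 4) := h5
      _ ≤ #Φ * (3 / 4) ^ s * (3 / 4) := mul_le_mul_of_nonneg_right h2 (by norm_num)
      _ = _ := by ring

theorem biased [Fintype F] (T : Finset ι) (s : ℕ) (hs : 8 * #T * Fintype.card F ≤ s) :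
    ∃ A : Fin s → Finset ι, (∀ j, A j ⊆ T) ∧ ∀ x : ι → F, (∃ t ∈ T, x t ≠ 0) →
      s ≤ 4 * #(univ.filter fun j => ∑ t ∈ A j, x t ≠ 0) := by
  set Φ : Finset (ι → F) := (Fintype.piFinset fun e => if e ∈ T then univ else {0}).filter
    fun x => ∃ t ∈ T, x t ≠ 0 with hΦ
  obtain ⟨A, h1, h2⟩ := weights_nt T Φ (fun x hx => (mem_filter.1 hx).2) s
  refine ⟨A, h1, fun x hx => ?_⟩
  have hc : #Φ ≤ Fintype.card F ^ #T := by
    refine (card_filter_le _ _).trans ?_
    rw [Fintype.card_piFinset]
    simp [apply_ite card]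
  set x' : ι → F := fun e => if e ∈ T then x e else 0 with hx'
  have hm : x' ∈ Φ := by
    refine mem_filter.2 ⟨Fintype.mem_piFinset.2 fun e => ?_, ?_⟩
    · by_cases h : e ∈ T <;> simp [hx', h]
    · obtain ⟨t, ht, h⟩ := hx
      exact ⟨t, ht, by simpa [hx', ht] using h⟩
  have h3 := (single_le_sum (f := fun x : ι → F =>
    ∏ j, (if ∑ t ∈ A j, x t = 0 then (1 : ℝ) else 1 / 2))
    (fun x _ => prod_nonneg fun j _ => by split_ifs <;> norm_num) hm).trans h2
  have h4 : ∀ j, ∑ t ∈ A j, x' t = ∑ t ∈ A j, x t := fun j =>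
    sum_congr rfl fun t ht => by simp [hx', h1 j ht]
  simp only [h4] at h3
  rw [prod_ite, prod_const_one, one_mul, prod_const] at h3
  set k := #(univ.filter fun j => ∑ t ∈ A j, x t ≠ 0) with hk
  by_contra hlt
  have hlt : 4 * k ≤ s := by omega
  have hT : 1 ≤ #T := card_pos.2 (let ⟨t, ht, _⟩ := hx; ⟨t, ht⟩)
  have hq : 1 ≤ Fintype.card F := Fintype.card_pos
  set q := Fintype.card F with hq'
  have h5 : (1 / 2 : ℝ) ^ k ≤ (2 ^ q) ^ #T * (3 / 4) ^ s := by
    refine h3.trans (mul_le_mul_of_nonneg_right ?_ (by positivity))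
    have : #Φ ≤ (2 ^ q) ^ #T := hc.trans (Nat.pow_le_pow_left Nat.lt_two_pow_self.le _)
    exact_mod_cast this
  have h6 : (1 / 2 : ℝ) ^ s ≤ ((2 ^ q) ^ #T * (3 / 4) ^ s) ^ 4 := by
    calc (1 / 2 : ℝ) ^ s ≤ (1 / 2) ^ (4 * k) := pow_le_pow_of_le_one (by norm_num) (by norm_num) hlt
      _ = ((1 / 2) ^ k) ^ 4 := by rw [← pow_mul, mul_comm]
      _ ≤ _ := pow_le_pow_left₀ (by positivity) h5 4
  have h7 : ((2 ^ q) ^ #T * (3 / 4 : ℝ) ^ s) ^ 4 =
      2 ^ (4 * #T * q) * (81 / 128) ^ s * (1 / 2) ^ s := by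
    have b1 : (((2 : ℝ) ^ q) ^ #T) ^ 4 = 2 ^ (4 * #T * q) := by
      rw [← pow_mul, ← pow_mul]
      congr 1
      ring
    have b2 : ((3 / 4 : ℝ) ^ s) ^ 4 = (81 / 128) ^ s * (1 / 2) ^ s := by
      rw [← pow_mul, mul_comm s 4, pow_mul, ← mul_pow]
      norm_num
    rw [mul_pow, b1, b2, ← mul_assoc]
  rw [h7] at h6
  have h8 : (1 : ℝ) ≤ 2 ^ (4 * #T * q) * (81 / 128) ^ s :=
    le_of_mul_le_mul_right (by rwa [one_mul]) (by positivity : (0 : ℝ) < (1 / 2) ^ s)
  have h9 : (81 / 128 : ℝ) ^ s ≤ ((81 / 128) ^ 2) ^ (4 * #T * q) := by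
    rw [← pow_mul]
    exact pow_le_pow_of_le_one (by norm_num) (by norm_num) (by
      calc 2 * (4 * #T * q) = 8 * #T * q := by ring
        _ ≤ s := hs)
  have h10 : (2 : ℝ) ^ (4 * #T * q) * ((81 / 128) ^ 2) ^ (4 * #T * q) < 1 := by
    rw [← mul_pow]
    exact pow_lt_one₀ (by norm_num) (by norm_num) (by positivity)
  have h11 := mul_le_mul_of_nonneg_left h9 (by positivity : (0 : ℝ) ≤ 2 ^ (4 * #T * q))
  linarith

theorem info_set (G : Submodule F (ι → F)) : ∃ I : Finset ι,
    (∀ y : ι → F, ∃ g ∈ G, ∀ e ∈ I, g e = y e) ∧ ∀ g ∈ G, (∀ e ∈ I, g e = 0) → g = 0 := by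
  obtain ⟨I, hI, hmax⟩ := exists_max_image
    (univ.filter fun I : Finset ι => ∀ y : ι → F, ∃ g ∈ G, ∀ e ∈ I, g e = y e) card
    ⟨∅, mem_filter.2 ⟨mem_univ _, fun _ => ⟨0, G.zero_mem, by simp⟩⟩⟩
  have hI := (mem_filter.1 hI).2
  refine ⟨I, hI, fun g hg h0 => ?_⟩
  by_contra hne
  obtain ⟨e, he⟩ := Function.ne_iff.1 hne
  have he : g e ≠ 0 := he
  have heI : e ∉ I := fun h => he (h0 e h)
  have := hmax (insert e I) (mem_filter.2 ⟨mem_univ _, fun y => ?_⟩)
  · rw [card_insert_of_notMem heI] at this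
    omega
  · obtain ⟨g0, hg0, h1⟩ := hI y
    refine ⟨g0 + ((y e - g0 e) / g e) • g, G.add_mem hg0 (G.smul_mem _ hg), fun t ht => ?_⟩
    rcases mem_insert.1 ht with rfl | ht
    · simp [div_mul_cancel₀ _ he]
    · simp [h0 t ht, h1 t ht]

end Pool.Agent.P.MP_c2d640_lc

set_option autoImplicit false

/-! General minors, and graphic minors from complete bipartite configurations. -/

namespace Pool.Agent.P.MP_c2d640_lc

open Finset Submodule
open scoped Classical

variable {F : Type} [Field F] {m n : ℕ}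

theorem MinorClosed.minor {𝓜 : (n : ℕ) → Set (Submodule F (Fin n → F))} (hM : MinorClosed 𝓜)
    {k : ℕ} (n : ℕ) : ∀ (V : Submodule F (Fin n → F)) (g : Fin k → Fin n) (C : Set (Fin n))
    (W : Submodule F (Fin k → F)), V ∈ 𝓜 n → Function.Injective g → (∀ e, g e ∉ C) →
    (∀ w, w ∈ W ↔ ∃ x ∈ V, (∀ e ∈ C, x e = 0) ∧ w = x ∘ g) → W ∈ 𝓜 k := by
  have surj : ∀ (n : ℕ) (V : Submodule F (Fin n → F)) (g : Fin k → Fin n) (C : Set (Fin n))
      (W : Submodule F (Fin k → F)), V ∈ 𝓜 n → Function.Bijective g → (∀ e, g e ∉ C) →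
      (∀ w, w ∈ W ↔ ∃ x ∈ V, (∀ e ∈ C, x e = 0) ∧ w = x ∘ g) → W ∈ 𝓜 k := by
    intro n V g C W hV hg hC hW
    obtain rfl : k = n := by simpa using Fintype.card_of_bijective hg
    convert hM.2.2 _ V (Equiv.ofBijective g hg) hV
    ext w
    rw [hW, relabel, Submodule.mem_map]
    constructor
    · rintro ⟨x, h1, -, rfl⟩
      exact ⟨x, h1, rfl⟩
    · rintro ⟨x, h1, rfl⟩
      refine ⟨x, h1, fun e he => ?_, rfl⟩
      obtain ⟨e', rfl⟩ := hg.2 e
      exact (hC e' he).elim
  induction n with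
  | zero =>
    intro V g C W hV hg hC hW
    exact surj 0 V g C W hV ⟨hg, fun e => e.elim0⟩ hC hW
  | succ n ih =>
    intro V g C W hV hg hC hW
    by_cases hs : Function.Surjective g
    · exact surj _ V g C W hV ⟨hg, hs⟩ hC hW
    obtain ⟨e, he⟩ : ∃ e, ∀ i, g i ≠ e := by simpa [Function.Surjective] using hs
    choose g' hg' using fun i => Fin.exists_succAbove_eq (he i)
    have hg'' : g = e.succAbove ∘ g' := funext fun i => (hg' i).symm
    have hinj : Function.Injective g' := Function.Injective.of_comp (hg'' ▸ hg)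
    have hC' : ∀ i, g' i ∉ e.succAbove ⁻¹' C := fun i h => hC i (by rw [← hg' i]; exact h)
    by_cases heC : e ∈ C
    · refine ih _ g' (e.succAbove ⁻¹' C) W (hM.2.1 n V e hV) hinj hC' fun w => ?_
      rw [hW]
      constructor
      · rintro ⟨x, h1, h2, rfl⟩
        exact ⟨x ∘ e.succAbove, ⟨x, ⟨h1, h2 e heC⟩, rfl⟩, fun i hi => h2 _ hi, by rw [hg'']; rfl⟩
      · rintro ⟨_, ⟨x, ⟨h1, h2⟩, rfl⟩, h3, rfl⟩
        refine ⟨x, h1, fun i hi => ?_, by rw [hg'']; rfl⟩
        rcases Fin.eq_self_or_eq_succAbove e i with rfl | ⟨j, rfl⟩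
        exacts [h2, h3 j hi]
    · refine ih _ g' (e.succAbove ⁻¹' C) W (hM.1 n V e hV) hinj hC' fun w => ?_
      rw [hW]
      constructor
      · rintro ⟨x, h1, h2, rfl⟩
        exact ⟨x ∘ e.succAbove, ⟨x, h1, rfl⟩, fun i hi => h2 _ hi, by rw [hg'']; rfl⟩
      · rintro ⟨_, ⟨x, h1, rfl⟩, h3, rfl⟩
        refine ⟨x, h1, fun i hi => ?_, by rw [hg'']; rfl⟩
        rcases Fin.eq_self_or_eq_succAbove e i with rfl | ⟨j, rfl⟩
        exacts [(heC hi).elim, h3 j hi]

theorem mem_rowSpace {A : Matrix (Fin m) (Fin n) F} {w : Fin n → F} :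
    w ∈ rowSpace A ↔ ∃ y : Fin m → F, ∀ e, w e = ∑ i, y i * A i e := by
  rw [rowSpace, mem_span_range_iff_exists_fun]
  refine exists_congr fun y => ⟨fun h e => ?_, fun h => funext fun e => ?_⟩
  · rw [← h]
    simp
  · rw [h]
    simp

theorem mem_rowSpace_dual {A : Matrix (Fin m) (Fin n) F} {w : Fin n → F} :
    w ∈ rowSpace A ↔ ∃ φ : Module.Dual F (Fin m → F), ∀ e, w e = φ (A.col e) := by
  rw [mem_rowSpace]
  constructor
  · rintro ⟨y, h⟩
    exact ⟨∑ i, y i • LinearMap.proj i, fun e => by simp [h]⟩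
  · rintro ⟨φ, h⟩
    refine ⟨fun i => φ fun j => if i = j then 1 else 0, fun e => ?_⟩
    rw [h, LinearMap.pi_apply_eq_sum_univ]
    simp [mul_comm]

end Pool.Agent.P.MP_c2d640_lc
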