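import Pool.Agent.P.MP_c2d640_lc.G1

set_option autoImplicit false
set_option linter.unusedSectionVars false

/-! Standard representations of the minors of a proper class have bounded Natarajan dimension,
for their columns and for their rows. -/

namespace Pool.Agent.P.MP_c2d640_lc

open Finset Submodule
open scoped Classical

variable {F V ι : Type} [Field F] [AddCommGroup V] [Module F V] [Fintype ι] [DecidableEq ι]

/-- The columns of a standard representation of a minor shatter at most `m` rows. -/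
def NS (F : Type) [Field F] [Module F V] (v : ι → V) (m : ℕ) : Prop :=
  ∀ (C B K : Finset ι) (ρ : ι → ι → F), LinearIndepOn F (con F v C) B → Disjoint K C →
    Disjoint K B → (∀ e ∈ K, On B (ρ e) ∧ ev F (con F v C) (ρ e) = con F v C e) →
    ∀ T, Shat (K.image ρ) T → #T ≤ m

/-- The subspace `W` is a minor of the configuration. -/
def HasMinor (F : Type) [Field F] [Module F V] (v : ι → V) {J : Type} (W : Set (J → F)) : Prop :=
  ∃ (g : J → ι) (C : Set ι), Function.Injective g ∧ (∀ j, g j ∉ C) ∧ ∀ w : J → F, w ∈ W ↔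
    ∃ φ : Module.Dual F V, (∀ e ∈ C, φ (v e) = 0) ∧ ∀ j, w j = φ (v (g j))

variable {v : ι → V}

theorem dual_span {φ : Module.Dual F V} {C : Set ι} (h : ∀ e ∈ C, φ (v e) = 0) {x : V}
    (hx : x ∈ span F (v '' C)) : φ x = 0 :=
  (span_le.2 (by rintro _ ⟨e, he, rfl⟩; exact h e he) : span F (v '' C) ≤ LinearMap.ker φ) hx

theorem exists_dual_con {C B : Finset ι} (h : LinearIndepOn F (con F v C) B) (a : ι → F) :
    ∃ φ : Module.Dual F V, (∀ e ∈ C, φ (v e) = 0) ∧ ∀ b ∈ B, φ (v b) = a b := by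
  obtain ⟨ψ, hψ⟩ := ((Module.Basis.span h).constr F fun b => a b).exists_extend
  refine ⟨ψ.comp (span F (v '' C)).mkQ, fun e he => ?_, fun b hb => ?_⟩
  · rw [LinearMap.comp_apply, mkQ_apply,
      (Submodule.Quotient.mk_eq_zero _).2 (subset_span (Set.mem_image_of_mem v he)), map_zero]
  · have := LinearMap.congr_fun hψ (Module.Basis.span h (⟨b, hb⟩ : (B : Set ι)))
    rw [Module.Basis.constr_basis, LinearMap.comp_apply, subtype_apply,
      Module.Basis.span_apply] at this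
    exact this

theorem dual_rho {C B : Finset ι} {e : ι} {y : ι → F} (h1 : On B y)
    (h2 : ev F (con F v C) y = con F v C e) {φ : Module.Dual F V} (h : ∀ e ∈ C, φ (v e) = 0) :
    φ (v e) = ∑ b ∈ B, y b * φ (v b) := by
  rw [ev_con, con, mkQ_apply, mkQ_apply, Submodule.Quotient.eq] at h2
  have := dual_span h h2
  rw [map_sub, sub_eq_zero, h1.ev_eq] at this
  simp [← this]

/-- A large shattered set gives all subset sums of independent vectors as a minor. -/
theorem cube_of_not_NS {Λ : Type} [Fintype Λ] [DecidableEq Λ] (h : ¬ NS F v (Fintype.card Λ)) :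
    ∃ (e : Finset Λ → ι) (C : Set ι), Function.Injective e ∧ (∀ A, A.Nonempty → e A ∉ C) ∧
      (∀ ψ : Λ → F, ∃ φ : Module.Dual F V, (∀ e ∈ C, φ (v e) = 0) ∧
        ∀ A, φ (v (e A)) = ∑ t ∈ A, ψ t) ∧
      ∀ φ : Module.Dual F V, (∀ e ∈ C, φ (v e) = 0) →
        ∃ ψ : Λ → F, ∀ A, φ (v (e A)) = ∑ t ∈ A, ψ t := by
  unfold NS at h
  push Not at h
  obtain ⟨C, B, K, ρ, h1, h2, h3, h4, T, ⟨f, g, h5, h6⟩, h7⟩ := h
  have : ∀ A : Finset ι, ∃ e, A ⊆ T →
      e ∈ K ∧ ∀ t ∈ T, ρ e t = if t ∈ A then f t else g t := fun A => by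
    by_cases hA : A ⊆ T
    · obtain ⟨_, a1, a2⟩ := h6 A hA
      obtain ⟨e, he, rfl⟩ := mem_image.1 a1
      exact ⟨e, fun _ => ⟨he, a2⟩⟩
    · obtain ⟨_, a1, -⟩ := h6 ∅ (empty_subset _)
      obtain ⟨e, -, -⟩ := mem_image.1 a1
      exact ⟨e, fun h => (hA h).elim⟩
  choose e he using this
  have hTB : T ⊆ B := fun t ht => by_contra fun hb => by
    have a1 := (he T Subset.rfl).2 t ht
    have a2 := (he ∅ (empty_subset _)).2 t ht
    rw [(h4 _ (he T Subset.rfl).1).1 t hb, if_pos ht] at a1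
    rw [(h4 _ (he ∅ (empty_subset _)).1).1 t hb, if_neg (notMem_empty t)] at a2
    exact h5 t ht (a1.symm.trans a2)
  obtain ⟨t₀, b1, b2⟩ : ∃ t₀ ∈ T, g t₀ = 0 → ∀ t ∈ T, g t = 0 := by
    by_cases hg : ∀ t ∈ T, g t = 0
    · obtain ⟨t, ht⟩ := card_pos.1 (lt_of_le_of_lt (Nat.zero_le _) h7)
      exact ⟨t, ht, fun _ => hg⟩
    · push Not at hg
      obtain ⟨t, a1, a2⟩ := hg
      exact ⟨t, a1, fun h => (a2 h).elim⟩
  obtain ⟨ε, hε⟩ := Function.Embedding.exists_of_card_le_finset (α := Λ) (s := T.erase t₀)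
    (by rw [card_erase_of_mem b1]; omega)
  have hε' : ∀ l, ε l ∈ T ∧ ε l ≠ t₀ := fun l =>
    (mem_erase.1 (mem_coe.1 (hε ⟨l, rfl⟩))).symm
  have hsub : ∀ A : Finset Λ, A.map ε ⊆ T := fun A t ht => by
    obtain ⟨l, -, rfl⟩ := Finset.mem_map.1 ht
    exact (hε' l).1
  have hinj : Function.Injective fun A : Finset Λ => e (A.map ε) := fun A A' hA => by
    ext l
    have a1 := (he _ (hsub A)).2 _ (hε' l).1
    have a2 := (he _ (hsub A')).2 _ (hε' l).1
    simp only at hA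
    rw [hA, a2] at a1
    simp only [mem_map'] at a1
    have := h5 _ (hε' l).1
    by_cases c1 : l ∈ A <;> by_cases c2 : l ∈ A' <;> simp_all
  have hval : ∀ φ : Module.Dual F V, (∀ e ∈ C, φ (v e) = 0) → (∀ b ∈ B \ T, φ (v b) = 0) →
      ∀ A : Finset Λ, φ (v (e (A.map ε))) =
        ∑ t ∈ T, g t * φ (v t) + ∑ l ∈ A, (f (ε l) - g (ε l)) * φ (v (ε l)) := by
    intro φ a1 a2 A
    obtain ⟨c1, c2⟩ := he _ (hsub A)
    rw [dual_rho (h4 _ c1).1 (h4 _ c1).2 a1, ← sum_sdiff hTB,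
      sum_eq_zero fun b hb => by rw [a2 b hb, mul_zero], zero_add,
      ← sum_map A ε fun t => (f t - g t) * φ (v t)]
    conv_rhs => rw [← inter_eq_right.2 (hsub A), ← sum_ite_mem, ← sum_add_distrib]
    refine sum_congr rfl fun t ht => ?_
    rw [c2 t ht]
    split_ifs <;> ring
  refine ⟨fun A => e (A.map ε), (C ∪ (B \ T) ∪ {e ∅} : Finset ι), hinj, fun A hA hc => ?_,
    fun ψ => ?_, fun φ hφ => ?_⟩
  · have a1 := (he _ (hsub A)).1
    simp only [mem_coe, mem_union, mem_sdiff, mem_singleton] at hc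
    rcases hc with (hc | hc) | hc
    · exact disjoint_left.1 h2 a1 hc
    · exact disjoint_left.1 h3 a1 hc.1
    · exact hA.ne_empty (hinj hc)
  · set a : ι → F := Function.extend ε (fun l => (f (ε l) - g (ε l))⁻¹ * ψ l) 0 with ha
    obtain ⟨φ, a1, a2⟩ := exists_dual_con h1 fun b => if b ∈ T then
      if b = t₀ then -(g t₀)⁻¹ * ∑ t ∈ T.erase t₀, g t * a t else a b else 0
    have a3 : ∀ b ∈ B \ T, φ (v b) = 0 := fun b hb => by
      rw [a2 b (mem_sdiff.1 hb).1, if_neg (mem_sdiff.1 hb).2]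
    have a4 : ∑ t ∈ T, g t * φ (v t) = 0 := by
      by_cases hg : g t₀ = 0
      · exact sum_eq_zero fun t ht => by rw [b2 hg t ht, zero_mul]
      · have : ∑ t ∈ T.erase t₀, g t * φ (v t) = ∑ t ∈ T.erase t₀, g t * a t :=
          sum_congr rfl fun t ht => by
            rw [a2 _ (hTB (mem_erase.1 ht).2), if_pos (mem_erase.1 ht).2,
              if_neg (mem_erase.1 ht).1]
        rw [← add_sum_erase _ _ b1, this, a2 _ (hTB b1), if_pos b1, if_pos rfl]
        field_simp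
        ring
    have a5 : ∀ A : Finset Λ, φ (v (e (A.map ε))) = ∑ t ∈ A, ψ t := fun A => by
      rw [hval φ a1 a3, a4, zero_add]
      refine sum_congr rfl fun l _ => ?_
      rw [a2 _ (hTB (hε' l).1), if_pos (hε' l).1, if_neg (hε' l).2, ha, ε.injective.extend_apply,
        mul_inv_cancel_left₀ (sub_ne_zero.2 (h5 _ (hε' l).1))]
    refine ⟨φ, fun x hx => ?_, a5⟩
    simp only [mem_coe, mem_union, mem_singleton] at hx
    rcases hx with (hx | hx) | rfl
    · exact a1 x hx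
    · exact a3 x hx
    · simpa using a5 ∅
  · have a1 := hval φ (fun x hx => hφ x (by simp [hx])) fun x hx => hφ x (by
      simp only [mem_coe, mem_union]; exact Or.inl (Or.inr hx))
    have a2 := a1 ∅
    rw [Finset.map_empty, hφ _ (by simp), sum_empty, add_zero] at a2
    exact ⟨_, fun A => by rw [a1, ← a2, zero_add]⟩

/-- Every matrix of natural numbers is a minor of a large cube. -/
theorem hasMinor_of_not_NS {I J : Type} [Fintype I] [Fintype J] (N : I → J → ℕ) : ∃ m,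
    ∀ {V ι : Type} [AddCommGroup V] [Module F V] [Fintype ι] [DecidableEq ι] (v : ι → V),
      ¬ NS F v m → HasMinor F v {w : J → F | ∃ y : I → F, ∀ j, w j = ∑ i, y i * N i j} := by
  obtain ⟨M, hM⟩ : ∃ M, ∀ i j, N i j ≤ M := ⟨∑ p : I × J, N p.1 p.2, fun i j =>
    single_le_sum (f := fun p : I × J => N p.1 p.2) (fun _ _ => Nat.zero_le _) (mem_univ (i, j))⟩
  refine ⟨Fintype.card ((I × Option (Fin M)) ⊕ J × Bool), fun {V ι} _ _ _ _ v h => ?_⟩
  obtain ⟨e, C, h1, h2, h3, h4⟩ := cube_of_not_NS h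
  let A : J → Finset ((I × Option (Fin M)) ⊕ J × Bool) := fun j =>
    (univ.filter fun p => ∃ l : Fin M, p.2 = some l ∧ l.val < N p.1 j).disjSum
      (univ.filter fun p => p.1 = j)
  have hA : ∀ (ψ : (I × Option (Fin M)) ⊕ J × Bool → F) (y : I → F),
      (∀ i l, ψ (.inl (i, some l)) = y i) → (∀ p, ψ (.inr p) = 0) →
      ∀ j, ∑ t ∈ A j, ψ t = ∑ i, y i * N i j := by
    intro ψ y a1 a2 j
    simp only [A, sum_disjSum, a2, sum_const_zero, add_zero, sum_filter, Fintype.sum_prod_type,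
      Fintype.sum_option]
    refine sum_congr rfl fun i _ => ?_
    simp [a1, ← sum_filter, Fin.card_filter_val_lt, hM i j, mul_comm]
  refine ⟨fun j => e (A j), C ∪ ((Set.range fun p : I × Fin M =>
    e {.inl (p.1, some p.2), .inl (p.1, none)}) ∪ Set.range fun p : J × Bool => e {.inr p}),
    fun j j' hj => ?_, fun j hj => ?_, fun w => ⟨?_, ?_⟩⟩
  · have : Sum.inr (j, true) ∈ A j := by simp [A]
    rw [h1 hj] at this
    simpa [A] using this
  · have a1 : Sum.inr (j, true) ∈ A j := by simp [A]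
    have a2 : Sum.inr (j, false) ∈ A j := by simp [A]
    rcases hj with hj | ⟨p, hj⟩ | ⟨p, hj⟩
    · exact h2 _ ⟨_, a1⟩ hj
    · rw [← h1 hj] at a1
      simp at a1
    · rw [← h1 hj, mem_singleton] at a1 a2
      simpa using a1.trans a2.symm
  · rintro ⟨y, hy⟩
    obtain ⟨φ, a1, a2⟩ := h3 (Sum.elim (fun p => if p.2 = none then -y p.1 else y p.1) 0)
    refine ⟨φ, ?_, fun j => by rw [a2, hA _ y (by simp) (by simp), hy]⟩
    rintro x (hx | ⟨p, rfl⟩ | ⟨p, rfl⟩)
    · exact a1 x hx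
    · rw [a2, sum_pair (by simp)]
      simp
    · simp [a2]
  · rintro ⟨φ, a1, a2⟩
    obtain ⟨ψ, a3⟩ := h4 φ fun x hx => a1 x (Or.inl hx)
    refine ⟨fun i => -ψ (.inl (i, none)), fun j => ?_⟩
    rw [a2, a3]
    refine hA _ _ (fun i l => ?_) (fun p => ?_) j
    · have := a1 _ (Or.inr (Or.inl ⟨(i, l), rfl⟩))
      rwa [a3, sum_pair (by simp), add_eq_zero_iff_eq_neg] at this
    · simpa [a3] using a1 _ (Or.inr (Or.inr ⟨p, rfl⟩))

/-- The row space of a configuration. -/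
def rowSp (F : Type) [Field F] [Module F V] (v : ι → V) : Submodule F (ι → F) :=
  LinearMap.range (LinearMap.pi fun e => Module.Dual.eval F V (v e))

theorem mem_rowSp {w : ι → F} : w ∈ rowSp F v ↔ ∃ φ : Module.Dual F V, ∀ e, w e = φ (v e) :=
  exists_congr fun _ => ⟨fun h e => (congrFun h e).symm, fun h => funext fun e => (h e).symm⟩

/-- The dual configuration. -/
noncomputable def dl (F : Type) [Field F] [Module F V] (v : ι → V) (e : ι) :
    (ι → F) ⧸ rowSp F v := (rowSp F v).mkQ (Pi.single e 1)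

theorem ev_dl (v : ι → V) (y : ι → F) : ev F (dl F v) y = (rowSp F v).mkQ y := by
  rw [ev_apply]
  simp only [dl, ← map_smul, ← map_sum]
  congr 1
  funext e
  simp [Pi.single_apply]

theorem ev_dl_mem {D : Finset ι} {y : ι → F} : ev F (dl F v) y ∈ span F (dl F v '' D) ↔
    ∃ φ : Module.Dual F V, ∀ e ∉ D, y e = φ (v e) := by
  rw [mem_span_iff_ev]
  constructor
  · rintro ⟨z, a1, a2⟩
    rw [ev_dl, ev_dl, mkQ_apply, mkQ_apply, eq_comm, Submodule.Quotient.eq, mem_rowSp] at a2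
    obtain ⟨φ, hφ⟩ := a2
    exact ⟨φ, fun e he => by rw [← hφ, Pi.sub_apply, a1 e he, sub_zero]⟩
  · rintro ⟨φ, a1⟩
    refine ⟨fun e => y e - φ (v e), fun e he => by simp [a1 e he], ?_⟩
    rw [ev_dl, ev_dl, mkQ_apply, mkQ_apply, eq_comm, Submodule.Quotient.eq, mem_rowSp]
    exact ⟨φ, fun e => by simp⟩

/-- The rows of a standard representation. -/
theorem NS.rows {m : ℕ} (h : NS F (dl F v) m) {C B K : Finset ι} {ρ : ι → ι → F}
    (h1 : LinearIndepOn F (con F v C) B) (h0 : Disjoint B C) (h2 : Disjoint K C)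
    (h3 : Disjoint K B) (h4 : ∀ e ∈ K, On B (ρ e) ∧ ev F (con F v C) (ρ e) = con F v C e)
    {T : Finset ι} (hT : Shat (B.image fun b e => if e ∈ K then -ρ e b else 0) T) : #T ≤ m := by
  refine h (C ∪ B ∪ K)ᶜ K B _ (indep_iff_ev.2 fun y a1 a2 => ?_)
    (disjoint_compl_right.mono_left (subset_union_right.trans subset_union_left)) h3.symm
    (fun b hb => ⟨fun e he => if_neg he, ?_⟩) T hT
  · obtain ⟨φ, hφ⟩ := ev_dl_mem.1 (ev_con_eq_zero.1 a2)
    funext e
    by_cases he : e ∈ K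
    · rw [hφ e (by simp [he]), dual_rho (h4 e he).1 (h4 e he).2 fun c hc => by
        rw [← hφ c (by simp [hc]), a1 c (disjoint_right.1 h2 hc)]]
      exact sum_eq_zero fun b hb => by
        rw [← hφ b (by simp [hb]), a1 b (disjoint_right.1 h3 hb), mul_zero]
    · exact a1 e he
  · obtain ⟨φ, a1, a2⟩ := exists_dual_con h1 (Pi.single b 1)
    rw [← one_smul F (con F (dl F v) _ b), ← ev_single, eq_comm, ← sub_eq_zero, ← map_sub,
      ev_con_eq_zero, ev_dl_mem]
    refine ⟨φ, fun e he => ?_⟩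
    rw [notMem_compl, mem_union, mem_union] at he
    rcases he with (he | he) | he
    · have : e ≠ b := fun h => disjoint_left.1 h0 hb (h ▸ he)
      simp [a1 e he, disjoint_right.1 h2 he, this]
    · simp [a2 e he, disjoint_right.1 h3 he]
    · have : e ≠ b := fun h => disjoint_left.1 h3 he (h ▸ hb)
      rw [dual_rho (h4 e he).1 (h4 e he).2 a1, sum_congr rfl fun c hc => by rw [a2 c hc]]
      simp [he, this, Pi.single_apply, hb]

/-- A minor of the dual configuration gives the orthogonal complement as a minor. -/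
theorem HasMinor.perp {J : Type} [Fintype J] {W : Set (J → F)} (h : HasMinor F (dl F v) W) :
    HasMinor F v {w | ∀ z ∈ W, ∑ j, w j * z j = 0} := by
  obtain ⟨g, C, h1, h2, h3⟩ := h
  refine ⟨g, (C ∪ Set.range g)ᶜ, h1, fun j hj => hj (Or.inr ⟨j, rfl⟩), fun w => ?_⟩
  set D : Finset ι := univ.filter (· ∈ C) with hD
  have hev : ev F (dl F v) (Function.extend g w 0) = ∑ j, w j • dl F v (g j) := by
    rw [ev_apply, ← sum_subset (subset_univ (univ.map ⟨g, h1⟩)), sum_map]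
    · exact sum_congr rfl fun e _ => by simp [h1.extend_apply]
    · intro e _ he
      rw [Function.extend_apply' _ _ _ (by simpa using he)]
      simp
  have a1 : (∀ z ∈ W, ∑ j, w j * z j = 0) ↔
      ev F (dl F v) (Function.extend g w 0) ∈ span F (dl F v '' D) := by
    rw [← Subspace.forall_mem_dualAnnihilator_apply_eq_zero_iff (span F (dl F v '' D)), hev]
    constructor
    · intro hw φ hφ
      simpa using hw _ ((h3 _).2 ⟨φ, fun e he => (mem_dualAnnihilator φ).1 hφ _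
        (subset_span ⟨e, by simpa [hD] using he, rfl⟩), fun _ => rfl⟩)
    · intro hw z hz
      obtain ⟨φ, b1, b2⟩ := (h3 z).1 hz
      simpa [b2] using hw φ ((mem_dualAnnihilator φ).2 fun x hx =>
        dual_span (fun e he => b1 e (by simpa [hD] using he)) hx)
  rw [Set.mem_ofPred_eq, a1, ev_dl_mem]
  refine exists_congr fun φ => ⟨fun hφ => ⟨fun e he => ?_, fun j => ?_⟩, fun hφ e he => ?_⟩
  · rw [Set.mem_compl_iff, Set.mem_union, not_or] at he
    rw [← hφ e (by simpa [hD] using he.1), Function.extend_apply' _ _ _ he.2]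
    rfl
  · rw [← hφ _ (by simpa [hD] using h2 j), h1.extend_apply]
  · by_cases h : ∃ a, g a = e
    · obtain ⟨a, rfl⟩ := h
      rw [h1.extend_apply, hφ.2]
    · rw [Function.extend_apply' _ _ _ h,
        hφ.1 e (by rintro (h' | h'); exacts [he (by simpa [hD] using h'), h h'])]
      rfl

theorem HasMinor.mem {m n k : ℕ} {𝓜 : (n : ℕ) → Set (Submodule F (Fin n → F))}
    (hM : MinorClosed 𝓜) {A : Matrix (Fin m) (Fin n) F} (hA : rowSpace A ∈ 𝓜 n) {J : Type}
    {W : Set (J → F)} (h : HasMinor F A.col W) (f : Fin k → J) (hf : Function.Injective f)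
    (U : Submodule F (Fin k → F)) (hU : ∀ u, u ∈ U ↔ ∃ w ∈ W, u = w ∘ f) : U ∈ 𝓜 k := by
  obtain ⟨g, C, h1, h2, h3⟩ := h
  refine hM.minor n (rowSpace A) (g ∘ f) C U hA (h1.comp hf) (fun e => h2 _) fun u => ?_
  rw [hU]
  constructor
  · rintro ⟨w, a1, rfl⟩
    obtain ⟨φ, a2, a3⟩ := (h3 w).1 a1
    exact ⟨fun e => φ (A.col e), mem_rowSpace_dual.2 ⟨φ, fun _ => rfl⟩, a2, funext fun e => a3 _⟩
  · rintro ⟨x, a1, a2, rfl⟩
    obtain ⟨φ, hφ⟩ := mem_rowSpace_dual.1 a1
    exact ⟨x ∘ g, (h3 _).2 ⟨φ, fun e he => by rw [← hφ, a2 e he], fun j => hφ _⟩, rfl⟩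

theorem exists_natCast_of_mem_bot [Finite F] {x : F} (hx : x ∈ (⊥ : Subfield F)) :
    ∃ k : ℕ, (k : F) = x := by
  obtain ⟨p, hp⟩ := CharP.exists F
  have : Fact p.Prime := ⟨CharP.char_is_prime F p⟩
  obtain ⟨n, rfl⟩ := (mem_bot_iff_intCast p F).1 hx
  have h0 : (0 : ℤ) ≤ n % p := Int.emod_nonneg _ (by exact_mod_cast this.out.ne_zero)
  refine ⟨(n % p).toNat, ?_⟩
  rw [← Int.cast_natCast, Int.toNat_of_nonneg h0, Int.emod_def]
  simp

theorem ns_of_class (F : Type) [Field F] [Finite F]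
    (𝓜 : (n : ℕ) → Set (Submodule F (Fin n → F))) (hM : MinorClosed 𝓜)
    (hP : ∃ (a b : ℕ) (P : Matrix (Fin a) (Fin b) F), (∀ i j, P i j ∈ (⊥ : Subfield F)) ∧
      rowSpace P ∉ 𝓜 b) :
    ∃ s₁ s₂, ∀ (m n : ℕ) (A : Matrix (Fin m) (Fin n) F), rowSpace A ∈ 𝓜 n →
      NS F A.col s₁ ∧ NS F (dl F A.col) s₂ := by
  obtain ⟨a, b, P, h1, h2⟩ := hP
  choose N hN using fun i j => exists_natCast_of_mem_bot (h1 i j)
  choose N' hN' using fun i j => exists_natCast_of_mem_bot (neg_mem (h1 i j))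
  obtain ⟨s₁, h3⟩ := hasMinor_of_not_NS (F := F) N
  obtain ⟨s₂, h4⟩ := hasMinor_of_not_NS (F := F) fun (j : Fin b) =>
    Sum.elim (fun j' : Fin b => if j' = j then 1 else 0) fun i => N' i j
  refine ⟨s₁, s₂, fun m n A hA => ⟨by_contra fun h => h2 ?_, by_contra fun h => h2 ?_⟩⟩
  · refine (h3 _ h).mem hM hA id Function.injective_id _ fun u => ?_
    simp [mem_rowSpace, hN]
  · refine (h4 _ h).perp.mem hM hA Sum.inl Sum.inl_injective _ fun u => ?_
    rw [mem_rowSpace]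
    constructor
    · rintro ⟨y, hy⟩
      refine ⟨Sum.elim u y, ?_, rfl⟩
      rintro z ⟨x, hx⟩
      simp only [Fintype.sum_sum_type, hx, Sum.elim_inl, Sum.elim_inr, hN', hy, Nat.cast_ite,
        Nat.cast_one, Nat.cast_zero, mul_ite, mul_one, mul_zero, sum_ite_eq, mem_univ, if_true,
        sum_mul, mul_sum]
      rw [sum_comm, ← sum_add_distrib]
      refine sum_eq_zero fun i _ => ?_
      rw [← sum_add_distrib]
      exact sum_eq_zero fun j _ => by ring
    · rintro ⟨w, hw, rfl⟩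
      refine ⟨w ∘ Sum.inr, fun j => ?_⟩
      have := hw _ ⟨Pi.single j 1, fun _ => rfl⟩
      simp only [Fintype.sum_sum_type, Sum.elim_inl, Sum.elim_inr, hN', Pi.single_apply, ite_mul,
        one_mul, zero_mul, sum_ite_eq', mem_univ, if_true, Nat.cast_ite, Nat.cast_one,
        Nat.cast_zero, mul_ite, mul_one, mul_zero, mul_neg, sum_neg_distrib] at this
      exact add_neg_eq_zero.1 this

end Pool.Agent.P.MP_c2d640_lc

set_option autoImplicit false
set_option linter.unusedSectionVars false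

/-! In a proper class the short dependencies have bounded Natarajan dimension. -/

namespace Pool.Agent.P.MP_c2d640_lc

open Finset Submodule
open scoped Classical

variable {F V ι : Type} [Field F] [AddCommGroup V] [Module F V] [Fintype ι] [DecidableEq ι]

theorem hitting_set (B : Finset ι) (𝒯 : Finset (Finset ι)) (δ : ℕ) (p : ℝ) (hp : 0 < p)
    (h : ∀ T ∈ 𝒯, T ⊆ B ∧ δ ≤ #T) (h𝒯 : #𝒯 * Real.exp (-(p * δ)) < 1 / 2) :
    ∃ B' ⊆ B, (#B' : ℝ) ≤ 2 * p * #B ∧ ∀ T ∈ 𝒯, ¬ Disjoint B' T := by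
  rcases 𝒯.eq_empty_or_nonempty with rfl | ⟨T₀, hT₀⟩
  · exact ⟨∅, empty_subset _, by simpa using by positivity, by simp⟩
  have hδ : 1 ≤ δ := by
    by_contra hδ
    obtain rfl : δ = 0 := by omega
    have : (1 : ℝ) ≤ #𝒯 := by exact_mod_cast card_pos.2 ⟨T₀, hT₀⟩
    simp at h𝒯
    linarith
  have hB : (0 : ℝ) < #B := by
    have := card_le_card (h T₀ hT₀).1
    have := (h T₀ hT₀).2
    exact_mod_cast (by omega : 0 < #B)
  rcases le_or_gt 1 p with h1 | h1
  · refine ⟨B, Subset.rfl, by nlinarith, fun T hT hd => ?_⟩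
    have h2 : T = ∅ := disjoint_self.1 (hd.mono_left (h T hT).1)
    have := (h T hT).2
    rw [h2, card_empty] at this
    omega
  have h0 : 0 ≤ 1 - p := by linarith
  have h1' : 1 - p ≤ 1 := by linarith
  obtain ⟨D, hD, hf⟩ := exists_le_ex h0 h1' B.toList fun D =>
    (∑ T ∈ 𝒯, if Disjoint D T then (1 : ℝ) else 0) + (2 * p * #B)⁻¹ * (#D : ℝ)
  rw [ex_add, ex_sum, ex_const_mul] at hf
  have a1 : ∑ T ∈ 𝒯, ex (1 - p) B.toList (fun D => if Disjoint D T then (1 : ℝ) else 0) ≤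
      #𝒯 * Real.exp (-(p * δ)) := by
    rw [← nsmul_eq_mul]
    refine sum_le_card_nsmul _ _ _ fun T hT => ?_
    rw [ex_avoid_toList, inter_eq_right.2 (h T hT).1]
    calc (1 - p) ^ #T ≤ (1 - p) ^ δ := pow_le_pow_of_le_one h0 h1' (h T hT).2
      _ ≤ Real.exp (-p) ^ δ := pow_le_pow_left₀ h0 (by linarith [Real.add_one_le_exp (-p)]) _
      _ = Real.exp (-(p * δ)) := by rw [← Real.exp_nat_mul]; congr 1; ring
  have hc : (0 : ℝ) < 2 * p * #B := by positivity
  have a2 : (2 * p * #B)⁻¹ * ex (1 - p) B.toList (fun D => (#D : ℝ)) ≤ 1 / 2 := by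
    have := ex_card_le h0 h1' B.toList
    rw [length_toList] at this
    rw [inv_mul_le_iff₀ hc]
    linarith
  have a3 : (0 : ℝ) ≤ ∑ T ∈ 𝒯, if Disjoint D T then (1 : ℝ) else 0 :=
    sum_nonneg fun T _ => by split_ifs <;> norm_num
  have a4 : (0 : ℝ) ≤ (2 * p * #B)⁻¹ * (#D : ℝ) := by positivity
  refine ⟨D, by simpa using hD, ?_, fun T hT hd => ?_⟩
  · have : (2 * p * #B)⁻¹ * (#D : ℝ) ≤ 1 := by linarith
    rw [inv_mul_le_iff₀ hc] at this
    linarith
  · have := single_le_sum (f := fun T => if Disjoint D T then (1 : ℝ) else 0)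
      (fun T _ => by split_ifs <;> norm_num) hT
    simp only [hd, if_true] at this
    linarith

theorem exists_basis_ext (w : ι → V) {S B0 : Finset ι} (h0 : B0 ⊆ S)
    (hind : LinearIndepOn F w B0) : ∃ B : Finset ι, B0 ⊆ B ∧ B ⊆ S ∧ LinearIndepOn F w B ∧
      ∀ e ∈ S, w e ∈ span F (w '' B) := by
  obtain ⟨b, h1, h2, h3, h4⟩ := exists_linearIndepOn_extension hind (coe_subset.2 h0)
  refine ⟨b.toFinite.toFinset, fun e he => ?_, fun e he => ?_, ?_, fun e he => ?_⟩
  · exact (Set.Finite.mem_toFinset _).2 (h2 he)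
  · exact h1 ((Set.Finite.mem_toFinset _).1 he)
  · rwa [Set.Finite.coe_toFinset]
  · rw [Set.Finite.coe_toFinset]
    exact h3 ⟨e, he, rfl⟩

theorem Gir.con {v : ι → V} {E T : Finset ι} {d : ℕ} (h : Gir F v E d) (hT : T ⊆ E) :
    Gir F (con F v T) (E \ T) (d - #T) := by
  intro y h1 h2 h3
  obtain ⟨w, h4, h5⟩ := mem_span_iff_ev.1 (ev_con_eq_zero.1 h2)
  have h6 : y - w ≠ 0 := fun h0 => h3 (funext fun e => by
    by_cases he : e ∈ T
    · exact h1 e (by simp [he])
    · have := congrFun h0 e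
      simpa [h4 e he] using this)
  have h7 := h (y - w) ((h1.mono sdiff_subset).sub (h4.mono hT)) (by rw [map_sub, h5, sub_self]) h6
  have h8 := card_supp_sub_le y w
  have h9 := h4.card_le
  omega

theorem exists_rho (w : ι → V) {K B : Finset ι} (h : ∀ e ∈ K, w e ∈ span F (w '' B)) :
    ∃ ρ : ι → ι → F, ∀ e ∈ K, On B (ρ e) ∧ ev F w (ρ e) = w e := by
  choose! ρ hρ using fun e he => mem_span_iff_ev.1 (h e he)
  exact ⟨ρ, hρ⟩

theorem exists_pow_lt (c k : ℕ) : ∃ L₀, ∀ L, L₀ ≤ L → c * (L + 1) ^ k < 2 ^ L := by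
  have := (tendsto_pow_const_div_const_pow_of_one_lt k (one_lt_two (α := ℝ))).eventually
    (gt_mem_nhds (show (0 : ℝ) < 1 / (2 * c + 1) by positivity))
  obtain ⟨L₀, h⟩ := Filter.eventually_atTop.1 this
  refine ⟨L₀, fun L hL => ?_⟩
  have a1 := h (L + 1) (by omega)
  rw [div_lt_div_iff₀ (by positivity) (by positivity), pow_succ] at a1
  have a2 : (L + 1) ^ k * (2 * c + 1) < 1 * (2 ^ L * 2) := by exact_mod_cast a1
  nlinarith [Nat.zero_le ((L + 1) ^ k)]

end Pool.Agent.P.MP_c2d640_lc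

set_option autoImplicit false
set_option linter.unusedSectionVars false

/-! Definitions for the analysis of the deterministic girth algorithm. -/

namespace Pool.Agent.P.MP_c2d640_lc

open Finset Submodule
open scoped Classical

variable {F V ι : Type} [Field F] [AddCommGroup V] [Module F V] [Fintype ι] [DecidableEq ι]

/-- The trace of `y` on `S`. -/
noncomputable def res (S : Finset ι) (y : ι → F) : ι → F := fun e => if e ∈ S then y e else 0

/-- Columns and rows of the standard representations inside `E` shatter at most `m` points. -/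
def Tame (F : Type) [Field F] [Module F V] (v : ι → V) (E : Finset ι) (m : ℕ) : Prop :=
  ∀ (B K : Finset ι) (ρ : ι → ι → F), B ⊆ E → K ⊆ E → Disjoint K B → LinearIndepOn F v B →
    (∀ e ∈ K, On B (ρ e) ∧ ev F v (ρ e) = v e) →
    (∀ T, Shat (K.image ρ) T → #T ≤ m) ∧
      ∀ T, Shat (B.image fun b e => if e ∈ K then -ρ e b else 0) T → #T ≤ m

/-- The dependencies on `E`. -/
def code (F : Type) [Field F] [Module F V] (v : ι → V) (E : Finset ι) : Submodule F (ι → F) where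
  carrier := {y | On E y ∧ ev F v y = 0}
  zero_mem' := ⟨fun _ _ => rfl, map_zero _⟩
  add_mem' := fun h h' => ⟨h.1.add h'.1, by rw [map_add, h.2, h'.2, add_zero]⟩
  smul_mem' := fun c y h => ⟨fun e he => by simp [h.1 e he], by rw [map_smul, h.2, smul_zero]⟩

theorem mem_code {v : ι → V} {E : Finset ι} {y : ι → F} :
    y ∈ code F v E ↔ On E y ∧ ev F v y = 0 := Iff.rfl

/-- Minimum distance. -/
def Dist (U : Submodule F (ι → F)) (g : ℕ) : Prop := ∀ y ∈ U, y ≠ 0 → g ≤ #(supp y)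

/-- The words of weight at most `b` have few traces on every set. -/
def Traces [Fintype F] (U : Submodule F (ι → F)) (b τ : ℕ) : Prop :=
  ∀ (S : Finset ι) (𝒲 : Finset (ι → F)), (∀ y ∈ 𝒲, y ∈ U ∧ #(supp y) ≤ b) →
    #(𝒲.image (res S)) ≤ (1 + #S * Fintype.card F ^ 2) ^ τ

/-- If `h` words on `W` realise all non-empty support patterns, then the words on `W` are not
determined by `2 h` coordinates. -/
def NoCube (U : Submodule F (ι → F)) (h : ℕ) : Prop :=
  ∀ (W I : Finset ι) (t : Finset (Fin h) → ι) (z : Fin h → ι → F), (∀ i, z i ∈ U ∧ On W (z i)) →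
    (∀ i J, J.Nonempty → (z i (t J) ≠ 0 ↔ i ∈ J)) → #I ≤ 2 * h →
    ∃ y ∈ U, On W y ∧ (∀ e ∈ I, y e = 0) ∧ y ≠ 0

/-- Every subset of `E` becomes independent after removing a `c / d` fraction. -/
def Dn (F : Type) [Field F] [Module F V] (v : ι → V) (E : Finset ι) (d c : ℕ) : Prop :=
  ∀ S ⊆ E, ∃ D ⊆ S, d * #D ≤ c * #S ∧ LinearIndepOn F v (S \ D : Finset ι)

/-- The points that lie in more than a `1 / Θ` fraction of the sets `Q y`. -/
noncomputable def heavy {α : Type} (Θ : ℕ) (𝒯 : Finset α) (Q : α → Finset ι) : Finset ι :=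
  univ.filter fun e => #𝒯 < Θ * #(𝒯.filter fun y => e ∈ Q y)

/-- `Z` together with the supports of the words that are short outside `Z`. -/
noncomputable def plus [Fintype F] (U : Submodule F (ι → F)) (g : ℕ) (Z : Finset ι) : Finset ι :=
  Z ∪ (univ.filter fun w : ι → F => w ∈ U ∧ 2 * #(supp w \ Z) < g).biUnion supp

/-- Some word is, outside `Z`, of moderate size and almost inside the support of `y`. -/
def Cut (U : Submodule F (ι → F)) (g s σ : ℕ) (y : ι → F) (Z : Finset ι) : Prop :=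
  ∃ w ∈ U, g ≤ 2 * #(supp w \ Z) ∧ #(supp w \ Z) ≤ s ∧ #((supp w \ Z) \ supp y) ≤ σ

/-- The label of a word: a coset and a kernel. -/
noncomputable def lab (U : Submodule F (ι → F)) (φ : (ι → F) → ι → F) (K : (ι → F) → Finset ι)
    (y : ι → F) : ((ι → F) ⧸ U) × Finset ι := (U.mkQ (φ y), K y)

/-- The class of a word. -/
noncomputable def cls (U : Submodule F (ι → F)) (𝒮 : Finset (ι → F)) (φ : (ι → F) → ι → F)
    (K : (ι → F) → Finset ι) (y : ι → F) : Finset (ι → F) :=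
  𝒮.filter fun y' => lab U φ K y' = lab U φ K y

/-- The heavy points of the class of a word. -/
noncomputable def hvy (U : Submodule F (ι → F)) (Θ : ℕ) (𝒮 : Finset (ι → F))
    (φ : (ι → F) → ι → F) (K : (ι → F) → Finset ι) (y : ι → F) : Finset ι :=
  heavy Θ (cls U 𝒮 φ K y) fun y' => supp (φ y')

/-- The words with a large heavy part. -/
noncomputable def big (U : Submodule F (ι → F)) (Θ σ' : ℕ) (𝒮 : Finset (ι → F))
    (φ : (ι → F) → ι → F) (K : (ι → F) → Finset ι) : Finset (ι → F) :=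
  𝒮.filter fun y => σ' < #(supp (φ y) ∩ hvy U Θ 𝒮 φ K y)

/-- A state of the locating argument. -/
structure St (U : Submodule F (ι → F)) (𝒴 : Finset (ι → F)) (g a : ℕ) (𝒮 : Finset (ι → F))
    (φ : (ι → F) → ι → F) (K : (ι → F) → Finset ι) (s σ M : ℕ) : Prop where
  sub : 𝒮 ⊆ 𝒴
  wt : ∀ y ∈ 𝒮, #(supp (φ y)) ≤ s
  low : ∀ y ∈ 𝒮, g ≤ 2 * #(supp (φ y) ∪ K y)
  up : ∀ y ∈ 𝒮, #(supp (φ y) ∪ K y) ≤ a
  near : ∀ y ∈ 𝒮, #((supp (φ y) ∪ K y) \ supp y) ≤ σ
  labs : #(𝒮.image (lab U φ K)) ≤ M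

/-- The ratio between the girth and the size of the located sets. -/
def lE (q h : ℕ) : ℕ := 8 * q + 12 + 4 * h * 2 ^ h + 3 * h

/-- A bound for the size of the closures. -/
def lZeta (q g a h τ : ℕ) : ℕ := 2 * h * a + (1 + 2 * h * a * q ^ 2) ^ τ * g

/-- The threshold for heavy points. -/
def lTheta (q g a h τ : ℕ) : ℕ := 8 * h * lZeta q g a h τ

/-- A bound for the size of heavy sets. -/
def lH (q g a h τ : ℕ) : ℕ := lTheta q g a h τ * (lTheta q g a h τ + 1) * a

/-- A bound for the number of traces. -/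
def lLam (q g a h τ : ℕ) : ℕ := (1 + lH q g a h τ * q ^ 2) ^ τ

/-- The loss in one move. -/
def lDel (a h : ℕ) : ℕ := 8 * (8 * h) ^ 2 * (a + 1) ^ 2 ^ h

/-- The total loss. -/
def lGam (q n g a h τ R : ℕ) : ℕ :=
  (n + 1) ^ 2 ^ h * (2 * lLam q g a h τ * lDel a h) ^ R ^ 2

/-- The elements of `Fin n` that occur in a list. -/
def fs (n : ℕ) (L : List ℕ) : Finset (Fin n) := univ.filter fun e => e.val ∈ L

@[simp] theorem mem_fs {n : ℕ} {L : List ℕ} {e : Fin n} : e ∈ fs n L ↔ e.val ∈ L := by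
  simp [fs]

/-- Some member of the list avoids a given small set and meets a given family of sets. -/
def HA (n : ℕ) (𝒟 : List (List ℕ)) (d M : ℕ) : Prop :=
  ∀ (X : Finset (Fin n)) (𝒬 : Finset (Finset (Fin n))), #X ≤ d → #𝒬 ≤ M →
    (∀ P ∈ 𝒬, d ≤ 8 * #(P \ X)) →
    ∃ D ∈ 𝒟, Disjoint (fs n D) X ∧ ∀ P ∈ 𝒬, ¬ Disjoint (fs n D) P

/-- Every dependency has at least `γ` terms outside `O`. -/
def GirOff (F : Type) [Field F] [Module F V] (v : ι → V) (O : Finset ι) (γ : ℕ) : Prop :=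
  ∀ y : ι → F, ev F v y = 0 → y ≠ 0 → γ ≤ #(supp y \ O)

/-- The procedure lists the supports of all dependencies with few terms outside `O`. -/
def EnumOK (F : Type) [Field F] [Module F V] {n : ℕ} (v : Fin n → V)
    (En : List ℕ → List (List ℕ)) (γ : ℕ) : Prop :=
  ∀ O : List ℕ, (∀ b ∈ O, b < n) → GirOff F v (fs n O) γ → ∀ y : Fin n → F, ev F v y = 0 → y ≠ 0 →
    #(supp y \ fs n O) ≤ 4 * γ → ∃ Y ∈ En O, fs n Y = supp y

end Pool.Agent.P.MP_c2d640_lc

set_option autoImplicit false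
set_option linter.unusedSectionVars false

/-! Tame configurations: contraction and the number of rows. -/

namespace Pool.Agent.P.MP_c2d640_lc

open Finset Submodule
open scoped Classical

variable {F V ι : Type} [Field F] [AddCommGroup V] [Module F V] [Fintype ι] [DecidableEq ι]

theorem Tame.mono {v : ι → V} {E E' : Finset ι} {m : ℕ} (h : Tame F v E m) (hE : E' ⊆ E) :
    Tame F v E' m := by
  exact fun B K ρ a1 a2 => h B K ρ (a1.trans hE) (a2.trans hE)

/-- A configuration `w` whose dependencies are those of the contraction of `O` is tame. -/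
theorem tame_of_NS {V' : Type} [AddCommGroup V'] [Module F V'] {v : ι → V} {w : ι → V'}
    {O : Finset ι} {s₁ s₂ : ℕ} (h1 : NS F v s₁) (h2 : NS F (dl F v) s₂)
    (hw : ∀ y : ι → F, ev F w y = 0 ↔ ev F v y ∈ span F (v '' O)) : Tame F w Oᶜ (s₁ + s₂) := by
  intro B K ρ hB hK hd hi hρ
  have hi' : LinearIndepOn F (con F v O) B := indep_iff_ev.2 fun y a1 a2 =>
    indep_iff_ev.1 hi y a1 ((hw y).2 (ev_con_eq_zero.1 a2))
  have hρ' : ∀ e ∈ K, On B (ρ e) ∧ ev F (con F v O) (ρ e) = con F v O e := fun e he =>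
    ⟨(hρ e he).1, by
      have a1 : ev F w (ρ e - Pi.single e 1) = 0 := by
        rw [map_sub, (hρ e he).2, ev_single, one_smul, sub_self]
      have a2 := ev_con_eq_zero.2 ((hw _).1 a1)
      rwa [map_sub, ev_single, one_smul, sub_eq_zero] at a2⟩
  have hKO : Disjoint K O := disjoint_left.2 fun e he => mem_compl.1 (hK he)
  have hBO : Disjoint B O := disjoint_left.2 fun e he => mem_compl.1 (hB he)
  exact ⟨fun T hT => (h1 O B K ρ hi' hKO hd hρ' T hT).trans (Nat.le_add_right _ _),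
    fun T hT => (h2.rows hi' hBO hKO hd hρ' hT).trans (Nat.le_add_left _ _)⟩

/-- Points that are separated by the dependencies on `W` are few. -/
theorem Tame.rows [Fintype F] {v : ι → V} {E W B T : Finset ι} {m : ℕ} (h : Tame F v E m)
    (hW : W ⊆ E) (hB : B ⊆ W) (hi : LinearIndepOn F v B) (hs : ∀ e ∈ W, v e ∈ span F (v '' B))
    (hT : T ⊆ W)
    (hsep : ∀ t ∈ T, ∀ t' ∈ T, t ≠ t' → ∃ z : ι → F, On W z ∧ ev F v z = 0 ∧ z t ≠ z t') :
    #T ≤ #(W \ B) + (1 + #(W \ B) * Fintype.card F ^ 2) ^ m := by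
  obtain ⟨ρ, hρ⟩ := exists_rho (F := F) (K := W \ B) (B := B) v fun e he => hs e (mem_sdiff.1 he).1
  have key : ∀ z : ι → F, On W z → ev F v z = 0 → ∀ b ∈ B,
      z b = ∑ e ∈ W \ B, z e * if e ∈ W \ B then -ρ e b else 0 := fun z a1 a2 b hb => by
    have a3 := indep_iff_ev.1 hi (z - ∑ e ∈ W \ B, z e • (Pi.single e 1 - ρ e)) (fun x hx => by
      have a4 : ∑ e ∈ W \ B, z e * ((Pi.single e 1 : ι → F) x - ρ e x) =
          ∑ e ∈ W \ B, if x = e then z e else 0 :=
        sum_congr rfl fun e he => by simp [(hρ e he).1 x hx, Pi.single_apply]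
      simp only [Pi.sub_apply, Finset.sum_apply, Pi.smul_apply, smul_eq_mul, a4, sum_ite_eq]
      by_cases hw : x ∈ W
      · simp [hw, hx]
      · simp [a1 x hw]) (by
      rw [map_sub, a2, map_sum, sum_eq_zero fun e he => by
        rw [map_smul, map_sub, ev_single, (hρ e he).2, one_smul, sub_self, smul_zero], sub_zero])
    have a5 := congrFun a3 b
    simp only [Pi.sub_apply, Finset.sum_apply, Pi.smul_apply, smul_eq_mul, Pi.zero_apply,
      sub_eq_zero] at a5
    rw [a5]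
    refine sum_congr rfl fun e he => ?_
    have a6 : b ≠ e := fun h => (mem_sdiff.1 he).2 (h ▸ hb)
    rw [if_pos he, Pi.single_eq_of_ne a6, zero_sub]
  have c1 := natarajan_aux_nt (W \ B) (B.image fun b e => if e ∈ W \ B then -ρ e b else 0) m
    (fun y hy => by
      obtain ⟨e, -, rfl⟩ := mem_image.1 hy
      exact fun t ht => if_neg ht)
    fun T₁ _ => (h B (W \ B) ρ (hB.trans hW) (sdiff_subset.trans hW) sdiff_disjoint hi hρ).2 T₁
  have c2 : #(T ∩ B) ≤ #(B.image fun b e => if e ∈ W \ B then -ρ e b else 0) := by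
    refine card_le_card_of_injOn (fun b e => if e ∈ W \ B then -ρ e b else 0)
      (fun t ht => mem_coe.2 (mem_image_of_mem _ (mem_inter.1 ht).2)) fun t ht t' ht' h => ?_
    by_contra hne
    obtain ⟨z, a1, a2, a3⟩ := hsep t (mem_inter.1 ht).1 t' (mem_inter.1 ht').1 hne
    refine a3 ?_
    rw [key z a1 a2 t (mem_inter.1 ht).2, key z a1 a2 t' (mem_inter.1 ht').2]
    exact sum_congr rfl fun e _ => congrArg (z e * ·) (congrFun h e)
  have c3 := card_sdiff_add_card_inter T B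
  have c4 : #(T \ B) ≤ #(W \ B) := card_le_card (sdiff_subset_sdiff hT Subset.rfl)
  omega

theorem exists_noCube (F : Type) [Field F] [Fintype F] (m : ℕ) : ∃ h : ℕ, 1 ≤ h ∧
    ∀ {V ι : Type} [AddCommGroup V] [Module F V] [Fintype ι] [DecidableEq ι] (v : ι → V)
      (E : Finset ι), Tame F v E m → NoCube (code F v E) h := by
  obtain ⟨L, hL⟩ := exists_pow_lt (2 + (1 + 2 * Fintype.card F ^ 2) ^ m) (m + 1)
  refine ⟨L + 1, by omega, fun {V ι} _ _ _ _ v E hT W I t z hz ht hI => by_contra fun hno => ?_⟩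
  have hL := hL (L + 1) (by omega)
  generalize L + 1 = h at *
  have hind : LinearIndepOn F v ((W ∩ E) \ I : Finset ι) := indep_iff_ev.2 fun y a1 a2 =>
    by_contra fun a3 => hno ⟨y, ⟨a1.mono (sdiff_subset.trans inter_subset_right), a2⟩,
      a1.mono (sdiff_subset.trans inter_subset_left),
      fun e he => a1 e fun h => (mem_sdiff.1 h).2 he, a3⟩
  obtain ⟨B, b1, b2, b3, b4⟩ := exists_basis_ext (F := F) v sdiff_subset hind
  have hk : #((W ∩ E) \ B) ≤ 2 * h := (card_le_card fun e he => by_contra fun hI =>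
    (mem_sdiff.1 he).2 (b1 (mem_sdiff.2 ⟨(mem_sdiff.1 he).1, hI⟩))).trans hI
  have hon : ∀ i, On (W ∩ E) (z i) := fun i e he => by
    by_cases hw : e ∈ W
    · exact (hz i).1.1 e fun h => he (mem_inter.2 ⟨hw, h⟩)
    · exact (hz i).2 e hw
  have hne : ∀ J ∈ (univ : Finset (Finset (Fin h))).erase ∅, J.Nonempty := fun J hJ =>
    nonempty_iff_ne_empty.2 (mem_erase.1 hJ).1
  have hsep : ∀ J J' : Finset (Fin h), J.Nonempty → J'.Nonempty → J ≠ J' →
      ∃ i, z i (t J) ≠ z i (t J') := fun J J' a1 a2 a3 => by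
    by_contra a4
    push Not at a4
    exact a3 (Finset.ext fun i => by rw [← ht i J a1, ← ht i J' a2, a4 i])
  have c1 := hT.rows (T := (univ.erase ∅).image t) inter_subset_right b2 b3 b4
    (fun e he => by
      obtain ⟨J, hJ, rfl⟩ := mem_image.1 he
      obtain ⟨i, hi⟩ := hne J hJ
      exact by_contra fun h => (ht i J (hne J hJ)).2 hi (hon i _ h))
    fun e he e' he' hee => by
      obtain ⟨J, hJ, rfl⟩ := mem_image.1 he
      obtain ⟨J', hJ', rfl⟩ := mem_image.1 he'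
      obtain ⟨i, hi⟩ := hsep J J' (hne J hJ) (hne J' hJ') fun h => hee (h ▸ rfl)
      exact ⟨z i, hon i, (hz i).1.2, hi⟩
  rw [card_image_of_injOn fun J hJ J' hJ' h => by_contra fun a1 => by
    obtain ⟨i, hi⟩ := hsep J J' (hne J hJ) (hne J' hJ') a1
    exact hi (h ▸ rfl), card_erase_of_mem (mem_univ _), card_univ, Fintype.card_finset,
    Fintype.card_fin] at c1
  have c2 : (1 + #((W ∩ E) \ B) * Fintype.card F ^ 2) ^ m ≤
      (1 + 2 * Fintype.card F ^ 2) ^ m * (h + 1) ^ (m + 1) := by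
    calc _ ≤ ((1 + 2 * Fintype.card F ^ 2) * (h + 1)) ^ m :=
          Nat.pow_le_pow_left (by nlinarith [Nat.mul_le_mul_right (Fintype.card F ^ 2) hk]) _
      _ ≤ _ := by
          rw [mul_pow]
          exact Nat.mul_le_mul_left _ (Nat.pow_le_pow_right (by omega) (by omega))
  have c3 : h + 1 ≤ (h + 1) ^ (m + 1) := Nat.le_self_pow (by omega) _
  rw [add_mul] at hL
  omega

end Pool.Agent.P.MP_c2d640_lc

set_option autoImplicit false
set_option linter.unusedSectionVars false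

/-! The Natarajan dimension of the short dependencies is polynomial in the weight ratio. -/

namespace Pool.Agent.P.MP_c2d640_lc

open Finset Submodule
open scoped Classical

variable {F V ι : Type} [Field F] [AddCommGroup V] [Module F V] [Fintype ι] [DecidableEq ι]

/-- The nullity is bounded in terms of the ratio of size and girth. -/
theorem Tame.nullity [Fintype F] {v : ι → V} {E S B : Finset ι} {m d x L : ℕ} (h : Tame F v E m)
    (hS : S ⊆ E) (hG : Gir F v S d) (hd : 4 ≤ d) (hB : B ⊆ S) (hi : LinearIndepOn F v B)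
    (hs : ∀ e ∈ S, v e ∈ span F (v '' B)) (hx : #S ≤ x * d) (hL : #(S \ B) ≤ 2 ^ L) :
    #(S \ B) ≤ (1 + 4 * x * (2 * L + 1) * Fintype.card F ^ 2) ^ m := by
  obtain ⟨ρ, hρ⟩ := exists_rho (K := S \ B) _ fun e he => hs e (mem_sdiff.1 he).1
  have hd2 : (0 : ℝ) < (d - 2 : ℕ) := by exact_mod_cast (by omega : 0 < d - 2)
  obtain ⟨B', b1, b2, b3⟩ := hitting_set B
    ((S \ B).offDiag.image fun p => supp (ρ p.1 - ρ p.2)) (d - 2) ((2 * L + 1) / (d - 2 : ℕ))
    (by positivity) (fun T hT => by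
      obtain ⟨⟨e, e'⟩, a1, rfl⟩ := mem_image.1 hT
      obtain ⟨a2, a3, a4⟩ := mem_offDiag.1 a1
      have a5 := (hρ e a2).1.sub (hρ e' a3).1
      refine ⟨on_iff.1 a5, ?_⟩
      have a6 := hG (Pi.single e 1 - Pi.single e' 1 - (ρ e - ρ e'))
        (((On.single (mem_sdiff.1 a2).1 1).sub (On.single (mem_sdiff.1 a3).1 1)).sub (a5.mono hB))
        (by simp only [map_sub, ev_single, (hρ e a2).2, (hρ e' a3).2, one_smul, sub_self])
        fun h => by
          have := congrFun h e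
          simp only [Pi.sub_apply, (hρ e a2).1 e (mem_sdiff.1 a2).2,
            (hρ e' a3).1 e (mem_sdiff.1 a2).2] at this
          simp [Pi.single_eq_of_ne a4] at this
      have a7 := card_supp_sub_le (Pi.single e 1 - Pi.single e' 1 : ι → F) (ρ e - ρ e')
      have a8 := card_supp_sub_le (Pi.single e 1 : ι → F) (Pi.single e' 1)
      have a9 := (On.single (F := F) (mem_singleton_self e) 1).card_le
      have a10 := (On.single (F := F) (mem_singleton_self e') 1).card_le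
      simp only [card_singleton] at a9 a10
      simp only
      omega)
    (by
      have a1 : #((S \ B).offDiag.image fun p => supp (ρ p.1 - ρ p.2)) ≤ 2 ^ (2 * L) := by
        refine card_image_le.trans ?_
        rw [offDiag_card, mul_comm 2, pow_mul, sq]
        exact (Nat.sub_le _ _).trans (Nat.mul_le_mul hL hL)
      have a2 : (2 : ℝ) ^ (2 * L) ≤ Real.exp 1 ^ (2 * L) :=
        pow_le_pow_left₀ (by norm_num) (by linarith [Real.add_one_le_exp 1]) _
      have a3 : (2 : ℝ) < Real.exp 1 := by linarith [Real.add_one_lt_exp one_ne_zero]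
      rw [div_mul_cancel₀ _ hd2.ne', Real.exp_neg, ← div_eq_mul_inv,
        div_lt_iff₀ (Real.exp_pos _), Real.exp_add]
      rw [← Real.exp_nat_mul, mul_one] at a2
      push_cast at a2
      have a4 : (#((S \ B).offDiag.image fun p => supp (ρ p.1 - ρ p.2)) : ℝ) ≤ 2 ^ (2 * L) := by
        exact_mod_cast a1
      nlinarith [Real.exp_pos (2 * L)])
  have c1 : #B' ≤ 4 * x * (2 * L + 1) := by
    have a1 : (d - 2) * #B' ≤ 2 * (2 * L + 1) * #B := by
      rw [← mul_div_assoc, div_mul_eq_mul_div, le_div_iff₀' hd2] at b2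
      exact_mod_cast b2
    have a2 : #B ≤ x * (2 * (d - 2)) :=
      ((card_le_card hB).trans hx).trans (Nat.mul_le_mul_left _ (by omega))
    refine Nat.le_of_mul_le_mul_left ?_ (by omega : 0 < d - 2)
    nlinarith [Nat.mul_le_mul_left (2 * (2 * L + 1)) a2]
  have c2 := natarajan_aux_nt B' ((S \ B).image fun e t => if t ∈ B' then ρ e t else 0) m
    (fun y hy => by
      obtain ⟨e, -, rfl⟩ := mem_image.1 hy
      exact fun t ht => if_neg ht)
    fun T hT ⟨f, g, a1, a2⟩ =>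
      (h B (S \ B) ρ (hB.trans hS) (sdiff_subset.trans hS) sdiff_disjoint hi hρ).1 T
      ⟨f, g, a1, fun A hA => by
        obtain ⟨_, a3, a4⟩ := a2 A hA
        obtain ⟨e, he, rfl⟩ := mem_image.1 a3
        exact ⟨_, mem_image_of_mem _ he, fun t ht => by rw [← a4 t ht]; exact (if_pos (hT ht)).symm⟩⟩
  rw [card_image_of_injOn fun e he e' he' h => by_contra fun hne => b3 _
    (mem_image_of_mem _ (mem_offDiag.2 (⟨he, he', hne⟩ : (e, e').1 ∈ _ ∧ _)))
    (disjoint_left.2 fun t ht => by simpa [ht, sub_eq_zero] using congrFun h t)] at c2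
  exact c2.trans (by gcongr)

theorem arith_tau (q m : ℕ) : ∃ C c : ℕ, ∀ x, 1 ≤ x → ∃ h, 2 ^ h ≤ C * x ^ c ∧ ∀ k : ℕ,
    2 ^ h ≤ k + (1 + k * q ^ 2) ^ m →
    ¬ ∀ L, k ≤ 2 ^ L → k ≤ (1 + 4 * ((2 * h + 2) * x) * (2 * L + 1) * q ^ 2) ^ m := by
  obtain ⟨L₀, h₀⟩ := exists_pow_lt
    ((1 + 12 * (2 * (m + 1) * (2 + 2 * q) + 2) * q ^ 2) ^ m * 2 ^ (2 * m)) (2 * m)
  refine ⟨2 ^ ((m + 1) * (L₀ + (2 + 2 * q)) + 1) * 2 ^ (2 * m * (m + 1)), 2 * m * (m + 1),
    fun x hx => ?_⟩
  obtain ⟨b, hb, hb'⟩ : ∃ b, x ≤ 2 ^ b ∧ 2 ^ b ≤ 2 * x :=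
    ⟨Nat.log 2 x + 1, (Nat.lt_pow_succ_log_self (by norm_num) _).le, by
      rw [pow_succ']
      exact Nat.mul_le_mul_left 2 (Nat.pow_log_le_self 2 (by omega))⟩
  refine ⟨(m + 1) * (2 * (b * m) + L₀ + (2 + 2 * q)) + 1, ?_, fun k h1 h2 => ?_⟩
  · rw [mul_assoc (2 ^ _), ← mul_pow]
    refine le_trans (le_of_eq ?_) (Nat.mul_le_mul_left _ (Nat.pow_le_pow_left hb' _))
    rw [← pow_mul, ← pow_add]
    congr 1
    ring
  generalize hh : (m + 1) * (2 * (b * m) + L₀ + (2 + 2 * q)) + 1 = h at h1 h2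
  generalize hL : Nat.log 2 k = L
  have a1 : k < 2 ^ (L + 1) := hL ▸ Nat.lt_pow_succ_log_self (by norm_num) _
  have a2 : q ^ 2 ≤ 2 ^ (2 * q) := by
    rw [mul_comm, pow_mul]
    exact Nat.pow_le_pow_left Nat.lt_two_pow_self.le 2
  have a3 : 1 + k * (q ^ 2 + 1) ≤ 2 ^ (L + (2 + 2 * q)) := by
    have b1 : 1 ≤ 2 ^ (2 * q) := Nat.one_le_two_pow
    have b2 := Nat.mul_le_mul (Nat.succ_le_of_lt a1) (show q ^ 2 + 1 ≤ 2 * 2 ^ (2 * q) by omega)
    calc _ ≤ (k + 1) * (q ^ 2 + 1) := by nlinarith [Nat.zero_le (q ^ 2)]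
      _ ≤ _ := b2
      _ = _ := by ring
  have a4 : h ≤ (m + 1) * (L + (2 + 2 * q)) := by
    have b1 : (1 + k * q ^ 2) ^ m ≤ (1 + k * (q ^ 2 + 1)) ^ m :=
      Nat.pow_le_pow_left (by nlinarith) m
    have b2 : 1 ≤ (1 + k * (q ^ 2 + 1)) ^ m := Nat.one_le_pow _ _ (by omega)
    have b3 : 2 ^ h ≤ (1 + k * (q ^ 2 + 1)) ^ (m + 1) := by
      rw [pow_succ]
      nlinarith [Nat.mul_le_mul_left k b2,
        Nat.zero_le ((1 + k * (q ^ 2 + 1)) ^ m * (k * q ^ 2))]
    have := b3.trans (Nat.pow_le_pow_left a3 _)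
    rw [← pow_mul, mul_comm] at this
    exact (Nat.pow_le_pow_iff_right (by norm_num)).1 this
  have a5 : 2 * (b * m) + L₀ < L := by
    by_contra hc
    have := Nat.mul_le_mul_left (m + 1)
      (show L + (2 + 2 * q) ≤ 2 * (b * m) + L₀ + (2 + 2 * q) by omega)
    omega
  have a6 : 2 ^ L ≤ k := hL ▸ Nat.pow_log_le_self 2 (by rintro rfl; simp at hL; omega)
  have a7 : 2 * h + 2 ≤ (2 * (m + 1) * (2 + 2 * q) + 2) * (L + 1) := by
    have := Nat.mul_le_mul_left (m + 1) (show L + (2 + 2 * q) ≤ (2 + 2 * q) * (L + 1) by nlinarith)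
    nlinarith
  obtain ⟨L', rfl⟩ : ∃ L', L = L' + b * m := ⟨L - b * m, by omega⟩
  have a8 : 1 + 4 * ((2 * h + 2) * x) * (2 * (L' + b * m + 1) + 1) * q ^ 2 ≤
      (1 + 12 * (2 * (m + 1) * (2 + 2 * q) + 2) * q ^ 2) * (2 * (L' + 1)) ^ 2 * 2 ^ b := by
    have b1 : 4 * ((2 * h + 2) * x) * (2 * (L' + b * m + 1) + 1) * q ^ 2 ≤
        4 * ((2 * (m + 1) * (2 + 2 * q) + 2) * (2 * (L' + 1)) * 2 ^ b) * (3 * (2 * (L' + 1))) *
          q ^ 2 := by
      have := a7.trans (Nat.mul_le_mul_left _ (show L' + b * m + 1 ≤ 2 * (L' + 1) by omega))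
      gcongr
      omega
    have b2 : 1 ≤ (2 * (L' + 1)) ^ 2 * 2 ^ b := Nat.one_le_iff_ne_zero.2 (by positivity)
    calc _ ≤ (2 * (L' + 1)) ^ 2 * 2 ^ b + _ := Nat.add_le_add b2 b1
      _ = _ := by ring
  have a9 := (h2 _ a1.le).trans (Nat.pow_le_pow_left a8 m)
  have a10 := Nat.mul_lt_mul_of_pos_right (h₀ L' (by omega)) (Nat.two_pow_pos (b * m))
  rw [mul_pow, mul_pow, ← pow_mul, ← pow_mul, mul_pow, ← mul_assoc] at a9
  rw [← pow_add] at a10
  omega

theorem exists_tau (F : Type) [Field F] [Fintype F] (m : ℕ) : ∃ C c : ℕ,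
    ∀ {V ι : Type} [AddCommGroup V] [Module F V] [Fintype ι] [DecidableEq ι] (v : ι → V)
      (E T : Finset ι) (d x : ℕ), 1 ≤ x → Tame F v E m → Gir F v E d →
      Shat (words F v E (x * d)) T → #T ≤ C * x ^ c := by
  obtain ⟨C, c, harith⟩ := arith_tau (Fintype.card F) m
  refine ⟨C + 6, c + 1, fun {V ι} _ _ _ _ v E T d x hx hN hG hS => by_contra fun hbig => ?_⟩
  obtain ⟨h, hh, harith⟩ := harith x hx
  have hx1 : x ≤ x ^ (c + 1) := Nat.le_self_pow (by omega) x
  have hx2 : C * x ^ c ≤ C * x ^ (c + 1) :=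
    Nat.mul_le_mul_left C (Nat.pow_le_pow_right hx (by omega))
  rw [add_mul] at hbig
  obtain ⟨f, g, hfg, hy⟩ := hS
  choose! y hy1 hy2 using hy
  simp only [mem_words] at hy1
  have hTs : T ⊆ supp (y T) ∪ supp (y ∅) := by
    intro t ht
    have h1 := hy2 T subset_rfl t ht
    have h2 := hy2 ∅ (empty_subset _) t ht
    rw [if_pos ht] at h1
    rw [if_neg (notMem_empty t)] at h2
    rw [mem_union, mem_supp, mem_supp, h1, h2]
    by_contra h
    push Not at h
    exact hfg t ht (h.1.trans h.2.symm)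
  have hc : #(supp (y T) ∪ supp (y ∅)) ≤ 2 * (x * d) := by
    have h1 := card_union_le (supp (y T)) (supp (y ∅))
    have h2 := (hy1 T subset_rfl).2.2
    have h3 := (hy1 ∅ (empty_subset _)).2.2
    omega
  have hd : 4 ≤ d := by
    by_contra hd
    have h1 := Nat.mul_le_mul_left x (show d ≤ 3 by omega)
    have h2 := card_le_card hTs
    omega
  obtain ⟨T', hT'T, hT'c⟩ := exists_subset_card_eq (s := T) (n := 2 ^ h) (by omega)
  obtain ⟨β⟩ := Function.Embedding.nonempty_of_card_le (α := T') (β := Finset (Fin h))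
    (by simp [hT'c])
  let a : Fin h → Finset ι := fun j => T'.filter fun t => ∃ ht : t ∈ T', j ∈ β ⟨t, ht⟩
  have haT : ∀ j, a j ⊆ T := fun j => (filter_subset _ _).trans hT'T
  have hzT : ∀ j t (ht : t ∈ T'), (y (a j) - y ∅) t ≠ 0 ↔ j ∈ β ⟨t, ht⟩ := fun j t ht => by
    have h1 := hy2 _ (haT j) t (hT'T ht)
    have h2 := hy2 ∅ (empty_subset _) t (hT'T ht)
    rw [if_neg (notMem_empty t)] at h2
    have h3 := hfg t (hT'T ht)
    simp only [Pi.sub_apply, h1, h2]
    by_cases h4 : j ∈ β ⟨t, ht⟩ <;> simp [a, ht, h4, sub_eq_zero, h3]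
  obtain ⟨W, hW⟩ : ∃ W : Finset ι,
    W = (supp (y T) ∪ supp (y ∅)) ∪ univ.biUnion fun j => supp (y (a j)) := ⟨_, rfl⟩
  have hWE : W ⊆ E := hW ▸ union_subset (union_subset (on_iff.1 (hy1 T subset_rfl).1)
    (on_iff.1 (hy1 ∅ (empty_subset _)).1)) (biUnion_subset.2 fun j _ => on_iff.1 (hy1 _ (haT j)).1)
  have hWc : #W ≤ (2 * h + 2) * x * d := by
    have a1 : #(univ.biUnion fun j => supp (y (a j))) ≤ h * (x * d) :=
      (card_biUnion_le_card_mul _ _ _ fun j _ => (hy1 _ (haT j)).2.2).trans (by simp)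
    have a2 := card_union_le (supp (y T) ∪ supp (y ∅)) (univ.biUnion fun j => supp (y (a j)))
    rw [← hW] at a2
    nlinarith [Nat.zero_le (h * (x * d))]
  obtain ⟨B, -, b1, b2, b3⟩ := exists_basis_ext (F := F) v (empty_subset W) (by simp)
  have c2 := hN.rows hWE b1 b2 b3 (T := T') (hW ▸ (hT'T.trans hTs).trans subset_union_left)
    fun t ht t' ht' hne => by
      by_contra hn
      refine hne (congrArg Subtype.val (β.injective (a₁ := ⟨t, ht⟩) (a₂ := ⟨t', ht'⟩) ?_))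
      ext j
      rw [← hzT, ← hzT, show (y (a j) - y ∅) t = (y (a j) - y ∅) t' from by_contra fun h =>
        hn ⟨_, On.sub (on_iff.2 (hW ▸ (subset_biUnion_of_mem (fun j => supp (y (a j)))
          (mem_univ j)).trans subset_union_right))
          (on_iff.2 (hW ▸ subset_union_right.trans subset_union_left)), by
            rw [map_sub, (hy1 _ (haT j)).2.1, (hy1 ∅ (empty_subset _)).2.1, sub_self], h⟩]
  exact harith _ (hT'c ▸ c2) fun L hL => hN.nullity hWE (hG.mono hWE le_rfl) hd b1 b2 b3 hWc hL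

end Pool.Agent.P.MP_c2d640_lc
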