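import Pool.Agent.P.MP_c2d640_lc.G2
import Pool.Agent.P.MP_eb0bd2_lc.PTLib

set_option autoImplicit false
set_option linter.unusedSectionVars false

/-! Traces and density. -/

namespace Pool.Agent.P.MP_c2d640_lc

open Finset Submodule
open scoped Classical

variable {F V ι : Type} [Field F] [AddCommGroup V] [Module F V] [Fintype ι] [DecidableEq ι]

theorem supp_res (S : Finset ι) (y : ι → F) : supp (res S y) = supp y ∩ S := by
  ext e
  by_cases h : e ∈ S <;> simp [res, h]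

theorem traces_of_shat [Fintype F] {v : ι → V} {E : Finset ι} {b τ : ℕ}
    (h : ∀ T, Shat (words F v E b) T → #T ≤ τ) : Traces (code F v E) b τ := by
  intro S 𝒲 h𝒲
  refine natarajan_aux_nt S _ τ (fun z hz e he => ?_) fun T hT hs => h T ?_
  · obtain ⟨y, -, rfl⟩ := mem_image.1 hz
    simp [res, he]
  · obtain ⟨f, g, h1, h2⟩ := hs
    refine ⟨f, g, h1, fun A hA => ?_⟩
    obtain ⟨z, hz, h3⟩ := h2 A hA
    obtain ⟨y, hy, rfl⟩ := mem_image.1 hz
    obtain ⟨a1, a2⟩ := h𝒲 y hy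
    refine ⟨y, mem_words.2 ⟨a1.1, a1.2, a2⟩, fun t ht => ?_⟩
    rw [← h3 t ht, res, if_pos (hT ht)]

theorem dist_code {v : ι → V} {E : Finset ι} {g : ℕ} : Dist (code F v E) g ↔ Gir F v E g :=
  ⟨fun h y h1 h2 h3 => h y ⟨h1, h2⟩ h3, fun h y h1 h3 => h y h1.1 h1.2 h3⟩

theorem exp_bound_dens (L : ℕ) : (2 : ℝ) ^ L * Real.exp (-((L : ℝ) + 1)) < 1 / 2 := by
  have h1 : (2 : ℝ) < Real.exp 1 := by
    have := Real.add_one_lt_exp (x := 1) one_ne_zero
    linarith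
  have h2 : (2 : ℝ) ^ (L + 1) < Real.exp ((L : ℝ) + 1) := by
    have h3 : Real.exp ((L : ℝ) + 1) = Real.exp 1 ^ (L + 1) := by
      rw [← Real.exp_nat_mul]
      push_cast
      rw [mul_one]
    rw [h3]
    exact pow_lt_pow_left₀ h1 (by norm_num) (Nat.succ_ne_zero L)
  rw [Real.exp_neg, ← div_eq_mul_inv, div_lt_div_iff₀ (Real.exp_pos _) (by norm_num), one_mul,
    ← pow_succ]
  exact h2

/-- One round: the girth grows by the factor four. -/
theorem round_dens [Fintype F] {v : ι → V} {S : Finset ι} {L g : ℕ}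
    (hw : #(words F v S (4 * g)) ≤ 2 ^ L) (hg : 1 ≤ g) (hG : Gir F v S g) :
    ∃ D ⊆ S, g * #D ≤ 2 * (L + 1) * #S ∧ Gir F v (S \ D) (4 * g) := by
  have hg' : (0 : ℝ) < g := by exact_mod_cast hg
  have hp : (0 : ℝ) < ((L : ℝ) + 1) / g := by positivity
  obtain ⟨D, d1, d2, d3⟩ := hitting_set S
    (((words F v S (4 * g)).filter fun y => y ≠ 0).image supp) g (((L : ℝ) + 1) / g) hp
    (fun T hT => by
      obtain ⟨y, hy, rfl⟩ := mem_image.1 hT
      obtain ⟨a1, a2⟩ := mem_filter.1 hy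
      obtain ⟨b1, b2, -⟩ := mem_words.1 a1
      exact ⟨on_iff.1 b1, hG y b1 b2 a2⟩)
    (by
      rw [div_mul_cancel₀ _ hg'.ne']
      refine lt_of_le_of_lt (mul_le_mul_of_nonneg_right ?_ (Real.exp_pos _).le) (exp_bound_dens L)
      exact_mod_cast (card_image_le.trans (card_filter_le _ _)).trans hw)
  refine ⟨D, d1, ?_, fun y h1 h2 h3 => ?_⟩
  · have h4 : (g : ℝ) * #D ≤ 2 * ((L : ℝ) + 1) * #S := by
      calc (g : ℝ) * #D ≤ g * (2 * (((L : ℝ) + 1) / g) * #S) :=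
            mul_le_mul_of_nonneg_left d2 hg'.le
        _ = 2 * ((L : ℝ) + 1) * #S := by field_simp
    exact_mod_cast h4
  · by_contra hlt
    refine d3 (supp y) (mem_image_of_mem _ (mem_filter.2 ⟨mem_words.2
      ⟨h1.mono sdiff_subset, h2, by omega⟩, h3⟩)) ?_
    exact disjoint_left.2 fun e he he' => (mem_sdiff.1 (on_iff.1 h1 he')).2 he

theorem rounds_dens [Fintype F] {v : ι → V} {E : Finset ι} {L : ℕ}
    (hw : ∀ S ⊆ E, ∀ d, Gir F v S d → #(words F v S (4 * d)) ≤ 2 ^ L) (k : ℕ) :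
    ∀ (g : ℕ) (S : Finset ι), S ⊆ E → 1 ≤ g → Gir F v S g → #S < g + k →
      ∃ D ⊆ S, g * #D ≤ 4 * (L + 1) * #S ∧ LinearIndepOn F v (S \ D : Finset ι) := by
  induction k with
  | zero =>
    intro g S _ _ hG hk
    refine ⟨∅, empty_subset _, by simp, hG.indep sdiff_subset ?_⟩
    simpa using hk
  | succ k ih =>
    intro g S hS hg hG hk
    obtain ⟨D₁, a1, a2, a3⟩ := round_dens (hw S hS g hG) hg hG
    have hc : #(S \ D₁) ≤ #S := card_le_card sdiff_subset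
    obtain ⟨D₂, b1, b2, b3⟩ := ih (4 * g) (S \ D₁) (sdiff_subset.trans hS) (by omega) a3 (by omega)
    refine ⟨D₁ ∪ D₂, union_subset a1 (b1.trans sdiff_subset), ?_, ?_⟩
    · have c1 : g * #(D₁ ∪ D₂) ≤ g * #D₁ + g * #D₂ := by
        rw [← mul_add]
        exact Nat.mul_le_mul_left _ (card_union_le _ _)
      have c2 : 4 * (L + 1) * #(S \ D₁) ≤ 4 * (L + 1) * #S := Nat.mul_le_mul_left _ hc
      have c3 : 4 * g * #D₂ = 4 * (g * #D₂) := by ring
      have c4 : 4 * (L + 1) * #S = 4 * ((L + 1) * #S) := by ring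
      have c5 : 2 * (L + 1) * #S = 2 * ((L + 1) * #S) := by ring
      omega
    · have e : S \ (D₁ ∪ D₂) = (S \ D₁) \ D₂ := by
        ext x
        simp only [mem_sdiff, mem_union, not_or, and_assoc]
      rw [e]
      exact b3

/-- Repeated hitting sets. -/
theorem dn_of_words [Fintype F] {v : ι → V} {E : Finset ι} {L g : ℕ}
    (hw : ∀ S ⊆ E, ∀ d, Gir F v S d → #(words F v S (4 * d)) ≤ 2 ^ L) (hg : 1 ≤ g)
    (hG : Gir F v E g) : Dn F v E g (4 * (L + 1)) :=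
  fun S hS => rounds_dens hw #S g S hS hg (hG.mono hS le_rfl) (by omega)

/-- Density after adding back a small set. -/
theorem dn_add {v : ι → V} {E I : Finset ι} {γ c G τ : ℕ} (hc : 1 ≤ c) (hG : 4 * γ * c ≤ G)
    (hE : Gir F v E γ) (hI : #I ≤ τ) (h : Dn F v (E \ I) G c) :
    Dn F v E (4 * γ) (1 + 4 * τ) := by
  intro S hS
  by_cases hγ : #S < γ
  · refine ⟨∅, empty_subset _, by simp, hE.indep (sdiff_subset.trans hS) ?_⟩
    simpa using hγ
  obtain ⟨D, a1, a2, a3⟩ := h (S \ I) (sdiff_subset_sdiff hS Subset.rfl)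
  refine ⟨D ∪ (S ∩ I), union_subset (a1.trans sdiff_subset) inter_subset_left, ?_, ?_⟩
  · have c1 : c * (4 * γ * #D) ≤ c * #S :=
      calc c * (4 * γ * #D) = 4 * γ * c * #D := by ring
        _ ≤ G * #D := Nat.mul_le_mul_right _ hG
        _ ≤ c * #(S \ I) := a2
        _ ≤ c * #S := Nat.mul_le_mul_left _ (card_le_card sdiff_subset)
    have c2 : 4 * γ * #D ≤ #S := Nat.le_of_mul_le_mul_left c1 hc
    have c3 : #(D ∪ (S ∩ I)) ≤ #D + τ :=
      (card_union_le _ _).trans (Nat.add_le_add_left ((card_le_card inter_subset_right).trans hI) _)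
    calc 4 * γ * #(D ∪ (S ∩ I)) ≤ 4 * γ * (#D + τ) := Nat.mul_le_mul_left _ c3
      _ = 4 * γ * #D + 4 * τ * γ := by ring
      _ ≤ #S + 4 * τ * #S := Nat.add_le_add c2 (Nat.mul_le_mul_left _ (by omega))
      _ = (1 + 4 * τ) * #S := by ring
  · have e : S \ (D ∪ (S ∩ I)) = (S \ I) \ D := by
      ext x
      simp only [mem_sdiff, mem_union, mem_inter]
      tauto
    rw [e]
    exact a3

end Pool.Agent.P.MP_c2d640_lc

set_option autoImplicit false
set_option linter.unusedSectionVars false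

/-! The stages of the enumeration. -/

namespace Pool.Agent.P.MP_c2d640_lc

open Finset Submodule
open scoped Classical

variable {F V ι : Type} [Field F] [AddCommGroup V] [Module F V] [Fintype ι] [DecidableEq ι]

theorem out_add_stg (y z : ι → F) (X : Finset ι) :
    #(supp (y + z) \ X) ≤ #(supp y \ X) + #(supp z \ X) := by
  refine (card_le_card ?_).trans (card_union_le _ _)
  rw [← union_sdiff_distrib]
  exact sdiff_subset_sdiff (supp_add_subset y z) Subset.rfl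

theorem stage_zero_stg [Fintype F] {v : ι → V} {E X : Finset ι} {γ B M τ : ℕ}
    (𝒟 : Set (Finset ι)) (hγ : 1 ≤ γ) (hB : 1 ≤ B) (hX : #X ≤ 4 * γ)
    (hHA : ∀ 𝒬 : Finset (Finset ι), #𝒬 ≤ M → (∀ P ∈ 𝒬, 4 * γ ≤ 8 * #(P \ X)) →
      ∃ D ∈ 𝒟, Disjoint D X ∧ ∀ P ∈ 𝒬, ¬ Disjoint D P)
    (hW : #(words F v E ((B + 4) * γ)) ≤ M)
    (hτ : ∀ T, Shat (words F v E (5 * γ)) T → #T ≤ τ) :
    ∃ D ∈ 𝒟, ∃ I : Finset ι, Disjoint D X ∧ #I ≤ τ ∧ Gir F v ((E \ D) \ I) (B * γ) := by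
  obtain ⟨D, hD, hDX, hDP⟩ := hHA
    (((words F v E ((B + 4) * γ)).filter fun y => γ ≤ 2 * #(supp y \ X)).image
      fun y => supp y \ X)
    (card_image_le.trans ((card_filter_le _ _).trans hW)) (by
      intro P hP
      obtain ⟨y, hy, rfl⟩ := mem_image.1 hP
      have := (mem_filter.1 hy).2
      rw [Finset.sdiff_idem]
      omega)
  have hg : γ ≤ B * γ := Nat.le_mul_of_pos_left _ hB
  have key : ∀ y : ι → F, On (E \ D) y → ev F v y = 0 →
      2 * #(supp y \ X) < γ ∨ B * γ < #(supp y \ X) := by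
    intro y a1 a2
    by_contra hc
    rw [not_or, not_lt, not_lt] at hc
    have c1 : #(supp y) ≤ #(supp y \ X) + #X := card_le_card_sdiff_add_card
    have c2 : (B + 4) * γ = B * γ + 4 * γ := add_mul _ _ _
    refine hDP (supp y \ X) (mem_image.2 ⟨y, mem_filter.2
      ⟨mem_words.2 ⟨a1.mono sdiff_subset, a2, by omega⟩, hc.1⟩, rfl⟩) ?_
    refine disjoint_left.2 fun e b1 b2 => ?_
    exact mem_supp.1 (mem_sdiff.1 b2).1 (a1 e fun h => (mem_sdiff.1 h).2 b1)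
  let G : Submodule F (ι → F) :=
    { carrier := {y | On (E \ D) y ∧ ev F v y = 0 ∧ 2 * #(supp y \ X) < γ}
      zero_mem' := ⟨fun _ _ => rfl, map_zero _, by
        rw [supp_zero, empty_sdiff, card_empty]; omega⟩
      add_mem' := by
        rintro y z ⟨a1, a2, a3⟩ ⟨b1, b2, b3⟩
        have c2 : ev F v (y + z) = 0 := by rw [map_add, a2, b2, add_zero]
        refine ⟨a1.add b1, c2, ?_⟩
        have := key _ (a1.add b1) c2
        have := out_add_stg y z X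
        omega
      smul_mem' := by
        rintro c y ⟨a1, a2, a3⟩
        refine ⟨fun e he => by simp [a1 e he], by rw [map_smul, a2, smul_zero], ?_⟩
        have : #(supp (c • y) \ X) ≤ #(supp y \ X) :=
          card_le_card (sdiff_subset_sdiff (fun e he => by
            rw [mem_supp] at he ⊢
            exact fun h => he (by simp [h])) Subset.rfl)
        omega }
  obtain ⟨I, hI1, hI2⟩ := info_set G
  refine ⟨D, hD, I, hDX, hτ I ⟨fun _ => 1, fun _ => 0, fun _ _ => one_ne_zero, fun A _ => ?_⟩, ?_⟩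
  · obtain ⟨g, ⟨b1, b2, b3⟩, b4⟩ := hI1 fun t => if t ∈ A then 1 else 0
    have c1 : #(supp g) ≤ #(supp g \ X) + #X := card_le_card_sdiff_add_card
    exact ⟨g, mem_words.2 ⟨b1.mono sdiff_subset, b2, by omega⟩, b4⟩
  · intro y a1 a2 a3
    have a4 : On (E \ D) y := a1.mono sdiff_subset
    have a5 : #(supp y \ X) ≤ #(supp y) := card_le_card sdiff_subset
    rcases key y a4 a2 with h | h
    · exact absurd (hI2 y ⟨a4, a2, h⟩ fun e he => a1 e fun h' => (mem_sdiff.1 h').2 he) a3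
    · omega

/-- The stages of the enumeration. -/
theorem stages [Fintype F] {v : ι → V} {E X : Finset ι} {γ B A M τ s : ℕ} (𝒟 : Set (Finset ι))
    (hγ : 1 ≤ γ) (hB : 1 ≤ B) (hX : #X ≤ 4 * γ)
    (hHA : ∀ 𝒬 : Finset (Finset ι), #𝒬 ≤ M → (∀ P ∈ 𝒬, 4 * γ ≤ 8 * #(P \ X)) →
      ∃ D ∈ 𝒟, Disjoint D X ∧ ∀ P ∈ 𝒬, ¬ Disjoint D P)
    (hW : #(words F v E ((B + 4) * γ)) ≤ M)
    (hτ : ∀ T, Shat (words F v E (5 * γ)) T → #T ≤ τ)
    (hloc : ∀ i < s, ∀ E' ⊆ E, Gir F v E' (B * γ * A ^ i) → ∃ 𝒬 : Finset (Finset ι), #𝒬 ≤ M ∧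
      (∀ P ∈ 𝒬, 8 * γ ≤ #P) ∧ ∀ y : ι → F, On E' y → ev F v y = 0 → y ≠ 0 →
        #(supp y) ≤ B * γ * A ^ (i + 1) → ∃ P ∈ 𝒬, P ⊆ supp y) :
    ∃ (Ds : List (Finset ι)) (D I : Finset ι), Ds.length ≤ s + 1 ∧ (∀ D' ∈ Ds, D' ∈ 𝒟) ∧
      (∀ e, e ∈ D ↔ ∃ D' ∈ Ds, e ∈ D') ∧ Disjoint D X ∧ #I ≤ τ ∧
      Gir F v ((E \ D) \ I) (B * γ * A ^ s) := by
  obtain ⟨D0, hD0, I, hD0X, hI, hG0⟩ := stage_zero_stg 𝒟 hγ hB hX hHA hW hτ
  have main : ∀ i ≤ s, ∃ (Ds : List (Finset ι)) (D : Finset ι), Ds.length ≤ i + 1 ∧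
      (∀ D' ∈ Ds, D' ∈ 𝒟) ∧ (∀ e, e ∈ D ↔ ∃ D' ∈ Ds, e ∈ D') ∧ Disjoint D X ∧
      Gir F v ((E \ D) \ I) (B * γ * A ^ i) := by
    intro i
    induction i with
    | zero =>
      intro _
      refine ⟨[D0], D0, le_rfl, fun D' h => ?_, fun e => by simp, hD0X, by simpa using hG0⟩
      rw [List.mem_singleton.1 h]
      exact hD0
    | succ i ih =>
      intro hi
      obtain ⟨Ds, D, a1, a2, a3, a4, a5⟩ := ih (by omega)
      obtain ⟨𝒬, b1, b2, b3⟩ := hloc i (by omega) _ (sdiff_subset.trans sdiff_subset) a5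
      obtain ⟨D', c1, c2, c3⟩ := hHA 𝒬 b1 fun P hP => by
        have := b2 P hP
        have : #P ≤ #(P \ X) + #X := card_le_card_sdiff_add_card
        omega
      refine ⟨D' :: Ds, D' ∪ D, by rw [List.length_cons]; omega, fun D'' h => ?_, fun e => ?_,
        disjoint_union_left.2 ⟨c2, a4⟩, fun y d1 d2 d3 => ?_⟩
      · rcases List.mem_cons.1 h with rfl | h
        · exact c1
        · exact a2 _ h
      · rw [mem_union, a3]
        constructor
        · rintro (h | ⟨D'', h1, h2⟩)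
          · exact ⟨D', List.mem_cons_self, h⟩
          · exact ⟨D'', List.mem_cons_of_mem _ h1, h2⟩
        · rintro ⟨D'', h1, h2⟩
          rcases List.mem_cons.1 h1 with rfl | h1
          · exact Or.inl h2
          · exact Or.inr ⟨D'', h1, h2⟩
      · by_contra hc
        obtain ⟨P, e1, e2⟩ := b3 y (d1.mono (sdiff_subset_sdiff
          (sdiff_subset_sdiff Subset.rfl subset_union_right) Subset.rfl)) d2 d3 (by omega)
        refine c3 P e1 (disjoint_left.2 fun e f1 f2 => ?_)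
        exact mem_supp.1 (e2 f2) (d1 e fun h =>
          (mem_sdiff.1 (mem_sdiff.1 h).1).2 (mem_union_left _ f1))
  obtain ⟨Ds, D, a1, a2, a3, a4, a5⟩ := main s le_rfl
  exact ⟨Ds, D, I, a1, a2, a3, a4, hI, a5⟩

end Pool.Agent.P.MP_c2d640_lc

set_option autoImplicit false
set_option linter.unusedSectionVars false

/-! Arithmetic for the choice of the parameters. -/

namespace Pool.Agent.P.MP_c2d640_lc

open Finset Submodule Pool.Agent.P.MP_eb0bd2_lc
open scoped Classical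

theorem lb_mono_arith {x s t : ℕ} (h : x ≤ 2 ^ s) (hs : s ≤ t) : x ≤ 2 ^ t :=
  h.trans (Nat.pow_le_pow_right two_pos hs)

theorem lb_const_arith {x t : ℕ} (h : x ≤ t) : x ≤ 2 ^ t := h.trans Nat.lt_two_pow_self.le

theorem lb_mul_arith {x y s t : ℕ} (h : x ≤ 2 ^ s) (h' : y ≤ 2 ^ t) : x * y ≤ 2 ^ (s + t) := by
  rw [pow_add]
  exact Nat.mul_le_mul h h'

theorem lb_pow_arith {x s k K : ℕ} (h : x ≤ 2 ^ s) (hk : k ≤ K) : x ^ k ≤ 2 ^ (s * K) := by
  refine lb_mono_arith (s := s * k) ?_ (Nat.mul_le_mul_left s hk)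
  rw [pow_mul]
  exact Nat.pow_le_pow_left h k

theorem lb_add_arith {x y s : ℕ} (h : x ≤ 2 ^ s) (h' : y ≤ 2 ^ s) : x + y ≤ 2 ^ (s + 1) := by
  rw [pow_succ]
  omega

theorem lb_succ_arith {x s : ℕ} (h : x ≤ 2 ^ s) : x + 1 ≤ 2 ^ (s + 1) :=
  lb_add_arith h Nat.one_le_two_pow

theorem lb_succ_arith' {x s : ℕ} (h : x ≤ 2 ^ s) : 1 + x ≤ 2 ^ (s + 1) :=
  lb_add_arith Nat.one_le_two_pow h

theorem lam_bound_arith {q g a h τ μ T : ℕ} (h1 : 1 ≤ μ) (hT : 1 ≤ T) (hτ : τ ≤ T) (hq : q ≤ μ)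
    (hh : 8 * h ≤ μ) (hg : g ≤ a) (ha : a ≤ 2 ^ μ) : lLam q g a h τ ≤ 2 ^ (21 * (μ * T * T)) := by
  obtain ⟨u, hu⟩ : ∃ u, u = μ * T := ⟨_, rfl⟩
  have hμ : μ ≤ u := hu ▸ Nat.le_mul_of_pos_right μ hT
  have a1 : q ^ 2 ≤ 2 ^ (μ * 2) := lb_pow_arith (lb_const_arith hq) le_rfl
  have a2 : 2 * h * a ≤ 2 ^ (μ + μ) := lb_mul_arith (lb_const_arith (by omega)) ha
  have a3 : 1 + 2 * h * a * q ^ 2 ≤ 2 ^ (5 * μ) :=
    lb_mono_arith (lb_succ_arith' (lb_mul_arith a2 a1)) (by omega)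
  have a4 : (1 + 2 * h * a * q ^ 2) ^ τ ≤ 2 ^ (5 * u) := by
    rw [hu, ← mul_assoc]
    exact lb_pow_arith a3 hτ
  have a5 : lZeta q g a h τ ≤ 2 ^ (7 * u) :=
    lb_mono_arith (lb_add_arith (s := 6 * u) (lb_mono_arith a2 (by omega))
      (lb_mono_arith (lb_mul_arith a4 (hg.trans ha)) (by omega))) (by omega)
  have a6 : lTheta q g a h τ ≤ 2 ^ (8 * u) :=
    lb_mono_arith (lb_mul_arith (lb_const_arith hh) a5) (by omega)
  have a7 : lH q g a h τ ≤ 2 ^ (18 * u) :=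
    lb_mono_arith (lb_mul_arith (lb_mul_arith a6 (lb_succ_arith a6)) ha) (by omega)
  have a8 : 1 + lH q g a h τ * q ^ 2 ≤ 2 ^ (21 * u) :=
    lb_mono_arith (lb_succ_arith' (lb_mul_arith a7 a1)) (by omega)
  rw [← hu, ← mul_assoc]
  exact lb_pow_arith a8 hτ

theorem del_bound_arith {a h μ : ℕ} (h1 : 8 ≤ μ) (hh : 8 * h ≤ μ) (hh' : 2 ^ h ≤ μ)
    (ha : a ≤ 2 ^ μ) : lDel a h ≤ 2 ^ (5 * (μ * μ)) := by
  have a1 : μ ≤ μ * μ := Nat.le_mul_self μ
  have a2 : (a + 1) ^ 2 ^ h ≤ 2 ^ (2 * (μ * μ)) := by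
    rw [← mul_assoc]
    exact lb_pow_arith (lb_mono_arith (lb_succ_arith ha) (by omega)) hh'
  exact lb_mono_arith (lb_mul_arith (lb_mul_arith (lb_const_arith h1)
    (lb_pow_arith (lb_const_arith hh) le_rfl)) a2) (by omega)

theorem gam_bound (q h e C c : ℕ) : ∃ w, 9 ≤ w ∧ ∃ μ₀, ∀ μ, μ₀ ≤ μ → ∀ g a, g ≤ a → a ≤ 2 ^ μ →
    (2 * lLam q g a h (C * ((2 * h + 1) * μ) ^ c) * lDel a h) ^ (e * μ) ^ 2 ≤ 2 ^ μ ^ w := by
  refine ⟨4 * c + 9, by omega, q + 8 * h + e + C + 2 ^ h + 27, fun μ hμ g a hg ha => ?_⟩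
  have hp : 0 < 2 ^ h := Nat.two_pow_pos h
  have h1 : 1 ≤ μ := by omega
  obtain ⟨T, hT⟩ : ∃ T, T = μ * (μ * μ) ^ c := ⟨_, rfl⟩
  have t1 : μ ≤ T := hT ▸ Nat.le_mul_of_pos_right μ (by positivity)
  have t2 : C * ((2 * h + 1) * μ) ^ c ≤ T := hT ▸ Nat.mul_le_mul (by omega)
    (Nat.pow_le_pow_left (Nat.mul_le_mul_right μ (by omega)) c)
  have a1 := lam_bound_arith h1 (h1.trans t1) t2 (by omega : q ≤ μ) (by omega : 8 * h ≤ μ) hg ha
  have a2 := del_bound_arith (by omega) (by omega : 8 * h ≤ μ) (by omega) ha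
  have a3 : μ * μ ≤ μ * T * T :=
    (Nat.mul_le_mul_left μ t1).trans (Nat.le_mul_of_pos_right _ (by omega))
  have a4 : 1 ≤ μ * μ := Nat.mul_pos h1 h1
  have a5 : 27 * (μ * T * T) ≤ μ * (μ * T * T) := Nat.mul_le_mul_right _ (by omega)
  have a6 : 2 * lLam q g a h (C * ((2 * h + 1) * μ) ^ c) * lDel a h ≤ 2 ^ (μ * (μ * T * T)) :=
    lb_mono_arith (lb_mul_arith (lb_mul_arith (pow_one 2).ge a1) a2) (by omega)
  have a7 : (e * μ) ^ 2 ≤ (μ * μ) ^ 2 :=
    Nat.pow_le_pow_left (Nat.mul_le_mul_right μ (by omega)) 2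
  refine lb_mono_arith (lb_pow_arith a6 a7) ?_
  have a8 : μ * (μ * T * T) * (μ * μ) ^ 2 = μ ^ (4 * c + 8) := by
    rw [hT]
    ring
  rw [a8]
  exact Nat.pow_le_pow_right h1 (by omega)

theorem exists_scale (w k₀ : ℕ) (hw : 1 ≤ w) : ∃ n₀, ∀ n, n₀ < n → ∃ k, k₀ ≤ k ∧
    n ≤ 2 ^ 2 ^ (128 * k * w) ∧ 2 ^ 2 ^ (128 * k * w) ≤ (n + 2) ^ 2 ^ (128 * w) := by
  refine ⟨2 ^ 2 ^ (128 * k₀ * w), fun n hn => ?_⟩
  have hex : ∃ k, n ≤ 2 ^ 2 ^ (128 * k * w) :=
    ⟨n, lb_const_arith (lb_const_arith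
      ((by omega : n ≤ 128 * n).trans (Nat.le_mul_of_pos_right _ hw)))⟩
  have h1 := Nat.find_spec hex
  have h2 : k₀ < Nat.find hex := by
    by_contra hc
    have := lb_mono_arith h1 (Nat.pow_le_pow_right two_pos
      (Nat.mul_le_mul_right w (Nat.mul_le_mul_left 128 (not_lt.1 hc))))
    omega
  obtain ⟨k, hk⟩ : ∃ k, Nat.find hex = k + 1 := ⟨Nat.find hex - 1, by omega⟩
  have h3 := not_le.1 (Nat.find_min hex (by omega : k < Nat.find hex))
  refine ⟨Nat.find hex, h2.le, h1, ?_⟩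
  rw [hk, show 128 * (k + 1) * w = 128 * k * w + 128 * w by ring, pow_add, pow_mul]
  exact Nat.pow_le_pow_left (by omega) _

theorem small_stage (e w x : ℕ) : ∃ k₀, ∀ k, k₀ ≤ k → x ≤ 2 ^ (128 * k) ∧
    8 * e * 4 ^ (128 * k * w) * (2 ^ (128 * k)) ^ (w + 1) ≤ 2 ^ 2 ^ (128 * k) := by
  obtain ⟨L, hL⟩ := exists_pow_lt (8 * e + 3 * w + 1) 1
  refine ⟨L + x, fun k hk => ⟨lb_const_arith (by omega), ?_⟩⟩
  have h1 := hL (128 * k) (by omega)
  generalize 128 * k = t at h1 ⊢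
  refine lb_mono_arith (lb_mul_arith (lb_mul_arith (lb_const_arith le_rfl)
    (lb_pow_arith (s := 2) (by norm_num) le_rfl)) (lb_pow_arith le_rfl le_rfl))
    (le_trans ?_ h1.le)
  have h2 : (8 * e + 3 * w + 1) * (t + 1) ^ 1 =
      8 * e + 2 * (t * w) + t * (w + 1) + (8 * e * t + 3 * w + 1) := by ring
  omega

theorem small_sum (c w : ℕ) (hw : 1 ≤ w) : ∃ k₀, ∀ k, k₀ ≤ k → ∀ ℓ, ℓ = 2 ^ (128 * k * w) →
    3 * (2 * (c * ℓ) + 1 + 2 * (c * ℓ) * (128 * k * w)) ≤ 4 * 4 ^ (128 * k * w) := by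
  obtain ⟨L, hL⟩ := exists_pow_lt (3 * (2 * c + 1)) 1
  refine ⟨L, fun k hk ℓ hℓ => ?_⟩
  have h1 := hL (128 * k * w)
    ((by omega : L ≤ 128 * k).trans (Nat.le_mul_of_pos_right _ hw))
  generalize 128 * k * w = J at h1 hℓ ⊢
  have h2 : 4 ^ J = ℓ * ℓ := by rw [hℓ]; exact mul_pow 2 2 J
  have h3 : 1 ≤ ℓ := hℓ ▸ Nat.one_le_two_pow
  rw [← hℓ] at h1
  have h4 := Nat.mul_le_mul_left ℓ h1.le
  have h5 : ℓ * (3 * (2 * c + 1) * (J + 1) ^ 1) =
      3 * (2 * (c * ℓ) + ℓ + 2 * (c * ℓ) * J) + 3 * (ℓ * J) := by ring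
  omega

theorem length_bound (C s c q : ℕ) : ∃ C', ∀ ℓ n g D, 1 ≤ ℓ → n ≤ 2 ^ ℓ → g ≤ n →
    D ≤ ((n + 2) ^ C + 1) ^ 9 →
    g * n * ((D + 1) ^ s * (n * n) * (n * q + 1) ^ c) ≤ 2 ^ (C' * ℓ) := by
  refine ⟨4 + (18 * C + 10) * s + (q + 2) * c, fun ℓ n g D h1 hn hg hD => ?_⟩
  have a1 : n + 2 ≤ 2 ^ (2 * ℓ) :=
    lb_mono_arith (lb_add_arith hn (lb_mono_arith (pow_one 2).ge h1)) (by omega)
  have a2 : D + 1 ≤ 2 ^ ((18 * C + 10) * ℓ) := by
    refine lb_mono_arith (lb_succ_arith (hD.trans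
      (lb_pow_arith (lb_succ_arith (lb_pow_arith a1 le_rfl)) le_rfl))) ?_
    have : (18 * C + 10) * ℓ = 2 * ℓ * C * 9 + 10 * ℓ := by ring
    omega
  have a3 : n * q + 1 ≤ 2 ^ ((q + 2) * ℓ) := by
    refine lb_mono_arith (lb_succ_arith (lb_mul_arith hn (lb_const_arith le_rfl))) ?_
    have b1 : (q + 2) * ℓ = q * ℓ + 2 * ℓ := by ring
    have b2 : q ≤ q * ℓ := Nat.le_mul_of_pos_right q h1
    omega
  refine lb_mono_arith (lb_mul_arith (lb_mul_arith (hg.trans hn) hn) (lb_mul_arith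
    (lb_mul_arith (lb_pow_arith a2 le_rfl) (lb_mul_arith hn hn)) (lb_pow_arith a3 le_rfl)))
    (le_of_eq ?_)
  ring

end Pool.Agent.P.MP_c2d640_lc

set_option autoImplicit false
set_option linter.unusedSectionVars false

/-! Union bounds in product spaces. -/

namespace Pool.Agent.P.MP_c2d640_lc

open Finset Submodule
open scoped Classical

variable {F V ι : Type} [Field F] [AddCommGroup V] [Module F V] [Fintype ι] [DecidableEq ι]

theorem prod_update_mul {κ α : Type} [Fintype κ] [DecidableEq κ] (w : κ → α → ℝ) (i : κ)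
    (x : κ → α) (a : α) :
    (∏ j, w j (Function.update x i a j)) * w i (x i) = (∏ j, w j (x j)) * w i a := by
  rw [← Finset.mul_prod_erase univ (fun j => w j (Function.update x i a j)) (mem_univ i),
    ← Finset.mul_prod_erase univ (fun j => w j (x j)) (mem_univ i)]
  have h : ∏ j ∈ univ.erase i, w j (Function.update x i a j) = ∏ j ∈ univ.erase i, w j (x j) := by
    refine prod_congr rfl fun j hj => ?_
    rw [Function.update_of_ne (ne_of_mem_erase hj)]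
  rw [h, Function.update_self]
  ring

theorem resample {κ α : Type} [Fintype κ] [DecidableEq κ] [Fintype α] (w : κ → α → ℝ)
    (hw1 : ∀ i, ∑ a, w i a = 1) (i : κ) (f : (κ → α) → ℝ) :
    ∑ x : κ → α, (∏ j, w j (x j)) * f x =
      ∑ x : κ → α, (∏ j, w j (x j)) * ∑ a, w i a * f (Function.update x i a) := by
  have hinv : Function.Involutive
      (fun p : (κ → α) × α => ((Function.update p.1 i p.2, p.1 i) : (κ → α) × α)) := by
    rintro ⟨x, a⟩
    simp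
  have h1 : ∑ x : κ → α, (∏ j, w j (x j)) * f x =
      ∑ p : (κ → α) × α, (∏ j, w j (p.1 j)) * w i p.2 * f p.1 := by
    rw [Fintype.sum_prod_type]
    refine sum_congr rfl fun x _ => ?_
    have : ∑ a, (∏ j, w j (x j)) * w i a * f x = (∏ j, w j (x j)) * f x * ∑ a, w i a := by
      rw [mul_sum]
      exact sum_congr rfl fun a _ => by ring
    rw [this, hw1, mul_one]
  rw [h1, ← Equiv.sum_comp hinv.toPerm, Fintype.sum_prod_type]
  refine sum_congr rfl fun x _ => ?_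
  rw [mul_sum]
  refine sum_congr rfl fun a _ => ?_
  simp only [Function.Involutive.coe_toPerm]
  rw [prod_update_mul]
  ring

theorem product_lemma {κ α : Type} [Fintype κ] [DecidableEq κ] [Fintype α] (w : κ → α → ℝ)
    (hw0 : ∀ i a, 0 ≤ w i a) (hw1 : ∀ i, ∑ a, w i a = 1) (bad : κ → (κ → α) → Prop) (ε : ℝ)
    (hε : Fintype.card κ * ε < 1)
    (hb : ∀ (i : κ) (x : κ → α), (∀ j, w j (x j) ≠ 0) →
      ∑ a, (if bad i (Function.update x i a) then w i a else 0) ≤ ε) :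
    ∃ x : κ → α, (∀ i, w i (x i) ≠ 0) ∧ ∀ i, ¬ bad i x := by
  by_contra hcon
  push Not at hcon
  have hW0 : ∀ x : κ → α, 0 ≤ ∏ j, w j (x j) := fun x => prod_nonneg fun j _ => hw0 j _
  have hW1 : ∑ x : κ → α, ∏ j, w j (x j) = 1 := by
    rw [← Fintype.piFinset_univ, ← Finset.prod_univ_sum]
    simp [hw1]
  have hi : ∀ i, ∑ x : κ → α, (∏ j, w j (x j)) * (if bad i x then 1 else 0) ≤ ε := by
    intro i
    rw [resample w hw1 i]
    calc ∑ x : κ → α, (∏ j, w j (x j)) *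
          ∑ a, w i a * (if bad i (Function.update x i a) then (1 : ℝ) else 0)
        ≤ ∑ x : κ → α, (∏ j, w j (x j)) * ε := by
          refine sum_le_sum fun x _ => ?_
          by_cases hx : ∀ j, w j (x j) ≠ 0
          · refine mul_le_mul_of_nonneg_left ?_ (hW0 x)
            refine le_trans (le_of_eq ?_) (hb i x hx)
            refine sum_congr rfl fun a _ => ?_
            split_ifs <;> simp
          · push Not at hx
            obtain ⟨j, hj⟩ := hx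
            rw [prod_eq_zero (mem_univ j) hj]
            simp
      _ = ε := by rw [← sum_mul, hW1, one_mul]
  have hle : (1 : ℝ) ≤ ∑ i, ∑ x : κ → α, (∏ j, w j (x j)) * (if bad i x then 1 else 0) := by
    rw [sum_comm]
    refine le_trans (le_of_eq hW1.symm) (sum_le_sum fun x _ => ?_)
    rw [← mul_sum]
    by_cases hx : ∀ j, w j (x j) ≠ 0
    · obtain ⟨i, hi⟩ := hcon x hx
      have : (1 : ℝ) ≤ ∑ i, (if bad i x then (1 : ℝ) else 0) := by
        refine le_trans ?_ (single_le_sum (f := fun i => if bad i x then (1 : ℝ) else 0)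
          (fun j _ => by split_ifs <;> simp) (mem_univ i))
        simp [hi]
      exact le_trans (le_of_eq (mul_one _).symm) (mul_le_mul_of_nonneg_left this (hW0 x))
    · push Not at hx
      obtain ⟨j, hj⟩ := hx
      rw [prod_eq_zero (mem_univ j) hj]
      simp
  have : ∑ i, ∑ x : κ → α, (∏ j, w j (x j)) * (if bad i x then (1 : ℝ) else 0) ≤
      Fintype.card κ * ε := by
    refine le_trans (sum_le_sum fun i _ => hi i) ?_
    simp
  linarith

theorem exists_tuple {κ α : Type} [Fintype κ] [DecidableEq κ] [Fintype α] [DecidableEq α]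
    (L : Finset α) (bad : κ → (κ → α) → Finset α)
    (hinv : ∀ i x a, bad i (Function.update x i a) = bad i x) (r : ℕ)
    (hb : ∀ (i : κ) (x : κ → α), (∀ j, x j ∈ L) → #(L ∩ bad i x) ≤ r)
    (h : Fintype.card κ * r < #L) : ∃ x : κ → α, (∀ i, x i ∈ L) ∧ ∀ i, x i ∉ bad i x := by
  have hL : (0 : ℝ) < #L := by exact_mod_cast lt_of_le_of_lt (Nat.zero_le _) h
  have hne : ∀ a : α, (if a ∈ L then (1 : ℝ) / #L else 0) ≠ 0 → a ∈ L := by
    intro a ha
    by_contra hn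
    simp [hn] at ha
  obtain ⟨x, hx1, hx2⟩ := product_lemma (κ := κ) (fun _ a => if a ∈ L then (1 : ℝ) / #L else 0)
    (fun _ a => by split_ifs <;> positivity)
    (fun _ => by
      rw [← sum_filter, filter_mem_eq_inter, univ_inter, sum_const, nsmul_eq_mul]
      field_simp)
    (fun i x => x i ∈ bad i x) (r / #L)
    (by
      rw [← mul_div_assoc, div_lt_one hL]
      exact_mod_cast h)
    (fun i x hx => by
      have h1 := hb i x fun j => hne _ (hx j)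
      have h2 : ∑ a, (if Function.update x i a i ∈ bad i (Function.update x i a) then
          (if a ∈ L then (1 : ℝ) / #L else 0) else 0) =
          ∑ a, (if a ∈ L ∩ bad i x then (1 : ℝ) / #L else 0) := by
        refine sum_congr rfl fun a _ => ?_
        rw [hinv, Function.update_self]
        by_cases ha : a ∈ L <;> by_cases hb' : a ∈ bad i x <;> simp [ha, hb']
      refine le_trans (le_of_eq ?_) (le_trans (le_of_eq h2) ?_)
      · exact sum_congr rfl fun a _ => by split_ifs <;> rfl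
      · rw [← sum_filter, filter_mem_eq_inter, univ_inter, sum_const, nsmul_eq_mul, mul_one_div]
        exact div_le_div_of_nonneg_right (by exact_mod_cast h1) hL.le)
  exact ⟨x, fun i => hne _ (hx1 i), hx2⟩

theorem exists_pairs {κ α β : Type} [Fintype κ] [DecidableEq κ] [Fintype α] (𝒜 : κ → Finset α)
    (cl : α → Finset α) (Z : κ → (κ → α × α) → β)
    (hZ : ∀ i x p, Z i (Function.update x i p) = Z i x) (bad₁ : κ → β → Finset α)
    (bad₂ : β → α → Finset α) [DecidableEq α] (D : ℕ) (hD : 6 * Fintype.card κ < D)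
    (hA : ∀ i, (𝒜 i).Nonempty) (hcl : ∀ i, ∀ y ∈ 𝒜 i, (cl y).Nonempty)
    (h1 : ∀ (i : κ) (x : κ → α × α), (∀ j, (x j).1 ∈ 𝒜 j ∧ (x j).2 ∈ cl (x j).1) →
      D * #(𝒜 i ∩ bad₁ i (Z i x)) ≤ 3 * #(𝒜 i))
    (h2 : ∀ (i : κ) (x : κ → α × α), (∀ j, (x j).1 ∈ 𝒜 j ∧ (x j).2 ∈ cl (x j).1) →
      ∀ y ∈ 𝒜 i, y ∉ bad₁ i (Z i x) → D * #(cl y ∩ bad₂ (Z i x) y) ≤ 3 * #(cl y)) :
    ∃ x : κ → α × α, ∀ i, (x i).1 ∈ 𝒜 i ∧ (x i).2 ∈ cl (x i).1 ∧ (x i).1 ∉ bad₁ i (Z i x) ∧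
      (x i).2 ∉ bad₂ (Z i x) (x i).1 := by
  have hD0 : (0 : ℝ) < D := by exact_mod_cast lt_of_le_of_lt (Nat.zero_le _) hD
  have hA0 : ∀ i, (0 : ℝ) < #(𝒜 i) := fun i => by exact_mod_cast (hA i).card_pos
  have hc0 : ∀ i, ∀ y ∈ 𝒜 i, (0 : ℝ) < #(cl y) := fun i y hy => by
    exact_mod_cast (hcl i y hy).card_pos
  set w : κ → α × α → ℝ := fun i p =>
    if p.1 ∈ 𝒜 i ∧ p.2 ∈ cl p.1 then 1 / (#(𝒜 i) * #(cl p.1)) else 0 with hw
  have hne : ∀ i p, w i p ≠ 0 → p.1 ∈ 𝒜 i ∧ p.2 ∈ cl p.1 := by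
    intro i p hp
    by_contra hn
    exact hp (if_neg hn)
  have hw0 : ∀ i p, 0 ≤ w i p := fun i p => by
    simp only [hw]
    split_ifs <;> positivity
  have hrow : ∀ i y (T : Finset α), ∑ z, (if z ∈ T then w i (y, z) else 0) =
      if y ∈ 𝒜 i then (#(cl y ∩ T) : ℝ) / (#(𝒜 i) * #(cl y)) else 0 := by
    intro i y T
    by_cases hy : y ∈ 𝒜 i
    · rw [if_pos hy]
      have : ∑ z, (if z ∈ T then w i (y, z) else 0) =
          ∑ z, (if z ∈ cl y ∩ T then (1 : ℝ) / (#(𝒜 i) * #(cl y)) else 0) := by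
        refine sum_congr rfl fun z _ => ?_
        by_cases hz : z ∈ cl y <;> by_cases hz' : z ∈ T <;> simp [hw, hy, hz, hz']
      rw [this, ← sum_filter, filter_mem_eq_inter, univ_inter, sum_const, nsmul_eq_mul,
        mul_one_div]
    · rw [if_neg hy]
      exact sum_eq_zero fun z _ => by simp [hw, hy]
  have hrow1 : ∀ i y, ∑ z, w i (y, z) = if y ∈ 𝒜 i then (1 : ℝ) / #(𝒜 i) else 0 := by
    intro i y
    have h := hrow i y univ
    simp only [mem_univ, if_true, inter_univ] at h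
    rw [h]
    split_ifs with hy
    · have := hc0 i y hy
      have := hA0 i
      field_simp
    · rfl
  have hcount : ∀ (T : Finset α) (c : ℝ), ∑ y, (if y ∈ T then c else 0) = #T * c := by
    intro T c
    rw [← sum_filter, filter_mem_eq_inter, univ_inter, sum_const, nsmul_eq_mul]
  obtain ⟨x, hx1, hx2⟩ := product_lemma w hw0
    (fun i => by
      rw [Fintype.sum_prod_type, sum_congr rfl fun y _ => hrow1 i y, hcount]
      have := hA0 i
      field_simp)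
    (fun i x => (x i).1 ∈ bad₁ i (Z i x) ∨ (x i).2 ∈ bad₂ (Z i x) (x i).1) (6 / D)
    (by
      rw [← mul_div_assoc, div_lt_one hD0, mul_comm]
      exact_mod_cast hD)
    (fun i x hx => by
      have hx' := fun j => hne j _ (hx j)
      have ha := hA0 i
      rw [Fintype.sum_prod_type]
      have hy : ∀ y, ∑ z, (if (Function.update x i (y, z) i).1 ∈
            bad₁ i (Z i (Function.update x i (y, z))) ∨ (Function.update x i (y, z) i).2 ∈
            bad₂ (Z i (Function.update x i (y, z))) (Function.update x i (y, z) i).1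
            then w i (y, z) else 0) ≤
          (if y ∈ 𝒜 i ∩ bad₁ i (Z i x) then (1 : ℝ) / #(𝒜 i) else 0) +
            (if y ∈ 𝒜 i then 3 / (D * #(𝒜 i) : ℝ) else 0) := by
        intro y
        simp only [hZ, Function.update_self]
        by_cases hb : y ∈ bad₁ i (Z i x)
        · simp only [hb, true_or, if_true, mem_inter, and_true]
          rw [hrow1]
          have : (0 : ℝ) ≤ if y ∈ 𝒜 i then 3 / (D * #(𝒜 i) : ℝ) else 0 := by
            split_ifs <;> positivity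
          linarith
        · simp only [hb, false_or, mem_inter, and_false, if_false, zero_add]
          rw [hrow]
          split_ifs with hyA
          · have hc := hc0 i y hyA
            have h3 : (D : ℝ) * #(cl y ∩ bad₂ (Z i x) y) ≤ 3 * #(cl y) := by
              exact_mod_cast h2 i x hx' y hyA hb
            rw [div_le_div_iff₀ (by positivity) (by positivity)]
            nlinarith [mul_le_mul_of_nonneg_left h3 ha.le]
          · exact le_rfl
      refine le_trans (sum_le_sum fun y _ => le_trans (le_of_eq ?_) (hy y)) ?_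
      · exact sum_congr rfl fun z _ => by split_ifs <;> rfl
      · rw [sum_add_distrib, hcount, hcount]
        have h3 : (D : ℝ) * #(𝒜 i ∩ bad₁ i (Z i x)) ≤ 3 * #(𝒜 i) := by
          exact_mod_cast h1 i x hx'
        have e1 : (#(𝒜 i ∩ bad₁ i (Z i x)) : ℝ) * (1 / #(𝒜 i)) ≤ 3 / D := by
          rw [mul_one_div, div_le_div_iff₀ ha hD0]
          linarith
        have e2 : (#(𝒜 i) : ℝ) * (3 / (D * #(𝒜 i))) = 3 / D := by field_simp
        have e3 : (6 : ℝ) / D = 3 / D + 3 / D := by ring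
        linarith)
  refine ⟨x, fun i => ?_⟩
  have h := hx2 i
  push Not at h
  exact ⟨(hne i _ (hx1 i)).1, (hne i _ (hx1 i)).2, h.1, h.2⟩

end Pool.Agent.P.MP_c2d640_lc

set_option autoImplicit false
set_option linter.unusedSectionVars false

/-! Counting lemmas. -/

namespace Pool.Agent.P.MP_c2d640_lc

open Finset Submodule
open scoped Classical

variable {F V ι : Type} [Field F] [AddCommGroup V] [Module F V] [Fintype ι] [DecidableEq ι]

theorem double_comb {α β : Type} (A : Finset α) (B : Finset β) (r : α → β → Prop)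
    [∀ a b, Decidable (r a b)] :
    ∑ a ∈ A, #(B.filter fun b => r a b) = ∑ b ∈ B, #(A.filter fun a => r a b) := by
  simp only [card_filter]
  exact sum_comm

theorem card_heavy_le {α : Type} {Θ r : ℕ} {𝒯 : Finset α} {Q : α → Finset ι}
    (h : ∀ y ∈ 𝒯, #(Q y) ≤ r) : #(heavy Θ 𝒯 Q) ≤ Θ * r := by
  rcases Nat.eq_zero_or_pos #𝒯 with h0 | h0
  · have : heavy Θ 𝒯 Q = ∅ := by
      rw [card_eq_zero.1 h0]
      simp [heavy]
    simp [this]
  refine Nat.le_of_mul_le_mul_right ?_ h0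
  have h1 : ∑ e ∈ heavy Θ 𝒯 Q, #(𝒯.filter fun y => e ∈ Q y) ≤ #𝒯 * r := by
    rw [double_comb (heavy Θ 𝒯 Q) 𝒯 fun e y => e ∈ Q y]
    refine sum_le_card_nsmul _ _ _ fun y hy => le_trans (card_le_card fun e he => ?_) (h y hy)
    exact (mem_filter.1 he).2
  calc #(heavy Θ 𝒯 Q) * #𝒯 ≤ ∑ e ∈ heavy Θ 𝒯 Q, Θ * #(𝒯.filter fun y => e ∈ Q y) :=
        card_nsmul_le_sum _ _ _ fun e he => (mem_filter.1 he).2.le
    _ ≤ Θ * (#𝒯 * r) := by
        rw [← mul_sum]
        exact Nat.mul_le_mul_left _ h1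
    _ = Θ * r * #𝒯 := by ring

theorem card_meet_le {α : Type} (Θ : ℕ) (𝒯 : Finset α) (Q : α → Finset ι) (Z : Finset ι) :
    Θ * #(𝒯.filter fun y => ¬ Disjoint (Z \ heavy Θ 𝒯 Q) (Q y)) ≤ #Z * #𝒯 := by
  have h1 : #(𝒯.filter fun y => ¬ Disjoint (Z \ heavy Θ 𝒯 Q) (Q y)) ≤
      ∑ e ∈ Z \ heavy Θ 𝒯 Q, #(𝒯.filter fun y => e ∈ Q y) := by
    refine le_trans (card_le_card fun y hy => ?_) card_biUnion_le
    obtain ⟨h2, h3⟩ := mem_filter.1 hy
    obtain ⟨e, h4, h5⟩ := not_disjoint_iff.1 h3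
    exact mem_biUnion.2 ⟨e, h4, mem_filter.2 ⟨h2, h5⟩⟩
  refine (Nat.mul_le_mul_left _ h1).trans ?_
  rw [mul_sum]
  refine (sum_le_card_nsmul _ _ #𝒯 fun e he => ?_).trans
    (Nat.mul_le_mul_right _ (card_le_card sdiff_subset))
  by_contra hc
  exact (mem_sdiff.1 he).2 (mem_filter.2 ⟨mem_univ _, not_le.1 hc⟩)

/-- Either some word has a small non-empty support on `S`, or one coordinate controls `S`. -/
theorem one_dim [Fintype F] (U : Submodule F (ι → F)) (S : Finset ι) :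
    (∃ w ∈ U, (∃ e ∈ S, w e ≠ 0) ∧
      (Fintype.card F + 1) * #(supp w ∩ S) ≤ Fintype.card F * #S) ∨
    ∃ I : Finset ι, #I ≤ 1 ∧ ∀ w ∈ U, (∀ e ∈ I, w e = 0) → ∀ e ∈ S, w e = 0 := by
  refine or_iff_not_imp_right.2 fun h => ?_
  push Not at h
  obtain ⟨w1, h1, -, e1, he1, h2⟩ := h ∅ (by simp)
  obtain ⟨w2, h3, h4, e2, he2, h5⟩ := h {e1} (by simp)
  have h6 := h4 e1 (mem_singleton_self e1)
  obtain ⟨w, hw0, hw1⟩ : ∃ w : Option F → ι → F, w none = w2 ∧ ∀ c, w (some c) = w1 + c • w2 :=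
    ⟨fun o => o.elim w2 fun c => w1 + c • w2, rfl, fun _ => rfl⟩
  have h7 : ∑ o : Option F, #(S.filter fun e => w o e ≠ 0) ≤ #S * Fintype.card F := by
    rw [double_comb univ S fun o e => w o e ≠ 0]
    refine sum_le_card_nsmul _ _ _ fun e _ => ?_
    obtain ⟨o, ho⟩ : ∃ o, w o e = 0 := by
      by_cases h8 : w2 e = 0
      · exact ⟨none, by rw [hw0, h8]⟩
      · refine ⟨some (-w1 e / w2 e), ?_⟩
        rw [hw1, Pi.add_apply, Pi.smul_apply, smul_eq_mul, div_mul_cancel₀ _ h8, add_neg_cancel]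
    have h9 : #(univ.filter fun o : Option F => w o e ≠ 0) ≤ #(univ.erase o) :=
      card_le_card fun x hx => mem_erase.2 ⟨fun k => (mem_filter.1 hx).2 (k ▸ ho), mem_univ _⟩
    rwa [card_erase_of_mem (mem_univ _), card_univ, Fintype.card_option, Nat.add_sub_cancel] at h9
  obtain ⟨o, -, ho⟩ := exists_le_of_sum_le (s := (univ : Finset (Option F))) univ_nonempty
    (f := fun o => (Fintype.card F + 1) * #(S.filter fun e => w o e ≠ 0))
    (g := fun _ => Fintype.card F * #S) (by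
      rw [← mul_sum, sum_const, card_univ, Fintype.card_option, smul_eq_mul,
        mul_comm (Fintype.card F) #S]
      exact Nat.mul_le_mul_left _ h7)
  refine ⟨w o, ?_, ?_, le_trans (Nat.mul_le_mul_left _ (card_le_card fun e he => ?_)) ho⟩
  · cases o with
    | none => rwa [hw0]
    | some c => exact hw1 c ▸ U.add_mem h1 (U.smul_mem c h3)
  · cases o with
    | none => exact ⟨e2, he2, by rwa [hw0]⟩
    | some c => exact ⟨e1, he1, by rwa [hw1, Pi.add_apply, Pi.smul_apply, h6, smul_zero, add_zero]⟩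
  · exact mem_filter.2 ⟨(mem_inter.1 he).2, mem_supp.1 (mem_inter.1 he).1⟩

/-- A most popular small set. -/
theorem exists_best {α : Type} (p : α → Finset ι → Prop) (z : ℕ) :
    ∃ best : Finset α → Finset ι, ∀ 𝒯, #(best 𝒯) ≤ z ∧ ∀ Z : Finset ι, #Z ≤ z →
      #(𝒯.filter fun y => p y Z) ≤ #(𝒯.filter fun y => p y (best 𝒯)) := by
  have h : ∀ 𝒯 : Finset α, ∃ B : Finset ι, #B ≤ z ∧ ∀ Z : Finset ι, #Z ≤ z →
      #(𝒯.filter fun y => p y Z) ≤ #(𝒯.filter fun y => p y B) := fun 𝒯 => by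
    obtain ⟨B, h1, h2⟩ := exists_max_image (univ.filter fun Z : Finset ι => #Z ≤ z)
      (fun Z => #(𝒯.filter fun y => p y Z)) ⟨∅, by simp⟩
    exact ⟨B, (mem_filter.1 h1).2, fun Z hZ => h2 Z (mem_filter.2 ⟨mem_univ _, hZ⟩)⟩
  choose best hb using h
  exact ⟨best, hb⟩

end Pool.Agent.P.MP_c2d640_lc

set_option autoImplicit false
set_option linter.unusedSectionVars false

/-! More counting lemmas. -/

namespace Pool.Agent.P.MP_c2d640_lc

open Finset Submodule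
open scoped Classical

variable {F V ι : Type} [Field F] [AddCommGroup V] [Module F V] [Fintype ι] [DecidableEq ι]

theorem card_small_subsets (L : Finset ι) (N : ℕ) :
    #(L.powerset.filter fun a => #a ≤ N) ≤ (#L + 1) ^ N := by
  induction N with
  | zero =>
    rw [pow_zero, card_le_one]
    intro a ha b hb
    have h1 := (mem_filter.1 ha).2
    have h2 := (mem_filter.1 hb).2
    rw [Nat.le_zero, card_eq_zero] at h1 h2
    rw [h1, h2]
  | succ N ih =>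
    have hs : (L.powerset.filter fun a => #a ≤ N + 1) ⊆ (L.powerset.filter fun a => #a ≤ N) ∪
        (L ×ˢ L.powerset.filter fun a => #a ≤ N).image fun p => insert p.1 p.2 := by
      intro a ha
      obtain ⟨h1, h2⟩ := mem_filter.1 ha
      rw [mem_powerset] at h1
      rcases a.eq_empty_or_nonempty with rfl | ⟨e, he⟩
      · exact mem_union_left _ (mem_filter.2 ⟨empty_mem_powerset _, by simp⟩)
      · refine mem_union_right _ (mem_image.2 ⟨(e, a.erase e), mem_product.2 ⟨h1 he, ?_⟩,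
          insert_erase he⟩)
        refine mem_filter.2 ⟨mem_powerset.2 ((erase_subset _ _).trans h1), ?_⟩
        rw [card_erase_of_mem he]
        omega
    have h1 := (card_le_card hs).trans (card_union_le _ _)
    have h2 := card_image_le (s := L ×ˢ L.powerset.filter fun a => #a ≤ N)
      (f := fun p : ι × Finset ι => insert p.1 p.2)
    rw [card_product] at h2
    calc _ ≤ #(L.powerset.filter fun a => #a ≤ N) +
          #L * #(L.powerset.filter fun a => #a ≤ N) := by omega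
      _ = (#L + 1) * #(L.powerset.filter fun a => #a ≤ N) := by ring
      _ ≤ (#L + 1) * (#L + 1) ^ N := Nat.mul_le_mul_left _ ih
      _ = (#L + 1) ^ (N + 1) := by ring

theorem dcount_gen {α γ : Type} [DecidableEq α] (A : Finset γ) (T : γ → Finset α) (X : Finset α)
    (D m : ℕ) (hm : ∀ x ∈ X, #(A.filter fun a => x ∈ T a) ≤ m)
    (hb : ∀ a ∈ A, #(T a) ≤ D * #(T a ∩ X)) : #(A.biUnion T) ≤ D * m * #X := by
  have h1 : ∑ a ∈ A, #(T a ∩ X) = ∑ x ∈ X, #(A.filter fun a => x ∈ T a) := by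
    have := sum_card_bipartiteAbove_eq_sum_card_bipartiteBelow (s := A) (t := X)
      fun a x => x ∈ T a
    simp only [bipartiteAbove, bipartiteBelow] at this
    rw [← this]
    refine sum_congr rfl fun a _ => ?_
    rw [filter_mem_eq_inter, inter_comm]
  calc #(A.biUnion T) ≤ ∑ a ∈ A, #(T a) := card_biUnion_le
    _ ≤ ∑ a ∈ A, D * #(T a ∩ X) := sum_le_sum hb
    _ = D * ∑ x ∈ X, #(A.filter fun a => x ∈ T a) := by rw [← mul_sum, h1]
    _ ≤ D * (#X * m) := Nat.mul_le_mul_left _ (by simpa using sum_le_card_nsmul X _ m hm)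
    _ = D * m * #X := by ring

/-- Few elements lie in a class in which `X` has density above `1 / D`. -/
theorem card_badcl {α β : Type} [DecidableEq α] [DecidableEq β] (𝒮 X : Finset α) (f : α → β)
    (D : ℕ) : #(𝒮.filter fun y => #(𝒮.filter fun y' => f y' = f y) <
      D * #(𝒮.filter (fun y' => f y' = f y) ∩ X)) ≤ D * #X := by
  have h := dcount_gen ((𝒮.image f).filter fun b => #(𝒮.filter fun y' => f y' = b) <
      D * #(𝒮.filter (fun y' => f y' = b) ∩ X)) (fun b => 𝒮.filter fun y' => f y' = b) X D 1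
    (by
      intro x _
      rw [card_le_one]
      intro a ha b hb
      rw [← (mem_filter.1 (mem_filter.1 ha).2).2, ← (mem_filter.1 (mem_filter.1 hb).2).2])
    fun a ha => (mem_filter.1 ha).2.le
  rw [mul_one] at h
  refine (card_le_card fun y hy => ?_).trans h
  obtain ⟨h1, h2⟩ := mem_filter.1 hy
  exact mem_biUnion.2 ⟨f y, mem_filter.2 ⟨mem_image_of_mem _ h1, h2⟩, mem_filter.2 ⟨h1, rfl⟩⟩

/-- Few elements contain a pin set in whose link `X` has density above `1 / D`. -/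
theorem card_spoiled {α : Type} [DecidableEq α] (𝒮 X : Finset α) (L : α → Finset ι) (D N r : ℕ)
    (hL : ∀ y ∈ 𝒮, #(L y) ≤ r) :
    #(𝒮.filter fun y => ∃ a : Finset ι, #a ≤ N ∧ a ⊆ L y ∧ #(𝒮.filter fun y' => a ⊆ L y') <
      D * #(𝒮.filter (fun y' => a ⊆ L y') ∩ X)) ≤ D * (r + 1) ^ N * #X := by
  have h := dcount_gen ((univ : Finset (Finset ι)).filter fun a => #a ≤ N ∧
      #(𝒮.filter fun y' => a ⊆ L y') < D * #(𝒮.filter (fun y' => a ⊆ L y') ∩ X))
    (fun a => 𝒮.filter fun y' => a ⊆ L y') X D ((r + 1) ^ N)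
    (by
      intro x _
      by_cases hx : x ∈ 𝒮
      · refine (card_le_card (t := (L x).powerset.filter fun a => #a ≤ N) fun a ha => ?_).trans
          ((card_small_subsets (L x) N).trans
            (Nat.pow_le_pow_left (Nat.succ_le_succ (hL x hx)) N))
        obtain ⟨h1, h2⟩ := mem_filter.1 ha
        exact mem_filter.2 ⟨mem_powerset.2 (mem_filter.1 h2).2, (mem_filter.1 h1).2.1⟩
      · rw [filter_eq_empty_iff.2 fun a _ ha => hx (mem_filter.1 ha).1]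
        simp)
    fun a ha => (mem_filter.1 ha).2.2.le
  refine (card_le_card fun y hy => ?_).trans h
  obtain ⟨h1, a, h2, h3, h4⟩ := mem_filter.1 hy
  exact mem_biUnion.2 ⟨a, mem_filter.2 ⟨mem_univ _, h2, h4⟩, mem_filter.2 ⟨h1, h3⟩⟩

theorem dcount_half {α β : Type} [DecidableEq β] (ok : β → Prop) (c : β → α → Prop) (Γ : ℕ)
    (𝒴₀ : Finset α)
    (h : ∀ 𝒴 ⊆ 𝒴₀, 𝒴.Nonempty → ∃ P, ok P ∧ #𝒴 ≤ Γ * #(𝒴.filter fun y => c P y)) (i : ℕ) :
    ∃ 𝒬 : Finset β, #𝒬 ≤ i ∧ (∀ P ∈ 𝒬, ok P) ∧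
      (2 * #(𝒴₀.filter fun y => ∀ P ∈ 𝒬, ¬c P y) ≤ #𝒴₀ ∨
        2 * Γ * #(𝒴₀.filter fun y => ∀ P ∈ 𝒬, ¬c P y) + i * #𝒴₀ ≤ 2 * Γ * #𝒴₀) := by
  induction i with
  | zero =>
    refine ⟨∅, by simp, by simp, Or.inr ?_⟩
    rw [zero_mul, add_zero]
    exact Nat.mul_le_mul_left _ (card_filter_le _ _)
  | succ i ih =>
    obtain ⟨𝒬, h1, h2, h3⟩ := ih
    by_cases h4 : 2 * #(𝒴₀.filter fun y => ∀ P ∈ 𝒬, ¬c P y) ≤ #𝒴₀
    · exact ⟨𝒬, by omega, h2, Or.inl h4⟩
    · have h5 := h3.resolve_left h4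
      set R := 𝒴₀.filter fun y => ∀ P ∈ 𝒬, ¬c P y with hR
      obtain ⟨P, hP, hc⟩ := h R (filter_subset _ _) (card_pos.1 (by omega))
      refine ⟨insert P 𝒬, (card_insert_le _ _).trans (by omega), ?_, Or.inr ?_⟩
      · intro Q hQ
        rcases mem_insert.1 hQ with rfl | hQ
        · exact hP
        · exact h2 Q hQ
      · have e : (𝒴₀.filter fun y => ∀ Q ∈ insert P 𝒬, ¬c Q y) = R.filter fun y => ¬c P y := by
          ext y
          simp only [hR, mem_filter, forall_mem_insert]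
          tauto
        have e2 := card_filter_add_card_filter_not (s := R) fun y => c P y
        rw [e]
        rw [← e2] at h5
        nlinarith

/-- Greedy covering. -/
theorem greedy_cover {α β : Type} [DecidableEq β] (ok : β → Prop) (c : β → α → Prop) (Γ : ℕ)
    (𝒴₀ : Finset α)
    (h : ∀ 𝒴 ⊆ 𝒴₀, 𝒴.Nonempty → ∃ P, ok P ∧ #𝒴 ≤ Γ * #(𝒴.filter fun y => c P y)) (r : ℕ)
    (hr : #𝒴₀ < 2 ^ r) :
    ∃ 𝒬 : Finset β, #𝒬 ≤ Γ * r ∧ (∀ P ∈ 𝒬, ok P) ∧ ∀ y ∈ 𝒴₀, ∃ P ∈ 𝒬, c P y := by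
  induction r generalizing 𝒴₀ with
  | zero =>
    have : 𝒴₀ = ∅ := card_eq_zero.1 (by simpa using hr)
    subst this
    exact ⟨∅, by simp, by simp, by simp⟩
  | succ r ih =>
    rcases 𝒴₀.eq_empty_or_nonempty with rfl | hne
    · exact ⟨∅, by simp, by simp, by simp⟩
    have hΓ : 0 < Γ := by
      obtain ⟨P, -, hc⟩ := h 𝒴₀ Subset.rfl hne
      have := card_pos.2 hne
      rcases Nat.eq_zero_or_pos Γ with rfl | h0
      · omega
      · exact h0
    obtain ⟨𝒬, h1, h2, h3⟩ := dcount_half ok c Γ 𝒴₀ h Γ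
    set R := 𝒴₀.filter fun y => ∀ P ∈ 𝒬, ¬c P y with hR
    have h4 : 2 * #R ≤ #𝒴₀ := by
      rcases h3 with h3 | h3
      · exact h3
      · refine Nat.le_of_mul_le_mul_left ?_ hΓ
        nlinarith
    obtain ⟨𝒬', g1, g2, g3⟩ := ih R (fun 𝒴 h𝒴 => h 𝒴 (h𝒴.trans (filter_subset _ _)))
      (by rw [pow_succ] at hr; omega)
    refine ⟨𝒬 ∪ 𝒬', (card_union_le _ _).trans (by rw [Nat.mul_succ]; omega), ?_, ?_⟩
    · intro P hP
      rcases mem_union.1 hP with hP | hP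
      · exact h2 P hP
      · exact g2 P hP
    · intro y hy
      by_cases hc : ∀ P ∈ 𝒬, ¬c P y
      · obtain ⟨P, hP, hc⟩ := g3 y (mem_filter.2 ⟨hy, hc⟩)
        exact ⟨P, mem_union_right _ hP, hc⟩
      · push Not at hc
        obtain ⟨P, hP, hc⟩ := hc
        exact ⟨P, mem_union_left _ hP, hc⟩

end Pool.Agent.P.MP_c2d640_lc

set_option autoImplicit false
set_option linter.unusedSectionVars false

/-! The two moves of the locating argument. -/

namespace Pool.Agent.P.MP_c2d640_lc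

open Finset Submodule
open scoped Classical

variable {F V ι : Type} [Field F] [AddCommGroup V] [Module F V] [Fintype ι] [DecidableEq ι]

variable [Fintype F] {U : Submodule F (ι → F)} {𝒴 𝒮 : Finset (ι → F)} {φ : (ι → F) → ι → F}
  {K : (ι → F) → Finset ι} {g a b τ s σ M : ℕ}

theorem traces_le_moves (ht : Traces U b τ) {S : Finset ι} {H : ℕ} (hS : #S ≤ H)
    (𝒲 : Finset (ι → F)) (h : ∀ y ∈ 𝒲, y ∈ U ∧ #(supp y) ≤ b) :
    #(𝒲.image (res S)) ≤ (1 + H * Fintype.card F ^ 2) ^ τ :=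
  (ht S 𝒲 h).trans (Nat.pow_le_pow_left (Nat.add_le_add_left (Nat.mul_le_mul_right _ hS) 1) τ)

theorem supp_res_compl_moves (S : Finset ι) (y : ι → F) : supp (res Sᶜ y) = supp y \ S := by
  rw [supp_res, sdiff_eq_inter_compl]

theorem res_compl_moves (S : Finset ι) (y : ι → F) : res Sᶜ y = y - res S y := by
  funext e
  by_cases h : e ∈ S <;> simp [res, h]

theorem res_sub_moves (S : Finset ι) (y z : ι → F) : res S (y - z) + res S z = res S y := by
  funext e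
  by_cases h : e ∈ S <;> simp [res, h]

theorem card_plus_le (hd : Dist U g) (ht : Traces U b τ) {Z : Finset ι} {z : ℕ} (hz : #Z ≤ z)
    (hb : z + g ≤ b) : #(plus U g Z) ≤ z + (1 + z * Fintype.card F ^ 2) ^ τ * g := by
  obtain ⟨𝒲, h𝒲⟩ : ∃ 𝒲 : Finset (ι → F),
      𝒲 = univ.filter fun w : ι → F => w ∈ U ∧ 2 * #(supp w \ Z) < g := ⟨_, rfl⟩
  have hm : ∀ w, w ∈ 𝒲 ↔ w ∈ U ∧ 2 * #(supp w \ Z) < g := fun w => by simp [h𝒲]
  have hinj : Set.InjOn (res Z) (𝒲 : Set (ι → F)) := by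
    intro w hw w' hw' e
    obtain ⟨a1, a2⟩ := (hm w).1 hw
    obtain ⟨b1, b2⟩ := (hm w').1 hw'
    by_contra hne
    have c1 := hd _ (U.sub_mem a1 b1) (sub_ne_zero.2 hne)
    have c2 : supp (w - w') ⊆ (supp w \ Z) ∪ (supp w' \ Z) := by
      intro x hx
      have hxZ : x ∉ Z := fun hxZ => by
        have := congrFun e x
        simp only [res, if_pos hxZ] at this
        exact mem_supp.1 hx (sub_eq_zero.2 this)
      rcases mem_union.1 (supp_sub_subset w w' hx) with k | k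
      · exact mem_union_left _ (mem_sdiff.2 ⟨k, hxZ⟩)
      · exact mem_union_right _ (mem_sdiff.2 ⟨k, hxZ⟩)
    have c3 := (card_le_card c2).trans (card_union_le _ _)
    omega
  have h1 : #𝒲 ≤ (1 + z * Fintype.card F ^ 2) ^ τ := by
    rw [← card_image_of_injOn hinj]
    refine traces_le_moves ht hz 𝒲 fun w hw => ⟨((hm w).1 hw).1, ?_⟩
    have c1 := ((hm w).1 hw).2
    have c2 : #(supp w) ≤ #(supp w \ Z) + #Z := card_le_card_sdiff_add_card
    omega
  have h2 : plus U g Z ⊆ Z ∪ 𝒲.biUnion fun w => supp w \ Z := by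
    intro x hx
    by_cases hxZ : x ∈ Z
    · exact mem_union_left _ hxZ
    · unfold plus at hx
      rw [← h𝒲] at hx
      obtain ⟨w, hw, hx'⟩ := mem_biUnion.1 ((mem_union.1 hx).resolve_left hxZ)
      exact mem_union_right _ (mem_biUnion.2 ⟨w, hw, mem_sdiff.2 ⟨hx', hxZ⟩⟩)
  have h3 : #(𝒲.biUnion fun w => supp w \ Z) ≤ #𝒲 * g :=
    card_biUnion_le_card_mul _ _ _ fun w hw => by
      have := ((hm w).1 hw).2
      omega
  exact ((card_le_card h2).trans (card_union_le _ _)).trans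
    (Nat.add_le_add hz (h3.trans (Nat.mul_le_mul_right _ h1)))

theorem card_located_le (ht : Traces U b τ) (h𝒴 : ∀ y ∈ 𝒴, y ∈ U ∧ #(supp y) ≤ b) {u Γ H : ℕ}
    (hno : ∀ P : Finset ι, u ≤ #P → Γ * #(𝒴.filter fun y => P ⊆ supp y) ≤ #𝒴)
    (ℋ : Finset (Finset ι)) (hH : ∀ S ∈ ℋ, #S ≤ H) :
    Γ * #(𝒴.filter fun y => ∃ S ∈ ℋ, u ≤ #(supp y ∩ S)) ≤
      #ℋ * (1 + H * Fintype.card F ^ 2) ^ τ * #𝒴 := by
  have h1 : (𝒴.filter fun y => ∃ S ∈ ℋ, u ≤ #(supp y ∩ S)) ⊆ ℋ.biUnion fun S =>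
      ((𝒴.image (res S)).filter fun r => u ≤ #(supp r)).biUnion fun r =>
        𝒴.filter fun y => supp r ⊆ supp y := by
    intro y hy
    obtain ⟨a1, S, a2, a3⟩ := mem_filter.1 hy
    refine mem_biUnion.2 ⟨S, a2, mem_biUnion.2 ⟨res S y, mem_filter.2
      ⟨mem_image_of_mem _ a1, by rwa [supp_res]⟩, mem_filter.2 ⟨a1, ?_⟩⟩⟩
    rw [supp_res]
    exact inter_subset_left
  refine (Nat.mul_le_mul_left Γ ((card_le_card h1).trans card_biUnion_le)).trans ?_
  rw [mul_sum, mul_assoc, ← smul_eq_mul (#ℋ)]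
  refine sum_le_card_nsmul _ _ _ fun S hS => ?_
  refine (Nat.mul_le_mul_left Γ card_biUnion_le).trans ?_
  rw [mul_sum]
  refine (sum_le_card_nsmul _ _ (#𝒴) fun r hr => hno _ (mem_filter.1 hr).2).trans ?_
  rw [smul_eq_mul]
  exact Nat.mul_le_mul_right _ ((card_filter_le _ _).trans (traces_le_moves ht (hH S hS) 𝒴 h𝒴))

theorem St.strip (h : St U 𝒴 g a 𝒮 φ K s σ M) (ht : Traces U b τ) (hb : 2 * a ≤ b) {Θ H : ℕ}
    (hH : Θ * a ≤ H) (σ' : ℕ) : ∃ φ' K', St U 𝒴 g a (big U Θ σ' 𝒮 φ K) φ' K' (s - (σ' + 1)) σ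
      (M * (1 + H * Fintype.card F ^ 2) ^ τ) := by
  have hsub : big U Θ σ' 𝒮 φ K ⊆ 𝒮 := filter_subset _ _
  have hup : ∀ y ∈ 𝒮, #(supp (φ y)) ≤ a := fun y hy =>
    (card_le_card subset_union_left).trans (h.up y hy)
  have hU : ∀ y, supp (res (hvy U Θ 𝒮 φ K y)ᶜ (φ y)) ∪
      (K y ∪ supp (res (hvy U Θ 𝒮 φ K y) (φ y))) = supp (φ y) ∪ K y := by
    intro y
    rw [supp_res_compl_moves, supp_res, union_left_comm, sdiff_union_inter, union_comm]
  refine ⟨fun y => res (hvy U Θ 𝒮 φ K y)ᶜ (φ y),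
    fun y => K y ∪ supp (res (hvy U Θ 𝒮 φ K y) (φ y)), hsub.trans h.sub, fun y hy => ?_,
    fun y hy => ?_, fun y hy => ?_, fun y hy => ?_, ?_⟩
  · have a1 := (mem_filter.1 hy).2
    have a2 := h.wt y (hsub hy)
    have a3 := card_sdiff_add_card_inter (supp (φ y)) (hvy U Θ 𝒮 φ K y)
    rw [supp_res_compl_moves]
    omega
  · rw [hU]; exact h.low y (hsub hy)
  · rw [hU]; exact h.up y (hsub hy)
  · rw [hU]; exact h.near y (hsub hy)
  · obtain ⟨L, hL⟩ : ∃ L, L = lab U (fun y => res (hvy U Θ 𝒮 φ K y)ᶜ (φ y))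
        fun y => K y ∪ supp (res (hvy U Θ 𝒮 φ K y) (φ y)) := ⟨_, rfl⟩
    rw [← hL]
    have h1 : (big U Θ σ' 𝒮 φ K).image L ⊆ (𝒮.image (lab U φ K)).biUnion fun l =>
        (𝒮.filter fun y => lab U φ K y = l).image L := by
      intro x hx
      obtain ⟨y, hy, rfl⟩ := mem_image.1 hx
      exact mem_biUnion.2 ⟨_, mem_image_of_mem _ (hsub hy),
        mem_image_of_mem _ (mem_filter.2 ⟨hsub hy, rfl⟩)⟩
    refine ((card_le_card h1).trans (card_biUnion_le_card_mul _ _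
      ((1 + H * Fintype.card F ^ 2) ^ τ) fun l hl => ?_)).trans (Nat.mul_le_mul_right _ h.labs)
    obtain ⟨y₁, hy₁, rfl⟩ := mem_image.1 hl
    have hS : #(hvy U Θ 𝒮 φ K y₁) ≤ H :=
      (card_heavy_le fun y hy => hup y (filter_subset _ _ hy)).trans hH
    have h2 := traces_le_moves ht hS
      ((𝒮.filter fun y => lab U φ K y = lab U φ K y₁).image fun y => φ y - φ y₁) (by
        intro w hw
        obtain ⟨y, hy, rfl⟩ := mem_image.1 hw
        obtain ⟨a1, a2⟩ := mem_filter.1 hy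
        refine ⟨(Submodule.Quotient.eq U).1 (congrArg Prod.fst a2), ?_⟩
        have a3 := card_supp_sub_le (φ y) (φ y₁)
        have a4 := hup y a1
        have a5 := hup y₁ hy₁
        omega)
    refine (card_le_card ?_).trans (card_image_le.trans h2 :
      #(image (fun r => (U.mkQ (φ y₁) - U.mkQ (r + res (hvy U Θ 𝒮 φ K y₁) (φ y₁)),
        K y₁ ∪ supp (r + res (hvy U Θ 𝒮 φ K y₁) (φ y₁)))) _) ≤ _)
    intro x hx
    obtain ⟨y, hy, rfl⟩ := mem_image.1 hx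
    have a2 := (mem_filter.1 hy).2
    have a3 : hvy U Θ 𝒮 φ K y = hvy U Θ 𝒮 φ K y₁ := by
      unfold hvy cls
      rw [a2]
    refine mem_image.2 ⟨_, mem_image_of_mem _ (mem_image_of_mem _ hy), ?_⟩
    have a4 : U.mkQ (φ y) = U.mkQ (φ y₁) := congrArg Prod.fst a2
    have a5 : K y = K y₁ := congrArg Prod.snd a2
    rw [res_sub_moves, hL, lab, res_compl_moves, map_sub, a3, a4, a5]

theorem cut_move (h𝒮 : 𝒮 ⊆ 𝒴) (ht : Traces U b τ) (hs : s ≤ a) (𝒵 : Finset (Finset ι)) {H : ℕ}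
    (hZ : ∀ Z ∈ 𝒵, #Z ≤ H ∧ #Z + a ≤ b) :
    ∃ φ' K', St U 𝒴 g a (𝒮.filter fun y => ∃ Z ∈ 𝒵, Cut U g s σ y Z) φ' K' s σ
      (#𝒵 * (1 + H * Fintype.card F ^ 2) ^ τ) := by
  have hex : ∀ y, ∃ p : Finset ι × (ι → F), (∃ Z ∈ 𝒵, Cut U g s σ y Z) → p.1 ∈ 𝒵 ∧ p.2 ∈ U ∧
      g ≤ 2 * #(supp p.2 \ p.1) ∧ #(supp p.2 \ p.1) ≤ s ∧ #((supp p.2 \ p.1) \ supp y) ≤ σ := by
    intro y
    by_cases h : ∃ Z ∈ 𝒵, Cut U g s σ y Z
    · obtain ⟨Z, a1, w, a2⟩ := h
      exact ⟨(Z, w), fun _ => ⟨a1, a2⟩⟩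
    · exact ⟨(∅, 0), fun h' => absurd h' h⟩
  choose p hp using hex
  obtain ⟨𝒯, h𝒯⟩ : ∃ 𝒯, 𝒯 = 𝒮.filter fun y => ∃ Z ∈ 𝒵, Cut U g s σ y Z := ⟨_, rfl⟩
  rw [← h𝒯]
  have hm : ∀ y ∈ 𝒯, ∃ Z ∈ 𝒵, Cut U g s σ y Z := fun y hy => by
    rw [h𝒯] at hy
    exact (mem_filter.1 hy).2
  have hp' := fun y (hy : y ∈ 𝒯) => hp y (hm y hy)
  refine ⟨fun y => res (p y).1ᶜ (p y).2, fun _ => ∅, (h𝒯 ▸ filter_subset _ _ : 𝒯 ⊆ 𝒮).trans h𝒮,
    fun y hy => ?_, fun y hy => ?_, fun y hy => ?_, fun y hy => ?_, ?_⟩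
  · rw [supp_res_compl_moves]; exact (hp' y hy).2.2.2.1
  · rw [supp_res_compl_moves, union_empty]; exact (hp' y hy).2.2.1
  · rw [supp_res_compl_moves, union_empty]; exact (hp' y hy).2.2.2.1.trans hs
  · rw [supp_res_compl_moves, union_empty]; exact (hp' y hy).2.2.2.2
  · have h1 : 𝒯.image (lab U (fun y => res (p y).1ᶜ (p y).2) fun _ => ∅) ⊆ 𝒵.biUnion fun Z =>
        (((𝒯.filter fun y => (p y).1 = Z).image fun y => (p y).2).image (res Z)).image
          fun r => (-U.mkQ r, (∅ : Finset ι)) := by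
      intro x hx
      obtain ⟨y, hy, rfl⟩ := mem_image.1 hx
      refine mem_biUnion.2 ⟨_, (hp' y hy).1, mem_image.2 ⟨_, mem_image_of_mem _
        (mem_image_of_mem _ (mem_filter.2 ⟨hy, rfl⟩)), ?_⟩⟩
      have a1 : U.mkQ (p y).2 = 0 := (Submodule.Quotient.mk_eq_zero U).2 (hp' y hy).2.1
      rw [lab, res_compl_moves, map_sub, a1, zero_sub]
    refine (card_le_card h1).trans (card_biUnion_le_card_mul _ _ _ fun Z hZ' => ?_)
    refine card_image_le.trans (traces_le_moves ht (hZ Z hZ').1 _ fun w hw => ?_)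
    obtain ⟨y, hy, rfl⟩ := mem_image.1 hw
    obtain ⟨a1, a2⟩ := mem_filter.1 hy
    refine ⟨(hp' y a1).2.1, ?_⟩
    have a3 := (hp' y a1).2.2.2.1
    have a4 : #(supp (p y).2) ≤ #(supp (p y).2 \ (p y).1) + #(p y).1 :=
      card_le_card_sdiff_add_card
    have a5 := (hZ Z hZ').2
    rw [a2] at a3 a4
    omega

end Pool.Agent.P.MP_c2d640_lc
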