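import Pool.Agent.P.MP_c2d640_lc.G3

set_option autoImplicit false
set_option linter.unusedSectionVars false

/-! The final contradiction of the locating argument. -/

namespace Pool.Agent.P.MP_c2d640_lc

open Finset Submodule
open scoped Classical

variable {F V ι : Type} [Field F] [AddCommGroup V] [Module F V] [Fintype ι] [DecidableEq ι]

theorem sub_plus_final [Fintype F] (U : Submodule F (ι → F)) (g : ℕ) (Z : Finset ι) :
    Z ⊆ plus U g Z := subset_union_left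

theorem supp_plus_final [Fintype F] {U : Submodule F (ι → F)} {g : ℕ} {Z : Finset ι} {w : ι → F}
    (hw : w ∈ U) (h : 2 * #(supp w \ Z) < g) : supp w ⊆ plus U g Z := fun _ he =>
  mem_union_right _ (mem_biUnion.2 ⟨w, mem_filter.2 ⟨mem_univ _, hw, h⟩, he⟩)

/-- The words of `U` that live on `W` and vanish on `S`. -/
def cutSub_final (U : Submodule F (ι → F)) (W S : Finset ι) : Submodule F (ι → F) where
  carrier := {y | y ∈ U ∧ On W y ∧ ∀ e ∈ S, y e = 0}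
  zero_mem' := ⟨U.zero_mem, fun _ _ => rfl, fun _ _ => rfl⟩
  add_mem' := fun h h' => ⟨U.add_mem h.1 h'.1, h.2.1.add h'.2.1,
    fun e he => by simp [h.2.2 e he, h'.2.2 e he]⟩
  smul_mem' := fun c y h => ⟨U.smul_mem c h.1, fun e he => by simp [h.2.1 e he],
    fun e he => by simp [h.2.2 e he]⟩

theorem control_final [Fintype F] {U : Submodule F (ι → F)} {g s u σ : ℕ} (W S₀ S Z A B : Finset ι)
    (y : ι → F) (hS : #S ≤ s) (hs : 4 * u * (Fintype.card F + 1) ≤ s)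
    (hcut : ¬ Cut U g (s - u) σ y Z) (hA : #A ≤ 3 * u) (hB : #B ≤ σ)
    (hcov : ∀ e ∈ W, e ∉ S₀ → e ∉ Z → (e ∈ S ∨ e ∈ A) ∧ (e ∉ supp y → e ∈ B))
    (hdis : ∀ e ∈ S, e ∉ plus U g Z) :
    ∃ I : Finset ι, #I ≤ 1 ∧ ∀ w ∈ U, On W w → (∀ e ∈ S₀, w e = 0) → (∀ e ∈ I, w e = 0) →
      ∀ e ∈ S, w e = 0 := by
  rcases one_dim (cutSub_final U W S₀) S with ⟨w, ⟨hwU, hwW, hw0⟩, ⟨e, heS, hwe⟩, hp⟩ | ⟨I, hI, h⟩
  · exfalso
    have hc : ∀ a ∈ supp w \ Z, (a ∈ S ∨ a ∈ A) ∧ (a ∉ supp y → a ∈ B) := fun a ha => by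
      obtain ⟨h1, h2⟩ := mem_sdiff.1 ha
      exact hcov a (on_iff.1 hwW h1) (fun h3 => mem_supp.1 h1 (hw0 a h3)) h2
    have h1 : #(supp w \ Z) ≤ #(supp w ∩ S) + #A := by
      refine (card_le_card fun a ha => ?_).trans (card_union_le _ _)
      rcases (hc a ha).1 with h | h
      · exact mem_union_left _ (mem_inter.2 ⟨(mem_sdiff.1 ha).1, h⟩)
      · exact mem_union_right _ h
    have h2 : #((supp w \ Z) \ supp y) ≤ σ := by
      refine (card_le_card fun a ha => ?_).trans hB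
      exact (hc a (mem_sdiff.1 ha).1).2 (mem_sdiff.1 ha).2
    have h3 : #(supp w ∩ S) + 4 * u ≤ s := by
      have h4 : Fintype.card F * #S ≤ Fintype.card F * s := Nat.mul_le_mul_left _ hS
      refine Nat.le_of_mul_le_mul_left (c := Fintype.card F + 1) ?_ (Nat.succ_pos _)
      nlinarith
    have h4 : 2 * #(supp w \ Z) < g := by
      by_contra h5
      exact hcut ⟨w, hwU, not_lt.1 h5, by omega, h2⟩
    exact hdis e heS (supp_plus_final hwU h4 (mem_supp.2 hwe))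
  · exact ⟨I, hI, fun w h1 h2 h3 h4 => h w ⟨h1, h2, h3⟩ h4⟩

theorem loc_final [Fintype F] {U : Submodule F (ι → F)} {g h s u σ σ' : ℕ} (hd : Dist U g)
    (hc : NoCube U h) (x x' y y' : Fin h → ι → F) (H H' Z : Fin h → Finset ι)
    (t : Finset (Fin h) → ι) (hU : ∀ i, x i - x' i ∈ U)
    (hZ : ∀ i e, e ∈ Z i ↔ ∃ j, j ≠ i ∧ (x j e ≠ 0 ∨ x' j e ≠ 0))
    (hx : ∀ i, #(supp (x i)) ≤ s) (hx' : ∀ i, #(supp (x' i)) ≤ s)
    (ht : ∀ i J, i ∈ J → x i (t J) ≠ 0 ∧ t J ∉ H i) (ht' : ∀ i J, i ∉ J → t J ∉ H' i)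
    (h1 : ∀ i, Disjoint (plus U g (Z i) \ H' i) (supp (x i) ∪ H i))
    (h2 : ∀ i, Disjoint (plus U g (Z i ∪ supp (x i)) \ H i) (supp (x' i)))
    (h3 : ∀ i, ¬ Cut U g (s - u) (σ + σ') (y i) (Z i))
    (h4 : ∀ i, ¬ Cut U g (s - u) (σ + σ') (y' i) (Z i ∪ supp (x i)))
    (h5 : ∀ i, #(supp (x' i) ∩ H i) ≤ σ') (h6 : ∀ i, #(supp (x i) ∩ H' i) ≤ 2 * u)
    (h7 : ∀ i, #(supp (x i) \ supp (y i)) ≤ σ) (h8 : ∀ i, #(supp (x' i) \ supp (y' i)) ≤ σ)
    (hσ' : σ' ≤ u) (hs : 4 * u * (Fintype.card F + 1) ≤ s) (hg : 3 * h * u < g) : False := by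
  set W : Finset ι := univ.biUnion fun j => supp (x j) ∪ supp (x' j) with hW
  have hWi : ∀ i e, e ∈ W → e ∉ Z i → e ∈ supp (x i) ∨ e ∈ supp (x' i) := fun i e he hz => by
    obtain ⟨j, -, hj⟩ := mem_biUnion.1 he
    by_cases hji : j = i
    · exact mem_union.1 (hji ▸ hj)
    · exact absurd ((hZ i e).2 ⟨j, hji, by simpa using hj⟩) hz
  have hA : ∀ i, ∃ I : Finset ι, #I ≤ 1 ∧ ∀ w ∈ U, On W w → (∀ e ∈ (∅ : Finset ι), w e = 0) →
      (∀ e ∈ I, w e = 0) → ∀ e ∈ supp (x' i) \ H i, w e = 0 := fun i => by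
    refine control_final W ∅ _ (Z i ∪ supp (x i)) (supp (x' i) ∩ H i) (supp (x' i) \ supp (y' i))
      (y' i) ((card_le_card sdiff_subset).trans (hx' i)) hs (h4 i)
      ((h5 i).trans (by omega)) ((h8 i).trans (Nat.le_add_right _ _)) (fun e he _ hz => ?_)
      fun e he hp => ?_
    · have a1 : e ∈ supp (x' i) := (hWi i e he fun a => hz (mem_union_left _ a)).resolve_left
        fun a => hz (mem_union_right _ a)
      refine ⟨?_, fun a => mem_sdiff.2 ⟨a1, a⟩⟩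
      by_cases a2 : e ∈ H i
      · exact Or.inr (mem_inter.2 ⟨a1, a2⟩)
      · exact Or.inl (mem_sdiff.2 ⟨a1, a2⟩)
    · exact disjoint_left.1 (h2 i) (mem_sdiff.2 ⟨hp, (mem_sdiff.1 he).2⟩) (mem_sdiff.1 he).1
  have hB : ∀ i, ∃ I : Finset ι, #I ≤ 1 ∧ ∀ w ∈ U, On W w →
      (∀ e ∈ supp (x' i) \ H i, w e = 0) →
      (∀ e ∈ I, w e = 0) → ∀ e ∈ supp (x i) \ H' i, w e = 0 := fun i => by
    refine control_final W _ _ (Z i) ((supp (x i) ∩ H' i) ∪ (supp (x' i) ∩ H i))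
      ((supp (x i) \ supp (y i)) ∪ (supp (x' i) ∩ H i))
      (y i) ((card_le_card sdiff_subset).trans (hx i)) hs (h3 i)
      ((card_union_le _ _).trans (by have := h5 i; have := h6 i; omega))
      ((card_union_le _ _).trans (Nat.add_le_add (h7 i) (h5 i))) (fun e he h0 hz => ?_)
      fun e he hp => ?_
    · rcases hWi i e he hz with a1 | a1
      · refine ⟨?_, fun a => mem_union_left _ (mem_sdiff.2 ⟨a1, a⟩)⟩
        by_cases a2 : e ∈ H' i
        · exact Or.inr (mem_union_left _ (mem_inter.2 ⟨a1, a2⟩))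
        · exact Or.inl (mem_sdiff.2 ⟨a1, a2⟩)
      · have a2 : e ∈ supp (x' i) ∩ H i :=
          mem_inter.2 ⟨a1, by_contra fun a => h0 (mem_sdiff.2 ⟨a1, a⟩)⟩
        exact ⟨Or.inr (mem_union_right _ a2), fun _ => mem_union_right _ a2⟩
    · exact disjoint_left.1 (h1 i) (mem_sdiff.2 ⟨hp, (mem_sdiff.1 he).2⟩)
        (mem_union_left _ (mem_sdiff.1 he).1)
  choose IA hIA hA using hA
  choose IB hIB hB using hB
  have hI : #(univ.biUnion fun i => IA i ∪ IB i) ≤ 2 * h := by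
    refine card_biUnion_le.trans ((sum_le_card_nsmul _ _ 2 fun i _ => ?_).trans ?_)
    · exact (card_union_le _ _).trans (Nat.add_le_add (hIA i) (hIB i))
    · simp [mul_comm]
  obtain ⟨w, hwU, hwW, hwI, hw0⟩ := hc W _ t (fun i => x i - x' i)
    (fun i => ⟨hU i, on_iff.2 ((supp_sub_subset _ _).trans fun e he =>
      mem_biUnion.2 ⟨i, mem_univ _, he⟩)⟩) (fun i J hJ => by
      have key : t J ∈ Z i ∪ supp (x i) → t J ∉ H i → x' i (t J) = 0 := fun a b =>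
        by_contra fun c => disjoint_left.1 (h2 i) (mem_sdiff.2 ⟨sub_plus_final _ _ _ a, b⟩)
          (mem_supp.2 c)
      by_cases hi : i ∈ J
      · have a := ht i J hi
        simp [hi, key (mem_union_right _ (mem_supp.2 a.1)) a.2, a.1]
      · obtain ⟨j, hj⟩ := hJ
        have a1 : t J ∈ Z i := (hZ i _).2 ⟨j, fun e => hi (e ▸ hj), Or.inl (ht j J hj).1⟩
        have a2 := disjoint_left.1 (h1 i) (mem_sdiff.2 ⟨sub_plus_final _ _ _ a1, ht' i J hi⟩)
        have a3 : x i (t J) = 0 := by_contra fun c => a2 (mem_union_left _ (mem_supp.2 c))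
        simp [hi, a3, key (mem_union_left _ a1) fun c => a2 (mem_union_right _ c)]) hI
  have hA' : ∀ i, ∀ e ∈ supp (x' i) \ H i, w e = 0 := fun i =>
    hA i w hwU hwW (fun _ he => absurd he (notMem_empty _)) fun e he =>
      hwI e (mem_biUnion.2 ⟨i, mem_univ _, mem_union_left _ he⟩)
  have hB' : ∀ i, ∀ e ∈ supp (x i) \ H' i, w e = 0 := fun i =>
    hB i w hwU hwW (hA' i) fun e he => hwI e (mem_biUnion.2 ⟨i, mem_univ _, mem_union_right _ he⟩)
  have hsub : supp w ⊆ univ.biUnion fun i => (supp (x i) ∩ H' i) ∪ (supp (x' i) ∩ H i) :=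
    fun e he => by
      obtain ⟨j, -, hj⟩ := mem_biUnion.1 (on_iff.1 hwW he)
      refine mem_biUnion.2 ⟨j, mem_univ _, ?_⟩
      rcases mem_union.1 hj with a | a
      · exact mem_union_left _ (mem_inter.2 ⟨a, by_contra fun b =>
          mem_supp.1 he (hB' j e (mem_sdiff.2 ⟨a, b⟩))⟩)
      · exact mem_union_right _ (mem_inter.2 ⟨a, by_contra fun b =>
          mem_supp.1 he (hA' j e (mem_sdiff.2 ⟨a, b⟩))⟩)
  have hcard : #(supp w) ≤ 3 * h * u := by
    refine (card_le_card hsub).trans (card_biUnion_le.trans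
      ((sum_le_card_nsmul _ _ (3 * u) fun i _ => ?_).trans ?_))
    · exact (card_union_le _ _).trans (by have := h5 i; have := h6 i; omega)
    · simp only [card_univ, Fintype.card_fin, smul_eq_mul]
      exact le_of_eq (by ring)
  exact absurd (hd w hwU hw0) (by omega)

end Pool.Agent.P.MP_c2d640_lc

set_option autoImplicit false
set_option linter.unusedSectionVars false

/-! One of the two moves is always possible. -/

namespace Pool.Agent.P.MP_c2d640_lc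

open Finset Submodule
open scoped Classical

variable {F V ι : Type} [Field F] [AddCommGroup V] [Module F V] [Fintype ι] [DecidableEq ι]

theorem St.located {U : Submodule F (ι → F)} {𝒴 𝒮 : Finset (ι → F)} {φ : (ι → F) → ι → F}
    {K : (ι → F) → Finset ι} {g a s σ M : ℕ} (hS : St U 𝒴 g a 𝒮 φ K s σ M) (u : ℕ)
    (ℋ : Finset (Finset ι)) :
    #(𝒮.filter fun y => ∃ S ∈ ℋ, u + σ ≤ #((supp (φ y) ∪ K y) ∩ S)) ≤
      #(𝒴.filter fun y => ∃ S ∈ ℋ, u ≤ #(supp y ∩ S)) := by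
  refine card_le_card fun y hy => ?_
  obtain ⟨h1, S, h2, h3⟩ := mem_filter.1 hy
  refine mem_filter.2 ⟨hS.sub h1, S, h2, ?_⟩
  have h4 := hS.near y h1
  have h5 : (supp (φ y) ∪ K y) ∩ S ⊆ (supp y ∩ S) ∪ ((supp (φ y) ∪ K y) \ supp y) := by
    intro e he
    by_cases h : e ∈ supp y
    · exact mem_union_left _ (mem_inter.2 ⟨h, (mem_inter.1 he).2⟩)
    · exact mem_union_right _ (mem_sdiff.2 ⟨(mem_inter.1 he).1, h⟩)
  have h6 := (card_le_card h5).trans (card_union_le _ _)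
  omega

theorem count_step {D p Δ N b c f l x z : ℕ} (hD : 8 ≤ D) (hp : 1 ≤ p) (hΔ : Δ = 8 * D ^ 2 * p)
    (hb : Δ * b < N) (hc : Δ * c < N) (hf : Δ * f ≤ N) (hl : Δ * l ≤ N)
    (hx : x ≤ D * (b + c) + l + c) (hz : z ≤ D * p * x) : b + f + l + z < N := by
  have h1 : Δ * z ≤ D * p * ((2 * D + 2) * N) := by
    calc Δ * z ≤ Δ * (D * p * (D * (b + c) + l + c)) :=
          Nat.mul_le_mul_left _ (hz.trans (Nat.mul_le_mul_left _ hx))
      _ = D * p * (D * (Δ * b + Δ * c) + Δ * l + Δ * c) := by ring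
      _ ≤ D * p * (D * (N + N) + N + N) := by gcongr
      _ = _ := by ring
  have h2 : 3 + D * p * (2 * D + 2) ≤ Δ := by
    have : 1 ≤ D * p := Nat.mul_pos (by omega) hp
    rw [hΔ]
    nlinarith
  have h3 := Nat.mul_le_mul_right N h2
  refine Nat.lt_of_mul_lt_mul_left (a := Δ) ?_
  nlinarith

theorem frac_step {D ζ z c N : ℕ} (h0 : 0 < ζ) (hz : z ≤ ζ) (h : D * ζ * c ≤ z * N) :
    D * c ≤ N := by
  refine Nat.le_of_mul_le_mul_left ?_ h0
  have := Nat.mul_le_mul_right N hz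
  nlinarith

theorem three_step {α : Type} [DecidableEq α] {D : ℕ} {T X Y Z B : Finset α}
    (h : T ∩ B ⊆ X ∪ Y ∪ Z) (hX : D * #X ≤ #T) (hY : D * #Y ≤ #T) (hZ : D * #Z ≤ #T) :
    D * #(T ∩ B) ≤ 3 * #T := by
  have h1 := (card_le_card h).trans ((card_union_le _ _).trans
    (Nat.add_le_add_right (card_union_le _ _) _))
  have := Nat.mul_le_mul_left D h1
  nlinarith

theorem lE_step {q h u g : ℕ} (hu : 1 ≤ u) (he : lE q h * u ≤ g) : 1 ≤ g ∧ 3 * h * u < g ∧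
    (∀ p s, g ≤ 2 * (p + 2 * u) → p ≤ s → 4 * u * (q + 1) ≤ s ∧ u ≤ s) ∧
    ∀ p l r, g ≤ 2 * (p + 2 * u) → l + r = p → r ≤ u → 2 ^ h * (h * (2 * u)) < l := by
  have e1 : lE q h * u = 8 * (q * u) + 12 * u + 2 * (2 ^ h * (h * (2 * u))) + 3 * h * u := by
    rw [lE]
    ring
  refine ⟨by omega, by omega, fun p s h1 h2 => ?_, fun p l r h1 h2 h3 => by omega⟩
  have e2 : 4 * u * (q + 1) = 4 * (q * u) + 4 * u := by ring
  omega

theorem loc_step [Fintype F] {U : Submodule F (ι → F)} {𝒴 𝒮 : Finset (ι → F)}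
    {φ : (ι → F) → ι → F} {K : (ι → F) → Finset ι} {g a h τ u s σ σ' M : ℕ} (hh : 1 ≤ h)
    (hu : 1 ≤ u) (he : lE (Fintype.card F) h * u ≤ g) (hga : g ≤ a) (hd : Dist U g)
    (ht : Traces U ((2 * h + 1) * a) τ) (hc : NoCube U h) (hS : St U 𝒴 g a 𝒮 φ K s σ M)
    (h0 : 𝒮.Nonempty) (hs : s ≤ a) (hσ : σ ≤ u) (hσ' : σ' ≤ u)
    (hM : (Fintype.card ι + 1) ^ 2 ^ h ≤ M)
    (hloc : ∀ ℋ : Finset (Finset ι), #ℋ ≤ M → (∀ S ∈ ℋ, #S ≤ lH (Fintype.card F) g a h τ) →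
      lDel a h * #(𝒴.filter fun y => ∃ S ∈ ℋ, u ≤ #(supp y ∩ S)) ≤ #𝒮) :
    #𝒮 ≤ lDel a h * #(big U (lTheta (Fintype.card F) g a h τ) σ' 𝒮 φ K) ∨
    (u ≤ s ∧ ∃ 𝒵 : Finset (Finset ι), #𝒵 ≤ 2 * M ∧ (∀ Z ∈ 𝒵, #Z ≤ 2 * h * a) ∧
      #𝒮 ≤ lDel a h * #(𝒮.filter fun y => ∃ Z ∈ 𝒵, Cut U g (s - u) (σ + σ') y Z)) := by
  by_contra hcon
  obtain ⟨hBig, hCut⟩ := not_or.1 hcon
  rw [not_le] at hBig
  generalize hq : Fintype.card F = q at *
  obtain ⟨hg, e1, e2, e3⟩ := lE_step hu he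
  clear hcon he
  have hζ : 0 < lZeta q g a h τ := by
    unfold lZeta
    have : 0 < 2 * h * a := Nat.mul_pos (by omega) (by omega)
    omega
  generalize hΘ : lTheta q g a h τ = Θ at *
  have hΘ' : Θ = 8 * h * lZeta q g a h τ := hΘ.symm
  have hΘ1 : 1 ≤ Θ := hΘ' ▸ Nat.mul_pos (by omega) hζ
  have hlH : lH q g a h τ = Θ * (a + Θ * a) := by rw [lH, hΘ]; ring
  have hΔ2 : 2 ≤ lDel a h := by
    have : 0 < (8 * h) ^ 2 * (a + 1) ^ 2 ^ h := by positivity
    rw [lDel, mul_assoc]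
    omega
  have hwt : ∀ y ∈ 𝒮, #(supp (φ y)) ≤ a := fun y hy => (hS.wt y hy).trans hs
  -- the sets
  obtain ⟨cl, hcl⟩ : ∃ cl, cl = cls U 𝒮 φ K := ⟨_, rfl⟩
  obtain ⟨H, hH⟩ : ∃ H, H = hvy U Θ 𝒮 φ K := ⟨_, rfl⟩
  have hH' : ∀ y, H y = heavy Θ (cl y) fun y' => supp (φ y') := fun y => by rw [hH, hcl, hvy]
  have mcl : ∀ y y', y' ∈ cl y ↔ y' ∈ 𝒮 ∧ lab U φ K y' = lab U φ K y := fun y y' => by
    rw [hcl, cls, mem_filter]
  have cl_eq : ∀ y, ∀ y' ∈ cl y, cl y' = cl y := fun y y' hy => by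
    ext z
    rw [mcl, mcl, ((mcl _ _).1 hy).2]
  have hHc : ∀ y, #(H y) ≤ Θ * a := fun y =>
    hH' y ▸ card_heavy_le fun y' hy' => hwt y' ((mcl _ _).1 hy').1
  obtain ⟨SA, hSA⟩ : ∃ SA : Finset ι → Finset (ι → F),
      ∀ b, SA b = 𝒮.filter fun y => b ⊆ supp (φ y) \ H y := ⟨_, fun _ => rfl⟩
  obtain ⟨G, hG⟩ : ∃ G : Finset ι → Finset ι,
      ∀ b, G b = heavy Θ (SA b) fun y => supp (φ y) ∪ H y := ⟨_, fun _ => rfl⟩
  have hGc : ∀ b, #(G b) ≤ lH q g a h τ := fun b => by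
    rw [hG, hlH]
    refine card_heavy_le fun y hy => (card_union_le _ _).trans (Nat.add_le_add ?_ (hHc y))
    exact hwt y (mem_filter.1 (hSA b ▸ hy)).1
  obtain ⟨pins, hpins⟩ : ∃ pins : Finset (Finset ι), #(pins) ≤ M ∧ ∀ b, b ∈ pins ↔ #b ≤ 2 ^ h :=
    ⟨_, (card_small_subsets univ (2 ^ h)).trans hM, fun b => by simp⟩
  obtain ⟨best, hbest⟩ := exists_best (fun y Z => Cut U g (s - u) (σ + σ') y Z) (2 * h * a)
  obtain ⟨𝒵, h𝒵⟩ : ∃ 𝒵, 𝒵 = (𝒮.image cl ∪ pins.image SA).image best := ⟨_, rfl⟩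
  have hclM : #(𝒮.image cl) ≤ M := by
    refine le_trans ?_ hS.labs
    have : 𝒮.image cl = (𝒮.image (lab U φ K)).image fun l => 𝒮.filter fun y' => lab U φ K y' = l := by
      rw [image_image, hcl]
      rfl
    rw [this]
    exact card_image_le
  have hKM : #(𝒮.image K) ≤ M := by
    refine le_trans ?_ hS.labs
    have : 𝒮.image K = (𝒮.image (lab U φ K)).image Prod.snd := by
      rw [image_image]
      rfl
    rw [this]
    exact card_image_le
  have hFat := (Nat.mul_le_mul_left (lDel a h) (hS.located u _)).trans (hloc (𝒮.image K) hKM (by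
    intro S hS'
    obtain ⟨y, hy, rfl⟩ := mem_image.1 hS'
    have h1 := (card_le_card subset_union_right).trans (hS.up y hy)
    rw [hlH]
    exact (h1.trans (Nat.le_add_right _ _)).trans (Nat.le_mul_of_pos_left _ hΘ1)))
  have hLoc := (Nat.mul_le_mul_left (lDel a h) (hS.located u _)).trans (hloc (pins.image G)
    (card_image_le.trans hpins.1) (by
      intro S hS'
      obtain ⟨b, -, rfl⟩ := mem_image.1 hS'
      exact hGc b))
  generalize hF : 𝒮.filter (fun y => ∃ S ∈ 𝒮.image K, u + σ ≤ #((supp (φ y) ∪ K y) ∩ S)) = Fat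
    at hFat
  generalize hL : 𝒮.filter (fun y => ∃ S ∈ pins.image G, u + σ ≤ #((supp (φ y) ∪ K y) ∩ S)) = Loc
    at hLoc
  have nFat : ∀ y ∈ 𝒮, y ∉ Fat → g ≤ 2 * (#(supp (φ y)) + 2 * u) := fun y hy hy' => by
    have h1 : ¬ u + σ ≤ #((supp (φ y) ∪ K y) ∩ K y) := fun h =>
      hy' (hF ▸ mem_filter.2 ⟨hy, _, mem_image_of_mem _ hy, h⟩)
    rw [union_inter_cancel_right] at h1
    have h2 := hS.low y hy
    have h3 := card_union_le (supp (φ y)) (K y)
    omega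
  have nLoc : ∀ y ∈ 𝒮, y ∉ Loc → ∀ b : Finset ι, #b ≤ 2 ^ h → #(supp (φ y) ∩ G b) ≤ 2 * u :=
    fun y hy hy' b hb => by
      have h1 : ¬ u + σ ≤ #((supp (φ y) ∪ K y) ∩ G b) := fun h =>
        hy' (hL ▸ mem_filter.2 ⟨hy, _, mem_image_of_mem _ ((hpins.2 b).2 hb), h⟩)
      have h2 := card_le_card (inter_subset_inter_right (u := G b)
        (subset_union_left (s₁ := supp (φ y)) (s₂ := K y)))
      omega
  obtain ⟨hsu, hsu'⟩ : 4 * u * (q + 1) ≤ s ∧ u ≤ s := by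
    obtain ⟨y, hy, hy'⟩ : ∃ y ∈ 𝒮, y ∉ Fat := by
      refine exists_mem_notMem_of_card_lt_card ?_
      have := card_pos.2 h0
      have := Nat.mul_le_mul_right (#Fat) hΔ2
      omega
    exact e2 _ _ (nFat y hy hy') (hS.wt y hy)
  have hCut' : lDel a h * #(𝒮.filter fun y => ∃ Z ∈ 𝒵, Cut U g (s - u) (σ + σ') y Z) < #𝒮 := by
    refine not_le.1 fun h' => hCut ⟨hsu', 𝒵, ?_, ?_, h'⟩
    · rw [h𝒵]
      refine card_image_le.trans ((card_union_le _ _).trans ?_)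
      have := (card_image_le (s := pins) (f := SA)).trans hpins.1
      omega
    · intro Z hZ
      obtain ⟨T, -, rfl⟩ := mem_image.1 (h𝒵 ▸ hZ)
      exact (hbest T).1
  generalize hC : 𝒮.filter (fun y => ∃ Z ∈ 𝒵, Cut U g (s - u) (σ + σ') y Z) = Cs at hCut'
  have hbest' : ∀ T ∈ 𝒮.image cl ∪ pins.image SA, T ⊆ 𝒮 → ∀ Z : Finset ι, #Z ≤ 2 * h * a →
      #(T.filter fun y => Cut U g (s - u) (σ + σ') y Z) ≤ #(T ∩ Cs) := fun T h1 h2 Z hZ =>
    ((hbest T).2 Z hZ).trans (card_le_card fun y hy => by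
      obtain ⟨b1, b2⟩ := mem_filter.1 hy
      exact mem_inter.2 ⟨b1, hC ▸ mem_filter.2 ⟨h2 b1, _, h𝒵 ▸ mem_image_of_mem _ h1, b2⟩⟩)
  generalize hB : big U Θ σ' 𝒮 φ K = Big at hBig
  have nBig : ∀ y ∈ 𝒮, y ∉ Big → #(supp (φ y) ∩ H y) ≤ σ' := fun y hy hy' =>
    not_lt.1 fun h => hy' (hB ▸ mem_filter.2 ⟨hy, hH ▸ h⟩)
  have hBad := card_badcl 𝒮 (Big ∪ Cs) (lab U φ K) (8 * h)
  generalize hBd : 𝒮.filter (fun y => #(𝒮.filter fun y' => lab U φ K y' = lab U φ K y) <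
      8 * h * #(𝒮.filter (fun y' => lab U φ K y' = lab U φ K y) ∩ (Big ∪ Cs))) = Bad at hBad
  have nBad : ∀ y ∈ 𝒮, y ∉ Bad → 8 * h * #(cl y ∩ (Big ∪ Cs)) ≤ #(cl y) := fun y hy hy' =>
    not_lt.1 fun h => hy' (hBd ▸ mem_filter.2 ⟨hy, by rwa [hcl] at h⟩)
  have hSp := card_spoiled 𝒮 (Bad ∪ Loc ∪ Cs) (fun y => supp (φ y) \ H y) (8 * h) (2 ^ h) a
    fun y hy => (card_le_card sdiff_subset).trans (hwt y hy)
  simp only [← hSA] at hSp
  generalize hSp' : 𝒮.filter (fun y => ∃ b : Finset ι, #b ≤ 2 ^ h ∧ b ⊆ supp (φ y) \ H y ∧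
    #(SA b) < 8 * h * #(SA b ∩ (Bad ∪ Loc ∪ Cs))) = Sp at hSp
  -- a central word
  obtain ⟨y₀, c0, c1⟩ : ∃ y ∈ 𝒮, y ∉ Big ∪ Fat ∪ Loc ∪ Sp := by
    refine exists_mem_notMem_of_card_lt_card (lt_of_le_of_lt ((card_union_le _ _).trans
      (Nat.add_le_add_right ((card_union_le _ _).trans
        (Nat.add_le_add_right (card_union_le _ _) _)) _)) ?_)
    refine count_step (D := 8 * h) (p := (a + 1) ^ 2 ^ h) (by omega) (Nat.one_le_pow _ _ (by omega))
      rfl hBig hCut' hFat hLoc ?_ hSp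
    have h1 := card_union_le (Bad ∪ Loc) Cs
    have h2 := card_union_le Bad Loc
    have h3 := Nat.mul_le_mul_left (8 * h) (card_union_le Big Cs)
    omega
  simp only [mem_union, not_or] at c1
  obtain ⟨⟨⟨c1, c2⟩, c3⟩, c4⟩ := c1
  -- the points
  obtain ⟨pin, hpin⟩ : ∃ pin : (Finset (Fin h) → ι) → Fin h → Finset ι,
      ∀ t i, pin t i = (univ.filter fun J => i ∈ J).image t := ⟨_, fun _ _ => rfl⟩
  have hpinc : ∀ t i, #(pin t i) ≤ 2 ^ h := fun t i => by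
    rw [hpin]
    exact card_image_le.trans ((card_le_univ _).trans (by simp))
  obtain ⟨t, t1, t2⟩ := exists_tuple (supp (φ y₀) \ H y₀)
    (fun (J : Finset (Fin h)) t => Jᶜ.biUnion fun i => G (pin t i))
    (fun J t e => biUnion_congr rfl fun i hi => by
      rw [hpin, hpin]
      congr 1
      exact image_congr fun J' hJ' => Function.update_of_ne
        (fun h : J' = J => mem_compl.1 hi (h ▸ (mem_filter.1 hJ').2)) _ _) (h * (2 * u))
    (fun J t _ => by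
      rw [inter_biUnion]
      refine (card_biUnion_le_card_mul _ _ (2 * u) fun i _ => ?_).trans
        (Nat.mul_le_mul_right _ ((card_le_univ _).trans (by simp)))
      exact (card_le_card (inter_subset_inter_right sdiff_subset)).trans
        (nLoc y₀ c0 c3 _ (hpinc t i)))
    (by
      rw [Fintype.card_finset, Fintype.card_fin]
      exact e3 _ _ _ (nFat y₀ c0 c2) (card_sdiff_add_card_inter _ _) ((nBig y₀ c0 c1).trans hσ'))
  have p1 : ∀ i, pin t i ⊆ supp (φ y₀) \ H y₀ := fun i e he => by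
    obtain ⟨J, -, rfl⟩ := mem_image.1 (hpin t i ▸ he)
    exact t1 J
  have p2 : ∀ i, 8 * h * #(SA (pin t i) ∩ (Bad ∪ Loc ∪ Cs)) ≤ #(SA (pin t i)) := fun i =>
    not_lt.1 fun h => c4 (hSp' ▸ mem_filter.2 ⟨c0, _, hpinc t i, p1 i, h⟩)
  have sSA : ∀ b, SA b ⊆ 𝒮 := fun b => hSA b ▸ filter_subset _ _
  have scl : ∀ y, cl y ⊆ 𝒮 := fun y z hz => ((mcl _ _).1 hz).1
  -- the pairs
  obtain ⟨Z, hZ⟩ : ∃ Z : Fin h → (Fin h → (ι → F) × (ι → F)) → Finset ι, ∀ i x,
      Z i x = (univ.erase i).biUnion fun j => supp (φ (x j).1) ∪ supp (φ (x j).2) :=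
    ⟨_, fun _ _ => rfl⟩
  have hZc : ∀ i (x : Fin h → (ι → F) × (ι → F)),
      (∀ j, (x j).1 ∈ SA (pin t j) ∧ (x j).2 ∈ cl (x j).1) → #(Z i x) + a ≤ 2 * h * a := by
    intro i x hx
    have h1 := card_biUnion_le_card_mul (univ.erase i)
      (fun j => supp (φ (x j).1) ∪ supp (φ (x j).2)) (a + a) fun j _ =>
        (card_union_le _ _).trans (Nat.add_le_add (hwt _ (sSA _ (hx j).1)) (hwt _ (scl _ (hx j).2)))
    rw [← hZ, card_erase_of_mem (mem_univ _), card_univ, Fintype.card_fin] at h1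
    obtain ⟨h', rfl⟩ := Nat.exists_eq_add_of_le' hh
    rw [Nat.add_sub_cancel] at h1
    calc _ ≤ h' * (a + a) + (a + a) := by omega
      _ = _ := by ring
  have hplus : ∀ Z : Finset ι, #Z ≤ 2 * h * a → #(plus U g Z) ≤ lZeta q g a h τ := fun Z hZ =>
    hq ▸ card_plus_le hd ht hZ (by rw [add_mul, one_mul]; omega)
  obtain ⟨x, hx⟩ := exists_pairs (fun i => SA (pin t i)) cl Z
    (fun i x p => by
      rw [hZ, hZ]
      exact biUnion_congr rfl fun j hj => by rw [Function.update_of_ne (ne_of_mem_erase hj)])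
    (fun i Z => univ.filter fun y => y ∈ Bad ∪ Loc ∪ Cs ∨
      ¬ Disjoint (plus U g Z \ G (pin t i)) (supp (φ y) ∪ H y) ∨ Cut U g (s - u) (σ + σ') y Z)
    (fun Z y => univ.filter fun y' => y' ∈ Big ∨
      ¬ Disjoint (plus U g (Z ∪ supp (φ y)) \ H y) (supp (φ y')) ∨
        Cut U g (s - u) (σ + σ') y' (Z ∪ supp (φ y)))
    (8 * h) (by simp; omega) (fun i => ⟨y₀, hSA _ ▸ mem_filter.2 ⟨c0, p1 i⟩⟩)
    (fun i y hy => ⟨y, (mcl _ _).2 ⟨sSA _ hy, rfl⟩⟩)
    (fun i x hx => by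
      have h1 := hZc i x hx
      refine three_step (X := SA (pin t i) ∩ (Bad ∪ Loc ∪ Cs))
        (Y := (SA (pin t i)).filter fun y =>
          ¬ Disjoint (plus U g (Z i x) \ G (pin t i)) (supp (φ y) ∪ H y))
        (Z := (SA (pin t i)).filter fun y => Cut U g (s - u) (σ + σ') y (Z i x))
        (fun y hy => ?_) (p2 i) ?_ ?_
      · simp only [mem_inter, mem_filter, mem_univ, true_and, mem_union (s := _ ∪ _),
          mem_union (s := _ ∩ _)] at hy ⊢
        tauto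
      · refine frac_step hζ (hplus (Z i x) (by omega)) ?_
        rw [← hΘ', hG]
        exact card_meet_le _ _ _ _
      · refine le_trans (Nat.mul_le_mul_left _ ((hbest' _ (mem_union_right _ (mem_image_of_mem _
          ((hpins.2 _).2 (hpinc t i)))) (sSA _) _ (by omega)).trans (card_le_card ?_))) (p2 i)
        exact inter_subset_inter_left subset_union_right)
    (fun i x hx y hy hy' => by
      have h1 := hZc i x hx
      have h2 : #(Z i x ∪ supp (φ y)) ≤ 2 * h * a := by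
        have := card_union_le (Z i x) (supp (φ y))
        have := hwt y (sSA _ hy)
        omega
      have h3 := nBad y (sSA _ hy) fun h => hy' (mem_filter.2
        ⟨mem_univ _, Or.inl (mem_union_left _ (mem_union_left _ h))⟩)
      refine three_step (X := cl y ∩ (Big ∪ Cs))
        (Y := (cl y).filter fun y' =>
          ¬ Disjoint (plus U g (Z i x ∪ supp (φ y)) \ H y) (supp (φ y')))
        (Z := (cl y).filter fun y' => Cut U g (s - u) (σ + σ') y' (Z i x ∪ supp (φ y)))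
        (fun y hy => ?_) h3 ?_ ?_
      · simp only [mem_inter, mem_filter, mem_univ, true_and, mem_union] at hy ⊢
        tauto
      · refine frac_step hζ (hplus _ h2) ?_
        rw [← hΘ', hH']
        exact card_meet_le _ _ _ _
      · refine le_trans (Nat.mul_le_mul_left _ ((hbest' _ (mem_union_left _ (mem_image_of_mem _
          (sSA _ hy))) (scl _) _ h2).trans (card_le_card ?_))) h3
        exact inter_subset_inter_left subset_union_right)
  simp only [mem_filter, mem_univ, true_and, not_or, not_not, mem_union] at hx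
  have x1 : ∀ i, (x i).1 ∈ 𝒮 := fun i => sSA _ (hx i).1
  have x2 : ∀ i, (x i).2 ∈ 𝒮 := fun i => scl _ (hx i).2.1
  refine loc_final hd hc (fun i => φ (x i).1) (fun i => φ (x i).2) (fun i => (x i).1)
    (fun i => (x i).2) (fun i => H (x i).1) (fun i => G (pin t i)) (fun i => Z i x) t
    (fun i => ?_) (fun i e => ?_) (fun i => hS.wt _ (x1 i)) (fun i => hS.wt _ (x2 i))
    (fun i J hJ => ?_) (fun i J hJ h => ?_) (fun i => (hx i).2.2.1.2.1) (fun i => (hx i).2.2.2.2.1)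
    (fun i => (hx i).2.2.1.2.2) (fun i => (hx i).2.2.2.2.2) (fun i => ?_)
    (fun i => nLoc _ (x1 i) (hx i).2.2.1.1.1.2 _ (hpinc t i))
    (fun i => (card_le_card (sdiff_subset_sdiff subset_union_left Subset.rfl)).trans
      (hS.near _ (x1 i)))
    (fun i => (card_le_card (sdiff_subset_sdiff subset_union_left Subset.rfl)).trans
      (hS.near _ (x2 i))) hσ' (hq ▸ hsu) e1
  · exact (Submodule.Quotient.eq U).1 (congrArg Prod.fst ((mcl _ _).1 (hx i).2.1).2).symm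
  · simp [hZ]
  · have h1 := (hx i).1
    rw [hSA, mem_filter, hpin] at h1
    simpa using h1.2 (mem_image_of_mem t (mem_filter.2 ⟨mem_univ J, hJ⟩))
  · exact t2 J (mem_biUnion.2 ⟨i, mem_compl.2 hJ, h⟩)
  · have := nBig _ (x2 i) (hx i).2.2.2.1
    rwa [hH', cl_eq _ _ (hx i).2.1, ← hH'] at this

end Pool.Agent.P.MP_c2d640_lc

set_option autoImplicit false
set_option linter.unusedSectionVars false

/-! The locating theorem. -/

namespace Pool.Agent.P.MP_c2d640_lc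

open Finset Submodule
open scoped Classical

variable {F V ι : Type} [Field F] [AddCommGroup V] [Module F V] [Fintype ι] [DecidableEq ι]

theorem St.mono_locate {U : Submodule F (ι → F)} {𝒴 𝒮 : Finset (ι → F)}
    {φ : (ι → F) → ι → F} {K : (ι → F) → Finset ι} {g a s σ M M' : ℕ}
    (h : St U 𝒴 g a 𝒮 φ K s σ M) (hM : M ≤ M') : St U 𝒴 g a 𝒮 φ K s σ M' :=
  ⟨h.sub, h.wt, h.low, h.up, h.near, h.labs.trans hM⟩

theorem start_locate {U : Submodule F (ι → F)} {g a : ℕ} (hd : Dist U g) {𝒴 : Finset (ι → F)}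
    (h𝒴 : ∀ y ∈ 𝒴, y ∈ U ∧ y ≠ 0 ∧ #(supp y) ≤ a) :
    St U 𝒴 g a 𝒴 (fun y => y) (fun _ => ∅) a 0 1 := by
  refine ⟨Subset.rfl, fun y hy => (h𝒴 y hy).2.2, fun y hy => ?_, fun y hy => ?_, fun y hy => ?_, ?_⟩
  · have := hd y (h𝒴 y hy).1 (h𝒴 y hy).2.1
    rw [union_empty]
    omega
  · rw [union_empty]
    exact (h𝒴 y hy).2.2
  · rw [union_empty, Finset.sdiff_self, card_empty]
  · refine (card_le_card (t := {(0, ∅)}) fun x hx => ?_).trans (card_singleton _).le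
    obtain ⟨y, hy, rfl⟩ := mem_image.1 hx
    rw [mem_singleton, lab, mkQ_apply, (Submodule.Quotient.mk_eq_zero U).2 (h𝒴 y hy).1]

theorem theta_locate {q g a h τ : ℕ} (hh : 1 ≤ h) (ha : 1 ≤ a) :
    lTheta q g a h τ * a ≤ lH q g a h τ ∧ 2 * h * a ≤ lH q g a h τ := by
  have h1 : 1 ≤ lZeta q g a h τ :=
    le_trans (Nat.mul_pos (by omega) ha) (Nat.le_add_right _ _)
  have h2 : 2 * h ≤ lTheta q g a h τ :=
    le_trans (by omega) (Nat.le_mul_of_pos_right (8 * h) h1)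
  have h3 : lTheta q g a h τ * a ≤ lH q g a h τ :=
    Nat.mul_le_mul_right a (Nat.le_mul_of_pos_right _ (Nat.succ_pos _))
  exact ⟨h3, (Nat.mul_le_mul_right a h2).trans h3⟩

theorem arith_locate {N L D j k c y s m : ℕ} (hN : 0 < N) (hL : 0 < L) (hD : 0 < D) (hj : j < k)
    (h1 : N * (2 * L * D) ^ k * c ≤ m * L * y) (hm : m ≤ N * (2 * L) ^ j) (hy : y ≤ D ^ j * s) :
    D * c ≤ s := by
  have h2 : (2 * L * D) ^ (j + 1) ≤ (2 * L * D) ^ k := Nat.pow_le_pow_right (by positivity) hj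
  refine Nat.le_of_mul_le_mul_left (c := N * (2 * L) ^ j * L * D ^ j) ?_ (by positivity)
  calc N * (2 * L) ^ j * L * D ^ j * (D * c) ≤ 2 * (N * (2 * L) ^ j * L * D ^ j * (D * c)) := by
        omega
    _ = N * (2 * L * D) ^ (j + 1) * c := by ring
    _ ≤ N * (2 * L * D) ^ k * c := Nat.mul_le_mul_right _ (Nat.mul_le_mul_left _ h2)
    _ ≤ m * L * y := h1
    _ ≤ N * (2 * L) ^ j * L * (D ^ j * s) := Nat.mul_le_mul (Nat.mul_le_mul_right _ hm) hy
    _ = _ := by ring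

theorem locate [Fintype F] {U : Submodule F (ι → F)} {g a h τ u R : ℕ} (hh : 1 ≤ h) (hu : 1 ≤ u)
    (he : lE (Fintype.card F) h * u ≤ g) (hga : g ≤ a) (hR : a ≤ R * u) (hd : Dist U g)
    (ht : Traces U ((2 * h + 1) * a) τ) (hc : NoCube U h) (𝒴 : Finset (ι → F))
    (h𝒴 : ∀ y ∈ 𝒴, y ∈ U ∧ y ≠ 0 ∧ #(supp y) ≤ a) (h0 : 𝒴.Nonempty) :
    ∃ P : Finset ι, u ≤ #P ∧ #𝒴 ≤ lGam (Fintype.card F) (Fintype.card ι) g a h τ R *
      #(𝒴.filter fun y => P ⊆ supp y) := by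
  by_contra hno
  have hno' : ∀ P : Finset ι, u ≤ #P → lGam (Fintype.card F) (Fintype.card ι) g a h τ R *
      #(𝒴.filter fun y => P ⊆ supp y) ≤ #𝒴 := fun P hP =>
    le_of_lt (not_le.1 fun hle => hno ⟨P, hP, hle⟩)
  have h12 : 12 * u ≤ g := le_trans (Nat.mul_le_mul_right u (by unfold lE; omega)) he
  have hR2 : 12 ≤ R := Nat.le_of_mul_le_mul_right (h12.trans (hga.trans hR)) hu
  obtain ⟨σ', e1, e2⟩ : ∃ σ', σ' * R ≤ u ∧ u < R * (σ' + 1) :=
    ⟨u / R, Nat.div_mul_le_self u R, Nat.lt_mul_div_succ u (by omega)⟩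
  have e3 : σ' + 1 ≤ u := by
    have := Nat.mul_le_mul_left σ' hR2
    omega
  have ha : 1 ≤ a := by omega
  obtain ⟨t1, t2⟩ := theta_locate (q := Fintype.card F) (g := g) (τ := τ) hh ha
  have hN : 0 < (Fintype.card ι + 1) ^ 2 ^ h := by positivity
  have hL : 0 < lLam (Fintype.card F) g a h τ := by unfold lLam; positivity
  have hD : 0 < lDel a h := by
    have : 0 < h := hh
    unfold lDel; positivity
  have hb : 2 * a ≤ (2 * h + 1) * a := Nat.mul_le_mul_right a (by omega)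
  have key : ∀ j, j ≤ R ^ 2 → ∃ 𝒮 φ K s σ, St U 𝒴 g a 𝒮 φ K s σ
      ((Fintype.card ι + 1) ^ 2 ^ h * (2 * lLam (Fintype.card F) g a h τ) ^ j) ∧
      σ * u + σ' * s ≤ σ' * a ∧ s + j * (σ' + 1) ≤ a ∧ #𝒴 ≤ lDel a h ^ j * #𝒮 := by
    intro j
    induction j with
    | zero =>
      exact fun _ => ⟨𝒴, _, _, a, 0, (start_locate hd h𝒴).mono_locate
        (by rw [pow_zero, mul_one]; exact hN), by omega, by omega, by rw [pow_zero, one_mul]⟩
    | succ j ih =>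
      intro hj
      obtain ⟨𝒮, φ, K, s, σ, hS, i1, i2, i3⟩ := ih (by omega)
      have hY := h0.card_pos
      have hS0 : 𝒮.Nonempty := card_pos.1 (Nat.pos_of_mul_pos_left (hY.trans_le i3))
      have hs : s ≤ a := by omega
      have hσ : σ ≤ u := by
        refine Nat.le_of_mul_le_mul_right ?_ hu
        calc σ * u ≤ σ' * a := by omega
          _ ≤ σ' * (R * u) := Nat.mul_le_mul_left _ hR
          _ = σ' * R * u := (mul_assoc _ _ _).symm
          _ ≤ u * u := Nat.mul_le_mul_right _ e1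
      have hm : ∀ m, m ≤ 2 * ((Fintype.card ι + 1) ^ 2 ^ h *
          (2 * lLam (Fintype.card F) g a h τ) ^ j) →
          m * (1 + lH (Fintype.card F) g a h τ * Fintype.card F ^ 2) ^ τ ≤
          (Fintype.card ι + 1) ^ 2 ^ h * (2 * lLam (Fintype.card F) g a h τ) ^ (j + 1) :=
        fun m hm => (Nat.mul_le_mul_right (lLam (Fintype.card F) g a h τ) hm).trans
          (le_of_eq (by ring))
      have hc' : ∀ 𝒯 : Finset (ι → F), #𝒮 ≤ lDel a h * #𝒯 → #𝒴 ≤ lDel a h ^ (j + 1) * #𝒯 :=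
        fun 𝒯 h1 => i3.trans ((Nat.mul_le_mul_left _ h1).trans (le_of_eq (by ring)))
      rcases loc_step (σ' := σ') hh hu he hga hd ht hc hS hS0 hs hσ (by omega)
        (Nat.le_mul_of_pos_right _ (by positivity)) (fun ℋ a1 a2 =>
          arith_locate hN hL hD (k := R ^ 2) hj (card_located_le ht
            (fun y hy => ⟨(h𝒴 y hy).1, (h𝒴 y hy).2.2.trans (by omega)⟩) hno' ℋ a2) a1 i3) with
        h1 | ⟨h1, 𝒵, h2, h3, h4⟩
      · obtain ⟨φ', K', h5⟩ := hS.strip ht hb t1 σ'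
        obtain ⟨y, hy⟩ := card_pos.1 (Nat.pos_of_mul_pos_left (hS0.card_pos.trans_le h1))
        obtain ⟨y1, y2⟩ := mem_filter.1 hy
        have y3 : σ' + 1 ≤ s := (y2.trans_le (card_le_card inter_subset_left)).trans_le (hS.wt y y1)
        refine ⟨_, φ', K', _, _, h5.mono_locate (hm _ (by omega)), ?_, ?_, hc' _ h1⟩
        · have := Nat.mul_le_mul_left σ' (Nat.sub_le s (σ' + 1))
          omega
        · rw [Nat.succ_mul]
          omega
      · obtain ⟨φ', K', h5⟩ := cut_move (g := g) (s := s - u) (σ := σ + σ') hS.sub ht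
          (show s - u ≤ a by omega) 𝒵 fun Z hZ => ⟨(h3 Z hZ).trans t2, by
            have := h3 Z hZ
            rw [add_mul, one_mul]
            omega⟩
        refine ⟨_, φ', K', _, _, h5.mono_locate (hm _ h2), ?_, ?_, hc' _ h4⟩
        · obtain ⟨w, rfl⟩ := Nat.exists_eq_add_of_le h1
          rw [Nat.add_sub_cancel_left, add_mul]
          rw [mul_add] at i1
          omega
        · rw [Nat.succ_mul]
          omega
  obtain ⟨-, -, -, s, σ, -, -, i2, -⟩ := key _ le_rfl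
  have h1 : R * u < R * (R * (σ' + 1)) := Nat.mul_lt_mul_of_pos_left e2 (by omega)
  rw [← mul_assoc, ← sq] at h1
  omega

theorem cover [Fintype F] {U : Submodule F (ι → F)} {g a h τ u R : ℕ} (hh : 1 ≤ h) (hu : 1 ≤ u)
    (he : lE (Fintype.card F) h * u ≤ g) (hga : g ≤ a) (hR : a ≤ R * u) (hd : Dist U g)
    (ht : Traces U ((2 * h + 1) * a) τ) (hc : NoCube U h) :
    ∃ 𝒬 : Finset (Finset ι), #𝒬 ≤ lGam (Fintype.card F) (Fintype.card ι) g a h τ R *
      (Fintype.card ι * Fintype.card F + 1) ∧ (∀ P ∈ 𝒬, u ≤ #P) ∧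
      ∀ y ∈ U, y ≠ 0 → #(supp y) ≤ a → ∃ P ∈ 𝒬, P ⊆ supp y := by
  obtain ⟨𝒬, h1, h2, h3⟩ := greedy_cover (fun P : Finset ι => u ≤ #P)
    (fun P (y : ι → F) => P ⊆ supp y) (lGam (Fintype.card F) (Fintype.card ι) g a h τ R)
    (univ.filter fun y : ι → F => y ∈ U ∧ y ≠ 0 ∧ #(supp y) ≤ a)
    (fun 𝒴 a1 a2 => by
      obtain ⟨P, b1, b2⟩ := locate hh hu he hga hR hd ht hc 𝒴
        (fun y hy => (mem_filter.1 (a1 hy)).2) a2
      exact ⟨P, b1, b2.trans (Nat.mul_le_mul_left _ (card_le_card fun y hy => by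
        simpa only [mem_filter] using hy))⟩)
    (Fintype.card ι * Fintype.card F + 1) (by
      refine (card_le_univ _).trans_lt ?_
      rw [Fintype.card_fun]
      calc Fintype.card F ^ Fintype.card ι ≤ (2 ^ Fintype.card F) ^ Fintype.card ι :=
            Nat.pow_le_pow_left Nat.lt_two_pow_self.le _
        _ = 2 ^ (Fintype.card ι * Fintype.card F) := by rw [← pow_mul, mul_comm]
        _ < _ := Nat.pow_lt_pow_right (by norm_num) (Nat.lt_succ_self _))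
  exact ⟨𝒬, h1, h2, fun y a1 a2 a3 => h3 y (mem_filter.2 ⟨mem_univ _, a1, a2, a3⟩)⟩

end Pool.Agent.P.MP_c2d640_lc
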