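import Pool.Agent.P.MP_c2d640_lc.G1
import Pool.Agent.P.MP_eb0bd2_lc.PTLib

set_option autoImplicit false
set_option linter.unusedSectionVars false

/-! Gaussian elimination over a finite field in polynomial time. -/

namespace Pool.Agent.P.MP_c2d640_lc

open Pool.Agent.Lib.PolyTime Submodule
open scoped Classical

variable {F : Type} [Field F]

/-- The vector described by a list. -/
def sem (m : ℕ) (x : List F) : Fin m → F := fun i => x.getD i 0

/-- Eliminate coordinate `i` from `y` with the pivot vector `p`. -/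
noncomputable def elim (R : List ℕ) (i : ℕ) (p y : List F) : List F :=
  R.map fun j => y.getD j 0 - y.getD i 0 * (p.getD i 0)⁻¹ * p.getD j 0

/-- A member of `L` with non-zero coordinate `i`, if there is one. -/
noncomputable def pivot (i : ℕ) (L : List (List F)) : List F :=
  (L.filter fun y => decide (y.getD i 0 ≠ 0)).headD []

/-- One elimination round. -/
noncomputable def elimStep (R : List ℕ) (s : List F × List (List F)) (i : ℕ) :
    List F × List (List F) :=
  (elim R i (pivot i s.2) s.1, s.2.map (elim R i (pivot i s.2)))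

/-- Test for membership in the span of a list of vectors. -/
noncomputable def inSpan (R : List ℕ) (x : List F) (L : List (List F)) : Bool :=
  R.all fun j => decide ((R.foldl (elimStep R) (x, L)).1.getD j 0 = 0)

theorem sem_elim {m : ℕ} (i : ℕ) (p y : List F) :
    sem m (elim (List.range m) i p y) = sem m y - (y.getD i 0 * (p.getD i 0)⁻¹) • sem m p := by
  funext j
  simp [sem, elim, List.getD_eq_getElem?_getD]

theorem pivot_spec (i : ℕ) (L : List (List F)) :
    (pivot i L ∈ L ∧ (pivot i L).getD i 0 ≠ 0) ∨ (pivot i L = [] ∧ ∀ y ∈ L, y.getD i 0 = 0) := by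
  unfold pivot
  rcases h : L.filter fun y => decide (y.getD i 0 ≠ 0) with _ | ⟨p, l⟩
  · right
    refine ⟨by rw [h]; rfl, fun y hy => ?_⟩
    simpa using List.filter_eq_nil_iff.1 h y hy
  · left
    have : p ∈ L.filter fun y => decide (y.getD i 0 ≠ 0) := by rw [h]; simp
    rw [h]
    simpa using this

theorem sem_nil (m : ℕ) : sem m ([] : List F) = 0 := by
  funext j
  simp [sem]

theorem elimStep_spec {m : ℕ} (i : Fin m) (s : List F × List (List F)) :
    (sem m (elimStep (List.range m) s i).1 ∈
      span F (sem m '' {y | y ∈ (elimStep (List.range m) s i).2}) ↔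
      sem m s.1 ∈ span F (sem m '' {y | y ∈ s.2})) ∧
    ((∀ y ∈ s.2, ∀ j : Fin m, j < i → sem m y j = 0) →
      ∀ y ∈ (elimStep (List.range m) s i).2, ∀ j : Fin m, j ≤ i → sem m y j = 0) := by
  set p := pivot i s.2 with hp
  let T : (Fin m → F) →ₗ[F] (Fin m → F) :=
    LinearMap.id - (LinearMap.proj i : (Fin m → F) →ₗ[F] F).smulRight ((p.getD i 0)⁻¹ • sem m p)
  have hT : ∀ y, sem m (elim (List.range m) i p y) = T (sem m y) := fun y => by
    simp [sem_elim, T, smul_smul, sem]
  have hpm : sem m p ∈ span F (sem m '' {y | y ∈ s.2}) := by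
    rcases pivot_spec i s.2 with h | h
    · exact subset_span ⟨_, h.1, rfl⟩
    · rw [hp, h.1, sem_nil]
      exact zero_mem _
  constructor
  · have e : sem m '' {y | y ∈ (elimStep (List.range m) s i).2} = T '' (sem m '' {y | y ∈ s.2}) := by
      ext z
      simp [elimStep, ← hp, hT]
    rw [e, ← map_span]
    change sem m (elim (List.range m) i p s.1) ∈ _ ↔ _
    rw [hT]
    refine ⟨?_, mem_map_of_mem⟩
    rintro ⟨z, hz, e⟩
    have e2 : sem m s.1 = z + (sem m s.1 i - z i) • ((p.getD i 0)⁻¹ • sem m p) := by
      simp only [T, LinearMap.sub_apply, LinearMap.id_apply, LinearMap.smulRight_apply,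
        LinearMap.proj_apply] at e
      rw [sub_smul, ← sub_eq_zero, ← sub_eq_zero.2 e.symm]
      abel
    rw [e2]
    exact add_mem hz (smul_mem _ _ (smul_mem _ _ hpm))
  · intro h y hy j hj
    obtain ⟨z, hz, rfl⟩ := List.mem_map.1 hy
    change sem m (elim (List.range m) i p z) j = 0
    rw [sem_elim]
    rcases pivot_spec i s.2 with a | a
    · rcases hj.lt_or_eq with hj | rfl
      · simp [h z hz j hj, h p a.1 j hj]
      · have := a.2
        rw [← hp] at this
        simp only [sem, Pi.sub_apply, Pi.smul_apply, smul_eq_mul]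
        rw [mul_assoc, inv_mul_cancel₀ this]
        simp
    · rw [hp, a.1, sem_nil]
      rcases hj.lt_or_eq with hj | rfl
      · simp [h z hz j hj]
      · simpa [sem] using a.2 z hz

theorem inSpan_iff {m : ℕ} (x : List F) (L : List (List F)) :
    inSpan (List.range m) x L = true ↔ sem m x ∈ span F (sem m '' {y | y ∈ L}) := by
  have key : ∀ k ≤ m, (sem m ((List.range k).foldl (elimStep (List.range m)) (x, L)).1 ∈
      span F (sem m '' {y | y ∈ ((List.range k).foldl (elimStep (List.range m)) (x, L)).2}) ↔
      sem m x ∈ span F (sem m '' {y | y ∈ L})) ∧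
      ∀ y ∈ ((List.range k).foldl (elimStep (List.range m)) (x, L)).2, ∀ j : Fin m,
        j.val < k → sem m y j = 0 := by
    intro k
    induction k with
    | zero => simp
    | succ k ih =>
      intro hk
      obtain ⟨h1, h2⟩ := ih (by omega)
      rw [List.range_succ, List.foldl_append]
      obtain ⟨h3, h4⟩ := elimStep_spec (⟨k, hk⟩ : Fin m)
        ((List.range k).foldl (elimStep (List.range m)) (x, L))
      exact ⟨h3.trans h1, fun y hy j hj => h4 h2 y hy j (Nat.le_of_lt_succ hj)⟩
  obtain ⟨h1, h2⟩ := key m le_rfl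
  rw [← h1, (span_eq_bot.2 _ : span F _ = ⊥), mem_bot]
  · simp only [inSpan, List.all_eq_true, List.mem_range, decide_eq_true_eq]
    exact ⟨fun h => funext fun j => h j j.2, fun h j hj => congrFun h ⟨j, hj⟩⟩
  · rintro _ ⟨y, hy, rfl⟩
    exact funext fun j => h2 y hy j j.2

section PT

variable {α β γ : Type} [N487b59b3 α] [N487b59b3 β] [N487b59b3 γ]

theorem pt_finite [Finite β] [Nonempty β] (f : β → γ) : PT f := by
  have := Fintype.ofFinite β
  obtain ⟨b₀⟩ := ‹Nonempty β›
  have key : ∀ l : List β, PT fun b => if b ∈ l then f b else f b₀ := by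
    intro l
    induction l with
    | nil => simpa using PT.const (f b₀)
    | cons x l ih =>
      refine (PT.ite (PTP.eq PT.id (PT.const x)) (PT.const (f x)) ih
        (inst := fun _ => Classical.dec _)).congr fun b => ?_
      by_cases h : b = x <;> simp [h]
  simpa using key Finset.univ.toList

theorem exists_sz_le (β : Type) [N487b59b3 β] [Finite β] : ∃ K, ∀ b : β, sz b ≤ K := by
  obtain ⟨K, hK⟩ := (Set.finite_range (sz : β → ℕ)).bddAbove
  exact ⟨K, fun b => hK ⟨b, rfl⟩⟩

variable [N487b59b3 F] [Finite F]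

@[fun_prop] theorem pt_add {f g : α → F} (hf : PT f) (hg : PT g) : PT fun a => f a + g a :=
  (pt_finite fun p : F × F => p.1 + p.2).comp (hf.pair hg)

@[fun_prop] theorem pt_sub {f g : α → F} (hf : PT f) (hg : PT g) : PT fun a => f a - g a :=
  (pt_finite fun p : F × F => p.1 - p.2).comp (hf.pair hg)

@[fun_prop] theorem pt_mul {f g : α → F} (hf : PT f) (hg : PT g) : PT fun a => f a * g a :=
  (pt_finite fun p : F × F => p.1 * p.2).comp (hf.pair hg)

@[fun_prop] theorem pt_inv {f : α → F} (hf : PT f) : PT fun a => (f a)⁻¹ :=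
  (pt_finite fun p : F => p⁻¹).comp hf

@[fun_prop] theorem pt_elim {R : α → List ℕ} {i : α → ℕ} {p y : α → List F} (hR : PT R)
    (hi : PT i) (hp : PT p) (hy : PT y) : PT fun a => elim (R a) (i a) (p a) (y a) := by
  unfold elim
  fun_prop

@[fun_prop] theorem pt_pivot {i : α → ℕ} {L : α → List (List F)} (hi : PT i) (hL : PT L) :
    PT fun a => pivot (i a) (L a) := by
  unfold pivot
  fun_prop

attribute [local irreducible] elim pivot

@[fun_prop] theorem pt_elimStep {R : α → List ℕ} {s : α → List F × List (List F)} {i : α → ℕ}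
    (hR : PT R) (hs : PT s) (hi : PT i) : PT fun a => elimStep (R a) (s a) (i a) := by
  unfold elimStep
  fun_prop

theorem sz_le_of_length {K : ℕ} (hK : ∀ b : F, sz b ≤ K) (x : List F) :
    sz x ≤ x.length * (2 * K + 1) := sz_le_of_forall fun b _ => hK b

theorem length_elim (R : List ℕ) (i : ℕ) (p y : List F) : (elim R i p y).length = R.length := by
  simp [elim]

theorem sz_foldl_elimStep {K : ℕ} (hK : ∀ b : F, sz b ≤ K) (R l : List ℕ)
    (s : List F × List (List F)) :
    (l.foldl (elimStep R) s).2.length = s.2.length ∧ sz (l.foldl (elimStep R) s) ≤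
      sz s + (s.2.length + 1) * (2 * (R.length * (2 * K + 1)) + 1) := by
  induction l using List.reverseRecOn with
  | nil => simp
  | append_singleton l i ih =>
    rw [List.foldl_append]
    generalize l.foldl (elimStep R) s = t at ih
    refine ⟨by simp [elimStep, ih.1], ?_⟩
    have h1 := sz_le_of_length hK (elim R i (pivot i t.2) t.1)
    have h2 := sz_le_of_forall (l := t.2.map (elim R i (pivot i t.2))) (B := R.length * (2 * K + 1))
      fun x hx => by
        obtain ⟨y, -, rfl⟩ := List.mem_map.1 hx
        simpa [length_elim] using sz_le_of_length hK (elim R i (pivot i t.2) y)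
    simp only [List.foldl_cons, List.foldl_nil, elimStep, sz_pair, length_elim, List.length_map,
      ih.1] at *
    nlinarith

attribute [local irreducible] elimStep

@[fun_prop] theorem pt_inSpan {R : α → List ℕ} {x : α → List F} {L : α → List (List F)}
    (hR : PT R) (hx : PT x) (hL : PT L) : PT fun a => inSpan (R a) (x a) (L a) := by
  obtain ⟨K, hK⟩ := exists_sz_le F
  have h : PT fun a => (R a).foldl (elimStep (R a)) (x a, L a) := by
    refine PT.foldl (f := fun a => elimStep (R a)) hR (hx.pair hL) (by fun_prop) ?_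
    have h1 : Small fun a => sz (x a, L a) +
      ((L a).length + 1) * (2 * ((R a).length * (2 * K + 1)) + 1) := by fun_prop
    exact (PB.reindex h1 Prod.fst).mono fun p => (sz_foldl_elimStep hK _ _ _).2
  exact (show PT fun p : List ℕ × List F => p.1.all fun j => decide (p.2.getD j 0 = 0) by
    fun_prop).comp (hR.pair h.fst)

end PT

end Pool.Agent.P.MP_c2d640_lc

set_option autoImplicit false
set_option linter.unusedSectionVars false

/-! The girth algorithm: greedy packing of cobases, then bounded enumeration. -/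

namespace Pool.Agent.P.MP_c2d640_lc

open Pool.Agent.Lib.PolyTime Pool.Agent.P.MP_eb0bd2_lc
open scoped Classical

variable {F : Type} [Field F]

/-- Is column `e` in the span of the columns indexed by `B`? -/
noncomputable def spans (R : List ℕ) (A : List (List F)) (e : ℕ) (B : List ℕ) : Bool :=
  inSpan R (A.getD e []) (B.map fun b => A.getD b [])

/-- One step of the greedy algorithm. -/
noncomputable def gstep (R : List ℕ) (A : List (List F)) (B : List ℕ) (e : ℕ) : List ℕ :=
  if spans R A e B = true then B else e :: B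

/-- The greedy basis for an order of the columns. -/
noncomputable def greedy (R : List ℕ) (A : List (List F)) (ord : List ℕ) : List ℕ :=
  ord.foldl (gstep R A) []

/-- The number of bases avoiding `e`. -/
def load (Bs : List (List ℕ)) (e : ℕ) : ℕ := Bs.countP fun B => decide (e ∉ B)

/-- The columns sorted by decreasing load. -/
def order (N : List ℕ) (Bs : List (List ℕ)) : List ℕ :=
  (List.range (Bs.length + 1)).reverse.flatMap fun j => N.filter fun e => decide (load Bs e = j)

/-- The next basis. -/
noncomputable def nextBasis (R N : List ℕ) (A : List (List F)) (Bs : List (List ℕ)) : List ℕ :=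
  N.filter fun e => decide (e ∈ greedy R A (order N Bs))

/-- The bases found in the first `t` rounds. -/
noncomputable def bases (R N : List ℕ) (A : List (List F)) (t : ℕ) : List (List ℕ) :=
  (fun Bs => nextBasis R N A Bs :: Bs)^[t] []

/-- The members of `I` that are needed to span column `x`. -/
noncomputable def needed (R : List ℕ) (A : List (List F)) (I : List ℕ) (x : ℕ) : List ℕ :=
  I.filter fun b => !spans R A x (I.filter fun e => decide (e ≠ b))

/-- The size of the circuit formed by `x` and `K`, if `K` spans `x`. -/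
noncomputable def cval (R : List ℕ) (A : List (List F)) (K : List ℕ) (x : ℕ) : List ℕ :=
  if spans R A x K = true then [K.length + 1] else []

/-- The basis `B` with `T` and `x` removed and `S` added. -/
def modify (N B T S : List ℕ) (x : ℕ) : List ℕ :=
  N.filter fun e => decide (e ≠ x ∧ ((e ∈ B ∧ e ∉ T) ∨ e ∈ S))

/-- All candidate values near one basis. -/
noncomputable def near (c : ℕ) (R N : List ℕ) (A : List (List F)) (B : List ℕ) : List ℕ :=
  (tuples c N).flatMap fun T => (tuples c N).flatMap fun S => N.flatMap fun x =>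
    cval R A (needed R A (modify N B T S x) x) x

/-- All candidate values. -/
noncomputable def vals (c : ℕ) (R N : List ℕ) (A : List (List F)) : List ℕ :=
  (bases R N A (N.length * N.length)).flatMap (near c R N A)

/-- The minimum of a list, zero for the empty list. -/
def best (l : List ℕ) : ℕ := l.foldl min (l.headD 0)

/-- The algorithm. -/
noncomputable def algo (c : ℕ) (A : List (List F)) : ℕ :=
  best (vals c (List.range (A.headD []).length) (List.range A.length) A)

section PT

variable {α : Type} [N487b59b3 α] [N487b59b3 F] [Finite F]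
variable {R N B T S I : α → List ℕ} {A : α → List (List F)} {e : α → ℕ} {Bs : α → List (List ℕ)}

attribute [local irreducible] inSpan

@[fun_prop] theorem pt_spans (hR : PT R) (hA : PT A) (he : PT e) (hB : PT B) :
    PT fun a => spans (R a) (A a) (e a) (B a) := by
  unfold spans
  fun_prop

attribute [local irreducible] spans

@[fun_prop] theorem pt_gstep (hR : PT R) (hA : PT A) (hB : PT B) (he : PT e) :
    PT fun a => gstep (R a) (A a) (B a) (e a) := by
  unfold gstep
  exact PT.ite (PTP.of_bool (by fun_prop)) hB (by fun_prop)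

@[fun_prop] theorem pt_greedy (hR : PT R) (hA : PT A) (hB : PT B) :
    PT fun a => greedy (R a) (A a) (B a) :=
  PT.foldl_growth (f := fun a => gstep (R a) (A a)) hB (PT.const _) (by fun_prop)
    (fun p => 2 * sz p.2 + 1) (PB.of_le_add 2 fun p => by rw [sz_pair']; omega)
    fun a L x => by unfold gstep; split_ifs <;> simp; omega

@[fun_prop] theorem pt_load (hBs : PT Bs) (he : PT e) : PT fun a => load (Bs a) (e a) := by
  unfold load
  fun_prop

attribute [local irreducible] load greedy

@[fun_prop] theorem pt_order (hN : PT N) (hBs : PT Bs) : PT fun a => order (N a) (Bs a) := by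
  unfold order
  fun_prop

attribute [local irreducible] order

@[fun_prop] theorem pt_nextBasis (hR : PT R) (hN : PT N) (hA : PT A) (hBs : PT Bs) :
    PT fun a => nextBasis (R a) (N a) (A a) (Bs a) := by
  unfold nextBasis
  fun_prop

theorem pt_bases (hR : PT R) (hN : PT N) (hA : PT A) (he : PT e) (he' : Small e) :
    PT fun a => bases (R a) (N a) (A a) (e a) :=
  PT.iterate_nat_growth (F := fun a Bs => nextBasis (R a) (N a) (A a) Bs :: Bs) he he'
    (PT.const _) (by fun_prop) (fun a => 2 * sz (N a) + 1) (by fun_prop) fun a Bs => by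
      have : sz (nextBasis (R a) (N a) (A a) Bs) ≤ sz (N a) := sz_le_of_sublist List.filter_sublist
      simp
      omega

@[fun_prop] theorem pt_needed (hR : PT R) (hA : PT A) (hI : PT I) (he : PT e) :
    PT fun a => needed (R a) (A a) (I a) (e a) := by
  unfold needed
  fun_prop

@[fun_prop] theorem pt_cval (hR : PT R) (hA : PT A) (hI : PT I) (he : PT e) :
    PT fun a => cval (R a) (A a) (I a) (e a) := by
  unfold cval
  exact PT.ite (PTP.of_bool (by fun_prop)) (by fun_prop) (by fun_prop)

@[fun_prop] theorem pt_modify (hN : PT N) (hB : PT B) (hT : PT T) (hS : PT S) (he : PT e) :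
    PT fun a => modify (N a) (B a) (T a) (S a) (e a) := by
  unfold modify
  fun_prop

attribute [local irreducible] needed cval modify tuples

@[fun_prop] theorem pt_near (c : ℕ) (hR : PT R) (hN : PT N) (hA : PT A) (hB : PT B) :
    PT fun a => near c (R a) (N a) (A a) (B a) := by
  unfold near
  fun_prop

attribute [local irreducible] near bases

theorem pt_vals (c : ℕ) (hR : PT R) (hN : PT N) (hA : PT A) :
    PT fun a => vals c (R a) (N a) (A a) :=
  PT.flatMap (f := fun a => near c (R a) (N a) (A a))
    (pt_bases hR hN hA (by fun_prop) (by fun_prop)) (by fun_prop)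

theorem pt_best (hB : PT B) : PT fun a => best (B a) :=
  PT.foldl_growth (f := fun _ => min) hB (by fun_prop) (by fun_prop) (fun _ => 0) (PB.const 0)
    fun _ _ _ => sz_mono (min_le_left _ _)

theorem pt_algo (c : ℕ) : PT (algo c : List (List F) → ℕ) :=
  pt_best (pt_vals c (by fun_prop) (by fun_prop) PT.id)

end PT

end Pool.Agent.P.MP_c2d640_lc

set_option autoImplicit false

/-! Correctness of the girth algorithm under the density hypothesis. -/

namespace Pool.Agent.P.MP_c2d640_lc

open Finset Submodule Pool.Agent.P.MP_eb0bd2_lc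
open scoped Classical

variable {F V : Type} [Field F] [AddCommGroup V] [Module F V]
variable {R : List ℕ} {A : List (List F)} {v : ℕ → V} {n : ℕ}

/-- The span test is correct for the vectors `v`. -/
def SpanOK (R : List ℕ) (A : List (List F)) (v : ℕ → V) : Prop :=
  ∀ e B, spans R A e B = true ↔ v e ∈ span F (v '' {b | b ∈ B})

/-- The density hypothesis. -/
def Dense (F : Type) [Field F] [Module F V] (v : ℕ → V) (n d c : ℕ) : Prop :=
  ∀ S B : Finset ℕ, S ⊆ range n → B ⊆ S → LinearIndepOn F v B →
    (∀ e ∈ S, v e ∈ span F (v '' B)) → d * #(S \ B) ≤ c * #S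

theorem foldl_gstep (h : SpanOK R A v) (l : List ℕ) : ∀ B : List ℕ,
    LinearIndepOn F v {b | b ∈ B} →
    LinearIndepOn F v {b | b ∈ l.foldl (gstep R A) B} ∧ (∀ b ∈ B, b ∈ l.foldl (gstep R A) B) ∧
      (∀ b ∈ l.foldl (gstep R A) B, b ∈ B ∨ b ∈ l) ∧
      ∀ e ∈ l, v e ∈ span F (v '' {b | b ∈ l.foldl (gstep R A) B}) := by
  induction l with
  | nil => intro B hB; simpa using hB
  | cons x l ih =>
    intro B hB
    have a1 : LinearIndepOn F v {b | b ∈ gstep R A B x} ∧ (∀ b ∈ B, b ∈ gstep R A B x) ∧
        (∀ b ∈ gstep R A B x, b ∈ B ∨ b = x) ∧ v x ∈ span F (v '' {b | b ∈ gstep R A B x}) := by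
      unfold gstep
      split_ifs with hx
      · exact ⟨hB, fun _ h => h, fun _ h => Or.inl h, (h _ _).1 hx⟩
      · refine ⟨?_, fun _ h => List.mem_cons_of_mem _ h, fun _ h => (List.mem_cons.1 h).symm,
          subset_span ⟨x, by simp, rfl⟩⟩
        have : {b | b ∈ x :: B} = insert x {b | b ∈ B} := by ext; simp
        rw [this]
        exact (hB.notMem_span_iff.1 fun h' => hx ((h _ _).2 h')).1
    obtain ⟨b1, b2, b3, b4⟩ := ih _ a1.1
    rw [List.foldl_cons]
    refine ⟨b1, fun b hb => b2 b (a1.2.1 b hb), fun b hb => ?_, fun e he => ?_⟩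
    · rcases b3 b hb with h | h
      · rcases a1.2.2.1 b h with h | h <;> simp [h]
      · simp [h]
    · rcases List.mem_cons.1 he with rfl | he
      · exact span_mono (Set.image_mono fun b hb => b2 b hb) a1.2.2.2
      · exact b4 e he

theorem load_le (Bs : List (List ℕ)) (e : ℕ) : load Bs e ≤ Bs.length := List.countP_le_length

theorem order_split (N : List ℕ) (Bs : List (List ℕ)) {j : ℕ} (hj : j ≤ Bs.length + 1) :
    ∃ l₁ l₂, order N Bs = l₁ ++ l₂ ∧ (∀ e, e ∈ l₁ ↔ e ∈ N ∧ j ≤ load Bs e) ∧ ∀ e ∈ l₂, e ∈ N := by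
  obtain ⟨k, hk⟩ := Nat.exists_eq_add_of_le hj
  unfold order
  rw [hk, List.range_add, List.reverse_append, List.flatMap_append]
  refine ⟨_, _, rfl, fun e => ?_, fun e he => ?_⟩
  · have := load_le Bs e
    simp only [List.mem_flatMap, List.mem_reverse, List.mem_map, List.mem_range, List.mem_filter,
      decide_eq_true_eq]
    constructor
    · rintro ⟨_, ⟨i, -, rfl⟩, h1, h2⟩
      exact ⟨h1, by omega⟩
    · rintro ⟨h1, h2⟩
      exact ⟨_, ⟨load Bs e - j, by omega, rfl⟩, h1, by omega⟩
  · obtain ⟨_, -, h⟩ := List.mem_flatMap.1 he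
    exact (List.mem_filter.1 h).1

theorem mem_nextBasis (h : SpanOK R A v) {N : List ℕ} {Bs : List (List ℕ)} {e : ℕ} :
    e ∈ nextBasis R N A Bs ↔ e ∈ greedy R A (order N Bs) := by
  simp only [nextBasis, List.mem_filter, decide_eq_true_eq, and_iff_right_iff_imp]
  intro he
  obtain ⟨l₁, l₂, e1, e2, e3⟩ := order_split N Bs (Nat.zero_le _)
  rcases (foldl_gstep h _ [] (by simp)).2.2.1 e he with h | h
  · simp at h
  · rw [e1] at h
    rcases List.mem_append.1 h with h | h
    exacts [((e2 e).1 h).1, e3 e h]

theorem nextBasis_spec (h : SpanOK R A v) (Bs : List (List ℕ)) :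
    LinearIndepOn F v {b | b ∈ nextBasis R (List.range n) A Bs} ∧
      ∀ e < n, v e ∈ span F (v '' {b | b ∈ nextBasis R (List.range n) A Bs}) := by
  simp only [mem_nextBasis h]
  obtain ⟨b1, -, -, b4⟩ := foldl_gstep h (order (List.range n) Bs) [] (by simp)
  obtain ⟨l₁, l₂, e1, e2, -⟩ := order_split (List.range n) Bs (Nat.zero_le _)
  exact ⟨b1, fun e he => b4 e (e1 ▸ List.mem_append_left _ ((e2 e).2 ⟨by simpa, Nat.zero_le _⟩))⟩

theorem nextBasis_level (h : SpanOK R A v) {d c : ℕ} (hd : Dense F v n d c) (Bs : List (List ℕ))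
    {j : ℕ} (hj : j ≤ Bs.length + 1) :
    d * #(((range n).filter fun e => e ∉ nextBasis R (List.range n) A Bs).filter
      fun e => j ≤ load Bs e) ≤ c * #((range n).filter fun e => j ≤ load Bs e) := by
  obtain ⟨l₁, l₂, e1, e2, -⟩ := order_split (List.range n) Bs hj
  obtain ⟨b1, -, b3, b4⟩ := foldl_gstep h l₁ [] (by simp)
  obtain ⟨-, c2, -, -⟩ := foldl_gstep h l₂ _ b1
  refine le_trans (Nat.mul_le_mul_left _ (card_le_card fun e he => ?_))
    (hd _ (l₁.foldl (gstep R A) []).toFinset (filter_subset _ _) (fun e he => ?_)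
      (by simpa using b1) fun e he => ?_)
  · simp only [mem_filter, mem_sdiff, List.mem_toFinset, mem_nextBasis h] at he ⊢
    refine ⟨⟨he.1.1, he.2⟩, fun h' => he.1.2 ?_⟩
    rw [greedy, e1, List.foldl_append]
    exact c2 e h'
  · rcases b3 e (List.mem_toFinset.1 he) with h | h
    · simp at h
    · simpa using (e2 e).1 h
  · simpa using b4 e ((e2 e).2 (by simpa using he))

theorem two_pow_eq {l L : ℕ} (h : l ≤ L) :
    2 ^ l = ∑ j ∈ range (L + 1), if j ≤ l then 2 ^ (j - 1) else 0 := by
  rw [← sum_filter]
  have : (range (L + 1)).filter (· ≤ l) = range (l + 1) := by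
    ext j
    simp only [mem_filter, mem_range]
    omega
  rw [this]
  clear this h
  induction l with
  | zero => simp
  | succ l ih => rw [sum_range_succ, ← ih, Nat.add_sub_cancel, pow_succ]; ring

theorem layer (T : Finset ℕ) (Bs : List (List ℕ)) : ∑ e ∈ T, 2 ^ load Bs e =
    ∑ j ∈ range (Bs.length + 1), 2 ^ (j - 1) * #(T.filter fun e => j ≤ load Bs e) := by
  rw [sum_congr rfl fun e _ => two_pow_eq (load_le Bs e), sum_comm]
  refine sum_congr rfl fun j _ => ?_
  rw [← sum_filter, sum_const, smul_eq_mul, mul_comm]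

theorem potential_step (h : SpanOK R A v) {d c : ℕ} (hd : Dense F v n d c) (Bs : List (List ℕ)) :
    d * ∑ e ∈ range n, 2 ^ load (nextBasis R (List.range n) A Bs :: Bs) e ≤
      (d + c) * ∑ e ∈ range n, 2 ^ load Bs e := by
  have e1 : ∑ e ∈ range n, 2 ^ load (nextBasis R (List.range n) A Bs :: Bs) e =
      ∑ e ∈ range n, 2 ^ load Bs e +
      ∑ e ∈ (range n).filter fun e => e ∉ nextBasis R (List.range n) A Bs, 2 ^ load Bs e := by
    rw [sum_filter, ← sum_add_distrib]
    refine sum_congr rfl fun e _ => ?_
    by_cases he : e ∈ nextBasis R (List.range n) A Bs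
    · simp [load, he]
    · simp [load, he, pow_succ, mul_two]
  rw [e1, mul_add, add_mul]
  refine Nat.add_le_add_left ?_ _
  rw [layer, layer, mul_sum, mul_sum]
  refine sum_le_sum fun j hj => ?_
  rw [mul_left_comm, mul_left_comm c]
  exact Nat.mul_le_mul_left _ (nextBasis_level h hd Bs (mem_range.1 hj).le)

theorem bases_succ (N : List ℕ) (t : ℕ) :
    bases R N A (t + 1) = nextBasis R N A (bases R N A t) :: bases R N A t :=
  Function.iterate_succ_apply' _ _ _

theorem length_bases (N : List ℕ) (t : ℕ) : (bases R N A t).length = t := by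
  induction t with
  | zero => rfl
  | succ t ih => rw [bases_succ, List.length_cons, ih]

theorem bases_mono (N : List ℕ) {t t' : ℕ} (h : t ≤ t') :
    ∀ B ∈ bases R N A t, B ∈ bases R N A t' := by
  induction h with
  | refl => exact fun _ h => h
  | step _ ih => exact fun B hB => bases_succ (R := R) (A := A) N _ ▸ List.mem_cons_of_mem _ (ih B hB)

theorem bases_spec (h : SpanOK R A v) (t : ℕ) : ∀ B ∈ bases R (List.range n) A t,
    LinearIndepOn F v {b | b ∈ B} ∧ (∀ e < n, v e ∈ span F (v '' {b | b ∈ B})) ∧
      ∀ b ∈ B, b < n := by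
  induction t with
  | zero => intro B hB; simp [bases] at hB
  | succ t ih =>
    intro B hB
    rw [bases_succ] at hB
    rcases List.mem_cons.1 hB with rfl | hB
    · exact ⟨(nextBasis_spec h _).1, (nextBasis_spec h _).2,
        fun b hb => List.mem_range.1 (List.mem_filter.1 hb).1⟩
    · exact ih B hB

theorem potential (h : SpanOK R A v) {d c : ℕ} (hd : Dense F v n d c) (t : ℕ) :
    d ^ t * ∑ e ∈ range n, 2 ^ load (bases R (List.range n) A t) e ≤ (d + c) ^ t * n := by
  induction t with
  | zero => simp [bases, load]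
  | succ t ih =>
    rw [bases_succ, pow_succ, pow_succ, mul_assoc]
    refine (Nat.mul_le_mul_left _ (potential_step h hd _)).trans ?_
    rw [mul_left_comm, mul_right_comm, mul_comm _ (d + c)]
    exact Nat.mul_le_mul_left _ ih

theorem add_pow_le (d c : ℕ) : (d + c) ^ d ≤ 4 ^ c * d ^ d := by
  rcases Nat.eq_zero_or_pos d with rfl | hd
  · simpa using Nat.one_le_pow c 4 (by norm_num)
  have hd' : (0 : ℝ) < d := by exact_mod_cast hd
  have h1 : ((d : ℝ) + c) ≤ Real.exp (c / d) * d := by
    have := Real.add_one_le_exp ((c : ℝ) / d)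
    have e : (d : ℝ) + c = (c / d + 1) * d := by field_simp; ring
    rw [e]
    gcongr
  have h2 : Real.exp ((c : ℝ) / d) ^ d = Real.exp 1 ^ c := by
    rw [← Real.exp_nat_mul, ← Real.exp_nat_mul]
    congr 1
    field_simp
  have h3 : Real.exp 1 ^ c ≤ 4 ^ c := by
    gcongr
    linarith [Real.exp_one_lt_d9]
  have h4 : ((d : ℝ) + c) ^ d ≤ 4 ^ c * d ^ d := by
    calc ((d : ℝ) + c) ^ d ≤ (Real.exp (c / d) * d) ^ d := by gcongr
      _ = Real.exp 1 ^ c * d ^ d := by rw [mul_pow, h2]
      _ ≤ 4 ^ c * d ^ d := by gcongr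
  exact_mod_cast h4

theorem load_bound (h : SpanOK R A v) {d c : ℕ} (hd : Dense F v n d c) (hd0 : 0 < d) {e : ℕ}
    (he : e < n) : load (bases R (List.range n) A (d * n)) e ≤ (2 * c + 1) * n := by
  have h1 := potential h hd (d * n)
  have h2 : 2 ^ load (bases R (List.range n) A (d * n)) e ≤
      ∑ e ∈ range n, 2 ^ load (bases R (List.range n) A (d * n)) e :=
    single_le_sum (f := fun e => 2 ^ load (bases R (List.range n) A (d * n)) e)
      (fun _ _ => Nat.zero_le _) (mem_range.2 he)
  have h3 : (d + c) ^ (d * n) ≤ 2 ^ (2 * c * n) * d ^ (d * n) := by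
    rw [pow_mul, pow_mul, pow_mul, pow_mul, ← mul_pow]
    exact Nat.pow_le_pow_left (add_pow_le d c) _
  have h4 : d ^ (d * n) * 2 ^ load (bases R (List.range n) A (d * n)) e ≤
      d ^ (d * n) * 2 ^ ((2 * c + 1) * n) := by
    refine ((Nat.mul_le_mul_left _ h2).trans h1).trans ?_
    rw [add_mul, pow_add, one_mul, ← mul_assoc, mul_comm (d ^ (d * n))]
    exact Nat.mul_le_mul h3 Nat.lt_two_pow_self.le
  exact (Nat.pow_le_pow_iff_right (by norm_num)).1 (Nat.le_of_mul_le_mul_left h4 (by positivity))

theorem exists_of_sum_load (X : Finset ℕ) (k : ℕ) (Bs : List (List ℕ)) (h0 : Bs ≠ [])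
    (h : ∑ e ∈ X, load Bs e ≤ k * Bs.length) : ∃ B ∈ Bs, #(X.filter (· ∉ B)) ≤ k := by
  by_contra hc
  push Not at hc
  have key : ∀ Bs : List (List ℕ), (∀ B ∈ Bs, k < #(X.filter (· ∉ B))) →
      (k + 1) * Bs.length ≤ ∑ e ∈ X, load Bs e := by
    intro Bs
    induction Bs with
    | nil => simp
    | cons B Bs ih =>
      intro hc
      have a1 := ih fun B' h => hc B' (List.mem_cons_of_mem _ h)
      have a2 := hc B (by simp)
      have a3 : ∑ e ∈ X, load (B :: Bs) e = ∑ e ∈ X, load Bs e + #(X.filter (· ∉ B)) := by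
        rw [card_filter, ← sum_add_distrib]
        refine sum_congr rfl fun e _ => ?_
        by_cases he : e ∈ B <;> simp [load, he]
      rw [a3, List.length_cons]
      nlinarith
  have := key Bs hc
  have := List.length_pos_iff.2 h0
  nlinarith

theorem exists_good_basis (h : SpanOK R A v) {c : ℕ} {X : Finset ℕ} (hX : X ⊆ range n)
    (hX0 : X.Nonempty) (hd : Dense F v n #X c) :
    ∃ B ∈ bases R (List.range n) A (n * n), #(X.filter (· ∉ B)) ≤ 2 * c + 1 := by
  have a1 : #X ≤ n := by simpa using card_le_card hX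
  have a2 := card_pos.2 hX0
  obtain ⟨B, b1, b2⟩ := exists_of_sum_load X (2 * c + 1) (bases R (List.range n) A (#X * n))
    (List.length_pos_iff.1 (by rw [length_bases]; exact Nat.mul_pos a2 (by omega))) (by
      refine (sum_le_card_nsmul _ _ _ fun e he => load_bound h hd a2 (mem_range.1 (hX he))).trans ?_
      rw [length_bases, smul_eq_mul, mul_left_comm])
  exact ⟨B, bases_mono _ (Nat.mul_le_mul_right _ a1) B b1, b2⟩

theorem card_le_of_span {I B : Finset ℕ} (hI : LinearIndepOn F v I)
    (h : ∀ e ∈ I, v e ∈ span F (v '' B)) : #I ≤ #B := by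
  have := linearIndependent_le_span_aux' _ hI ((B.image v : Finset V) : Set V) (by
    rintro _ ⟨e, rfl⟩
    simpa using h e e.2)
  simp only [coe_sort_coe, Fintype.card_coe] at this
  exact this.trans card_image_le

theorem sound (h : SpanOK R A v) {c : ℕ} {B : List ℕ} {k : ℕ}
    (hk : k ∈ near c R (List.range n) A B) :
    ∃ X ⊆ range n, ¬ LinearIndepOn F v X ∧ #X = k := by
  simp only [near, List.mem_flatMap] at hk
  obtain ⟨T, -, S, -, x, hx, hk⟩ := hk
  unfold cval at hk
  split_ifs at hk with h1
  swap
  · simp at hk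
  set K := needed R A (modify (List.range n) B T S x) x
  have a1 : K.Sublist (List.range n) := List.filter_sublist.trans List.filter_sublist
  have a2 : x ∉ K.toFinset := fun hx => by
    have := (List.mem_filter.1 (List.mem_filter.1 (List.mem_toFinset.1 hx)).1).2
    simp at this
  refine ⟨insert x K.toFinset, insert_subset (by simpa using hx) fun e he => ?_, ?_, ?_⟩
  · simpa using a1.subset (List.mem_toFinset.1 he)
  · rw [coe_insert, linearIndepOn_insert (by simpa using a2)]
    exact fun h' => h'.2 (by simpa using (h _ _).1 h1)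
  · rw [card_insert_of_notMem a2, List.toFinset_card_of_nodup (List.nodup_range.sublist a1),
      List.mem_singleton.1 hk]

theorem complete (h : SpanOK R A v) {c : ℕ} {B : List ℕ} (hB : LinearIndepOn F v {b | b ∈ B})
    (hBn : ∀ b ∈ B, b < n) {X : Finset ℕ}
    (hX : X ⊆ range n) (hdep : ¬ LinearIndepOn F v X)
    (hmin : ∀ x ∈ X, LinearIndepOn F v (X.erase x)) (hc : #(X.filter (· ∉ B)) ≤ c) :
    #X ∈ near c R (List.range n) A B := by
  obtain ⟨x, hx, hxB⟩ : ∃ x ∈ X, x ∉ B := by
    by_contra hcon
    push Not at hcon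
    exact hdep (hB.mono fun e he => hcon e he)
  obtain ⟨I, i1, i2, i3, i4⟩ := exists_linearIndepOn_extension (hmin x hx)
    (t := ((X.erase x ∪ B.toFinset : Finset ℕ) : Set ℕ)) (coe_subset.2 subset_union_left)
  lift I to Finset ℕ using (finite_toSet _).subset i1
  have i1' := coe_subset.1 i1
  have i2' := coe_subset.1 i2
  have hxI : x ∉ I := fun hI => by simpa [hxB] using i1' hI
  have c1 : #B.toFinset ≤ #I := card_le_of_span (by simpa using hB) fun e he =>
    i3 ⟨e, mem_coe.2 (mem_union_right _ he), rfl⟩
  have c2 : #(I \ B.toFinset) ≤ #(X.filter (· ∉ B)) := card_le_card fun e he => by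
    obtain ⟨d1, d2⟩ := mem_sdiff.1 he
    have := i1' d1
    simp only [mem_union, mem_erase, List.mem_toFinset, mem_filter] at *
    tauto
  have c3 : #(B.toFinset \ I) ≤ c := by
    have := card_sdiff_add_card_inter B.toFinset I
    have := card_sdiff_add_card_inter I B.toFinset
    rw [inter_comm] at this
    omega
  have hIn : ∀ e ∈ I, e < n := fun e he => by
    rcases mem_union.1 (i1' he) with h | h
    · exact mem_range.1 (hX (mem_of_mem_erase h))
    · exact hBn e (List.mem_toFinset.1 h)
  have hmod : ∀ e, e ∈ modify (List.range n) B (B.toFinset \ I).toList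
      (X.filter (· ∉ B)).toList x ↔ e ∈ I := fun e => by
    have d1 := @i1' e
    have d2 := @i2' e
    have d3 := hIn e
    have d4 : e = x → e ∉ I := fun h => h ▸ hxI
    simp only [modify, List.mem_filter, List.mem_range, decide_eq_true_eq, mem_toList, mem_sdiff,
      List.mem_toFinset, mem_filter, mem_union, mem_erase] at *
    tauto
  have hspan : v x ∈ span F (v '' (X.erase x : Finset ℕ)) := by
    by_contra hcon
    have := ((hmin x hx).notMem_span_iff.1 hcon).1
    rw [← coe_insert, insert_erase hx] at this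
    exact hdep this
  have hneed : ∀ e, e ∈ needed R A (modify (List.range n) B (B.toFinset \ I).toList
      (X.filter (· ∉ B)).toList x) x ↔ e ∈ X.erase x := fun e => by
    simp only [needed, List.mem_filter, hmod, Bool.not_eq_true', ← Bool.not_eq_true, h x,
      decide_eq_true_eq]
    constructor
    · rintro ⟨d1, d2⟩
      by_contra hcon
      refine d2 (span_mono (Set.image_mono fun b hb => ?_) hspan)
      exact And.intro (i2' hb) fun h => hcon (h ▸ hb)
    · intro he
      refine ⟨i2' he, fun hcon => ?_⟩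
      have hex : e ≠ x := ne_of_mem_erase he
      have d1 : v e ∈ span F (v '' (X.erase e : Finset ℕ)) := by
        by_contra hcon
        have := ((hmin e (mem_of_mem_erase he)).notMem_span_iff.1 hcon).1
        rw [← coe_insert, insert_erase (mem_of_mem_erase he)] at this
        exact hdep this
      refine linearIndepOn_iff_notMem_span.1 i4 e (i2' he) (span_le.2 ?_ d1)
      rintro _ ⟨b, hb, rfl⟩
      obtain ⟨d2, d3⟩ := mem_erase.1 (mem_coe.1 hb)
      by_cases hbx : b = x
      · rw [hbx]
        exact hcon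
      · exact subset_span ⟨b, ⟨i2' (mem_erase.2 ⟨hbx, d3⟩), d2⟩, rfl⟩
  simp only [near, List.mem_flatMap]
  refine ⟨(B.toFinset \ I).toList, mem_tuples.2 ⟨by simpa using c3, fun e he => ?_⟩,
    (X.filter (· ∉ B)).toList, mem_tuples.2 ⟨by simpa using hc, fun e he => ?_⟩,
    x, by simpa using hX hx, ?_⟩
  · simpa using hBn e (List.mem_toFinset.1 (mem_sdiff.1 (mem_toList.1 he)).1)
  · simpa using hX (mem_filter.1 (mem_toList.1 he)).1
  · set K := needed R A (modify (List.range n) B (B.toFinset \ I).toList
      (X.filter (· ∉ B)).toList x) x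
    have a1 : K.Sublist (List.range n) := List.filter_sublist.trans List.filter_sublist
    have a2 : K.toFinset = X.erase x := by ext e; rw [List.mem_toFinset, hneed]
    rw [cval, if_pos ((h _ _).2 (by simpa [← a2] using hspan)),
      ← List.toFinset_card_of_nodup (List.nodup_range.sublist a1), a2, card_erase_add_one hx]
    simp

theorem foldl_min_spec (l : List ℕ) : ∀ a, (l.foldl min a = a ∨ l.foldl min a ∈ l) ∧
    l.foldl min a ≤ a ∧ ∀ x ∈ l, l.foldl min a ≤ x := by
  induction l with
  | nil => simp
  | cons y l ih =>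
    intro a
    obtain ⟨h1, h2, h3⟩ := ih (min a y)
    rw [List.foldl_cons]
    refine ⟨?_, h2.trans (min_le_left _ _), fun x hx => ?_⟩
    · rcases h1 with h1 | h1
      · rw [h1]
        rcases min_choice a y with h | h <;> simp [h]
      · simp [h1]
    · rcases List.mem_cons.1 hx with rfl | hx
      exacts [h2.trans (min_le_right _ _), h3 x hx]

theorem best_eq {l : List ℕ} {d : ℕ} (h1 : d ∈ l) (h2 : ∀ x ∈ l, d ≤ x) : best l = d := by
  obtain ⟨a1, -, a3⟩ := foldl_min_spec l (l.headD 0)
  refine le_antisymm (a3 d h1) (h2 _ ?_)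
  rcases a1 with a1 | a1
  · rw [best, a1]
    cases l with
    | nil => simp at h1
    | cons => simp
  · exact a1

theorem vals_nil (h : SpanOK R A v) (c : ℕ) (h0 : ∀ X ⊆ range n, LinearIndepOn F v X) :
    best (vals c R (List.range n) A) = 0 := by
  have : vals c R (List.range n) A = [] := List.eq_nil_iff_forall_not_mem.2 fun k hk => by
    obtain ⟨B, -, hk⟩ := List.mem_flatMap.1 hk
    obtain ⟨X, a1, a2, -⟩ := sound h hk
    exact a2 (h0 X a1)
  rw [this]
  rfl

theorem vals_min (h : SpanOK R A v) {c : ℕ} {X : Finset ℕ} (hX : X ⊆ range n)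
    (hdep : ¬ LinearIndepOn F v X) (hmin : ∀ Y ⊆ range n, ¬ LinearIndepOn F v Y → #X ≤ #Y)
    (hd : Dense F v n #X c) : best (vals (2 * c + 1) R (List.range n) A) = #X := by
  refine best_eq ?_ fun k hk => ?_
  · obtain ⟨B, b1, b2⟩ := exists_good_basis h hX (nonempty_iff_ne_empty.2 fun h0 => hdep (by
      simp [h0])) hd
    obtain ⟨c1, -, c3⟩ := bases_spec h _ B b1
    refine List.mem_flatMap.2 ⟨B, by simpa using b1, complete h c1 c3 hX hdep (fun x hx => ?_) b2⟩
    by_contra hcon
    have := hmin (X.erase x) ((erase_subset _ _).trans hX) (by simpa using hcon)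
    have := card_erase_lt_of_mem hx
    omega
  · obtain ⟨B, -, hk⟩ := List.mem_flatMap.1 hk
    obtain ⟨Y, a1, a2, rfl⟩ := sound h hk
    exact hmin Y a1 a2

end Pool.Agent.P.MP_c2d640_lc

set_option autoImplicit false
set_option linter.unusedSectionVars false

/-! From matrices to lists, and the main theorem for classes omitting a graphic matroid. -/

namespace Pool.Agent.P.MP_c2d640_lc

open Finset Submodule Pool.Agent.Lib.PolyTime
open scoped Classical

variable {F : Type} [Field F] {m n : ℕ}

theorem spanOK (m : ℕ) (L : List (List F)) :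
    SpanOK (List.range m) L fun e => sem m (L.getD e []) := by
  intro e B
  rw [spans, inSpan_iff]
  congr! 2
  ext z
  simp

theorem length_columns (A : Matrix (Fin m) (Fin n) F) : (columns A).length = n := by
  simp [columns]

theorem sem_columns (A : Matrix (Fin m) (Fin n) F) (e : Fin n) :
    sem m ((columns A).getD e []) = A.col e := by
  funext i
  simp [sem, columns, List.getD_eq_getElem?_getD]

theorem indep_iff (A : Matrix (Fin m) (Fin n) F) (Y : Finset (Fin n)) :
    LinearIndepOn F (fun e => sem m ((columns A).getD e [])) (Y.map Fin.valEmbedding : Finset ℕ) ↔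
      LinearIndepOn F A.col Y := by
  have e : A.col = (fun e => sem m ((columns A).getD e [])) ∘ Fin.val :=
    funext fun e => (sem_columns A e).symm
  rw [coe_map, e]
  exact ⟨fun h => h.comp_of_image Fin.val_injective.injOn, fun h => h.image_of_comp _ _⟩

theorem exists_map_val {X : Finset ℕ} (hX : X ⊆ range n) :
    ∃ Y : Finset (Fin n), Y.map Fin.valEmbedding = X := by
  refine ⟨univ.filter fun e => e.val ∈ X, ?_⟩
  ext e
  simp only [Finset.mem_map, mem_filter, mem_univ, true_and, Fin.valEmbedding_apply]
  exact ⟨by rintro ⟨a, h, rfl⟩; exact h, fun h => ⟨⟨e, mem_range.1 (hX h)⟩, h, rfl⟩⟩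

theorem map_val_subset (Y : Finset (Fin n)) : Y.map Fin.valEmbedding ⊆ range n := by
  intro e he
  obtain ⟨a, -, rfl⟩ := Finset.mem_map.1 he
  exact mem_range.2 a.2

theorem girth_eq_top {A : Matrix (Fin m) (Fin n) F}
    (h : ∀ Y : Finset (Fin n), LinearIndepOn F A.col Y) : girth A = ⊤ := by
  simp only [girth, iInf_eq_top]
  exact fun C hC => (hC.prop (h C)).elim

theorem girth_eq_card {A : Matrix (Fin m) (Fin n) F} {X : Finset (Fin n)}
    (h : ¬ LinearIndepOn F A.col X)
    (hmin : ∀ Y : Finset (Fin n), ¬ LinearIndepOn F A.col Y → #X ≤ #Y) : girth A = #X := by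
  have hX : IsCircuit A X := ⟨h, fun Y hY hYX => (eq_of_subset_of_card_le hYX (hmin Y hY)).ge⟩
  refine le_antisymm (iInf₂_le X hX) (le_iInf₂ fun C hC => ?_)
  exact_mod_cast hmin C hC.1

/-- Either all columns are independent, or there is a smallest dependent set. -/
theorem girth_cases (A : Matrix (Fin m) (Fin n) F) :
    (∀ Y : Finset (Fin n), LinearIndepOn F A.col Y) ∨ ∃ X : Finset (Fin n),
      ¬ LinearIndepOn F A.col X ∧ ∀ Y : Finset (Fin n), ¬ LinearIndepOn F A.col Y → #X ≤ #Y := by
  by_cases h : ∃ Y : Finset (Fin n), ¬ LinearIndepOn F A.col Y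
  · obtain ⟨X, h1, h2⟩ := exists_min_image
      (univ.filter fun Y : Finset (Fin n) => ¬ LinearIndepOn F A.col Y) card
      (let ⟨Y, hY⟩ := h; ⟨Y, by simpa using hY⟩)
    exact Or.inr ⟨X, by simpa using h1, fun Y hY => h2 Y (by simpa using hY)⟩
  · push Not at h
    exact Or.inl h

theorem head_columns (A : Matrix (Fin m) (Fin n) F) (hn : 0 < n) :
    ((columns A).headD []).length = m := by
  obtain ⟨n, rfl⟩ := Nat.exists_eq_succ_of_ne_zero hn.ne'
  simp [columns, List.ofFn_succ]

end Pool.Agent.P.MP_c2d640_lc

set_option autoImplicit false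
set_option linter.unusedSectionVars false

/-! The deterministic girth algorithm. -/

namespace Pool.Agent.P.MP_c2d640_lc

open Pool.Agent.P.MP_eb0bd2_lc
open scoped Classical

variable {F : Type} [Field F]

/-- Digit number `p` of `x` in base `β` (for `p ≤ B`). -/
def dig (B β x p : ℕ) : ℕ := x / β ^ min p B % β

/-- The polynomial whose coefficients are the first `L` bits of `x`, evaluated at `α`. -/
def rs (B L α x : ℕ) : ℕ := ((List.range (min L B)).map fun i => dig B 2 x i * α ^ min i B).sum

/-- The hash value. -/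
def hash (B Q L α a b x : ℕ) : ℕ := (a * rs B L α x + b) % Q

/-- Is `x` selected by the seed `(α, a, b, i)`? -/
def sel (B Q φ L W m α a b i x : ℕ) : Bool :=
  decide (hash B Q L α a b x < W ∧ dig B 2 φ (i * m + hash B Q L α a b x % m) = 1)

/-- The elements having a copy that is selected by one of `t` seeds. -/
def blockSet (B : ℕ) (N : List ℕ) (Q φ x L W m β t b : ℕ) : List ℕ :=
  N.filter fun e => (List.range (min t B)).any fun j => (List.range (min b B)).any fun c =>
    sel B Q φ L W m (dig B β x (4 * j)) (dig B β x (4 * j + 1)) (dig B β x (4 * j + 2))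
      (dig B β x (4 * j + 3)) (e * b + c)

/-- The family of all block sets with parameters below `B`. -/
def fam (N : List ℕ) (B : ℕ) : List (List ℕ) :=
  (tuples 9 (List.range B)).map fun p => blockSet B N (p.getD 0 0) (p.getD 1 0) (p.getD 2 0)
    (p.getD 3 0) (p.getD 4 0) (p.getD 5 0) (p.getD 6 0) (p.getD 7 0) (p.getD 8 0)

/-- Reduction of `x` modulo the span of `L`. -/
noncomputable def red (R : List ℕ) (L : List (List F)) (x : List F) : List F :=
  (R.foldl (elimStep R) (x, L)).1

/-- The matrix with the columns `O` contracted. -/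
noncomputable def conM (R : List ℕ) (A : List (List F)) (O : List ℕ) : List (List F) :=
  A.map (red R (O.map fun b => A.getD b []))

/-- A linear combination of columns. -/
noncomputable def comb (R : List ℕ) (A : List (List F)) (p : List (ℕ × F)) : List F :=
  R.map fun i => (p.map fun x => x.2 * (A.getD x.1 []).getD i 0).sum

/-- The support of the dependency that equals `p` outside `B`. -/
noncomputable def cand (R N : List ℕ) (A : List (List F)) (B : List ℕ) (p : List (ℕ × F)) :
    List ℕ :=
  N.filter fun e => if e ∈ B then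
    !inSpan R (comb R A p) ((B.filter fun b => decide (b ≠ e)).map fun b => A.getD b [])
    else decide (e ∈ p.map Prod.fst)

/-- All pairs of an index and a field element. -/
def pairs (N : List ℕ) (FL : List F) : List (ℕ × F) := N.flatMap fun e => FL.map fun a => (e, a)

/-- Enumeration of the dependencies with few terms outside `O`. -/
noncomputable def enum (s c : ℕ) (FL : List F) (R N : List ℕ) (A : List (List F))
    (𝒟 : List (List ℕ)) (O : List ℕ) : List (List ℕ) :=
  (tuples s 𝒟).flatMap fun Ds =>
    (bases R (N.filter fun e => decide (e ∉ O ∧ e ∉ Ds.flatten)) (conM R A O)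
      (N.length * N.length)).flatMap fun B =>
        (tuples c (pairs N FL)).map fun p => cand R N A (O ++ B) p

/-- The factor of the element `e` with colour `c` in the constraint `(l, Y)`. -/
def psi (g k l : ℕ) (Y : List ℕ) (e c : ℕ) : ℕ :=
  if e ∈ Y then (if (l + c) % g < k then g else 2 * g) else 2 * g - k

/-- The potential of a colouring of an initial segment. -/
def pot (g k : ℕ) (C : List (ℕ × List ℕ)) (χ : List ℕ) : ℕ :=
  (C.map fun x => (χ.zipIdx.map fun y => psi g k x.1 x.2 y.2 y.1).prod).sum

/-- Colour the next element (`G` is the list of colours). -/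
def cstep (G : List ℕ) (k : ℕ) (C : List (ℕ × List ℕ)) (χ : List ℕ) : List ℕ :=
  χ ++ [(G.filter fun c => decide (pot G.length k C (χ ++ [c]) ≤
    (2 * G.length - k) * pot G.length k C χ)).headD 0]

/-- The greedy colouring. -/
def colour (N G : List ℕ) (k : ℕ) (C : List (ℕ × List ℕ)) : List ℕ := (cstep G k C)^[N.length] []

/-- Remove the elements selected by the colouring. -/
def thin (g k : ℕ) (χ : List ℕ) (Os : List (List ℕ)) : List (List ℕ) :=
  Os.zipIdx.map fun x => x.1.filter fun e => decide (¬ (x.2 + χ.getD e 0) % g < k)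

/-- The constraints. -/
def constraints (g : ℕ) (En : List ℕ → List (List ℕ)) (Os : List (List ℕ)) : List (ℕ × List ℕ) :=
  Os.zipIdx.flatMap fun x => ((En x.1).filter fun Y => decide (g ≤ Y.length)).map fun Y => (x.2, Y)

/-- One round of the sparsifier. -/
def sround (N G : List ℕ) (κ : ℕ) (En : List ℕ → List (List ℕ)) (Os : List (List ℕ)) (j : ℕ) :
    List (List ℕ) :=
  thin G.length (8 * 4 ^ min j N.length + κ)
    (colour N G (8 * 4 ^ min j N.length + κ) (constraints G.length En Os)) Os

/-- The sparsifier. -/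
noncomputable def sparse (R N G JL : List ℕ) (A : List (List F)) (κ : ℕ)
    (En : List ℕ → List (List ℕ)) : List (List ℕ) :=
  JL.foldl (sround N G κ En) (bases R N A (G.length * N.length))

/-- Test for linear dependence. -/
noncomputable def dep (R : List ℕ) (A : List (List F)) (Y : List ℕ) : Bool :=
  Y.any fun x => spans R A x (Y.filter fun e => decide (e ≠ x))

/-- All candidate sets. -/
noncomputable def cands (n₀ : ℕ) (R N : List ℕ) (A : List (List F))
    (En : List ℕ → List (List ℕ)) : List (List ℕ) :=
  tuples n₀ N ++ En [] ++ (tuples 3 (List.range (N.length + 1))).flatMap fun p =>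
    (sparse R N (N.filter fun e => decide (e < p.getD 0 0))
      (N.filter fun e => decide (e < p.getD 1 0)) A (p.getD 2 0) En).flatMap En

/-- The least size of a dependent candidate. -/
noncomputable def pick (R N : List ℕ) (A : List (List F)) (𝒞 : List (List ℕ)) : ℕ :=
  best (((𝒞.map fun Y => N.filter fun e => decide (e ∈ Y)).filter (dep R A)).map List.length)

/-- The algorithm. -/
noncomputable def dalgo (C s c n₀ : ℕ) (FL : List F) (A : List (List F)) : ℕ :=
  pick (List.range (A.headD []).length) (List.range A.length) A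
    (cands n₀ (List.range (A.headD []).length) (List.range A.length) A
      (enum s c FL (List.range (A.headD []).length) (List.range A.length) A
        (fam (List.range A.length) ((A.length + 2) ^ C))))

end Pool.Agent.P.MP_c2d640_lc

set_option autoImplicit false
set_option linter.unusedSectionVars false

/-! The pieces of the algorithm run in polynomial time, part one. -/

namespace Pool.Agent.P.MP_c2d640_lc

open Pool.Agent.Lib.PolyTime Pool.Agent.P.MP_eb0bd2_lc
open scoped Classical

variable {α : Type} [N487b59b3 α]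

@[fun_prop] theorem dig_pt1 {B β x p : α → ℕ} (hB : PT B) (hB' : Small B) (hβ : PT β) (hx : PT x)
    (hp : PT p) : PT fun a => dig (B a) (β a) (x a) (p a) := by
  unfold dig
  fun_prop

attribute [local irreducible] dig

@[fun_prop] theorem rs_pt1 {B L y x : α → ℕ} (hB : PT B) (hB' : Small B) (hL : PT L) (hy : PT y)
    (hx : PT x) : PT fun a => rs (B a) (L a) (y a) (x a) := by
  unfold rs
  fun_prop

attribute [local irreducible] rs

@[fun_prop] theorem hash_pt1 {B Q L y u v x : α → ℕ} (hB : PT B) (hB' : Small B) (hQ : PT Q)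
    (hL : PT L) (hy : PT y) (hu : PT u) (hv : PT v) (hx : PT x) :
    PT fun a => hash (B a) (Q a) (L a) (y a) (u a) (v a) (x a) := by
  unfold hash
  fun_prop

attribute [local irreducible] hash

@[fun_prop] theorem sel_pt1 {B Q φ L W m y u v i x : α → ℕ} (hB : PT B) (hB' : Small B)
    (hQ : PT Q) (hφ : PT φ) (hL : PT L) (hW : PT W) (hm : PT m) (hy : PT y) (hu : PT u)
    (hv : PT v) (hi : PT i) (hx : PT x) :
    PT fun a => sel (B a) (Q a) (φ a) (L a) (W a) (m a) (y a) (u a) (v a) (i a) (x a) := by
  unfold sel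
  fun_prop

attribute [local irreducible] sel

@[fun_prop] theorem blockSet_pt1 {N : α → List ℕ} {B Q φ x L W m β t b : α → ℕ} (hB : PT B)
    (hB' : Small B) (hN : PT N) (hQ : PT Q) (hφ : PT φ) (hx : PT x) (hL : PT L) (hW : PT W)
    (hm : PT m) (hβ : PT β) (ht : PT t) (hb : PT b) :
    PT fun a => blockSet (B a) (N a) (Q a) (φ a) (x a) (L a) (W a) (m a) (β a) (t a) (b a) := by
  unfold blockSet
  fun_prop

attribute [local irreducible] blockSet tuples

theorem pt_fam {N : α → List ℕ} {B : α → ℕ} (hN : PT N) (hB : PT B) (hB' : Small B) :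
    PT fun a => fam (N a) (B a) := by
  unfold fam
  fun_prop

@[fun_prop] theorem psi_pt1 {g k l e c : α → ℕ} {Y : α → List ℕ} (hg : PT g) (hk : PT k)
    (hl : PT l) (hY : PT Y) (he : PT e) (hc : PT c) :
    PT fun a => psi (g a) (k a) (l a) (Y a) (e a) (c a) := by
  unfold psi
  fun_prop

attribute [local irreducible] psi

@[fun_prop] theorem pot_pt1 {g k : α → ℕ} {C : α → List (ℕ × List ℕ)} {χ : α → List ℕ}
    (hg : PT g) (hk : PT k) (hC : PT C) (hχ : PT χ) :
    PT fun a => pot (g a) (k a) (C a) (χ a) := by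
  unfold pot
  fun_prop

attribute [local irreducible] pot

@[fun_prop] theorem cstep_pt1 {G χ : α → List ℕ} {k : α → ℕ} {C : α → List (ℕ × List ℕ)}
    (hG : PT G) (hk : PT k) (hC : PT C) (hχ : PT χ) :
    PT fun a => cstep (G a) (k a) (C a) (χ a) := by
  unfold cstep
  fun_prop

theorem sz_headD_pt1 (L : List ℕ) : sz (L.headD 0) ≤ sz L := by
  cases L with
  | nil => exact (sz_le_self 0).trans (Nat.zero_le _)
  | cons x L => exact sz_le_of_mem (by simp)

theorem sz_cstep_pt1 (G χ : List ℕ) (k : ℕ) (C : List (ℕ × List ℕ)) :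
    sz (cstep G k C χ) ≤ sz χ + (2 * sz G + 1) := by
  have h := (sz_headD_pt1 (G.filter fun c => decide (pot G.length k C (χ ++ [c]) ≤
    (2 * G.length - k) * pot G.length k C χ))).trans (sz_le_of_sublist List.filter_sublist)
  unfold cstep
  rw [sz_append, sz_cons, sz_nil]
  omega

attribute [local irreducible] cstep

theorem pt_colour {N G : α → List ℕ} {k : α → ℕ} {C : α → List (ℕ × List ℕ)} (hN : PT N)
    (hG : PT G) (hk : PT k) (hC : PT C) : PT fun a => colour (N a) (G a) (k a) (C a) :=
  PT.iterate_nat_growth (F := fun a χ => cstep (G a) (k a) (C a) χ) hN.length (Small.length hN)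
    (PT.const _) (by fun_prop) (fun a => 2 * sz (G a) + 1) (by fun_prop)
    fun _ _ => sz_cstep_pt1 _ _ _ _

theorem pt_thin {g k : α → ℕ} {χ : α → List ℕ} {Os : α → List (List ℕ)} (hg : PT g) (hk : PT k)
    (hχ : PT χ) (hO : PT Os) : PT fun a => thin (g a) (k a) (χ a) (Os a) := by
  unfold thin
  fun_prop

theorem sz_zipIdx_pt1 (p : ℕ → ℕ → Bool) (Os : List (List ℕ)) (i : ℕ) :
    sz ((Os.zipIdx i).map fun x => x.1.filter (p x.2)) ≤ sz Os := by
  induction Os generalizing i with
  | nil => exact le_rfl
  | cons O Os ih =>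
    have h1 : sz (O.filter (p i)) ≤ sz O := sz_le_of_sublist List.filter_sublist
    have h2 := ih (i + 1)
    rw [List.zipIdx_cons, List.map_cons, sz_cons, sz_cons]
    dsimp only
    omega

theorem sz_thin_le (g k : ℕ) (χ : List ℕ) (Os : List (List ℕ)) : sz (thin g k χ Os) ≤ sz Os :=
  sz_zipIdx_pt1 (fun i e => decide (¬ (i + χ.getD e 0) % g < k)) Os 0

end Pool.Agent.P.MP_c2d640_lc

set_option autoImplicit false
set_option linter.unusedSectionVars false

/-! The pieces of the algorithm run in polynomial time, part two. -/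

namespace Pool.Agent.P.MP_c2d640_lc

open Pool.Agent.Lib.PolyTime Pool.Agent.P.MP_eb0bd2_lc
open scoped Classical

variable {F : Type} [Field F] {α : Type} [N487b59b3 α] [N487b59b3 F] [Finite F]
variable {R N : α → List ℕ} {A : α → List (List F)}

attribute [local irreducible] elimStep inSpan spans tuples bases best fam colour thin

@[fun_prop] theorem red_pt2 {x : α → List F} (hR : PT R) (hL : PT A) (hx : PT x) :
    PT fun a => red (R a) (A a) (x a) := by
  obtain ⟨K, hK⟩ := exists_sz_le F
  have h : PT fun a => (R a).foldl (elimStep (R a)) (x a, A a) := by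
    refine PT.foldl (f := fun a => elimStep (R a)) hR (hx.pair hL) (by fun_prop) ?_
    have h1 : Small fun a => sz (x a, A a) +
      ((A a).length + 1) * (2 * ((R a).length * (2 * K + 1)) + 1) := by fun_prop
    exact (PB.reindex h1 Prod.fst).mono fun p => (sz_foldl_elimStep hK _ _ _).2
  exact h.fst

attribute [local irreducible] red

@[fun_prop] theorem conM_pt2 {O : α → List ℕ} (hR : PT R) (hA : PT A) (hO : PT O) :
    PT fun a => conM (R a) (A a) (O a) := by
  unfold conM
  fun_prop

@[fun_prop] theorem sum_pt2 {l : α → List F} (hl : PT l) : PT fun a => (l a).sum := by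
  obtain ⟨K, hK⟩ := exists_sz_le F
  exact PT.foldr_growth (f := fun _ x y => x + y) hl (PT.const 0) (by fun_prop) (fun _ => K)
    (PB.const K) fun _ _ _ => (hK _).trans (Nat.le_add_left _ _)

@[fun_prop] theorem comb_pt2 {p : α → List (ℕ × F)} (hR : PT R) (hA : PT A) (hp : PT p) :
    PT fun a => comb (R a) (A a) (p a) := by
  unfold comb
  fun_prop

attribute [local irreducible] conM comb

@[fun_prop] theorem cand_pt2 {B : α → List ℕ} {p : α → List (ℕ × F)} (hR : PT R) (hN : PT N)
    (hA : PT A) (hB : PT B) (hp : PT p) : PT fun a => cand (R a) (N a) (A a) (B a) (p a) := by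
  unfold cand
  fun_prop

@[fun_prop] theorem pairs_pt2 (FL : List F) (hN : PT N) : PT fun a => pairs (N a) FL := by
  unfold pairs
  fun_prop

attribute [local irreducible] cand pairs

@[fun_prop] theorem bases_pt2 {e : α → ℕ} (hR : PT R) (hN : PT N) (hA : PT A) (he : PT e)
    (he' : Small e) : PT fun a => bases (R a) (N a) (A a) (e a) := pt_bases hR hN hA he he'

theorem pt_enum (s c : ℕ) (FL : List F) {𝒟 : α → List (List ℕ)} {O : α → List ℕ} (hR : PT R)
    (hN : PT N) (hA : PT A) (hD : PT 𝒟) (hO : PT O) :
    PT fun a => enum s c FL (R a) (N a) (A a) (𝒟 a) (O a) := by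
  unfold enum
  fun_prop

theorem app_pt2 {β : Type} [N487b59b3 β] {En : α → List ℕ → List (List ℕ)}
    (hE : PT fun p : α × List ℕ => En p.1 p.2) {g : β → α} {y : β → List ℕ} (hg : PT g)
    (hy : PT y) : PT fun b => En (g b) (y b) :=
  hE.comp (g := fun b => (g b, y b)) (hg.pair hy)

theorem constraints_pt2 {g : α → ℕ} {En : α → List ℕ → List (List ℕ)} {Os : α → List (List ℕ)}
    (hg : PT g) (hE : PT fun p : α × List ℕ => En p.1 p.2) (hO : PT Os) :
    PT fun a => constraints (g a) (En a) (Os a) := by
  have h1 : PT fun p : α × List ℕ × ℕ => En p.1 p.2.1 :=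
    app_pt2 hE (by fun_prop) (by fun_prop)
  refine PT.flatMap (f := fun a (x : List ℕ × ℕ) =>
    ((En a x.1).filter fun Y => decide (g a ≤ Y.length)).map fun Y => (x.2, Y)) hO.zipIdx ?_
  refine PT.map (f := fun (p : α × List ℕ × ℕ) (Y : List ℕ) => (p.2.2, Y)) ?_ (by fun_prop)
  exact PT.filter (f := fun (p : α × List ℕ × ℕ) (Y : List ℕ) => decide (g p.1 ≤ Y.length)) h1
    (by fun_prop)

theorem sround_pt2 {G : α → List ℕ} {κ j : α → ℕ} {En : α → List ℕ → List (List ℕ)}
    {Os : α → List (List ℕ)} (hN : PT N) (hG : PT G) (hκ : PT κ)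
    (hE : PT fun p : α × List ℕ => En p.1 p.2) (hO : PT Os) (hj : PT j) :
    PT fun a => sround (N a) (G a) (κ a) (En a) (Os a) (j a) := by
  have hk : PT fun a => 8 * 4 ^ min (j a) (N a).length + κ a := by fun_prop
  exact pt_thin hG.length hk (pt_colour hN hG hk (constraints_pt2 hG.length hE hO)) hO

theorem pt_sparse {G JL : α → List ℕ} {κ : α → ℕ} {En : α → List ℕ → List (List ℕ)} (hR : PT R)
    (hN : PT N) (hG : PT G) (hJ : PT JL) (hA : PT A) (hκ : PT κ)
    (hE : PT fun p : α × List ℕ => En p.1 p.2) :
    PT fun a => sparse (R a) (N a) (G a) (JL a) (A a) (κ a) (En a) :=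
  PT.foldl_growth (f := fun a => sround (N a) (G a) (κ a) (En a)) hJ
    (pt_bases hR hN hA (by fun_prop) (by fun_prop))
    (sround_pt2 (En := fun p : α × List (List ℕ) × ℕ => En p.1) (by fun_prop) (by fun_prop)
      (by fun_prop) (app_pt2 hE (by fun_prop) (by fun_prop)) (by fun_prop) (by fun_prop))
    (fun _ => 0) (PB.const 0) fun _ _ _ => sz_thin_le _ _ _ _

@[fun_prop] theorem dep_pt2 {Y : α → List ℕ} (hR : PT R) (hA : PT A) (hY : PT Y) :
    PT fun a => dep (R a) (A a) (Y a) := by
  unfold dep
  fun_prop

attribute [local irreducible] dep sparse enum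

theorem cands_pt2 (n₀ : ℕ) {En : α → List ℕ → List (List ℕ)} (hR : PT R) (hN : PT N) (hA : PT A)
    (hE : PT fun p : α × List ℕ => En p.1 p.2) :
    PT fun a => cands n₀ (R a) (N a) (A a) (En a) := by
  refine ((pt_tuples n₀ hN).append (app_pt2 hE PT.id (PT.const []))).append
    (PT.flatMap (f := fun a (p : List ℕ) => (sparse (R a) (N a)
      ((N a).filter fun e => decide (e < p.getD 0 0))
      ((N a).filter fun e => decide (e < p.getD 1 0)) (A a) (p.getD 2 0) (En a)).flatMap (En a))
      (by fun_prop) ?_)
  refine PT.flatMap (f := fun (q : α × List ℕ) => En q.1) ?_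
    (app_pt2 hE (by fun_prop) (by fun_prop))
  exact pt_sparse (En := fun q : α × List ℕ => En q.1) (by fun_prop) (by fun_prop) (by fun_prop)
    (by fun_prop) (by fun_prop) (by fun_prop) (app_pt2 hE (by fun_prop) (by fun_prop))

theorem pick_pt2 {𝒞 : α → List (List ℕ)} (hR : PT R) (hN : PT N) (hA : PT A) (hC : PT 𝒞) :
    PT fun a => pick (R a) (N a) (A a) (𝒞 a) := by
  refine pt_best (PT.map (f := fun _ => List.length) (PT.filter (f := fun a => dep (R a) (A a))
    (by fun_prop) (by fun_prop)) (by fun_prop))

theorem pt_dalgo (C s c n₀ : ℕ) (FL : List F) : PT (dalgo C s c n₀ FL : List (List F) → ℕ) := by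
  have hR : PT fun A : List (List F) => List.range (A.headD []).length := by fun_prop
  have hN : PT fun A : List (List F) => List.range A.length := by fun_prop
  have hD : PT fun A : List (List F) => fam (List.range A.length) ((A.length + 2) ^ C) :=
    pt_fam hN (by fun_prop) (by fun_prop)
  exact pick_pt2 hR hN PT.id (cands_pt2 n₀ hR hN PT.id
    (pt_enum s c FL (hR.comp PT.id.fst) (hN.comp PT.id.fst) PT.id.fst (hD.comp PT.id.fst)
      PT.id.snd))

end Pool.Agent.P.MP_c2d640_lc
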