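import Pool.Agent.P.MP_c2d640_lc.G2
import Pool.Agent.P.MP_c2d640_lc.G5

set_option autoImplicit false
set_option linter.unusedSectionVars false

/-! Affine maps modulo a prime are pairwise independent. -/

namespace Pool.Agent.P.MP_c2d640_lc

open Finset
open scoped Classical

variable {Q : ℕ}

theorem card_pre_affine {α : Type} [DecidableEq α] (S T : Finset α) (g : α → α)
    (p : α → Prop) [DecidablePred p] (hp : ∀ x, p x ↔ g x ∈ T) (h1 : ∀ x ∈ S, g x ∈ S)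
    (h2 : Set.InjOn g S) (hT : T ⊆ S) : #(S.filter p) = #T := by
  have im : S.image g = S := Finset.eq_of_subset_of_card_le (fun y hy => by
    obtain ⟨x, hx, rfl⟩ := Finset.mem_image.1 hy
    exact h1 x hx) (Finset.card_image_of_injOn h2).ge
  rw [← Finset.card_image_of_injOn (f := g) (h2.mono fun x hx => (Finset.mem_filter.1 hx).1)]
  congr 1
  ext y
  simp only [Finset.mem_image, Finset.mem_filter, hp]
  constructor
  · rintro ⟨x, ⟨-, hx⟩, rfl⟩; exact hx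
  · intro hy
    have := hT hy
    rw [← im] at this
    obtain ⟨x, hx, rfl⟩ := Finset.mem_image.1 this
    exact ⟨x, ⟨hx, hy⟩, rfl⟩

theorem affine_one (hQ : 0 < Q) (c : ℕ) (T : Finset ℕ) (hT : T ⊆ range Q) :
    #((range Q ×ˢ range Q).filter fun p => (p.1 * c + p.2) % Q ∈ T) = Q * #T := by
  rw [card_pre_affine (range Q ×ˢ range Q) (range Q ×ˢ T ∪ ∅)
    (fun p => (p.1 % Q, (p.1 * c + p.2) % Q)) _ (fun x => by simp [Nat.mod_lt _ hQ])
    (fun x _ => by simp [Nat.mod_lt _ hQ]) ?_ (by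
      rw [Finset.union_empty]; exact Finset.product_subset_product_right hT)]
  · simp
  · rintro ⟨a, b⟩ hx ⟨a', b'⟩ hy h
    simp only [coe_product, coe_range, Set.mem_prod, Set.mem_Iio] at hx hy
    simp only [Prod.mk.injEq, Nat.mod_eq_of_lt hx.1, Nat.mod_eq_of_lt hy.1] at h
    obtain ⟨rfl, h⟩ := h
    have : b ≡ b' [MOD Q] := Nat.ModEq.add_left_cancel' _ h
    rw [Nat.ModEq.eq_of_lt_of_lt this hx.2 hy.2]

theorem affine_two (hQ : Q.Prime) {c c' : ℕ} (hc : c % Q ≠ c' % Q) (T : Finset (ℕ × ℕ))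
    (hT : T ⊆ range Q ×ˢ range Q) :
    #((range Q ×ˢ range Q).filter fun p => ((p.1 * c + p.2) % Q, (p.1 * c' + p.2) % Q) ∈ T) =
      #T := by
  refine card_pre_affine (range Q ×ˢ range Q) T
    (fun p => ((p.1 * c + p.2) % Q, (p.1 * c' + p.2) % Q)) _ (fun x => Iff.rfl)
    (fun x _ => by simp [Nat.mod_lt _ hQ.pos]) ?_ hT
  rintro ⟨a, b⟩ hx ⟨a', b'⟩ hy h
  simp only [coe_product, coe_range, Set.mem_prod, Set.mem_Iio] at hx hy
  simp only [Prod.mk.injEq] at h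
  have := Fact.mk hQ
  have h1 := (ZMod.natCast_eq_natCast_iff' _ _ Q).2 h.1
  have h2 := (ZMod.natCast_eq_natCast_iff' _ _ Q).2 h.2
  push_cast at h1 h2
  have h3 : (c : ZMod Q) - c' ≠ 0 := fun h => hc
    ((ZMod.natCast_eq_natCast_iff' _ _ Q).1 (sub_eq_zero.1 h))
  have h4 : ((a : ZMod Q) - a') * ((c : ZMod Q) - c') = 0 := by linear_combination h1 - h2
  have h5 : (a : ZMod Q) = a' := sub_eq_zero.1 ((mul_eq_zero.1 h4).resolve_right h3)
  have h6 : (b : ZMod Q) = b' := by rw [h5] at h1; exact add_left_cancel h1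
  have e1 := (ZMod.natCast_eq_natCast_iff' _ _ Q).1 h5
  have e2 := (ZMod.natCast_eq_natCast_iff' _ _ Q).1 h6
  rw [Nat.mod_eq_of_lt hx.1, Nat.mod_eq_of_lt hy.1] at e1
  rw [Nat.mod_eq_of_lt hx.2, Nat.mod_eq_of_lt hy.2] at e2
  rw [e1, e2]

/-- The second moment of the number of active points. -/
theorem affine_var (hQ : Q.Prime) (f : ℕ → ℕ) (Y : Finset ℕ)
    (hf : ∀ x ∈ Y, ∀ x' ∈ Y, x ≠ x' → f x % Q ≠ f x' % Q) {W : ℕ} (hW : W ≤ Q) :
    ∑ p ∈ range Q ×ˢ range Q,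
      ((Q : ℤ) * #(Y.filter fun x => (p.1 * f x + p.2) % Q < W) - #Y * W) ^ 2 ≤
        (Q : ℤ) ^ 3 * #Y * W := by
  let I : ℕ → ℕ × ℕ → ℤ := fun x p => if (p.1 * f x + p.2) % Q < W then 1 else 0
  have hr : range W ⊆ range Q := Finset.range_subset_range.2 hW
  have s1 : ∀ x, ∑ p ∈ range Q ×ˢ range Q, I x p = Q * W := by
    intro x
    have := affine_one hQ.pos (f x) (range W) hr
    simp only [mem_range, card_range] at this
    simp only [I, Finset.sum_boole, this]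
    push_cast; rfl
  have s2 : ∀ x ∈ Y, ∀ x' ∈ Y, x ≠ x' → ∑ p ∈ range Q ×ˢ range Q, I x p * I x' p = W * W := by
    intro x hx x' hx' hne
    have := affine_two hQ (hf x hx x' hx' hne) (range W ×ˢ range W)
      (Finset.product_subset_product hr hr)
    simp only [mem_product, mem_range, card_product, card_range] at this
    simp only [I, ite_zero_mul_ite_zero, mul_one, Finset.sum_boole, this]
    push_cast; rfl
  have s3 : ∀ x p, I x p * I x p = I x p := fun x p => by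
    simp only [I]; split_ifs <;> simp
  have e1 : ∀ p : ℕ × ℕ, (Q : ℤ) * #(Y.filter fun x => (p.1 * f x + p.2) % Q < W) - #Y * W =
      ∑ x ∈ Y, (Q * I x p - W) := by
    intro p
    rw [Finset.sum_sub_distrib, ← Finset.mul_sum]
    simp only [I, Finset.sum_boole, Finset.sum_const, nsmul_eq_mul]
  have e2 : ∀ x x', ∑ p ∈ range Q ×ˢ range Q, ((Q : ℤ) * I x p - W) * (Q * I x' p - W) =
      Q ^ 2 * ∑ p ∈ range Q ×ˢ range Q, I x p * I x' p - Q ^ 2 * W ^ 2 := by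
    intro x x'
    have : ∀ p, ((Q : ℤ) * I x p - W) * (Q * I x' p - W) =
        Q ^ 2 * (I x p * I x' p) - Q * W * I x p - Q * W * I x' p + W ^ 2 := fun p => by ring
    simp only [this, Finset.sum_add_distrib, Finset.sum_sub_distrib, ← Finset.mul_sum, s1,
      Finset.sum_const, card_product, card_range, nsmul_eq_mul]
    push_cast; ring
  simp only [e1, sq, Finset.sum_mul_sum]
  rw [Finset.sum_comm]
  calc _ ≤ ∑ x ∈ Y, (Q : ℤ) ^ 3 * W := by
        apply Finset.sum_le_sum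
        intro x hx
        rw [Finset.sum_comm, Finset.sum_eq_single_of_mem x hx]
        · rw [e2]
          simp only [s3, s1]
          nlinarith [sq_nonneg ((Q : ℤ) * W)]
        · intro x' hx' hne
          rw [e2, s2 x hx x' hx' hne.symm]; ring
    _ = _ := by rw [Finset.sum_const, nsmul_eq_mul]; ring

theorem card_pairs_affine (m r : ℕ) :
    #((range (m * r) ×ˢ range (m * r)).filter fun s => s.1 % m = s.2 % m) ≤ m * r ^ 2 := by
  have : #((range (m * r) ×ˢ range (m * r)).filter fun s => s.1 % m = s.2 % m) ≤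
      #(range (m * r) ×ˢ range r) := by
    apply Finset.card_le_card_of_injOn fun s => (s.1, s.2 / m)
    · intro s hs
      simp only [coe_filter, mem_product, mem_range, Set.mem_ofPred_eq] at hs
      simp only [coe_product, coe_range, Set.mem_prod, Set.mem_Iio]
      exact ⟨hs.1.1, Nat.div_lt_of_lt_mul hs.1.2⟩
    · rintro ⟨a, b⟩ hx ⟨a', b'⟩ hy h
      simp only [coe_filter, Set.mem_ofPred_eq] at hx hy
      simp only [Prod.mk.injEq] at h
      obtain ⟨rfl, h⟩ := h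
      rw [← Nat.div_add_mod b m, ← Nat.div_add_mod b' m, h, ← hx.2, ← hy.2]
  rw [card_product, card_range, card_range] at this
  calc _ ≤ _ := this
    _ = _ := by ring

/-- Collisions of active points in the same bucket. -/
theorem affine_coll (hQ : Q.Prime) (f : ℕ → ℕ) (Y : Finset ℕ)
    (hf : ∀ x ∈ Y, ∀ x' ∈ Y, x ≠ x' → f x % Q ≠ f x' % Q) {m r : ℕ} (hW : m * r ≤ Q) :
    #((range Q ×ˢ range Q).filter fun p => ∃ x ∈ Y, ∃ x' ∈ Y, x ≠ x' ∧
      (p.1 * f x + p.2) % Q < m * r ∧ (p.1 * f x' + p.2) % Q < m * r ∧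
      (p.1 * f x + p.2) % Q % m = (p.1 * f x' + p.2) % Q % m) ≤ #Y ^ 2 * (m * r ^ 2) := by
  have hr : range (m * r) ⊆ range Q := Finset.range_subset_range.2 hW
  let T := (range (m * r) ×ˢ range (m * r)).filter fun s => s.1 % m = s.2 % m
  calc _ ≤ #(Y.offDiag.biUnion fun z => (range Q ×ˢ range Q).filter fun p =>
          ((p.1 * f z.1 + p.2) % Q, (p.1 * f z.2 + p.2) % Q) ∈ T) := by
        apply Finset.card_le_card
        intro p hp
        obtain ⟨h1, x, hx, x', hx', hne, a1, a2, a3⟩ := Finset.mem_filter.1 hp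
        exact Finset.mem_biUnion.2 ⟨(x, x'), Finset.mem_offDiag.2 ⟨hx, hx', hne⟩,
          Finset.mem_filter.2 ⟨h1, Finset.mem_filter.2 ⟨Finset.mem_product.2
            ⟨Finset.mem_range.2 a1, Finset.mem_range.2 a2⟩, a3⟩⟩⟩
    _ ≤ #Y.offDiag * (m * r ^ 2) := by
        apply Finset.card_biUnion_le_card_mul
        intro z hz
        obtain ⟨a1, a2, a3⟩ := Finset.mem_offDiag.1 hz
        rw [affine_two hQ (hf _ a1 _ a2 a3) T
          ((Finset.filter_subset _ _).trans (Finset.product_subset_product hr hr))]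
        exact card_pairs_affine m r
    _ ≤ _ := by
        apply Nat.mul_le_mul_right
        rw [Finset.offDiag_card, sq]
        exact Nat.sub_le _ _

end Pool.Agent.P.MP_c2d640_lc

set_option autoImplicit false
set_option linter.unusedSectionVars false

/-! A short list of subsets of a small set that avoids and hits in the right proportion. -/

namespace Pool.Agent.P.MP_c2d640_lc

open Finset
open scoped Classical

theorem exp_step_inner {α : Type} [DecidableEq α] {κ : ℝ} (h0 : 0 ≤ κ) (h1 : κ ≤ 1) (l : List α)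
    (ξ : Finset α → ℝ) {η : ℝ} (hη : 0 ≤ η) (hη1 : η ≤ 1) (hξ : ∀ D, |ξ D| ≤ 1)
    (hE : ex κ l ξ ≤ -η) :
    ex κ l (fun D => Real.exp (η / 2 * ξ D)) ≤ Real.exp (-(η ^ 2 / 4)) := by
  have a1 : ex κ l (fun D => Real.exp (η / 2 * ξ D))
      ≤ ex κ l (fun D => (1 + (η / 2) ^ 2) + η / 2 * ξ D) := by
    refine ex_mono h0 h1 l fun D _ => ?_
    have b1 : |η / 2 * ξ D| ≤ η / 2 := by
      rw [abs_mul, abs_of_nonneg (by linarith)]
      exact mul_le_of_le_one_right (by linarith) (hξ D)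
    have b2 := (abs_le.1 (Real.abs_exp_sub_one_sub_id_le (b1.trans (by linarith)))).2
    have b3 : (η / 2 * ξ D) ^ 2 ≤ (η / 2) ^ 2 := sq_le_sq' (abs_le.1 b1).1 (abs_le.1 b1).2
    linarith
  rw [ex_add, ex_const, ex_const_mul] at a1
  have a2 := mul_le_mul_of_nonneg_left hE (show 0 ≤ η / 2 by linarith)
  have a3 := Real.add_one_le_exp (-(η ^ 2 / 4))
  linarith

/-- Multiplicative weights. -/
theorem mult_weights {α C : Type} [DecidableEq α] {κ : ℝ} (h0 : 0 ≤ κ) (h1 : κ ≤ 1) (l : List α)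
    (𝒞 : Finset C) (ξ : C → Finset α → ℝ) {η : ℝ} (hη : 0 ≤ η) (hη1 : η ≤ 1)
    (hξ : ∀ c ∈ 𝒞, ∀ D, |ξ c D| ≤ 1) (hE : ∀ c ∈ 𝒞, ex κ l (ξ c) ≤ -η) (s : ℕ)
    (hs : #𝒞 * Real.exp (-(s * η ^ 2 / 4)) < 1) :
    ∃ G : ℕ → Finset α, ∀ c ∈ 𝒞, ∑ i ∈ range s, ξ c (G i) < 0 := by
  have key : ∀ t : ℕ, ∃ G : ℕ → Finset α,
      ∑ c ∈ 𝒞, Real.exp (η / 2 * ∑ i ∈ range t, ξ c (G i))
        ≤ #𝒞 * Real.exp (-(t * η ^ 2 / 4)) := by
    intro t
    induction t with
    | zero => exact ⟨fun _ => ∅, by simp⟩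
    | succ t ih =>
      obtain ⟨G, hG⟩ := ih
      obtain ⟨D, -, hD⟩ := exists_le_ex h0 h1 l (fun D => ∑ c ∈ 𝒞,
        Real.exp (η / 2 * ∑ i ∈ range t, ξ c (G i)) * Real.exp (η / 2 * ξ c D))
      rw [ex_sum] at hD
      refine ⟨Function.update G t D, ?_⟩
      have e : ∀ c, ∑ i ∈ range (t + 1), ξ c (Function.update G t D i)
          = ∑ i ∈ range t, ξ c (G i) + ξ c D := fun c => by
        rw [sum_range_succ, Function.update_self]
        congr 1
        exact sum_congr rfl fun i hi => by rw [Function.update_of_ne (mem_range.1 hi).ne]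
      simp only [e, mul_add, Real.exp_add]
      refine hD.trans ?_
      calc ∑ c ∈ 𝒞, ex κ l (fun D =>
            Real.exp (η / 2 * ∑ i ∈ range t, ξ c (G i)) * Real.exp (η / 2 * ξ c D))
          ≤ ∑ c ∈ 𝒞, Real.exp (η / 2 * ∑ i ∈ range t, ξ c (G i)) * Real.exp (-(η ^ 2 / 4)) := by
            refine sum_le_sum fun c hc => ?_
            rw [ex_const_mul]
            exact mul_le_mul_of_nonneg_left
              (exp_step_inner h0 h1 l (ξ c) hη hη1 (hξ c hc) (hE c hc)) (Real.exp_pos _).le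
        _ ≤ #𝒞 * Real.exp (-(t * η ^ 2 / 4)) * Real.exp (-(η ^ 2 / 4)) := by
            rw [← sum_mul]
            exact mul_le_mul_of_nonneg_right hG (Real.exp_pos _).le
        _ = _ := by
            rw [mul_assoc, ← Real.exp_add]
            congr 2
            push_cast
            ring
  obtain ⟨G, hG⟩ := key s
  refine ⟨G, fun c hc => ?_⟩
  have a1 := single_le_sum (f := fun c => Real.exp (η / 2 * ∑ i ∈ range s, ξ c (G i)))
    (fun c _ => (Real.exp_pos _).le) hc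
  have a2 := Real.exp_lt_one_iff.1 ((a1.trans hG).trans_lt hs)
  by_contra a3
  exact absurd (mul_nonneg (show 0 ≤ η / 2 by linarith) (not_lt.1 a3)) (not_le.2 a2)

theorem avoid_inner {κ : ℝ} {m : ℕ} {Y : Finset ℕ} (hY : Y ⊆ range m) :
    ex κ (range m).toList (fun D => if Disjoint D Y then 1 else 0) = κ ^ #Y := by
  rw [ex_avoid_toList, inter_eq_right.2 hY]

theorem inner_family {u μ m s : ℕ} (hu : 2 ≤ u) (hμ : 1 ≤ μ) (hm : 1 ≤ m)
    (hs : 32 * u ^ 130 * m ≤ s) : ∃ G : ℕ → Finset ℕ, ∀ X ⊆ range m, ∀ P ⊆ range m,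
      #X ≤ 64 * μ → μ ≤ #(P \ X) →
      u * #((range s).filter fun i => Disjoint (G i) X ∧ Disjoint (G i) P) ≤
        2 * #((range s).filter fun i => Disjoint (G i) X) ∧
      s ≤ 4 * u ^ 64 * #((range s).filter fun i => Disjoint (G i) X) := by
  have hu' : (2 : ℝ) ≤ u := by exact_mod_cast hu
  have hu0 : (0 : ℝ) < u := by linarith
  have hi0 : (0 : ℝ) ≤ (u : ℝ)⁻¹ := by positivity
  have hi1 : (u : ℝ)⁻¹ ≤ 1 := inv_le_one_of_one_le₀ (by linarith)
  obtain ⟨κ, k0, k1, k2⟩ : ∃ κ : ℝ, 0 ≤ κ ∧ κ ≤ 1 ∧ κ ^ μ = (u : ℝ)⁻¹ :=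
    ⟨(u : ℝ)⁻¹ ^ ((μ : ℝ)⁻¹), by positivity, Real.rpow_le_one hi0 hi1 (by positivity),
      Real.rpow_inv_natCast_pow hi0 (by omega)⟩
  obtain ⟨ρ, hρ⟩ : ∃ ρ : ℝ, ρ = 2 * (u : ℝ)⁻¹ := ⟨_, rfl⟩
  obtain ⟨a, ha⟩ : ∃ a : ℝ, a = (u : ℝ)⁻¹ ^ 64 / 4 := ⟨_, rfl⟩
  have r0 : 0 < ρ := by rw [hρ]; positivity
  have r1 : ρ ≤ 1 := by rw [hρ, ← div_eq_mul_inv, div_le_one hu0]; exact hu'
  have a0 : 0 < a := by rw [ha]; positivity
  have a1 : a ≤ 1 := by
    have := pow_le_one₀ (n := 64) hi0 hi1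
    linarith
  have p0 : 0 < ρ * a := mul_pos r0 a0
  have p1 : ρ * a ≤ ρ := mul_le_of_le_one_right r0.le a1
  refine Exists.imp (fun G hG => ?_) (mult_weights k0 k1 (range m).toList
    (((range m).powerset ×ˢ (range m).powerset).filter
      fun c => #c.1 ≤ 64 * μ ∧ μ ≤ #(c.2 \ c.1))
    (fun c D => (if Disjoint D (c.1 ∪ c.2) then 1 else 0)
      - ρ * (if Disjoint D c.1 then 1 else 0) + ρ * a) p0.le (p1.trans r1)
    (fun c _ D => ?_) (fun c hc => ?_) s ?_)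
  · intro X hX P hP h1 h2
    have h3 := hG (X, P) (mem_filter.2 ⟨mem_product.2 ⟨mem_powerset.2 hX, mem_powerset.2 hP⟩,
      h1, h2⟩)
    simp only [sum_add_distrib, sum_sub_distrib, ← mul_sum, sum_boole, disjoint_union_right,
      sum_const, card_range, nsmul_eq_mul] at h3
    generalize #((range s).filter fun i => Disjoint (G i) X ∧ Disjoint (G i) P) = A at h3 ⊢
    generalize #((range s).filter fun i => Disjoint (G i) X) = B at h3 ⊢
    have A0 : (0 : ℝ) ≤ A := Nat.cast_nonneg A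
    have s0 : (0 : ℝ) ≤ s := Nat.cast_nonneg s
    constructor
    · have h4 : (A : ℝ) ≤ ρ * B := by nlinarith [mul_nonneg s0 a0.le]
      have h5 : (u : ℝ) * A ≤ 2 * B := by
        calc (u : ℝ) * A ≤ u * (ρ * B) := by gcongr
          _ = 2 * B := by rw [hρ]; field_simp
      exact_mod_cast h5
    · have h4 : s * a ≤ B := le_of_mul_le_mul_left (by linarith) r0
      have h5 : (s : ℝ) ≤ 4 * u ^ 64 * B := by
        calc (s : ℝ) = 4 * u ^ 64 * (s * a) := by rw [ha]; field_simp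
          _ ≤ _ := by gcongr
      exact_mod_cast h5
  · rw [abs_le]
    by_cases h1 : Disjoint D (c.1 ∪ c.2)
    · rw [if_pos h1, if_pos (disjoint_union_right.1 h1).1]
      constructor <;> linarith
    · rw [if_neg h1]
      split_ifs <;> constructor <;> linarith
  · obtain ⟨h1, h2, h3⟩ := mem_filter.1 hc
    obtain ⟨h4, h5⟩ := mem_product.1 h1
    rw [mem_powerset] at h4 h5
    rw [ex_add, ex_sub, ex_const_mul, ex_const, avoid_inner h4, avoid_inner (union_subset h4 h5),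
      ← union_sdiff_self_eq_union, card_union_of_disjoint disjoint_sdiff, pow_add]
    have b1 : κ ^ #(c.2 \ c.1) ≤ (u : ℝ)⁻¹ := k2 ▸ pow_le_pow_of_le_one k0 k1 h3
    have b2 : 4 * a ≤ κ ^ #c.1 := by
      refine le_trans (le_of_eq ?_) (pow_le_pow_of_le_one k0 k1 h2)
      rw [mul_comm 64 μ, pow_mul, k2, ha]
      ring
    have b3 := mul_le_mul_of_nonneg_left b1 (pow_nonneg k0 #c.1)
    have b4 := mul_le_mul_of_nonneg_left b2 hi0
    rw [hρ]
    linarith
  · have b1 : (#(((range m).powerset ×ˢ (range m).powerset).filter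
        fun c => #c.1 ≤ 64 * μ ∧ μ ≤ #(c.2 \ c.1)) : ℝ) ≤ 4 ^ m := by
      have := card_filter_le ((range m).powerset ×ˢ (range m).powerset)
        fun c => #c.1 ≤ 64 * μ ∧ μ ≤ #(c.2 \ c.1)
      rw [card_product, card_powerset, card_range, ← mul_pow] at this
      exact_mod_cast this
    have b2 : (m : ℝ) * 2 ≤ s * (ρ * a) ^ 2 / 4 := by
      have b3 : (32 * u ^ 130 * m : ℝ) ≤ s := by exact_mod_cast hs
      calc (m : ℝ) * 2 = 32 * u ^ 130 * m * (ρ * a) ^ 2 / 4 := by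
            rw [hρ, ha]
            field_simp
            norm_num
        _ ≤ _ := by gcongr
    have b4 : (4 : ℝ) * Real.exp (-2) < 1 := by
      have b5 : (4 : ℝ) < Real.exp 2 := by
        have := Real.exp_one_gt_d9
        rw [show (2 : ℝ) = 1 + 1 by norm_num, Real.exp_add]
        nlinarith
      rw [Real.exp_neg, ← div_eq_mul_inv, div_lt_one (Real.exp_pos _)]
      exact b5
    calc _ ≤ (4 : ℝ) ^ m * Real.exp (m * (-2)) := by
          refine mul_le_mul b1 (Real.exp_le_exp.2 (by linarith)) (Real.exp_pos _).le (by positivity)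
      _ = (4 * Real.exp (-2)) ^ m := by rw [Real.exp_nat_mul, mul_pow]
      _ < 1 := pow_lt_one₀ (by positivity) b4 (by omega)

/-- Greedy choice of seeds. -/
theorem greedy_seeds {σ β : Type} (S : Finset σ) (hS : S.Nonempty) (miss : σ → β → Prop)
    (𝒬 : Finset β) (u t : ℕ) (h : ∀ P ∈ 𝒬, u * #(S.filter fun x => miss x P) ≤ 3 * #S)
    (ht : 3 ^ t * #𝒬 < u ^ t) :
    ∃ x : ℕ → σ, (∀ j, x j ∈ S) ∧ ∀ P ∈ 𝒬, ∃ j < t, ¬ miss (x j) P := by
  have key : ∀ r : ℕ, ∃ x : ℕ → σ, (∀ j, x j ∈ S) ∧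
      u ^ r * #(𝒬.filter fun P => ∀ j < r, miss (x j) P) ≤ 3 ^ r * #𝒬 := by
    intro r
    induction r with
    | zero =>
      obtain ⟨a, ha⟩ := hS
      exact ⟨fun _ => a, fun _ => ha, Nat.mul_le_mul (by simp) (card_filter_le _ _)⟩
    | succ r ih =>
      obtain ⟨x, hx, hr⟩ := ih
      obtain ⟨R, hR⟩ : ∃ R, R = 𝒬.filter fun P => ∀ j < r, miss (x j) P := ⟨_, rfl⟩
      rw [← hR] at hr
      have h1 : ∑ a ∈ S, u * #(R.filter fun P => miss a P) ≤ ∑ _a ∈ S, 3 * #R := by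
        have h2 : ∑ a ∈ S, #(R.filter fun P => miss a P)
            = ∑ P ∈ R, #(S.filter fun a => miss a P) := by
          simp only [card_filter]
          exact sum_comm
        rw [← mul_sum, h2, mul_sum]
        refine (sum_le_sum fun P hP => h P (mem_filter.1 (hR ▸ hP)).1).trans (le_of_eq ?_)
        simp only [sum_const, smul_eq_mul]
        ring
      obtain ⟨a, ha, h3⟩ := exists_le_of_sum_le hS h1
      refine ⟨Function.update x r a, fun j => ?_, ?_⟩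
      · by_cases hj : j = r
        · rw [hj, Function.update_self]
          exact ha
        · rw [Function.update_of_ne hj]
          exact hx j
      · have h4 : #(𝒬.filter fun P => ∀ j < r + 1, miss (Function.update x r a j) P)
            ≤ #(R.filter fun P => miss a P) := by
          refine card_le_card fun P hP => ?_
          obtain ⟨h5, h6⟩ := mem_filter.1 hP
          refine mem_filter.2 ⟨hR ▸ mem_filter.2 ⟨h5, fun j hj => ?_⟩, ?_⟩
          · have := h6 j (by omega)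
            rwa [Function.update_of_ne hj.ne] at this
          · have := h6 r (by omega)
            rwa [Function.update_self] at this
        calc _ ≤ u ^ (r + 1) * #(R.filter fun P => miss a P) := Nat.mul_le_mul_left _ h4
          _ = u ^ r * (u * #(R.filter fun P => miss a P)) := by ring
          _ ≤ u ^ r * (3 * #R) := Nat.mul_le_mul_left _ h3
          _ = 3 * (u ^ r * #R) := by ring
          _ ≤ 3 * (3 ^ r * #𝒬) := Nat.mul_le_mul_left _ hr
          _ = _ := by ring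
  obtain ⟨x, hx, hr⟩ := key t
  refine ⟨x, hx, fun P hP => ?_⟩
  by_contra hn
  have h1 : 0 < #(𝒬.filter fun P => ∀ j < t, miss (x j) P) :=
    card_pos.2 ⟨P, mem_filter.2 ⟨hP, fun j hj => by_contra fun h' => hn ⟨j, hj, h'⟩⟩⟩
  exact absurd ((Nat.le_mul_of_pos_right _ h1).trans hr) (not_le.2 ht)

theorem exists_digits (β T : ℕ) (f : ℕ → ℕ) (hf : ∀ p < T, f p < β) :
    ∃ x < β ^ T, ∀ p < T, x / β ^ p % β = f p := by
  induction T generalizing f with
  | zero => exact ⟨0, by simp, fun p hp => absurd hp (Nat.not_lt_zero p)⟩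
  | succ T ih =>
    obtain ⟨x, hx, h⟩ := ih (fun p => f (p + 1)) fun p hp => hf _ (by omega)
    have h0 := hf 0 (by omega)
    refine ⟨f 0 + β * x, ?_, fun p hp => ?_⟩
    · calc f 0 + β * x < β * (x + 1) := by rw [mul_add, mul_one]; omega
        _ ≤ β * β ^ T := Nat.mul_le_mul_left _ hx
        _ = _ := (pow_succ' β T).symm
    · rcases p with _ | p
      · rw [pow_zero, Nat.div_one, Nat.add_mul_mod_self_left, Nat.mod_eq_of_lt h0]
      · rw [pow_succ', ← Nat.div_div_eq_div_mul, Nat.add_mul_div_left _ _ (by omega),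
          Nat.div_eq_of_lt h0, zero_add]
        exact h p (by omega)

end Pool.Agent.P.MP_c2d640_lc

set_option autoImplicit false
set_option linter.unusedSectionVars false

/-! Most seeds hash a given pair of sets well. -/

namespace Pool.Agent.P.MP_c2d640_lc

open Finset
open scoped Classical

/-- The buckets of the active points of `Y`. -/
def buckets (B Q L W m α a b : ℕ) (Y : Finset ℕ) : Finset ℕ :=
  (Y.filter fun x => hash B Q L α a b x < W).image fun x => hash B Q L α a b x % m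

theorem rs_eq_good {B L : ℕ} (hL : L ≤ B) (α x : ℕ) :
    rs B L α x = ∑ i ∈ range L, x / 2 ^ i % 2 * α ^ i := by
  have h1 : rs B L α x = ∑ i ∈ range (min L B), dig B 2 x i * α ^ min i B := rfl
  rw [h1, min_eq_left hL]
  refine sum_congr rfl fun i hi => ?_
  rw [dig, min_eq_left ((mem_range.1 hi).le.trans hL)]

theorem rs_coll {B Q L x x' : ℕ} (hQ : Q.Prime) (hL : L ≤ B) (hx : x < 2 ^ L) (hx' : x' < 2 ^ L)
    (hne : x ≠ x') : #((range Q).filter fun α => rs B L α x % Q = rs B L α x' % Q) ≤ L := by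
  have : Fact Q.Prime := ⟨hQ⟩
  obtain ⟨g, hg⟩ : ∃ g : Polynomial (ZMod Q), g = ∑ i ∈ range L, Polynomial.monomial i
    (((x / 2 ^ i % 2 : ℕ) : ZMod Q) - ((x' / 2 ^ i % 2 : ℕ) : ZMod Q)) := ⟨_, rfl⟩
  have h2 := hQ.two_le
  have hg0 : g ≠ 0 := fun e => hne (Nat.eq_of_testBit_eq fun i => by
    by_cases hi : i < L
    · have h1 : g.coeff i = 0 := by rw [e, Polynomial.coeff_zero]
      rw [hg, Polynomial.finsetSum_coeff] at h1
      simp only [Polynomial.coeff_monomial] at h1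
      rw [sum_ite_eq', if_pos (mem_range.2 hi), sub_eq_zero, ZMod.natCast_eq_natCast_iff',
        Nat.mod_eq_of_lt ((Nat.mod_lt _ two_pos).trans_le h2),
        Nat.mod_eq_of_lt ((Nat.mod_lt _ two_pos).trans_le h2)] at h1
      rw [Nat.testBit_eq_decide_div_mod_eq, Nat.testBit_eq_decide_div_mod_eq, h1]
    · have h3 : 2 ^ L ≤ 2 ^ i := Nat.pow_le_pow_right two_pos (not_lt.1 hi)
      rw [Nat.testBit_lt_two_pow (hx.trans_le h3), Nat.testBit_lt_two_pow (hx'.trans_le h3)])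
  have hd : g.natDegree ≤ L := by
    rw [hg]
    exact Polynomial.natDegree_sum_le_of_forall_le _ _ fun i hi =>
      (Polynomial.natDegree_monomial_le _).trans (mem_range.1 hi).le
  refine le_trans ?_ ((Multiset.toFinset_card_le _).trans ((Polynomial.card_roots' g).trans hd))
  refine card_le_card_of_injOn (fun α => (α : ZMod Q)) (fun α hα => ?_) fun α hα β hβ e => ?_
  · have h1 := (ZMod.natCast_eq_natCast_iff' _ _ _).2 (mem_filter.1 (mem_coe.1 hα)).2
    rw [rs_eq_good hL, rs_eq_good hL, Nat.cast_sum, Nat.cast_sum, ← sub_eq_zero,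
      ← sum_sub_distrib] at h1
    rw [mem_coe, Multiset.mem_toFinset, Polynomial.mem_roots hg0, Polynomial.IsRoot.def, hg,
      Polynomial.eval_finsetSum, ← h1]
    refine sum_congr rfl fun i _ => ?_
    rw [Polynomial.eval_monomial, Nat.cast_mul, Nat.cast_mul, Nat.cast_pow, sub_mul]
  · have h1 := (ZMod.natCast_eq_natCast_iff' _ _ _).1 e
    rwa [Nat.mod_eq_of_lt (mem_range.1 (mem_filter.1 (mem_coe.1 hα)).1),
      Nat.mod_eq_of_lt (mem_range.1 (mem_filter.1 (mem_coe.1 hβ)).1)] at h1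

theorem cheb_good {β : Type} (T A : Finset β) (g : β → ℤ) {d M : ℤ} (hA : A ⊆ T)
    (h : ∀ p ∈ A, d ^ 2 ≤ g p ^ 2) (hM : ∑ p ∈ T, g p ^ 2 ≤ M) : #A * d ^ 2 ≤ M := by
  have h1 := card_nsmul_le_sum A (fun p => g p ^ 2) (d ^ 2) h
  rw [nsmul_eq_mul] at h1
  exact h1.trans ((sum_le_sum_of_subset_of_nonneg hA fun _ _ _ => sq_nonneg _).trans hM)

theorem many_good {Q μ D W : ℕ} (hQ : Q.Prime) (hμ : 1 ≤ μ) (hD : 1 ≤ D) (hQ1 : W * D ≤ Q)
    (f : ℕ → ℕ) (X : Finset ℕ) (hf : ∀ x ∈ X, ∀ x' ∈ X, x ≠ x' → f x % Q ≠ f x' % Q)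
    (hX : #X ≤ 32 * μ * D) :
    μ * #((range Q ×ˢ range Q).filter fun p =>
      64 * μ < #(X.filter fun x => (p.1 * f x + p.2) % Q < W)) ≤ Q ^ 2 := by
  have hW : W ≤ Q := (Nat.le_mul_of_pos_right W hD).trans hQ1
  have h0 : (0 : ℤ) < Q := Nat.cast_pos.2 hQ.pos
  have hμ0 : (0 : ℤ) < μ := Nat.cast_pos.2 hμ
  have h1 : #X * W ≤ 32 * μ * Q :=
    (Nat.mul_le_mul_right W hX).trans (by
      rw [mul_assoc (32 * μ), mul_comm D]
      exact Nat.mul_le_mul_left _ hQ1)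
  have h1' : (#X : ℤ) * W ≤ 32 * μ * Q := by exact_mod_cast h1
  have h2 := cheb_good _ ((range Q ×ˢ range Q).filter fun p =>
      64 * μ < #(X.filter fun x => (p.1 * f x + p.2) % Q < W)) _ (d := 32 * μ * Q)
    (filter_subset _ _) (fun p hp => by
      have h3 : (64 * μ : ℤ) ≤ #(X.filter fun x => (p.1 * f x + p.2) % Q < W) := by
        exact_mod_cast (mem_filter.1 hp).2.le
      have h4 := mul_le_mul_of_nonneg_left h3 h0.le
      exact pow_le_pow_left₀ (by positivity) (by linarith) 2) (affine_var hQ f X hf hW)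
  generalize #((range Q ×ˢ range Q).filter fun p =>
      64 * μ < #(X.filter fun x => (p.1 * f x + p.2) % Q < W)) = c at h2 ⊢
  have h3 := mul_le_mul_of_nonneg_left h1' (show (0 : ℤ) ≤ Q ^ 3 by positivity)
  have h4 : (32 * μ * Q ^ 2 : ℤ) * (32 * (μ * c)) ≤ (32 * μ * Q ^ 2) * Q ^ 2 := by linarith
  have h5 := le_of_mul_le_mul_left h4 (by positivity)
  have h6 : (0 : ℤ) ≤ μ * c := by positivity
  have h7 : (μ * c : ℤ) ≤ Q ^ 2 := by linarith
  exact_mod_cast h7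

theorem few_good {Q μ D W : ℕ} (hQ : Q.Prime) (hμ : 1 ≤ μ) (hD : 1 ≤ D) (hQ1 : W * D ≤ Q)
    (hQ2 : Q ≤ 2 * (W * D)) (f : ℕ → ℕ) (X : Finset ℕ)
    (hf : ∀ x ∈ X, ∀ x' ∈ X, x ≠ x' → f x % Q ≠ f x' % Q) (hX : #X = 4 * μ * D) :
    μ * #((range Q ×ˢ range Q).filter fun p =>
      #(X.filter fun x => (p.1 * f x + p.2) % Q < W) < μ) ≤ 4 * Q ^ 2 := by
  have hW : W ≤ Q := (Nat.le_mul_of_pos_right W hD).trans hQ1
  have h0 : (0 : ℤ) < Q := Nat.cast_pos.2 hQ.pos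
  have hμ0 : (0 : ℤ) < μ := Nat.cast_pos.2 hμ
  have hX' : (#X : ℤ) = 4 * μ * D := by exact_mod_cast hX
  have hQ1' : (W * D : ℤ) ≤ Q := by exact_mod_cast hQ1
  have hQ2' : (Q : ℤ) ≤ 2 * (W * D) := by exact_mod_cast hQ2
  have e1 := mul_le_mul_of_nonneg_left hQ1' hμ0.le
  have e2 := mul_le_mul_of_nonneg_left hQ2' hμ0.le
  have h2 := cheb_good _ ((range Q ×ˢ range Q).filter fun p =>
      #(X.filter fun x => (p.1 * f x + p.2) % Q < W) < μ) _ (d := μ * Q)
    (filter_subset _ _) (fun p hp => by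
      have h3 : (#(X.filter fun x => (p.1 * f x + p.2) % Q < W) : ℤ) ≤ μ := by
        exact_mod_cast (mem_filter.1 hp).2.le
      have h4 := mul_le_mul_of_nonneg_left h3 h0.le
      rw [← neg_sq (_ - _)]
      exact pow_le_pow_left₀ (by positivity) (by rw [hX']; linarith) 2) (affine_var hQ f X hf hW)
  generalize #((range Q ×ˢ range Q).filter fun p =>
      #(X.filter fun x => (p.1 * f x + p.2) % Q < W) < μ) = c at h2 ⊢
  rw [hX'] at h2
  have h3 := mul_le_mul_of_nonneg_left e1 (show (0 : ℤ) ≤ Q ^ 3 by positivity)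
  have h4 : (μ * Q ^ 2 : ℤ) * (μ * c) ≤ (μ * Q ^ 2) * (4 * Q ^ 2) := by linarith
  exact_mod_cast le_of_mul_le_mul_left h4 (by positivity)

theorem alpha_good {B Q L μ D r α : ℕ} (hQ : Q.Prime) (hμ : 1 ≤ μ) (hD : 1 ≤ D)
    (hQ1 : μ ^ 3 * r * D ≤ Q) (hQ2 : Q ≤ 2 * (μ ^ 3 * r * D)) (X P P₀ : Finset ℕ)
    (hXc : #X ≤ 32 * μ * D) (hP : P₀ ⊆ P \ X) (hPc : #P₀ = 4 * μ * D)
    (hf : ∀ x ∈ X ∪ P₀, ∀ x' ∈ X ∪ P₀, x ≠ x' → rs B L α x % Q ≠ rs B L α x' % Q) :
    μ * #((range Q ×ˢ range Q).filter fun p =>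
      ¬ (#(buckets B Q L (μ ^ 3 * r) (μ ^ 3) α p.1 p.2 X) ≤ 64 * μ ∧
        μ ≤ #(buckets B Q L (μ ^ 3 * r) (μ ^ 3) α p.1 p.2 P \
          buckets B Q L (μ ^ 3 * r) (μ ^ 3) α p.1 p.2 X))) ≤ 1301 * Q ^ 2 := by
  have hW : μ ^ 3 * r ≤ Q := (Nat.le_mul_of_pos_right _ hD).trans hQ1
  have h1 := many_good hQ hμ hD hQ1 (rs B L α) X
    (fun x hx x' hx' => hf x (mem_union_left _ hx) x' (mem_union_left _ hx')) hXc
  have h2 := few_good hQ hμ hD hQ1 hQ2 (rs B L α) P₀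
    (fun x hx x' hx' => hf x (mem_union_right _ hx) x' (mem_union_right _ hx')) hPc
  have h3 := affine_coll hQ (rs B L α) (X ∪ P₀) hf hW
  have h4 : #(X ∪ P₀) ≤ 36 * μ * D := (card_union_le _ _).trans (by linarith)
  have h5 : μ * (#(X ∪ P₀) ^ 2 * (μ ^ 3 * r ^ 2)) ≤ 1296 * Q ^ 2 :=
    calc _ ≤ μ * ((36 * μ * D) ^ 2 * (μ ^ 3 * r ^ 2)) := by gcongr
      _ = 1296 * (μ ^ 3 * r * D) ^ 2 := by ring
      _ ≤ _ := by gcongr
  have h6 := (Nat.mul_le_mul_left μ h3).trans h5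
  refine le_trans (Nat.mul_le_mul_left μ ((card_le_card fun p hp => ?_).trans
    ((card_union_le _ _).trans (Nat.add_le_add_right (card_union_le _ _) _))))
    (by rw [mul_add, mul_add]; exact (add_le_add (add_le_add h1 h2) h6).trans (by omega))
  obtain ⟨hp, hp'⟩ := mem_filter.1 hp
  by_contra hn
  simp only [mem_union, mem_filter, not_or, hp, true_and, not_lt] at hn
  obtain ⟨⟨k1, k2⟩, k3⟩ := hn
  refine hp' ⟨card_image_le.trans k1, k2.trans (card_le_card_of_injOn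
    (fun x => hash B Q L α p.1 p.2 x % μ ^ 3) (fun x hx => ?_) fun x hx x' hx' e => ?_)⟩
  · obtain ⟨hx, hx1⟩ := mem_filter.1 (mem_coe.1 hx)
    obtain ⟨hx2, hx3⟩ := mem_sdiff.1 (hP hx)
    refine mem_coe.2 (mem_sdiff.2 ⟨mem_image_of_mem _ (mem_filter.2 ⟨hx2, hx1⟩), fun hh => ?_⟩)
    obtain ⟨x', hx', e⟩ := mem_image.1 hh
    obtain ⟨hx', hx4⟩ := mem_filter.1 hx'
    exact k3 ⟨x', Or.inl hx', x, Or.inr hx, fun e' => hx3 (e' ▸ hx'), hx4, hx1, e⟩
  · obtain ⟨hx, hx1⟩ := mem_filter.1 (mem_coe.1 hx)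
    obtain ⟨hx', hx2⟩ := mem_filter.1 (mem_coe.1 hx')
    by_contra hne
    exact k3 ⟨x, Or.inr hx, x', Or.inr hx', hne, hx1, hx2, e⟩

theorem card_prod_good {β : Type} (s : Finset ℕ) (t : Finset β) (p : ℕ × β → Prop)
    [DecidablePred p] : #((s ×ˢ t).filter p) = ∑ a ∈ s, #(t.filter fun b => p (a, b)) := by
  simp only [card_filter, sum_product]

theorem good_seeds {B Q L μ D r : ℕ} (hQ : Q.Prime) (hL : L ≤ B) (hμ : 1 ≤ μ) (hD : 1 ≤ D)
    (hr : 4 * (32 * μ * D) ^ 2 * L * μ ≤ r) (hQ1 : μ ^ 3 * r * D ≤ Q) (hQ2 : Q ≤ 2 * (μ ^ 3 * r * D))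
    (X P : Finset ℕ) (hX : ∀ x ∈ X, x < 2 ^ L) (hP : ∀ x ∈ P, x < 2 ^ L) (hXc : #X ≤ 32 * μ * D)
    (hPc : 4 * μ * D ≤ #(P \ X)) :
    μ * #((range Q ×ˢ range Q ×ˢ range Q).filter fun p =>
      ¬ (#(buckets B Q L (μ ^ 3 * r) (μ ^ 3) p.1 p.2.1 p.2.2 X) ≤ 64 * μ ∧
        μ ≤ #(buckets B Q L (μ ^ 3 * r) (μ ^ 3) p.1 p.2.1 p.2.2 P \
          buckets B Q L (μ ^ 3 * r) (μ ^ 3) p.1 p.2.1 p.2.2 X))) ≤ 4200 * Q ^ 3 := by
  obtain ⟨P₀, hP0, hP1⟩ := exists_subset_card_eq hPc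
  obtain ⟨S, hS⟩ : ∃ S, S = X ∪ P₀ := ⟨_, rfl⟩
  have hS1 : ∀ x ∈ S, x < 2 ^ L := fun x hx => by
    rcases mem_union.1 (hS ▸ hx) with h | h
    · exact hX x h
    · exact hP x (mem_sdiff.1 (hP0 h)).1
  have hS2 : #S ≤ 36 * μ * D := hS ▸ (card_union_le _ _).trans (by linarith)
  obtain ⟨Bad, hBad⟩ : ∃ Bad, Bad = S.offDiag.biUnion fun z =>
    (range Q).filter fun α => rs B L α z.1 % Q = rs B L α z.2 % Q := ⟨_, rfl⟩
  have hB1 : #Bad ≤ #S ^ 2 * L := by
    rw [hBad]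
    refine (card_biUnion_le_card_mul _ _ L fun z hz => ?_).trans (Nat.mul_le_mul_right _ ?_)
    · obtain ⟨h1, h2, h3⟩ := mem_offDiag.1 hz
      exact rs_coll hQ hL (hS1 _ h1) (hS1 _ h2) h3
    · rw [offDiag_card, sq]
      exact Nat.sub_le _ _
  have hB2 : μ * #Bad ≤ Q :=
    calc _ ≤ μ * ((36 * μ * D) ^ 2 * L) := by
          refine Nat.mul_le_mul_left _ (hB1.trans ?_)
          gcongr
      _ = 1296 * ((μ * D) ^ 2 * L * μ) := by ring
      _ ≤ 4096 * ((μ * D) ^ 2 * L * μ) := Nat.mul_le_mul_right _ (by norm_num)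
      _ = 4 * (32 * μ * D) ^ 2 * L * μ := by ring
      _ ≤ r := hr
      _ ≤ μ ^ 3 * r := Nat.le_mul_of_pos_left _ (by positivity)
      _ ≤ μ ^ 3 * r * D := Nat.le_mul_of_pos_right _ hD
      _ ≤ Q := hQ1
  rw [card_prod_good, mul_sum]
  calc _ ≤ ∑ α ∈ range Q, ((if α ∈ Bad then μ * Q ^ 2 else 0) + 1301 * Q ^ 2) := by
        refine sum_le_sum fun α hα => ?_
        by_cases h : α ∈ Bad
        · rw [if_pos h]
          refine le_add_right (Nat.mul_le_mul_left _ ((card_filter_le _ _).trans ?_))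
          rw [card_product, card_range, sq]
        · rw [if_neg h, zero_add]
          refine alpha_good hQ hμ hD hQ1 hQ2 X P P₀ hXc hP0 hP1 fun x hx x' hx' hne e => h ?_
          rw [hBad]
          exact mem_biUnion.2 ⟨(x, x'), mem_offDiag.2 ⟨hS ▸ hx, hS ▸ hx', hne⟩,
            mem_filter.2 ⟨hα, e⟩⟩
    _ ≤ #Bad * (μ * Q ^ 2) + Q * (1301 * Q ^ 2) := by
        rw [sum_add_distrib, sum_ite_mem, sum_const, sum_const, card_range, smul_eq_mul,
          smul_eq_mul]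
        exact Nat.add_le_add_right (Nat.mul_le_mul_right _ (card_le_card inter_subset_right)) _
    _ = μ * #Bad * Q ^ 2 + 1301 * Q ^ 3 := by ring
    _ ≤ Q * Q ^ 2 + 1301 * Q ^ 3 := by gcongr
    _ = 1302 * Q ^ 3 := by ring
    _ ≤ _ := Nat.mul_le_mul_right _ (by norm_num)

end Pool.Agent.P.MP_c2d640_lc

set_option autoImplicit false
set_option linter.unusedSectionVars false

/-! One block of the explicit family. -/

namespace Pool.Agent.P.MP_c2d640_lc

open Finset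
open scoped Classical

theorem card_prod4_block (A R : Finset ℕ) (q : ℕ × ℕ × ℕ × ℕ → Prop) [DecidablePred q] :
    #((A ×ˢ A ×ˢ A ×ˢ R).filter q) =
      ∑ t ∈ A ×ˢ A ×ˢ A, #(R.filter fun i => q (t.1, t.2.1, t.2.2, i)) := by
  simp only [card_filter, sum_product]

theorem sel_iff_block {B Q φ L W m s : ℕ} (hm : 0 < m) (hsB : s * m ≤ B) (G : ℕ → Finset ℕ)
    (hφ : ∀ p < s * m, φ / 2 ^ p % 2 = if p % m ∈ G (p / m) then 1 else 0) (α a b : ℕ) {i : ℕ}
    (hi : i < s) (Y : Finset ℕ) :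
    (∀ x ∈ Y, sel B Q φ L W m α a b i x = false) ↔
      Disjoint (G i) (buckets B Q L W m α a b Y) := by
  have key : ∀ h : ℕ, dig B 2 φ (i * m + h % m) = 1 ↔ h % m ∈ G i := by
    intro h
    have h1 : h % m < m := Nat.mod_lt _ hm
    have h2 : i * m + h % m < s * m := by
      have : (i + 1) * m ≤ s * m := Nat.mul_le_mul_right m hi
      rw [add_mul, one_mul] at this
      omega
    have h3 : (i * m + h % m) % m = h % m := by
      rw [Nat.mul_add_mod_self_right, Nat.mod_mod]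
    have h4 : (i * m + h % m) / m = i := by
      rw [add_comm, Nat.add_mul_div_right _ _ hm, Nat.div_eq_of_lt h1, zero_add]
    unfold dig
    rw [min_eq_left (h2.le.trans hsB), hφ _ h2, h3, h4]
    split_ifs with hh
    · exact ⟨fun _ => hh, fun _ => rfl⟩
    · exact ⟨fun k => absurd k (by decide), fun k => absurd k hh⟩
  unfold sel buckets
  rw [disjoint_right]
  simp only [decide_eq_false_iff_not, key, mem_image, mem_filter]
  constructor
  · rintro h c ⟨x, ⟨hx, hw⟩, rfl⟩ hc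
    exact h x hx ⟨hw, hc⟩
  · rintro h x hx ⟨hw, hc⟩
    exact h ⟨x, ⟨hx, hw⟩, rfl⟩ hc

theorem count_block {τ : Type} (T : Finset τ) (good : τ → Prop) [DecidablePred good]
    (c1 c2 : τ → ℕ) {u s : ℕ} (hu : 2 ≤ u) (hs : 0 < s) (hT : 0 < #T)
    (hbad : u ^ 128 * #(T.filter fun t => ¬ good t) ≤ 4200 * #T)
    (h1 : ∀ t ∈ T, good t → u * c2 t ≤ 2 * c1 t ∧ s ≤ 4 * u ^ 64 * c1 t)
    (h2 : ∀ t ∈ T, c2 t ≤ s) :
    0 < ∑ t ∈ T, c1 t ∧ u * ∑ t ∈ T, c2 t ≤ 3 * ∑ t ∈ T, c1 t := by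
  have e0 := card_filter_add_card_filter_not (s := T) good
  have e1 := sum_filter_add_sum_filter_not T good c1
  have e2 := sum_filter_add_sum_filter_not T good c2
  have k1 : u * ∑ t ∈ T.filter good, c2 t ≤ 2 * ∑ t ∈ T.filter good, c1 t := by
    rw [mul_sum, mul_sum]
    exact sum_le_sum fun t ht => (h1 t (mem_filter.1 ht).1 (mem_filter.1 ht).2).1
  have k2 : #(T.filter good) * s ≤ 4 * u ^ 64 * ∑ t ∈ T.filter good, c1 t := by
    rw [mul_sum, ← smul_eq_mul, ← sum_const]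
    exact sum_le_sum fun t ht => (h1 t (mem_filter.1 ht).1 (mem_filter.1 ht).2).2
  have k3 : ∑ t ∈ T.filter (fun t => ¬ good t), c2 t ≤ #(T.filter fun t => ¬ good t) * s := by
    rw [← smul_eq_mul]
    exact sum_le_card_nsmul _ _ _ fun t ht => h2 t (mem_filter.1 ht).1
  generalize #(T.filter good) = g at *
  generalize #(T.filter fun t => ¬ good t) = bd at *
  generalize ∑ t ∈ T.filter good, c1 t = x1 at *
  generalize ∑ t ∈ T.filter good, c2 t = x2 at *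
  generalize ∑ t ∈ T.filter (fun t => ¬ good t), c1 t = y1 at *
  generalize ∑ t ∈ T.filter (fun t => ¬ good t), c2 t = y2 at *
  rw [← e1, ← e2]
  rw [← e0] at hbad hT
  have p1 : 2 ^ 63 ≤ u ^ 63 := Nat.pow_le_pow_left hu 63
  have p2 : 0 < u ^ 64 := by positivity
  have p3 : u ^ 128 = u ^ 63 * (u * u ^ 64) := by ring
  rw [p3] at hbad
  generalize u ^ 63 = a at *
  generalize u ^ 64 = v at *
  have p4 : 1 ≤ u * v := Nat.mul_pos (by omega) p2
  have p5 : 4200 * (4 * (u * v)) + 4200 ≤ a * (u * v) := by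
    have := Nat.mul_le_mul_right (u * v) p1
    omega
  have p6 : 4 * (u * v) * bd ≤ g := by
    have := Nat.mul_le_mul_right bd p5
    rw [add_mul, mul_assoc 4200] at this
    omega
  have p7 : bd ≤ g := by
    have := Nat.mul_le_mul_right bd p4
    rw [mul_assoc 4] at p6
    omega
  have p8 : u * (bd * s) ≤ x1 := by
    have h3 : 4 * v * (u * (bd * s)) ≤ 4 * v * x1 := by
      calc 4 * v * (u * (bd * s)) = 4 * (u * v) * bd * s := by ring
        _ ≤ g * s := Nat.mul_le_mul_right s p6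
        _ ≤ _ := k2
    exact Nat.le_of_mul_le_mul_left h3 (by omega)
  have p9 : 0 < x1 := by
    rcases Nat.eq_zero_or_pos x1 with h | h
    · rw [h, mul_zero] at k2
      have : 0 < g * s := Nat.mul_pos (by omega) hs
      omega
    · exact h
  have p10 := Nat.mul_le_mul_left u k3
  rw [mul_add]
  omega

/-- One block: among the seeds avoiding `X` only a small fraction avoids `P`. -/
theorem block_seeds {B Q L u D r s : ℕ} (hQ : Q.Prime) (hL : L ≤ B) (hu : 2 ≤ u) (hD : 1 ≤ D)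
    (hr : 4 * (32 * u ^ 128 * D) ^ 2 * L * u ^ 128 ≤ r) (hQ1 : (u ^ 128) ^ 3 * r * D ≤ Q)
    (hQ2 : Q ≤ 2 * ((u ^ 128) ^ 3 * r * D)) (hs : 32 * u ^ 130 * (u ^ 128) ^ 3 ≤ s)
    (hsB : s * (u ^ 128) ^ 3 ≤ B) : ∃ φ < 2 ^ (s * (u ^ 128) ^ 3), ∀ X P : Finset ℕ,
      (∀ x ∈ X, x < 2 ^ L) → (∀ x ∈ P, x < 2 ^ L) → #X ≤ 32 * u ^ 128 * D →
      4 * u ^ 128 * D ≤ #(P \ X) → ∀ S : Finset (ℕ × ℕ × ℕ × ℕ),
      S = (range Q ×ˢ range Q ×ˢ range Q ×ˢ range s).filter (fun p => ∀ x ∈ X,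
        sel B Q φ L ((u ^ 128) ^ 3 * r) ((u ^ 128) ^ 3) p.1 p.2.1 p.2.2.1 p.2.2.2 x = false) →
      S.Nonempty ∧ u * #(S.filter fun p => ∀ x ∈ P,
        sel B Q φ L ((u ^ 128) ^ 3 * r) ((u ^ 128) ^ 3) p.1 p.2.1 p.2.2.1 p.2.2.2 x = false) ≤
          3 * #S := by
  have hμ : 1 ≤ u ^ 128 := Nat.one_le_pow _ _ (by omega)
  have hm : 1 ≤ (u ^ 128) ^ 3 := Nat.one_le_pow _ _ hμ
  have hs0 : 0 < s := lt_of_lt_of_le (by positivity) hs
  obtain ⟨G, hG⟩ := inner_family hu hμ hm hs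
  obtain ⟨φ, hφ1, hφ⟩ := exists_digits 2 (s * (u ^ 128) ^ 3)
    (fun p => if p % (u ^ 128) ^ 3 ∈ G (p / (u ^ 128) ^ 3) then 1 else 0) fun p _ => by
      split_ifs <;> omega
  refine ⟨φ, hφ1, fun X P hX hP hXc hPc S hS => ?_⟩
  have hgs := good_seeds (B := B) hQ hL hμ hD hr hQ1 hQ2 X P hX hP hXc hPc
  generalize hμe : u ^ 128 = μ at *
  generalize μ ^ 3 * r = W at *
  generalize μ ^ 3 = m at *
  have hb : ∀ α a b Y, buckets B Q L W m α a b Y ⊆ range m := by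
    intro α a b Y c hc
    obtain ⟨x, -, rfl⟩ := mem_image.1 hc
    exact mem_range.2 (Nat.mod_lt _ hm)
  have hT : #(range Q ×ˢ range Q ×ˢ range Q) = Q ^ 3 := by
    rw [card_product, card_product, card_range]
    ring
  have e1 : #S = ∑ t ∈ range Q ×ˢ range Q ×ˢ range Q,
      #((range s).filter fun i => Disjoint (G i) (buckets B Q L W m t.1 t.2.1 t.2.2 X)) := by
    rw [hS, card_prod4_block]
    refine sum_congr rfl fun t _ => congrArg card (filter_congr fun i hi => ?_)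
    exact sel_iff_block hm hsB G hφ _ _ _ (mem_range.1 hi) X
  have e2 : #(S.filter fun p => ∀ x ∈ P,
      sel B Q φ L W m p.1 p.2.1 p.2.2.1 p.2.2.2 x = false) =
      ∑ t ∈ range Q ×ˢ range Q ×ˢ range Q,
        #((range s).filter fun i => Disjoint (G i) (buckets B Q L W m t.1 t.2.1 t.2.2 X) ∧
          Disjoint (G i) (buckets B Q L W m t.1 t.2.1 t.2.2 P)) := by
    rw [hS, filter_filter, card_prod4_block]
    refine sum_congr rfl fun t _ => congrArg card (filter_congr fun i hi => ?_)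
    exact and_congr (sel_iff_block hm hsB G hφ _ _ _ (mem_range.1 hi) X)
      (sel_iff_block hm hsB G hφ _ _ _ (mem_range.1 hi) P)
  rw [← hT, ← hμe] at hgs
  rw [← card_pos, e2, e1]
  refine count_block _ _ _ _ hu hs0 (by rw [hT]; exact pow_pos hQ.pos 3) hgs
    (fun t _ ht => ?_) fun t _ => ?_
  · rw [hμe] at ht
    exact hG _ (hb _ _ _ _) _ (hb _ _ _ _) ht.1 ht.2
  · exact (card_filter_le _ _).trans (card_range s).le

end Pool.Agent.P.MP_c2d640_lc

set_option autoImplicit false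
set_option linter.unusedSectionVars false

/-! The explicit family that avoids and hits. -/

namespace Pool.Agent.P.MP_c2d640_lc

open Finset Pool.Agent.P.MP_eb0bd2_lc
open scoped Classical

/-- Every element is replaced by `b` copies. -/
def infl_ha {n : ℕ} (b : ℕ) (Y : Finset (Fin n)) : Finset ℕ :=
  (Y ×ˢ range b).image fun p => p.1.val * b + p.2

theorem mem_infl_ha {n b : ℕ} {Y : Finset (Fin n)} {x : ℕ} :
    x ∈ infl_ha b Y ↔ ∃ e ∈ Y, ∃ c < b, e.val * b + c = x := by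
  simp only [infl_ha, mem_image, mem_product, mem_range, Prod.exists]
  exact ⟨fun ⟨e, c, h, hx⟩ => ⟨e, h.1, c, h.2, hx⟩, fun ⟨e, h, c, h', hx⟩ => ⟨e, c, ⟨h, h'⟩, hx⟩⟩

theorem inj_ha {b e e' c c' : ℕ} (hc : c < b) (hc' : c' < b) (h : e * b + c = e' * b + c') :
    e = e' ∧ c = c' := by
  have hb : 0 < b := by omega
  have h1 : (e * b + c) / b = e := by
    rw [mul_comm, Nat.mul_add_div hb, Nat.div_eq_of_lt hc, add_zero]
  have h2 : (e' * b + c') / b = e' := by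
    rw [mul_comm, Nat.mul_add_div hb, Nat.div_eq_of_lt hc', add_zero]
  have h3 : e = e' := by rw [← h1, h, h2]
  subst h3
  exact ⟨rfl, by omega⟩

theorem card_infl_ha {n : ℕ} (b : ℕ) (Y : Finset (Fin n)) : #(infl_ha b Y) = #Y * b := by
  rw [infl_ha, card_image_of_injOn, card_product, card_range]
  rintro ⟨e, c⟩ h ⟨e', c'⟩ h' hh
  have h1 := mem_range.1 (mem_product.1 (mem_coe.1 h)).2
  have h2 := mem_range.1 (mem_product.1 (mem_coe.1 h')).2
  obtain ⟨a1, a2⟩ := inj_ha h1 h2 hh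
  exact Prod.ext (Fin.ext a1) a2

theorem lt_infl_ha {n b : ℕ} {Y : Finset (Fin n)} {x : ℕ} (h : x ∈ infl_ha b Y) : x < n * b := by
  obtain ⟨e, -, c, hc, rfl⟩ := mem_infl_ha.1 h
  calc e.val * b + c < e.val * b + b := by omega
    _ = (e.val + 1) * b := by ring
    _ ≤ n * b := Nat.mul_le_mul_right _ e.isLt

theorem sdiff_infl_ha {n b : ℕ} (P X : Finset (Fin n)) :
    infl_ha b (P \ X) ⊆ infl_ha b P \ infl_ha b X := by
  intro x hx
  obtain ⟨e, he, c, hc, rfl⟩ := mem_infl_ha.1 hx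
  rw [mem_sdiff] at he ⊢
  refine ⟨mem_infl_ha.2 ⟨e, he.1, c, hc, rfl⟩, fun h => ?_⟩
  obtain ⟨e', he', c', hc', hh⟩ := mem_infl_ha.1 h
  have : e' = e := Fin.ext (inj_ha hc' hc hh).1
  exact he.2 (this ▸ he')

theorem mem_blockSet_ha {B n Q φ x L W m β t b e : ℕ} (ht : t ≤ B) (hb : b ≤ B) :
    e ∈ blockSet B (List.range n) Q φ x L W m β t b ↔ e < n ∧ ∃ j < t, ∃ c < b,
      sel B Q φ L W m (dig B β x (4 * j)) (dig B β x (4 * j + 1)) (dig B β x (4 * j + 2))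
        (dig B β x (4 * j + 3)) (e * b + c) = true := by
  simp [blockSet, min_eq_left ht, min_eq_left hb]

theorem ha_core {B L u D r s β t n d b M : ℕ} (hu : 2 ≤ u) (hD : 1 ≤ D) (hL : 1 ≤ L)
    (hr : 4 * (32 * u ^ 128 * D) ^ 2 * L * u ^ 128 ≤ r)
    (hs : 32 * u ^ 130 * (u ^ 128) ^ 3 ≤ s) (hβ1 : 2 * ((u ^ 128) ^ 3 * r * D) ≤ β) (hβ2 : s ≤ β)
    (hβ3 : L ≤ β) (hβ4 : b ≤ β) (ht : 3 ^ t * M < u ^ t) (ht1 : 1 ≤ t) (hB1 : β ^ (4 * t) ≤ B)
    (hB2 : 2 ^ (s * (u ^ 128) ^ 3) ≤ B) (hdb : d * b = 32 * u ^ 128 * D) (hn : n * b ≤ 2 ^ L) :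
    HA n (fam (List.range n) B) d M := by
  intro X 𝒬 hX h𝒬 hP
  rcases 𝒬.eq_empty_or_nonempty with rfl | ⟨P₀, hP₀⟩
  · refine ⟨_, List.mem_map.2 ⟨[], mem_tuples.2 ⟨by simp, by simp⟩, rfl⟩, ?_, by simp⟩
    rw [disjoint_left]
    intro e he
    simp [blockSet] at he
  have hu0 : 0 < u := by omega
  have hμ : 0 < u ^ 128 := pow_pos hu0 _
  have hr0 : 0 < r := lt_of_lt_of_le (by positivity) hr
  have hm : 0 < (u ^ 128) ^ 3 := pow_pos hμ _
  have hQ0 : 0 < (u ^ 128) ^ 3 * r * D := by positivity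
  obtain ⟨Q, hQ, hQ1, hQ2⟩ := Nat.exists_prime_lt_and_le_two_mul _ hQ0.ne'
  have hβ : 2 ≤ β := by omega
  have hβB : β < B := by
    refine lt_of_lt_of_le ?_ hB1
    calc β = β ^ 1 := (pow_one β).symm
      _ < β ^ (4 * t) := Nat.pow_lt_pow_right (by omega) (by omega)
  have htB : 4 * t < B :=
    lt_of_lt_of_le Nat.lt_two_pow_self ((Nat.pow_le_pow_left hβ _).trans hB1)
  have hsB : s * (u ^ 128) ^ 3 ≤ B := (Nat.lt_two_pow_self.le).trans hB2
  have hW : (u ^ 128) ^ 3 * r ≤ (u ^ 128) ^ 3 * r * D := Nat.le_mul_of_pos_right _ hD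
  have hmW : (u ^ 128) ^ 3 ≤ (u ^ 128) ^ 3 * r := Nat.le_mul_of_pos_right _ hr0
  obtain ⟨φ, hφ, hblock⟩ := block_seeds (B := B) hQ (show L ≤ B by omega) hu hD hr hQ1.le hQ2 hs hsB
  generalize (u ^ 128) ^ 3 = m at *
  have hX' : #(infl_ha b X) ≤ 32 * u ^ 128 * D := by
    rw [card_infl_ha, ← hdb]
    exact Nat.mul_le_mul_right _ hX
  have hP' : ∀ P ∈ 𝒬, 4 * u ^ 128 * D ≤ #(infl_ha b P \ infl_ha b X) := by
    intro P h
    refine le_trans ?_ (card_le_card (sdiff_infl_ha P X))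
    rw [card_infl_ha]
    have h1 := Nat.mul_le_mul_right b (hP P h)
    rw [hdb] at h1
    nlinarith
  have hlt : ∀ Y : Finset (Fin n), ∀ x ∈ infl_ha b Y, x < 2 ^ L := fun Y x h =>
    lt_of_lt_of_le (lt_infl_ha h) hn
  obtain ⟨S, hS⟩ : ∃ S : Finset (ℕ × ℕ × ℕ × ℕ),
      S = (range Q ×ˢ range Q ×ˢ range Q ×ˢ range s).filter (fun p => ∀ x ∈ infl_ha b X,
        sel B Q φ L (m * r) m p.1 p.2.1 p.2.2.1 p.2.2.2 x = false) := ⟨_, rfl⟩
  have hb := fun P (h : P ∈ 𝒬) =>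
    hblock (infl_ha b X) (infl_ha b P) (hlt X) (hlt P) hX' (hP' P h) S hS
  obtain ⟨y, hyS, hy⟩ := greedy_seeds S (hb P₀ hP₀).1
    (fun (p : ℕ × ℕ × ℕ × ℕ) (P : Finset (Fin n)) => ∀ x ∈ infl_ha b P,
      sel B Q φ L (m * r) m p.1 p.2.1 p.2.2.1 p.2.2.2 x = false) 𝒬 u t
    (fun P h => le_trans (Nat.mul_le_mul_left _ (card_le_card fun p hp => by
      simpa only [mem_filter] using hp)) (hb P h).2)
    (lt_of_le_of_lt (Nat.mul_le_mul_left _ h𝒬) ht)
  have hyS' : ∀ j, ((y j).1 < Q ∧ (y j).2.1 < Q ∧ (y j).2.2.1 < Q ∧ (y j).2.2.2 < s) ∧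
      ∀ x ∈ infl_ha b X,
        sel B Q φ L (m * r) m (y j).1 (y j).2.1 (y j).2.2.1 (y j).2.2.2 x = false := by
    intro j
    have h := hyS j
    rw [hS, mem_filter] at h
    simpa only [mem_product, mem_range] using h
  obtain ⟨x, hx, hdig⟩ := exists_digits β (4 * t) (fun p => if p % 4 = 0 then (y (p / 4)).1
      else if p % 4 = 1 then (y (p / 4)).2.1 else if p % 4 = 2 then (y (p / 4)).2.2.1
      else (y (p / 4)).2.2.2) fun p _ => by
    obtain ⟨⟨a1, a2, a3, a4⟩, -⟩ := hyS' (p / 4)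
    split_ifs <;> omega
  have hd : ∀ j < t, dig B β x (4 * j) = (y j).1 ∧ dig B β x (4 * j + 1) = (y j).2.1 ∧
      dig B β x (4 * j + 2) = (y j).2.2.1 ∧ dig B β x (4 * j + 3) = (y j).2.2.2 := by
    intro j hj
    refine ⟨?_, ?_, ?_, ?_⟩
    · rw [dig, min_eq_left (by omega), hdig _ (by omega), if_pos (by omega),
        show 4 * j / 4 = j by omega]
    · rw [dig, min_eq_left (by omega), hdig _ (by omega), if_neg (by omega), if_pos (by omega),
        show (4 * j + 1) / 4 = j by omega]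
    · rw [dig, min_eq_left (by omega), hdig _ (by omega), if_neg (by omega), if_neg (by omega),
        if_pos (by omega), show (4 * j + 2) / 4 = j by omega]
    · rw [dig, min_eq_left (by omega), hdig _ (by omega), if_neg (by omega), if_neg (by omega),
        if_neg (by omega), show (4 * j + 3) / 4 = j by omega]
  refine ⟨blockSet B (List.range n) Q φ x L (m * r) m β t b,
    List.mem_map.2 ⟨[Q, φ, x, L, m * r, m, β, t, b], mem_tuples.2 ⟨by simp, ?_⟩, rfl⟩, ?_,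
    fun P h => ?_⟩
  · intro a ha
    rw [List.mem_range]
    simp only [List.mem_cons, List.not_mem_nil, or_false] at ha
    omega
  · rw [disjoint_left]
    intro e he heX
    obtain ⟨-, j, hj, c, hc, hsel⟩ := (mem_blockSet_ha (by omega) (by omega)).1 (mem_fs.1 he)
    obtain ⟨a1, a2, a3, a4⟩ := hd j hj
    rw [a1, a2, a3, a4, (hyS' j).2 _ (mem_infl_ha.2 ⟨e, heX, c, hc, rfl⟩)] at hsel
    exact Bool.false_ne_true hsel
  · obtain ⟨j, hj, hmiss⟩ := hy P h
    intro hdis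
    refine hmiss fun z hz => ?_
    obtain ⟨e, he, c, hc, rfl⟩ := mem_infl_ha.1 hz
    by_contra hsel
    obtain ⟨a1, a2, a3, a4⟩ := hd j hj
    refine disjoint_left.1 hdis (mem_fs.2 ((mem_blockSet_ha (by omega) (by omega)).2
      ⟨e.isLt, j, hj, c, hc, ?_⟩)) he
    rw [a1, a2, a3, a4]
    simpa using hsel

end Pool.Agent.P.MP_c2d640_lc

set_option autoImplicit false
set_option linter.unusedSectionVars false

/-! Parameters for the explicit family. -/

namespace Pool.Agent.P.MP_c2d640_lc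

open Finset
open scoped Classical

theorem ha_params (K w : ℕ) (hw : 9 ≤ w) : ∃ C, ∀ k, 4 ≤ k → ∀ ℓ, ℓ = 2 ^ (128 * k * w) →
    ∀ n ≤ 2 ^ ℓ, ∀ B, 2 ^ (C * ℓ) ≤ B → ∀ j ≤ 128 * k * w,
      HA n (fam (List.range n) B) (4 * 4 ^ j) (2 ^ (K * ℓ)) := by
  refine ⟨4096 * w * (2 * K + 1), fun k hk ℓ hℓ n hn B hB j hj => ?_⟩
  obtain ⟨J, hJ⟩ : ∃ J, J = 128 * k * w := ⟨_, rfl⟩
  rw [← hJ] at hℓ hj
  have hJk : 1152 * k ≤ J := by rw [hJ]; nlinarith
  obtain ⟨e, he⟩ : ∃ e, 2 * J = e + 128 * k + 3 := ⟨2 * J - 128 * k - 3, by omega⟩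
  obtain ⟨i, hi⟩ : ∃ i, J = j + i := ⟨J - j, by omega⟩
  have hp : ∀ {a c : ℕ}, a ≤ c → 2 ^ a ≤ 2 ^ c := fun h => Nat.pow_le_pow_right (by norm_num) h
  have hJl : 2 * J ≤ ℓ := by
    obtain ⟨y, hy⟩ : ∃ y, J = y + 1 := ⟨J - 1, by omega⟩
    have : y < 2 ^ y := Nat.lt_two_pow_self
    rw [hℓ, hy, pow_succ]
    omega
  obtain ⟨t, ht⟩ : ∃ t, t = 2 * (K * ℓ) / k + 1 := ⟨_, rfl⟩
  have hk0 : 0 < k := by omega
  have ht1 : 1 ≤ t := by rw [ht]; exact Nat.le_add_left _ _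
  have ht2 : 2 * (K * ℓ) < k * t := by rw [ht]; exact Nat.lt_mul_div_succ _ hk0
  have ht3 : k * t ≤ 2 * (K * ℓ) + k := by
    rw [ht, mul_add, mul_one]
    exact Nat.add_le_add_right (Nat.mul_div_le _ _) _
  have h32 : (32 : ℕ) = 2 ^ 5 := by norm_num
  have h4 : (4 : ℕ) = 2 ^ 2 := by norm_num
  have e1 : 32 * (2 ^ k) ^ 128 * 2 ^ e = 2 ^ (2 * J + 2) := by
    rw [h32, ← pow_mul, ← pow_add, ← pow_add]
    congr 1
    omega
  refine ha_core (L := 2 * ℓ) (u := 2 ^ k) (D := 2 ^ e) (r := 2 ^ (5 * J + 128 * k + 7))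
    (s := 2 ^ (514 * k + 5)) (β := 2 ^ (8 * J)) (t := t) (b := 2 ^ (2 * i))
    (hp (a := 1) (by omega)) Nat.one_le_two_pow (by omega) ?_ ?_ ?_ (hp (by omega)) ?_
    (hp (by omega)) ?_ ht1 ?_ ?_ ?_ ?_
  · rw [e1, hℓ, h4, ← pow_succ', ← pow_mul, ← pow_mul, ← pow_add, ← pow_add, ← pow_add]
    exact hp (by omega)
  · rw [h32, ← pow_mul, ← pow_mul, ← pow_mul, ← pow_add, ← pow_add]
    exact hp (by omega)
  · rw [← pow_mul, ← pow_mul, ← pow_add, ← pow_add, ← pow_succ']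
    exact hp (by omega)
  · rw [hℓ, ← pow_succ']
    exact hp (by omega)
  · have h1 : 3 ^ t < 4 ^ t := Nat.pow_lt_pow_left (by norm_num) (by omega)
    have h2 : 2 * t + K * ℓ ≤ k * t := by nlinarith
    calc 3 ^ t * 2 ^ (K * ℓ) < 4 ^ t * 2 ^ (K * ℓ) :=
          Nat.mul_lt_mul_of_pos_right h1 (by positivity)
      _ = 2 ^ (2 * t + K * ℓ) := by rw [h4, ← pow_mul, ← pow_add]
      _ ≤ 2 ^ (k * t) := hp h2
      _ = (2 ^ k) ^ t := pow_mul _ _ _
  · rw [← pow_mul]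
    refine (hp ?_).trans hB
    have h1 : k * t ≤ (2 * K + 1) * ℓ := by nlinarith
    calc 8 * J * (4 * t) = 4096 * w * (k * t) := by rw [hJ]; ring
      _ ≤ 4096 * w * ((2 * K + 1) * ℓ) := Nat.mul_le_mul_left _ h1
      _ = 4096 * w * (2 * K + 1) * ℓ := by ring
  · refine (hp ?_).trans hB
    have h1 : 2 ^ (514 * k + 5) * ((2 ^ k) ^ 128) ^ 3 ≤ ℓ := by
      rw [hℓ, ← pow_mul, ← pow_mul, ← pow_add]
      exact hp (by omega)
    exact h1.trans (Nat.le_mul_of_pos_left _ (by positivity))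
  · rw [e1, h4, ← pow_mul, ← pow_add, ← pow_add]
    congr 1
    omega
  · calc n * 2 ^ (2 * i) ≤ 2 ^ ℓ * 2 ^ ℓ := Nat.mul_le_mul hn (hp (by omega))
      _ = 2 ^ (2 * ℓ) := by rw [← pow_add, two_mul]

end Pool.Agent.P.MP_c2d640_lc
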