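import Pool.Agent.P.MP_c2d640_lc.G4
import Pool.Agent.P.MP_c2d640_lc.G6

set_option autoImplicit false
set_option linter.unusedSectionVars false

/-! Greedy packing of cobases on an arbitrary ground set. -/

namespace Pool.Agent.P.MP_c2d640_lc

open Finset Submodule Pool.Agent.P.MP_eb0bd2_lc
open scoped Classical

variable {F : Type} [Field F] {m n : ℕ}

variable {A : List (List F)} {w : Fin n → Fin m → F} {N : List ℕ}

section general

variable {V : Type} [AddCommGroup V] [Module F V] {R : List ℕ} {v : ℕ → V}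

theorem level_bases (h : SpanOK R A v) {d c : ℕ}
    (hd : ∀ S B : Finset ℕ, S ⊆ N.toFinset → B ⊆ S → LinearIndepOn F v B →
      (∀ e ∈ S, v e ∈ span F (v '' B)) → d * #(S \ B) ≤ c * #S)
    (Bs : List (List ℕ)) {j : ℕ} (hj : j ≤ Bs.length + 1) :
    d * #((N.toFinset.filter fun e => e ∉ nextBasis R N A Bs).filter
      fun e => j ≤ load Bs e) ≤ c * #(N.toFinset.filter fun e => j ≤ load Bs e) := by
  obtain ⟨l₁, l₂, e1, e2, -⟩ := order_split N Bs hj
  obtain ⟨b1, -, b3, b4⟩ := foldl_gstep h l₁ [] (by simp)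
  obtain ⟨-, c2, -, -⟩ := foldl_gstep h l₂ _ b1
  refine le_trans (Nat.mul_le_mul_left _ (card_le_card fun e he => ?_))
    (hd _ (l₁.foldl (gstep R A) []).toFinset (filter_subset _ _) (fun e he => ?_)
      (by simpa using b1) fun e he => ?_)
  · simp only [mem_filter, mem_sdiff, List.mem_toFinset, mem_nextBasis h] at he ⊢
    refine ⟨⟨he.1.1, he.2⟩, fun h' => he.1.2 ?_⟩
    rw [greedy, e1, List.foldl_append]
    exact c2 e h'
  · rcases b3 e (List.mem_toFinset.1 he) with h | h
    · simp at h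
    · simpa using (e2 e).1 h
  · simpa using b4 e ((e2 e).2 (by simpa using he))

theorem step_bases (h : SpanOK R A v) {d c : ℕ}
    (hd : ∀ S B : Finset ℕ, S ⊆ N.toFinset → B ⊆ S → LinearIndepOn F v B →
      (∀ e ∈ S, v e ∈ span F (v '' B)) → d * #(S \ B) ≤ c * #S) (Bs : List (List ℕ)) :
    d * ∑ e ∈ N.toFinset, 2 ^ load (nextBasis R N A Bs :: Bs) e ≤
      (d + c) * ∑ e ∈ N.toFinset, 2 ^ load Bs e := by
  have e1 : ∑ e ∈ N.toFinset, 2 ^ load (nextBasis R N A Bs :: Bs) e =
      ∑ e ∈ N.toFinset, 2 ^ load Bs e +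
      ∑ e ∈ N.toFinset.filter fun e => e ∉ nextBasis R N A Bs, 2 ^ load Bs e := by
    rw [sum_filter, ← sum_add_distrib]
    refine sum_congr rfl fun e _ => ?_
    by_cases he : e ∈ nextBasis R N A Bs
    · simp [load, he]
    · simp [load, he, pow_succ, mul_two]
  rw [e1, mul_add, add_mul]
  refine Nat.add_le_add_left ?_ _
  rw [layer, layer, mul_sum, mul_sum]
  refine sum_le_sum fun j hj => ?_
  rw [mul_left_comm, mul_left_comm c]
  exact Nat.mul_le_mul_left _ (level_bases h hd Bs (mem_range.1 hj).le)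

theorem potential_bases (h : SpanOK R A v) {d c : ℕ}
    (hd : ∀ S B : Finset ℕ, S ⊆ N.toFinset → B ⊆ S → LinearIndepOn F v B →
      (∀ e ∈ S, v e ∈ span F (v '' B)) → d * #(S \ B) ≤ c * #S) (t : ℕ) :
    d ^ t * ∑ e ∈ N.toFinset, 2 ^ load (bases R N A t) e ≤ (d + c) ^ t * #N.toFinset := by
  induction t with
  | zero => simp [bases, load]
  | succ t ih =>
    rw [bases_succ, pow_succ, pow_succ, mul_assoc]
    refine (Nat.mul_le_mul_left _ (step_bases h hd _)).trans ?_
    rw [mul_left_comm, mul_right_comm, mul_comm _ (d + c)]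
    exact Nat.mul_le_mul_left _ ih

theorem load_bases (h : SpanOK R A v) {d c : ℕ} (hn : #N.toFinset ≤ n)
    (hd : ∀ S B : Finset ℕ, S ⊆ N.toFinset → B ⊆ S → LinearIndepOn F v B →
      (∀ e ∈ S, v e ∈ span F (v '' B)) → d * #(S \ B) ≤ c * #S) (hd0 : 0 < d) {e : ℕ}
    (he : e ∈ N) : load (bases R N A (d * n)) e ≤ (2 * c + 1) * n := by
  have h1 := potential_bases h hd (d * n)
  have h2 : 2 ^ load (bases R N A (d * n)) e ≤
      ∑ e ∈ N.toFinset, 2 ^ load (bases R N A (d * n)) e :=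
    single_le_sum (f := fun e => 2 ^ load (bases R N A (d * n)) e)
      (fun _ _ => Nat.zero_le _) (List.mem_toFinset.2 he)
  have h3 : (d + c) ^ (d * n) ≤ 2 ^ (2 * c * n) * d ^ (d * n) := by
    rw [pow_mul, pow_mul, pow_mul, pow_mul, ← mul_pow]
    exact Nat.pow_le_pow_left (add_pow_le d c) _
  have h4 : d ^ (d * n) * 2 ^ load (bases R N A (d * n)) e ≤
      d ^ (d * n) * 2 ^ ((2 * c + 1) * n) := by
    refine ((Nat.mul_le_mul_left _ h2).trans h1).trans ?_
    rw [add_mul, pow_add, one_mul, ← mul_assoc, mul_comm (d ^ (d * n))]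
    exact Nat.mul_le_mul h3 (hn.trans Nat.lt_two_pow_self.le)
  exact (Nat.pow_le_pow_iff_right (by norm_num)).1 (Nat.le_of_mul_le_mul_left h4 (by positivity))

theorem spec_bases (h : SpanOK R A v) (t : ℕ) : ∀ B ∈ bases R N A t,
    (∀ b ∈ B, b ∈ N) ∧ LinearIndepOn F v {b | b ∈ B} := by
  induction t with
  | zero => intro B hB; simp [bases] at hB
  | succ t ih =>
    intro B hB
    rw [bases_succ] at hB
    rcases List.mem_cons.1 hB with rfl | hB
    · refine ⟨fun b hb => (List.mem_filter.1 hb).1, ?_⟩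
      simp only [mem_nextBasis h]
      exact (foldl_gstep h (order N (bases R N A t)) [] (by simp)).1
    · exact ih B hB

end general

theorem indep_bases (hw : ∀ e : Fin n, w e = sem m (A.getD e [])) (Y : Finset (Fin n)) :
    LinearIndepOn F (fun e => sem m (A.getD e [])) (Y.map Fin.valEmbedding : Finset ℕ) ↔
      LinearIndepOn F w Y := by
  have e : w = (fun e => sem m (A.getD e [])) ∘ Fin.val := funext hw
  rw [coe_map, e]
  exact ⟨fun h => h.comp_of_image Fin.val_injective.injOn, fun h => h.image_of_comp _ _⟩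

theorem range_bases (hN : ∀ e ∈ N, e < n) : N.toFinset ⊆ range n :=
  fun e he => mem_range.2 (hN e (List.mem_toFinset.1 he))

theorem dense_bases (hw : ∀ e : Fin n, w e = sem m (A.getD e [])) (hN : ∀ e ∈ N, e < n) {d c : ℕ}
    (hD : Dn F w (fs n N) d c) (S B : Finset ℕ) (hS : S ⊆ N.toFinset) (hB : B ⊆ S)
    (hs : ∀ e ∈ S, sem m (A.getD e []) ∈ span F ((fun e => sem m (A.getD e [])) '' B)) :
    d * #(S \ B) ≤ c * #S := by
  obtain ⟨Y, rfl⟩ := exists_map_val (hS.trans (range_bases hN))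
  obtain ⟨D, h1, h2, h3⟩ := hD Y fun e he =>
    mem_fs.2 (List.mem_toFinset.1 (hS (mem_map_of_mem Fin.valEmbedding he)))
  have h4 := card_le_of_span ((indep_bases hw _).2 h3) fun e he =>
    hs e (map_subset_map.2 sdiff_subset he)
  rw [card_map] at h4
  have h5 := card_sdiff_add_card_eq_card h1
  have h6 := card_sdiff_add_card_eq_card hB
  rw [card_map] at h6 ⊢
  exact (Nat.mul_le_mul_left _ (by omega)).trans h2

theorem bases_indep (hw : ∀ e : Fin n, w e = sem m (A.getD e [])) (hN : ∀ e ∈ N, e < n) (t : ℕ) :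
    ∀ B ∈ bases (List.range m) N A t, (∀ b ∈ B, b ∈ N) ∧ LinearIndepOn F w (fs n B) := by
  intro B hB
  obtain ⟨h1, h2⟩ := spec_bases (spanOK m A) t B hB
  refine ⟨h1, (indep_bases hw _).1 (h2.mono fun e he => ?_)⟩
  obtain ⟨a, ha, rfl⟩ := mem_map.1 (mem_coe.1 he)
  exact mem_fs.1 ha

theorem bases_load (hw : ∀ e : Fin n, w e = sem m (A.getD e [])) (hN : ∀ e ∈ N, e < n) {d c : ℕ}
    (hd : 0 < d) (hD : Dn F w (fs n N) d c) {e : ℕ} (he : e ∈ N) :
    load (bases (List.range m) N A (d * n)) e ≤ (2 * c + 1) * n :=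
  load_bases (spanOK m A) (by simpa using card_le_card (range_bases hN))
    (fun S B hS hB _ hs => dense_bases hw hN hD S B hS hB hs) hd he

theorem bases_good (hw : ∀ e : Fin n, w e = sem m (A.getD e [])) (hN : ∀ e ∈ N, e < n) {d c : ℕ}
    (hD : Dn F w (fs n N) d c) {X : Finset (Fin n)} (hX : X ⊆ fs n N) (h0 : X.Nonempty)
    (hd : #X ≤ d) : ∃ B ∈ bases (List.range m) N A (n * n), #(X \ fs n B) ≤ 2 * c + 1 := by
  have a1 : #X ≤ n := by simpa using card_le_univ X
  have a2 := card_pos.2 h0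
  have hD' : Dn F w (fs n N) #X c := fun S hS => by
    obtain ⟨D, h1, h2, h3⟩ := hD S hS
    exact ⟨D, h1, (Nat.mul_le_mul_right _ hd).trans h2, h3⟩
  obtain ⟨B, b1, b2⟩ := exists_of_sum_load (X.map Fin.valEmbedding) (2 * c + 1)
    (bases (List.range m) N A (#X * n))
    (List.length_pos_iff.1 (by rw [length_bases]; exact Nat.mul_pos a2 (by omega))) (by
      refine (sum_le_card_nsmul _ _ ((2 * c + 1) * n) fun e he => ?_).trans ?_
      · obtain ⟨a, ha, rfl⟩ := mem_map.1 he
        exact bases_load hw hN a2 hD' (mem_fs.1 (hX ha))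
      · rw [length_bases, smul_eq_mul, card_map, mul_left_comm])
  refine ⟨B, bases_mono _ (Nat.mul_le_mul_right _ a1) B b1, le_trans ?_ b2⟩
  rw [← card_map Fin.valEmbedding]
  refine card_le_card fun e he => ?_
  obtain ⟨a, ha, rfl⟩ := mem_map.1 he
  obtain ⟨k1, k2⟩ := mem_sdiff.1 ha
  exact mem_filter.2 ⟨mem_map_of_mem _ k1, fun k => k2 (mem_fs.2 k)⟩

end Pool.Agent.P.MP_c2d640_lc

set_option autoImplicit false
set_option linter.unusedSectionVars false

/-! Contraction, candidates, the dependence test and the final choice. -/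

namespace Pool.Agent.P.MP_c2d640_lc

open Finset Submodule Pool.Agent.P.MP_eb0bd2_lc
open scoped Classical

variable {F : Type} [Field F] {m n : ℕ}

variable {A : List (List F)} {v : Fin n → Fin m → F}

theorem dCand_fold (l : List ℕ) : (∀ i ∈ l, i < m) → ∀ L : List (List F),
    ∃ T : (Fin m → F) →ₗ[F] (Fin m → F),
      ∀ x, sem m (l.foldl (elimStep (List.range m)) (x, L)).1 = T (sem m x) := by
  induction l with
  | nil => exact fun _ _ => ⟨LinearMap.id, fun _ => rfl⟩
  | cons i l ih =>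
    intro hl L
    obtain ⟨T, hT⟩ := ih (fun j hj => hl j (List.mem_cons_of_mem _ hj))
      (L.map (elim (List.range m) i (pivot i L)))
    have hi : i < m := hl i List.mem_cons_self
    refine ⟨T.comp (LinearMap.id - (LinearMap.proj (⟨i, hi⟩ : Fin m) :
      (Fin m → F) →ₗ[F] F).smulRight (((pivot i L).getD i 0)⁻¹ • sem m (pivot i L))), fun x => ?_⟩
    have e : elimStep (List.range m) (x, L) i =
      (elim (List.range m) i (pivot i L) x, L.map (elim (List.range m) i (pivot i L))) := rfl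
    rw [List.foldl_cons, e, hT, sem_elim, LinearMap.comp_apply, LinearMap.sub_apply,
      LinearMap.id_apply, LinearMap.smulRight_apply, LinearMap.proj_apply, smul_smul]
    rfl

theorem dCand_ofFn (z : Fin m → F) : sem m (List.ofFn z) = z := by
  funext j
  simp [sem, List.getD_eq_getElem?_getD]

theorem red_spec (L : List (List F)) : ∃ T : (Fin m → F) →ₗ[F] (Fin m → F),
    (∀ x, sem m (red (List.range m) L x) = T (sem m x)) ∧
      ∀ z, T z = 0 ↔ z ∈ span F (sem m '' {y | y ∈ L}) := by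
  obtain ⟨T, hT⟩ := dCand_fold (F := F) (m := m) (List.range m) (fun i hi => List.mem_range.1 hi) L
  refine ⟨T, hT, fun z => ?_⟩
  rw [← dCand_ofFn z, ← hT, ← inSpan_iff]
  simp only [inSpan, List.all_eq_true, List.mem_range, decide_eq_true_eq]
  exact ⟨fun h j hj => congrFun h ⟨j, hj⟩, fun h => funext fun j => h j j.2⟩

theorem dCand_image (hv : ∀ e : Fin n, v e = sem m (A.getD e [])) {O : List ℕ}
    (hO : ∀ b ∈ O, b < n) :
    sem m '' {y | y ∈ O.map fun b => A.getD b []} = v '' fs n O := by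
  ext z
  constructor
  · rintro ⟨y, hy, rfl⟩
    obtain ⟨b, hb, rfl⟩ := List.mem_map.1 hy
    exact ⟨⟨b, hO b hb⟩, mem_coe.2 (mem_fs.2 hb), hv _⟩
  · rintro ⟨e, he, rfl⟩
    exact ⟨_, List.mem_map.2 ⟨e, mem_fs.1 (mem_coe.1 he), rfl⟩, (hv e).symm⟩

theorem conM_spec (hA : A.length = n) (hv : ∀ e : Fin n, v e = sem m (A.getD e [])) {O : List ℕ}
    (hO : ∀ b ∈ O, b < n) (y : Fin n → F) :
    ev F (fun e : Fin n => sem m ((conM (List.range m) A O).getD e [])) y = 0 ↔
      ev F v y ∈ span F (v '' fs n O) := by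
  obtain ⟨T, h1, h2⟩ := red_spec (m := m) (O.map fun b => A.getD b [])
  have e : ∀ e : Fin n, sem m ((conM (List.range m) A O).getD e []) = T (v e) := by
    intro e
    have he : (e : ℕ) < A.length := hA ▸ e.2
    rw [hv e, ← h1]
    simp [conM, List.getD_eq_getElem?_getD, he]
  rw [← dCand_image hv hO, ← h2, ev_apply, ev_apply, map_sum]
  simp only [e, map_smul]

theorem dCand_comb (hv : ∀ e : Fin n, v e = sem m (A.getD e [])) (S : Finset (Fin n))
    (y : Fin n → F) :
    sem m (comb (List.range m) A (S.toList.map fun e => (e.val, y e))) = ∑ e ∈ S, y e • v e := by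
  funext j
  have e : sem m (comb (List.range m) A (S.toList.map fun e => (e.val, y e))) j =
      ((S.toList.map fun e => (e.val, y e)).map
        fun x => x.2 * (A.getD x.1 []).getD j 0).sum := by
    simp [sem, comb, List.getD_eq_getElem?_getD]
  rw [e, List.map_map, Finset.sum_map_toList, Finset.sum_apply]
  refine sum_congr rfl fun e _ => ?_
  rw [hv e]
  rfl

theorem cand_spec (hv : ∀ e : Fin n, v e = sem m (A.getD e [])) {FL : List F} (hFL : ∀ a, a ∈ FL)
    {B : List ℕ} (hB : ∀ b ∈ B, b < n) (hi : LinearIndepOn F v (fs n B)) {y : Fin n → F}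
    (hy : ev F v y = 0) {c : ℕ} (hc : #(supp y \ fs n B) ≤ c) :
    ∃ p ∈ tuples c (pairs (List.range n) FL),
      fs n (cand (List.range m) (List.range n) A B p) = supp y := by
  refine ⟨(supp y \ fs n B).toList.map fun e => (e.val, y e), mem_tuples.2 ⟨by simpa using hc, ?_⟩, ?_⟩
  · intro x hx
    obtain ⟨e, -, rfl⟩ := List.mem_map.1 hx
    exact List.mem_flatMap.2 ⟨e, List.mem_range.2 e.2, List.mem_map.2 ⟨y e, hFL _, rfl⟩⟩
  · let u : Fin n → F := fun e => if e ∈ fs n B then y e else 0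
    have hu : On (fs n B) u := fun e he => if_neg he
    have hw : On (supp y \ fs n B) (y - u) := fun e he => by
      by_cases h : e ∈ fs n B
      · show y e - (if e ∈ fs n B then y e else 0) = 0
        rw [if_pos h, sub_self]
      · show y e - (if e ∈ fs n B then y e else 0) = 0
        rw [if_neg h, sub_zero]
        by_contra h'
        exact he (mem_sdiff.2 ⟨mem_supp.2 h', h⟩)
    have hs : ∑ e ∈ supp y \ fs n B, y e • v e = -ev F v u := by
      have h1 := hw.ev_eq (v := v)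
      rw [map_sub, hy, zero_sub] at h1
      rw [h1]
      refine sum_congr rfl fun e he => ?_
      show y e • v e = (y e - (if e ∈ fs n B then y e else 0)) • v e
      rw [if_neg (mem_sdiff.1 he).2, sub_zero]
    ext e
    rw [mem_fs, mem_supp, cand, List.mem_filter, List.mem_range]
    by_cases he : e.val ∈ B
    · have hB' : ∀ b ∈ B.filter fun b => decide (b ≠ e.val), b < n := fun b hb =>
        hB b (List.mem_of_mem_filter hb)
      rw [if_pos he, Bool.not_eq_true', ← Bool.not_eq_true, inSpan_iff, dCand_image hv hB',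
        dCand_comb hv, hs, mem_span_iff_ev]
      have hue : u e = y e := if_pos (mem_fs.2 he)
      constructor
      · rintro ⟨-, h⟩ h0
        refine h ⟨-u, fun b hb => ?_, map_neg _ _⟩
        by_cases hbe : b = e
        · rw [hbe, Pi.neg_apply, hue, h0, neg_zero]
        · rw [Pi.neg_apply, hu b, neg_zero]
          intro hb'
          refine hb (mem_fs.2 (List.mem_filter.2 ⟨mem_fs.1 hb', ?_⟩))
          exact decide_eq_true fun h => hbe (Fin.ext h)
      · refine fun h0 => ⟨e.2, ?_⟩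
        rintro ⟨w, h1, h2⟩
        have h3 : On (fs n B) w := h1.mono fun b hb =>
          mem_fs.2 (List.mem_of_mem_filter (mem_fs.1 hb))
        have h4 := indep_iff_ev.1 hi (w + u) (h3.add hu) (by rw [map_add, h2, neg_add_cancel])
        have h5 : w e = 0 := h1 e fun hb => by
          have := (List.mem_filter.1 (mem_fs.1 hb)).2
          simp at this
        have h6 := congrFun h4 e
        rw [Pi.add_apply, h5, zero_add, hue] at h6
        exact h0 h6
    · rw [if_neg he, decide_eq_true_eq, List.map_map, List.mem_map]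
      constructor
      · rintro ⟨-, b, hb, h⟩
        have h1 : b = e := Fin.ext h
        rw [mem_toList, h1] at hb
        exact mem_supp.1 (mem_sdiff.1 hb).1
      · intro h0
        exact ⟨e.2, e, mem_toList.2 (mem_sdiff.2 ⟨mem_supp.2 h0, fun h => he (mem_fs.1 h)⟩), rfl⟩

end Pool.Agent.P.MP_c2d640_lc

set_option autoImplicit false
set_option linter.unusedSectionVars false

/-! The dependence test, the final choice and lengths. -/

namespace Pool.Agent.P.MP_c2d640_lc

open Finset Submodule Pool.Agent.P.MP_eb0bd2_lc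
open scoped Classical

variable {F : Type} [Field F] {m n : ℕ}

variable {A : List (List F)} {v : Fin n → Fin m → F}

theorem length_eq_card_fs {Y : List ℕ} (h : Y.Sublist (List.range n)) : Y.length = #(fs n Y) := by
  have hnd : Y.Nodup := List.nodup_range.sublist h
  rw [← List.toFinset_card_of_nodup hnd]
  symm
  refine Finset.card_bij (fun e _ => e.val) (fun e he => by simpa using he)
    (fun a _ b _ hab => Fin.ext hab) (fun b hb => ?_)
  have hb' : b ∈ Y := by simpa using hb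
  exact ⟨⟨b, List.mem_range.1 (h.subset hb')⟩, by simpa using hb', rfl⟩

theorem dep_iff (hv : ∀ e : Fin n, v e = sem m (A.getD e [])) {Y : List ℕ} (hY : ∀ e ∈ Y, e < n) :
    dep (List.range m) A Y = true ↔ ¬ LinearIndepOn F v (fs n Y) := by
  have key : ∀ x : Fin n, (spans (List.range m) A x.val (Y.filter fun e => decide (e ≠ x.val)) = true ↔
      v x ∈ span F (v '' ((fs n Y : Set (Fin n)) \ {x}))) := by
    intro x
    rw [spans, inSpan_iff, ← hv x]
    have : (sem m '' {y | y ∈ (Y.filter fun e => decide (e ≠ x.val)).map fun b => A.getD b []}) =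
        v '' ((fs n Y : Set (Fin n)) \ {x}) := by
      ext z
      simp only [Set.mem_image, Set.mem_ofPred_eq, List.mem_map, List.mem_filter, decide_eq_true_eq,
        Set.mem_sdiff, Finset.mem_coe, mem_fs, Set.mem_singleton_iff]
      constructor
      · rintro ⟨_, ⟨b, ⟨hb, hbx⟩, rfl⟩, rfl⟩
        exact ⟨⟨b, hY b hb⟩, ⟨hb, fun h => hbx (congrArg Fin.val h)⟩, hv _⟩
      · rintro ⟨b, ⟨hb, hbx⟩, rfl⟩
        exact ⟨_, ⟨b.val, ⟨hb, fun h => hbx (Fin.ext h)⟩, rfl⟩, (hv b).symm⟩
    rw [this]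
  rw [linearIndepOn_iff_notMem_span, dep, List.any_eq_true]
  push Not
  constructor
  · rintro ⟨x, hx, h⟩
    exact ⟨⟨x, hY x hx⟩, by simpa using hx, (key ⟨x, hY x hx⟩).1 h⟩
  · rintro ⟨x, hx, h⟩
    exact ⟨x.val, by simpa using hx, (key x).2 h⟩

theorem pick_eq (hv : ∀ e : Fin n, v e = sem m (A.getD e [])) {𝒞 : List (List ℕ)}
    {X : Finset (Fin n)} (h1 : ¬ LinearIndepOn F v X)
    (h2 : ∀ Y : Finset (Fin n), ¬ LinearIndepOn F v Y → #X ≤ #Y) (h : ∃ Y ∈ 𝒞, fs n Y = X) :
    pick (List.range m) (List.range n) A 𝒞 = #X := by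
  have hfs : ∀ Y : List ℕ, fs n ((List.range n).filter fun e => decide (e ∈ Y)) = fs n Y := by
    intro Y
    ext e
    simp
  have hlt : ∀ Y : List ℕ, ∀ e ∈ (List.range n).filter fun e => decide (e ∈ Y), e < n :=
    fun Y e he => List.mem_range.1 (List.mem_filter.1 he).1
  refine best_eq ?_ ?_
  · obtain ⟨Y, hY, rfl⟩ := h
    refine List.mem_map.2 ⟨(List.range n).filter fun e => decide (e ∈ Y), List.mem_filter.2
      ⟨List.mem_map.2 ⟨Y, hY, rfl⟩, ?_⟩, ?_⟩
    · rw [dep_iff hv (hlt Y), hfs]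
      exact h1
    · rw [length_eq_card_fs List.filter_sublist, hfs]
  · intro x hx
    obtain ⟨Z, hZ, rfl⟩ := List.mem_map.1 hx
    obtain ⟨hZ1, hZ2⟩ := List.mem_filter.1 hZ
    obtain ⟨Y, -, rfl⟩ := List.mem_map.1 hZ1
    rw [length_eq_card_fs List.filter_sublist]
    exact h2 _ ((dep_iff hv (hlt Y)).1 hZ2)

theorem pick_zero (hv : ∀ e : Fin n, v e = sem m (A.getD e [])) (𝒞 : List (List ℕ))
    (h : ∀ Y : Finset (Fin n), LinearIndepOn F v Y) :
    pick (List.range m) (List.range n) A 𝒞 = 0 := by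
  have hlt : ∀ Y : List ℕ, ∀ e ∈ (List.range n).filter fun e => decide (e ∈ Y), e < n :=
    fun Y e he => List.mem_range.1 (List.mem_filter.1 he).1
  have : ((𝒞.map fun Y => (List.range n).filter fun e => decide (e ∈ Y)).filter
      (dep (List.range m) A)) = [] := by
    refine List.filter_eq_nil_iff.2 fun Z hZ hd => ?_
    obtain ⟨Y, -, rfl⟩ := List.mem_map.1 hZ
    exact (dep_iff hv (hlt Y)).1 hd (h _)
  rw [pick, this]
  rfl

theorem length_tuples_le {β : Type} (c : ℕ) (l : List β) :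
    (tuples c l).length ≤ (l.length + 1) ^ c := by
  induction c with
  | zero => simp [tuples]
  | succ c ih =>
    have h1 : (l.flatMap fun x => (tuples c l).map fun L => x :: L).length =
        l.length * (tuples c l).length := by
      rw [List.length_flatMap]
      simp
    have h2 : 1 ≤ (l.length + 1) ^ c := Nat.one_le_pow _ _ (Nat.succ_pos _)
    have h3 := Nat.mul_le_mul_left l.length ih
    rw [tuples, List.length_cons, h1, pow_succ]
    nlinarith

theorem length_fam_le (N : List ℕ) (B : ℕ) : (fam N B).length ≤ (B + 1) ^ 9 := by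
  rw [fam, List.length_map]
  simpa using length_tuples_le 9 (List.range B)

theorem length_enum_le (s c : ℕ) (FL : List F) (R N : List ℕ) (A : List (List F))
    (𝒟 : List (List ℕ)) (O : List ℕ) : (enum s c FL R N A 𝒟 O).length ≤
      (𝒟.length + 1) ^ s * (N.length * N.length) * (N.length * FL.length + 1) ^ c := by
  have flat : ∀ {α β : Type} (l : List α) (f : α → List β) (K : ℕ), (∀ a ∈ l, (f a).length ≤ K) →
      (l.flatMap f).length ≤ l.length * K := by
    intro α β l f K h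
    induction l with
    | nil => simp
    | cons a l ih =>
      rw [List.flatMap_cons, List.length_append, List.length_cons, Nat.succ_mul]
      have := h a (by simp)
      have := ih fun b hb => h b (by simp [hb])
      omega
  have hp : (pairs N FL).length ≤ N.length * FL.length :=
    flat N _ _ fun a _ => by simp
  have ht : (tuples c (pairs N FL)).length ≤ (N.length * FL.length + 1) ^ c :=
    (length_tuples_le c _).trans (Nat.pow_le_pow_left (by omega) _)
  rw [enum, mul_assoc]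
  refine (flat _ _ (N.length * N.length * (N.length * FL.length + 1) ^ c) fun Ds _ => ?_).trans
    (Nat.mul_le_mul_right _ (length_tuples_le s 𝒟))
  refine (flat _ _ ((N.length * FL.length + 1) ^ c) fun B _ => ?_).trans ?_
  · rw [List.length_map]
    exact ht
  · rw [length_bases]

theorem sublist_of_mem_enum {s c : ℕ} {FL : List F} {R N : List ℕ} {A : List (List F)}
    {𝒟 : List (List ℕ)} {O Y : List ℕ} (h : Y ∈ enum s c FL R N A 𝒟 O) : Y.Sublist N := by
  simp only [enum, List.mem_flatMap, List.mem_map] at h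
  obtain ⟨Ds, -, B, -, p, -, rfl⟩ := h
  exact List.filter_sublist

end Pool.Agent.P.MP_c2d640_lc

set_option autoImplicit false
set_option linter.unusedSectionVars false

/-! The greedy colouring. -/

namespace Pool.Agent.P.MP_c2d640_lc

open Finset Submodule Pool.Agent.P.MP_eb0bd2_lc
open scoped Classical

variable {F : Type} [Field F] {m n : ℕ}

theorem dColour_window (g k c s : ℕ) :
    #((Ico s (s + g)).filter fun l => (l + c) % g < k) = min k g := by
  have hp : Function.Periodic (fun l => l % g < k) g := fun l => by simp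
  have h1 := Nat.filter_Ico_card_eq_of_periodic (s + c) g _ hp
  have h2 : g.count (fun l => l % g < k) = min k g := by
    rw [Nat.count_eq_card_filter_range, ← card_range (min k g)]
    refine congrArg card (Finset.ext fun l => ?_)
    simp only [mem_filter, mem_range, lt_min_iff]
    exact ⟨fun h => ⟨Nat.mod_eq_of_lt h.1 ▸ h.2, h.1⟩,
      fun h => ⟨h.2, (Nat.mod_eq_of_lt h.2).symm ▸ h.1⟩⟩
  rw [← h2, ← h1]
  refine card_bij (fun l _ => l + c) (fun l hl => ?_) (fun a _ b _ h => by omega) fun l hl => ?_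
  · simp only [mem_filter, mem_Ico] at hl ⊢
    exact ⟨⟨by omega, by omega⟩, hl.2⟩
  · simp only [mem_filter, mem_Ico] at hl
    refine ⟨l - c, ?_, by omega⟩
    simp only [mem_filter, mem_Ico]
    exact ⟨⟨by omega, by omega⟩, by rw [Nat.sub_add_cancel (by omega)]; exact hl.2⟩

theorem dColour_sum_psi {g k : ℕ} (hk : k ≤ g) (l : ℕ) (Y : List ℕ) (e : ℕ) :
    ∑ c ∈ range g, psi g k l Y e c = g * (2 * g - k) := by
  unfold psi
  by_cases h : e ∈ Y
  · have h1 := dColour_window g k l 0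
    rw [zero_add, ← range_eq_Ico, min_eq_left hk] at h1
    have h2 := card_filter_add_card_filter_not (s := range g) fun c => (c + l) % g < k
    rw [h1, card_range] at h2
    simp only [h, if_true, add_comm l, sum_ite, sum_const, h1, smul_eq_mul]
    obtain ⟨d, hd⟩ : ∃ d, d = #((range g).filter fun c => ¬ (c + l) % g < k) := ⟨_, rfl⟩
    rw [← hd] at h2 ⊢
    subst h2
    rw [show 2 * (k + d) - k = k + 2 * d by omega]
    ring
  · simp [h]

theorem dColour_prod (f : ℕ → ℕ → ℕ) (χ : List ℕ) :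
    (χ.zipIdx.map fun y => f y.2 y.1).prod = ∏ e ∈ range χ.length, f e (χ.getD e 0) := by
  induction χ using List.reverseRecOn with
  | nil => simp
  | append_singleton χ c ih =>
    rw [List.zipIdx_append, List.map_append, List.prod_append, ih, List.length_append,
      List.length_singleton, prod_range_succ]
    have h1 : (χ ++ [c]).getD χ.length 0 = c := by simp
    have h2 : ∏ e ∈ range χ.length, f e ((χ ++ [c]).getD e 0) =
        ∏ e ∈ range χ.length, f e (χ.getD e 0) :=
      prod_congr rfl fun e he => by rw [List.getD_append _ _ _ _ (mem_range.1 he)]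
    rw [h1, h2]
    simp

theorem dColour_pot_sum {g k : ℕ} (hk : k ≤ g) (C : List (ℕ × List ℕ)) (χ : List ℕ) :
    ∑ c ∈ range g, pot g k C (χ ++ [c]) = g * ((2 * g - k) * pot g k C χ) := by
  unfold pot
  induction C with
  | nil => simp
  | cons x C ih =>
    simp only [List.map_cons, List.sum_cons, sum_add_distrib, ih]
    simp only [List.zipIdx_append, List.map_append, List.prod_append, List.zipIdx_cons,
      List.zipIdx_nil, List.map_cons, List.map_nil, List.prod_cons, List.prod_nil, mul_one,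
      ← mul_sum, dColour_sum_psi hk]
    ring

theorem dColour_step {g k : ℕ} (hg : 0 < g) (hk : k ≤ g) (C : List (ℕ × List ℕ)) (χ : List ℕ) :
    pot g k C (cstep (List.range g) k C χ) ≤ (2 * g - k) * pot g k C χ := by
  obtain ⟨c, hc, h⟩ : ∃ c ∈ range g, pot g k C (χ ++ [c]) ≤ (2 * g - k) * pot g k C χ :=
    exists_le_of_sum_le ⟨0, mem_range.2 hg⟩ (by
      rw [dColour_pot_sum hk, sum_const, card_range, smul_eq_mul])
  unfold cstep
  rw [List.length_range]
  obtain ⟨L, hL⟩ : ∃ L, L = (List.range g).filter fun c => decide (pot g k C (χ ++ [c]) ≤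
    (2 * g - k) * pot g k C χ) := ⟨_, rfl⟩
  rw [← hL]
  have h1 : c ∈ L := by
    rw [hL, List.mem_filter]
    exact ⟨List.mem_range.2 (mem_range.1 hc), decide_eq_true h⟩
  have h2 : L.headD 0 ∈ L := by
    cases L with
    | nil => simp at h1
    | cons a L => simp
  rw [hL, List.mem_filter, ← hL] at h2
  exact of_decide_eq_true h2.2

theorem dColour_iter {g k : ℕ} (hg : 0 < g) (hk : k ≤ g) (C : List (ℕ × List ℕ)) (t : ℕ) :
    ((cstep (List.range g) k C)^[t] []).length = t ∧
      pot g k C ((cstep (List.range g) k C)^[t] []) ≤ (2 * g - k) ^ t * C.length := by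
  induction t with
  | zero => simp [pot]
  | succ t ih =>
    rw [Function.iterate_succ_apply']
    refine ⟨by rw [cstep, List.length_append, ih.1]; rfl, (dColour_step hg hk C _).trans ?_⟩
    rw [pow_succ', mul_assoc]
    exact Nat.mul_le_mul_left _ ih.2

theorem dColour_real {g k y h r b : ℕ} (hg : 0 < g) (hk : k ≤ g) (hy : g ≤ y)
    (hr : 2 * (r + b) ≤ k) (H : (2 * g) ^ y ≤ 2 ^ (h + b) * (2 * g - k) ^ y) : r ≤ h := by
  have hg' : (0 : ℝ) < g := by exact_mod_cast hg
  have H' : ((2 : ℝ) * g) ^ y ≤ 2 ^ (h + b) * (2 * g - k) ^ y := by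
    have := (Nat.cast_le (α := ℝ)).2 H
    rw [Nat.cast_mul, Nat.cast_pow, Nat.cast_pow, Nat.cast_pow, Nat.cast_sub (by omega)] at this
    push_cast at this
    exact this
  have hk' : (k : ℝ) ≤ g := by exact_mod_cast hk
  have h1 : (2 : ℝ) * g - k ≤ 2 * g * Real.exp (-(k / (2 * g))) := by
    have := Real.add_one_le_exp (-(k / (2 * g) : ℝ))
    calc (2 : ℝ) * g - k = 2 * g * (-(k / (2 * g)) + 1) := by field_simp; ring
      _ ≤ _ := by gcongr
  have h2 : ((2 : ℝ) * g - k) ^ y ≤ (2 * g) ^ y * Real.exp (-((r + b : ℕ) : ℝ)) := by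
    refine (pow_le_pow_left₀ (by linarith) h1 y).trans ?_
    rw [mul_pow, ← Real.exp_nat_mul]
    gcongr
    have h3 : (g : ℝ) ≤ y := by exact_mod_cast hy
    have h4 : (2 : ℝ) * ((r + b : ℕ) : ℝ) ≤ k := by exact_mod_cast hr
    have h5 : (g : ℝ) * (k / (2 * g)) ≤ y * (k / (2 * g)) := by gcongr
    have h6 : (g : ℝ) * (k / (2 * g)) = k / 2 := by field_simp
    linarith
  have h3 : (2 : ℝ) ^ (r + b) ≤ Real.exp ((r + b : ℕ) : ℝ) := by
    rw [← Real.exp_one_pow]
    exact pow_le_pow_left₀ (by norm_num) (by linarith [Real.add_one_le_exp (1 : ℝ)]) _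
  have h4 : (1 : ℝ) ≤ 2 ^ (h + b) * Real.exp (-((r + b : ℕ) : ℝ)) := by
    have h5 : ((2 : ℝ) * g) ^ y * 1 ≤
        (2 * g) ^ y * (2 ^ (h + b) * Real.exp (-((r + b : ℕ) : ℝ))) := by
      calc ((2 : ℝ) * g) ^ y * 1 ≤ 2 ^ (h + b) * (2 * g - k) ^ y := by rwa [mul_one]
        _ ≤ 2 ^ (h + b) * ((2 * g) ^ y * Real.exp (-((r + b : ℕ) : ℝ))) := by gcongr
        _ = _ := by ring
    exact le_of_mul_le_mul_left h5 (by positivity)
  rw [Real.exp_neg, ← div_eq_mul_inv, le_div_iff₀ (Real.exp_pos _), one_mul] at h4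
  have h5 := (pow_le_pow_iff_right₀ (by norm_num : (1 : ℝ) < 2)).1 (h3.trans h4)
  omega

theorem colour_spec {g k r b : ℕ} (hg : 0 < g) (hk : k ≤ g) (C : List (ℕ × List ℕ))
    (hC : ∀ x ∈ C, x.2.Sublist (List.range n) ∧ g ≤ x.2.length) (hb : C.length ≤ 2 ^ b)
    (hr : 2 * (r + b) ≤ k) : ∀ x ∈ C, r ≤ x.2.countP fun e =>
      decide ((x.1 + (colour (List.range n) (List.range g) k C).getD e 0) % g < k) := by
  intro x hx
  obtain ⟨hs, hy⟩ := hC x hx
  obtain ⟨h1, h2⟩ := dColour_iter hg hk C n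
  rw [colour, List.length_range]
  obtain ⟨χ, hχ⟩ : ∃ χ, χ = (cstep (List.range g) k C)^[n] [] := ⟨_, rfl⟩
  rw [← hχ] at h1 h2 ⊢
  have hnd : x.2.Nodup := hs.nodup List.nodup_range
  have hsub : x.2.toFinset ⊆ range n := fun e he =>
    mem_range.2 (List.mem_range.1 (hs.subset (List.mem_toFinset.1 he)))
  have hcard : #x.2.toFinset = x.2.length := List.toFinset_card_of_nodup hnd
  have h3 : ∏ e ∈ range n, psi g k x.1 x.2 e (χ.getD e 0) ≤ (2 * g - k) ^ n * 2 ^ b := by
    refine le_trans ?_ (h2.trans (Nat.mul_le_mul_left _ hb))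
    rw [← h1, ← dColour_prod]
    exact List.single_le_sum (fun _ _ => Nat.zero_le _) _ (List.mem_map_of_mem hx)
  obtain ⟨H, hH⟩ : ∃ H, H = x.2.toFinset.filter fun e => (x.1 + χ.getD e 0) % g < k := ⟨_, rfl⟩
  have h4 : #H = x.2.countP fun e => decide ((x.1 + χ.getD e 0) % g < k) := by
    rw [hH, List.countP_eq_length_filter, ← List.toFinset_card_of_nodup (hnd.filter _),
      List.toFinset_filter]
    simp
  have h5 : ∏ e ∈ range n \ x.2.toFinset, psi g k x.1 x.2 e (χ.getD e 0) =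
      (2 * g - k) ^ (n - x.2.length) := by
    rw [prod_congr rfl (g := fun _ => 2 * g - k) fun e he => by
      rw [psi, if_neg fun h => (mem_sdiff.1 he).2 (List.mem_toFinset.2 h)],
      prod_const, card_sdiff_of_subset hsub, card_range, hcard]
  have h6 : (∏ e ∈ x.2.toFinset, psi g k x.1 x.2 e (χ.getD e 0)) * 2 ^ #H =
      (2 * g) ^ x.2.length := by
    rw [hH, ← prod_const, prod_filter, ← prod_mul_distrib, ← hcard, ← prod_const]
    refine prod_congr rfl fun e he => ?_
    rw [psi, if_pos (List.mem_toFinset.1 he)]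
    split_ifs <;> ring
  have h7 : x.2.length ≤ n := by
    rw [← hcard, ← card_range n]
    exact card_le_card hsub
  rw [← prod_sdiff hsub, h5, ← Nat.sub_add_cancel h7, pow_add, Nat.add_sub_cancel,
    mul_assoc] at h3
  have h8 := Nat.le_of_mul_le_mul_left h3 (Nat.pow_pos (by omega))
  rw [← h4]
  refine dColour_real hg hk hy hr ?_
  rw [← h6, pow_add]
  calc _ ≤ (2 * g - k) ^ x.2.length * 2 ^ b * 2 ^ #H := Nat.mul_le_mul_right _ h8
    _ = _ := by ring

theorem length_thin (g k : ℕ) (χ : List ℕ) (Os : List (List ℕ)) :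
    (thin g k χ Os).length = Os.length := by
  simp [thin]

theorem mem_thin {g k : ℕ} {χ : List ℕ} {Os : List (List ℕ)} {O' : List ℕ} :
    O' ∈ thin g k χ Os ↔ ∃ O l, (O, l) ∈ Os.zipIdx ∧
      O' = O.filter fun e => decide (¬ (l + χ.getD e 0) % g < k) := by
  rw [thin, List.mem_map]
  exact ⟨fun ⟨x, hx, h⟩ => ⟨x.1, x.2, hx, h.symm⟩, fun ⟨O, l, hx, h⟩ => ⟨(O, l), hx, h.symm⟩⟩

theorem dColour_blocks (g k c t : ℕ) :
    #((range (g * t)).filter fun l => (l + c) % g < k) ≤ k * t := by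
  induction t with
  | zero => simp
  | succ t ih =>
    rw [range_eq_Ico, mul_add_one, ← Ico_union_Ico_eq_Ico (Nat.zero_le (g * t)) (by omega),
      filter_union, ← range_eq_Ico]
    refine (card_union_le _ _).trans ?_
    rw [dColour_window, mul_add_one]
    exact add_le_add ih (min_le_left _ _)

theorem dColour_load (p : ℕ → ℕ → Prop) [∀ l a, Decidable (p l a)] (e : ℕ)
    (Os : List (List ℕ)) :
    load (Os.zipIdx.map fun x => x.1.filter fun a => decide (¬ p x.2 a)) e ≤
      load Os e + #((range Os.length).filter fun l => p l e) := by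
  unfold load
  induction Os using List.reverseRecOn with
  | nil => simp
  | append_singleton Os O ih =>
    rw [List.zipIdx_append, List.map_append, List.countP_append, List.countP_append,
      List.length_append, List.length_singleton, range_add_one, filter_insert]
    by_cases h : p Os.length e
    · rw [if_pos h, card_insert_of_notMem (by simp)]
      have := List.countP_le_length (p := fun B => decide (e ∉ B)) (l :=
        ([O].zipIdx (0 + Os.length)).map fun x => x.1.filter fun a => decide (¬ p x.2 a))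
      rw [List.length_map, List.length_zipIdx, List.length_singleton] at this
      omega
    · rw [if_neg h]
      have : (([O].zipIdx (0 + Os.length)).map fun x => x.1.filter fun a =>
          decide (¬ p x.2 a)).countP (fun B => decide (e ∉ B)) =
          [O].countP fun B => decide (e ∉ B) := by
        simp [List.countP_cons, h]
      omega

theorem load_thin {g k : ℕ} (χ : List ℕ) {Os : List (List ℕ)} (hO : Os.length = g * n) (e : ℕ) :
    load (thin g k χ Os) e ≤ load Os e + k * n := by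
  have h1 := dColour_load (fun l a => (l + χ.getD a 0) % g < k) e Os
  have h2 := dColour_blocks g k (χ.getD e 0) n
  rw [hO] at h1
  exact h1.trans (Nat.add_le_add_left h2 _)

end Pool.Agent.P.MP_c2d640_lc

set_option autoImplicit false
set_option linter.unusedSectionVars false

/-! Correctness of the sparsifier. -/

namespace Pool.Agent.P.MP_c2d640_lc

open Finset Submodule Pool.Agent.P.MP_eb0bd2_lc
open scoped Classical

variable {F : Type} [Field F] {m n : ℕ}

variable {A : List (List F)} {v : Fin n → Fin m → F} {En : List ℕ → List (List ℕ)}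

theorem dsparse_len {α β : Type} (f : α → List β) (L B : ℕ) :
    ∀ l : List α, (∀ x ∈ l, L * (f x).length ≤ B) → L * (l.flatMap f).length ≤ l.length * B := by
  intro l
  induction l with
  | nil => simp
  | cons a l ih =>
    intro h
    have h1 := ih fun x hx => h x (List.mem_cons_of_mem _ hx)
    have h2 := h a (by simp)
    rw [List.flatMap_cons, List.length_append, List.length_cons, mul_add, add_mul, one_mul]
    omega

theorem dsparse_constraints {g b : ℕ} {Os : List (List ℕ)}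
    (hE2 : ∀ O, Os.length * (En O).length ≤ 2 ^ b) : (constraints g En Os).length ≤ 2 ^ b := by
  rcases Nat.eq_zero_or_pos Os.length with h | h
  · rw [List.length_eq_zero_iff.1 h]
    simp [constraints]
  · have := dsparse_len (fun x : List ℕ × ℕ =>
      ((En x.1).filter fun Y => decide (g ≤ Y.length)).map fun Y => (x.2, Y)) Os.length (2 ^ b)
      Os.zipIdx fun x _ => by
        rw [List.length_map]
        exact (Nat.mul_le_mul_left _ (List.length_filter_le _ _)).trans (hE2 _)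
    rw [List.length_zipIdx] at this
    exact Nat.le_of_mul_le_mul_left this h

theorem sround_spec {g j b : ℕ} (hg : Gir F v univ g) (hj : j ≤ n) (hE : EnumOK F v En (4 ^ j))
    (hE1 : ∀ O, ∀ Y ∈ En O, Y.Sublist (List.range n)) {Os : List (List ℕ)}
    (hE2 : ∀ O, Os.length * (En O).length ≤ 2 ^ b) (hk : 8 * 4 ^ j + 2 * b ≤ g)
    (hO : ∀ O ∈ Os, (∀ e ∈ O, e < n) ∧ GirOff F v (fs n O) (4 ^ j)) :
    ∀ O ∈ sround (List.range n) (List.range g) (2 * b) En Os j,
      (∀ e ∈ O, e < n) ∧ GirOff F v (fs n O) (4 ^ (j + 1)) := by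
  intro O' hO'
  have hp : 0 < 4 ^ j := by positivity
  simp only [sround, List.length_range, min_eq_left hj] at hO'
  obtain ⟨O, l, h1, rfl⟩ := mem_thin.1 hO'
  have h2 : O ∈ Os := List.fst_mem_of_mem_zipIdx h1
  refine ⟨fun e he => (hO O h2).1 e (List.mem_filter.1 he).1, fun y hy hy0 => ?_⟩
  by_cases h3 : #(supp y \ fs n O) ≤ 4 * 4 ^ j
  · obtain ⟨Y, hY, hY'⟩ := hE O (hO O h2).1 (hO O h2).2 y hy hy0 h3
    have h4 : g ≤ Y.length := by
      rw [length_eq_card_fs (hE1 O Y hY), hY']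
      exact hg y (fun e he => absurd (mem_univ e) he) hy hy0
    have h5 : (l, Y) ∈ constraints g En Os :=
      List.mem_flatMap.2 ⟨(O, l), h1, List.mem_map.2 ⟨Y, List.mem_filter.2 ⟨hY, by simpa using h4⟩,
        rfl⟩⟩
    have h6 := colour_spec (n := n) (g := g) (k := 8 * 4 ^ j + 2 * b) (r := 4 * 4 ^ j) (b := b)
      (by omega) hk (constraints g En Os) (fun x hx => by
        obtain ⟨a, -, ha⟩ := List.mem_flatMap.1 hx
        obtain ⟨Z, hZ, rfl⟩ := List.mem_map.1 ha
        exact ⟨hE1 _ _ (List.mem_filter.1 hZ).1, by simpa using (List.mem_filter.1 hZ).2⟩)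
      (dsparse_constraints hE2) (by omega) (l, Y) h5
    rw [List.countP_eq_length_filter,
      length_eq_card_fs (List.filter_sublist.trans (hE1 O Y hY))] at h6
    rw [pow_succ, mul_comm]
    refine h6.trans (card_le_card fun e he => ?_)
    obtain ⟨h7, h8⟩ := List.mem_filter.1 (mem_fs.1 he)
    refine mem_sdiff.2 ⟨hY' ▸ mem_fs.2 h7, fun h9 => ?_⟩
    have h10 := (List.mem_filter.1 (mem_fs.1 h9)).2
    simp only [decide_eq_true_eq] at h8 h10
    exact h10 h8
  · rw [pow_succ, mul_comm]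
    refine (not_le.1 h3).le.trans (card_le_card (sdiff_subset_sdiff Subset.rfl fun e he => ?_))
    exact mem_fs.2 (List.mem_filter.1 (mem_fs.1 he)).1

theorem sparse_spec (hv : ∀ e : Fin n, v e = sem m (A.getD e [])) {g J b c : ℕ}
    (hg : Gir F v univ g) (hgn : g ≤ n) (hD : Dn F v univ g c)
    (hE : ∀ j < J, EnumOK F v En (4 ^ j)) (hE1 : ∀ O, ∀ Y ∈ En O, Y.Sublist (List.range n))
    (hE2 : ∀ O, g * n * (En O).length ≤ 2 ^ b) (hJ : 4 * 4 ^ J ≤ g)
    (hsum : 3 * (2 * c + 1 + 2 * b * J) ≤ 4 * 4 ^ J) {X : Finset (Fin n)} (hX : #X ≤ g) :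
    ∃ O ∈ sparse (List.range m) (List.range n) (List.range g) (List.range J) A (2 * b) En,
      (∀ e ∈ O, e < n) ∧ GirOff F v (fs n O) (4 ^ J) ∧ #(X \ fs n O) ≤ 4 * 4 ^ J := by
  have hp : 0 < 4 ^ J := by positivity
  have hJn : J < 4 ^ J := Nat.lt_pow_self (by norm_num)
  have hg0 : 0 < g := by omega
  have hN : ∀ e ∈ List.range n, e < n := fun e he => List.mem_range.1 he
  have key : ∀ j ≤ J, ∀ Os, Os = (List.range j).foldl
      (sround (List.range n) (List.range g) (2 * b) En)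
      (bases (List.range m) (List.range n) A (g * n)) → Os.length = g * n ∧
      (∀ O ∈ Os, (∀ e ∈ O, e < n) ∧ GirOff F v (fs n O) (4 ^ j)) ∧
      ∀ e < n, 3 * load Os e ≤ (3 * (2 * c + 1 + 2 * b * j) + 8 * 4 ^ j) * n := by
    intro j
    induction j with
    | zero =>
      rintro - Os rfl
      simp only [List.range_zero, List.foldl_nil]
      refine ⟨length_bases _ _, fun B hB => ?_, fun e he => ?_⟩
      · obtain ⟨h1, h2⟩ := bases_indep hv hN _ B hB
        refine ⟨fun e he => hN e (h1 e he), fun y hy hy0 => ?_⟩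
        rw [pow_zero, Nat.one_le_iff_ne_zero]
        intro h3
        refine hy0 (indep_iff_ev.1 h2 y (fun e he => ?_) hy)
        by_contra h4
        exact notMem_empty e (card_eq_zero.1 h3 ▸ mem_sdiff.2 ⟨mem_supp.2 h4, he⟩)
      · have h1 := bases_load hv hN hg0 (fun S _ => hD S (subset_univ _)) (List.mem_range.2 he)
        nlinarith
    | succ j ih =>
      rintro hj Os rfl
      obtain ⟨h1, h2, h3⟩ := ih (by omega) _ rfl
      rw [List.range_succ, List.foldl_append, List.foldl_cons, List.foldl_nil]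
      generalize (List.range j).foldl (sround (List.range n) (List.range g) (2 * b) En)
        (bases (List.range m) (List.range n) A (g * n)) = Os at h1 h2 h3
      have h4 : 4 ^ (j + 1) ≤ 4 ^ J := Nat.pow_le_pow_right (by norm_num) hj
      have h5 : b * 1 ≤ b * J := Nat.mul_le_mul_left _ (by omega)
      have h6 : 8 * 4 ^ j + 2 * b ≤ g := by
        rw [pow_succ] at h4
        rw [mul_assoc] at hsum
        omega
      refine ⟨by rw [sround, length_thin, h1], sround_spec hg (by omega) (hE j (by omega)) hE1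
        (fun O => h1 ▸ hE2 O) h6 h2, fun e he => ?_⟩
      have h7 := load_thin (k := 8 * 4 ^ j + 2 * b) (colour (List.range n) (List.range g)
        (8 * 4 ^ j + 2 * b) (constraints g En Os)) h1 e
      have h8 := h3 e he
      simp only [sround, List.length_range, min_eq_left (show j ≤ n by omega)]
      rw [pow_succ]
      nlinarith
  obtain ⟨h1, h2, h3⟩ := key J le_rfl _ rfl
  simp only [sparse, List.length_range]
  generalize (List.range J).foldl (sround (List.range n) (List.range g) (2 * b) En)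
    (bases (List.range m) (List.range n) A (g * n)) = Os at h1 h2 h3
  obtain ⟨O, hO, h4⟩ := exists_of_sum_load (X.map Fin.valEmbedding) (4 * 4 ^ J) Os
    (List.length_pos_iff.1 (by rw [h1]; exact Nat.mul_pos hg0 (by omega))) (by
      have h5 : ∀ e ∈ X.map Fin.valEmbedding, load Os e ≤ 4 * 4 ^ J * n := by
        intro e he
        obtain ⟨x, -, rfl⟩ := mem_map.1 he
        have h6 := h3 x.val x.isLt
        have h7 := Nat.mul_le_mul_right n (Nat.add_le_add_right hsum (8 * 4 ^ J))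
        show load Os x.val ≤ _
        nlinarith
      refine (sum_le_card_nsmul _ _ _ h5).trans ?_
      rw [card_map, smul_eq_mul, h1, mul_left_comm, mul_assoc, mul_assoc]
      exact Nat.mul_le_mul_left _ (Nat.mul_le_mul_left _ (Nat.mul_le_mul_right _ hX)))
  refine ⟨O, hO, (h2 O hO).1, (h2 O hO).2, le_trans (le_of_eq ?_) h4⟩
  rw [filter_map, card_map]
  congr 1
  ext e
  simp

end Pool.Agent.P.MP_c2d640_lc

set_option autoImplicit false
set_option linter.unusedSectionVars false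

/-! Correctness of the enumeration. -/

namespace Pool.Agent.P.MP_c2d640_lc

open Finset Submodule Pool.Agent.P.MP_eb0bd2_lc
open scoped Classical

variable {F : Type} [Field F] {m n : ℕ}

variable {A : List (List F)} {v : Fin n → Fin m → F}

theorem gir_enum {γ : ℕ} {O : Finset (Fin n)} {w : Fin n → Fin m → F}
    (hw : ∀ y : Fin n → F, ev F w y = 0 ↔ ev F v y ∈ span F (v '' O)) (hG : GirOff F v O γ) :
    Gir F w Oᶜ γ := by
  intro z h1 h2 h3
  obtain ⟨u, hu, hu'⟩ := mem_span_iff_ev.1 ((hw z).1 h2)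
  have a1 : supp (z - u) \ O = supp z := by
    ext e
    rw [mem_sdiff, mem_supp, mem_supp, Pi.sub_apply]
    constructor
    · rintro ⟨a, b⟩
      rwa [hu e b, sub_zero] at a
    · intro a
      have b : e ∉ O := fun b => a (h1 e fun c => mem_compl.1 c b)
      exact ⟨by rwa [hu e b, sub_zero], b⟩
  have a2 : z - u ≠ 0 := by
    intro a
    rw [a, supp_zero, empty_sdiff] at a1
    refine h3 (funext fun e => ?_)
    by_contra b
    exact notMem_empty e (a1 ▸ mem_supp.2 b)
  have := hG (z - u) (by rw [map_sub, hu', sub_self]) a2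
  rwa [a1] at this

theorem indep_enum {γ : ℕ} (hγ : 1 ≤ γ) {O B S : Finset (Fin n)} {w : Fin n → Fin m → F}
    (hw : ∀ y : Fin n → F, ev F w y = 0 ↔ ev F v y ∈ span F (v '' O)) (hG : GirOff F v O γ)
    (hB : LinearIndepOn F w B) (hS : ∀ e ∈ S, e ∈ O ∨ e ∈ B) : LinearIndepOn F v S := by
  refine indep_iff_ev.2 fun z h1 h2 => ?_
  by_contra h3
  have a1 : On B (res Oᶜ z) := fun e he => by
    unfold res
    split_ifs with h
    · exact h1 e fun h' => (hS e h').elim (mem_compl.1 h) he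
    · rfl
  have a2 : On O (res Oᶜ z - z) := fun e he => by
    simp [res, he]
  have a3 : ev F w (res Oᶜ z) = 0 := by
    have := a2.ev_mem (v := v)
    rw [map_sub, h2, sub_zero] at this
    exact (hw _).2 this
  have a4 := indep_iff_ev.1 hB _ a1 a3
  obtain ⟨e, he⟩ := card_pos.1 (lt_of_lt_of_le hγ (hG z h2 h3))
  rw [mem_sdiff, mem_supp] at he
  have := congrFun a4 e
  simp only [res, mem_compl.2 he.2, if_true, Pi.zero_apply] at this
  exact he.1 this

/-- The enumeration is correct as soon as the contracted configurations have the properties used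
in the stages. -/
theorem enum_spec [Fintype F] (hA : A.length = n) (hv : ∀ e : Fin n, v e = sem m (A.getD e []))
    {FL : List F} (hFL : ∀ a, a ∈ FL) {𝒟 : List (List ℕ)} {γ B a M τ s L c : ℕ} (hγ : 1 ≤ γ)
    (hB : 1 ≤ B) (hHA : HA n 𝒟 (4 * γ) M) (hc : 2 * (1 + 4 * τ) + 1 ≤ c)
    (hfin : 4 * γ * (4 * (L + 1)) ≤ B * γ * a ^ s)
    (hw : ∀ (O : Finset (Fin n)) (w : Fin n → Fin m → F),
      (∀ y : Fin n → F, ev F w y = 0 ↔ ev F v y ∈ span F (v '' O)) → Gir F w Oᶜ γ →
      #(words F w Oᶜ ((B + 4) * γ)) ≤ M ∧ (∀ T, Shat (words F w Oᶜ (5 * γ)) T → #T ≤ τ) ∧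
      (∀ S ⊆ Oᶜ, ∀ d, Gir F w S d → #(words F w S (4 * d)) ≤ 2 ^ L) ∧
      ∀ i < s, ∀ E' ⊆ Oᶜ, Gir F w E' (B * γ * a ^ i) → ∃ 𝒬 : Finset (Finset (Fin n)), #𝒬 ≤ M ∧
        (∀ P ∈ 𝒬, 8 * γ ≤ #P) ∧ ∀ y : Fin n → F, On E' y → ev F w y = 0 → y ≠ 0 →
          #(supp y) ≤ B * γ * a ^ (i + 1) → ∃ P ∈ 𝒬, P ⊆ supp y) :
    EnumOK F v (enum (s + 1) c FL (List.range m) (List.range n) A 𝒟) γ := by
  intro O hO hG y hy hy0 hout
  have hcon := conM_spec (m := m) hA hv hO
  set w : Fin n → Fin m → F := fun e => sem m ((conM (List.range m) A O).getD e []) with hwd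
  have hgir := gir_enum hcon hG
  obtain ⟨w1, w2, w3, w4⟩ := hw _ w hcon hgir
  obtain ⟨Ds, D, I, d1, d2, d3, d4, d5, d6⟩ := stages (v := w) (E := (fs n O)ᶜ)
    (X := supp y \ fs n O) {D | ∃ D₀ ∈ 𝒟, fs n D₀ = D} hγ hB hout (fun 𝒬 h1 h2 => by
      obtain ⟨D, hD, h⟩ := hHA _ 𝒬 hout h1 h2
      exact ⟨_, ⟨D, hD, rfl⟩, h⟩) w1 w2 w4
  have hf : ∀ D' : Finset (Fin n), ∃ D₀ : List ℕ, D' ∈ Ds → D₀ ∈ 𝒟 ∧ fs n D₀ = D' := fun D' => by
    by_cases h : D' ∈ Ds
    · obtain ⟨D₀, h1, h2⟩ := d2 D' h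
      exact ⟨D₀, fun _ => ⟨h1, h2⟩⟩
    · exact ⟨[], fun h' => (h h').elim⟩
  choose f hf using hf
  have a1 : ∀ e : Fin n, e.val ∈ (Ds.map f).flatten ↔ e ∈ D := fun e => by
    rw [d3, List.mem_flatten]
    constructor
    · rintro ⟨l, hl, he⟩
      obtain ⟨D', hD', rfl⟩ := List.mem_map.1 hl
      exact ⟨D', hD', (hf D' hD').2 ▸ mem_fs.2 he⟩
    · rintro ⟨D', hD', he⟩
      exact ⟨f D', List.mem_map.2 ⟨D', hD', rfl⟩, mem_fs.1 ((hf D' hD').2.symm ▸ he)⟩
  set N : List ℕ := (List.range n).filter fun e => decide (e ∉ O ∧ e ∉ (Ds.map f).flatten) with hN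
  have a2 : fs n N = (fs n O)ᶜ \ D := by
    ext e
    rw [mem_fs, hN, List.mem_filter, List.mem_range, decide_eq_true_iff, a1, mem_sdiff, mem_compl,
      mem_fs]
    exact ⟨fun h => h.2, fun h => ⟨e.2, h⟩⟩
  have a3 : ∀ e ∈ N, e < n := fun e he => List.mem_range.1 (List.mem_filter.1 he).1
  have a4 : 1 ≤ B * γ * a ^ s := le_trans (Nat.mul_pos (by omega) (by omega)) hfin
  have a5 := dn_of_words (fun S hS => w3 S (hS.trans (sdiff_subset.trans sdiff_subset))) a4 d6
  have a6 := dn_add (by omega) hfin (hgir.mono sdiff_subset le_rfl) d5 a5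
  rw [← a2] at a6
  obtain ⟨Bs, b1, b2⟩ := bases_good (A := conM (List.range m) A O) (w := w) (fun _ => rfl) a3 a6
    (X := supp y \ fs n O) (fun e he => by
      rw [a2, mem_sdiff, mem_compl]
      exact ⟨(mem_sdiff.1 he).2, fun h => disjoint_left.1 d4 h he⟩)
    (card_pos.1 (lt_of_lt_of_le hγ (hG y hy hy0))) hout
  obtain ⟨b3, b4⟩ := bases_indep (A := conM (List.range m) A O) (w := w) (fun _ => rfl) a3 _ Bs b1
  obtain ⟨p, p1, p2⟩ := cand_spec hv hFL (B := O ++ Bs) (fun b hb =>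
      (List.mem_append.1 hb).elim (hO b) fun h => a3 b (b3 b h))
    (indep_enum hγ hcon hG b4 fun e he => by
      rw [mem_fs, List.mem_append] at he
      exact he.imp mem_fs.2 mem_fs.2) hy (c := c) (le_trans (card_le_card fun e he => by
      rw [mem_sdiff, mem_fs, List.mem_append, not_or] at he
      exact mem_sdiff.2 ⟨mem_sdiff.2 ⟨he.1, fun h => he.2.1 (mem_fs.1 h)⟩,
        fun h => he.2.2 (mem_fs.1 h)⟩) (b2.trans hc))
  refine ⟨_, ?_, p2⟩
  unfold enum
  refine List.mem_flatMap.2 ⟨Ds.map f, mem_tuples.2 ⟨by rwa [List.length_map], fun x hx => ?_⟩,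
    List.mem_flatMap.2 ⟨Bs, ?_, List.mem_map.2 ⟨p, p1, rfl⟩⟩⟩
  · obtain ⟨D', hD', rfl⟩ := List.mem_map.1 hx
    exact (hf D' hD').1
  · rw [List.length_range]
    exact b1

end Pool.Agent.P.MP_c2d640_lc

set_option autoImplicit false
set_option linter.unusedSectionVars false

/-! The enumeration is correct on a proper class. -/

namespace Pool.Agent.P.MP_c2d640_lc

open Finset Submodule Pool.Agent.P.MP_eb0bd2_lc
open scoped Classical

theorem lin_class {n ℓ x : ℕ} (hn : n ≤ 2 ^ ℓ) (hx : x + 1 ≤ ℓ) : 1 + n * x ≤ 2 ^ (2 * ℓ) := by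
  have h1 : ℓ < 2 ^ ℓ := Nat.lt_two_pow_self
  have h2 : 1 ≤ 2 ^ ℓ := Nat.one_le_two_pow
  rw [two_mul, pow_add]
  calc 1 + n * x ≤ 2 ^ ℓ + 2 ^ ℓ * x := add_le_add h2 (Nat.mul_le_mul_right _ hn)
    _ = 2 ^ ℓ * (x + 1) := by ring
    _ ≤ 2 ^ ℓ * 2 ^ ℓ := Nat.mul_le_mul_left _ (by omega)

theorem class_enum (F : Type) [Field F] [Fintype F] (s₁ s₂ : ℕ) : ∃ w K c c₁ k₀ : ℕ, 9 ≤ w ∧
    ∀ k, k₀ ≤ k → ∀ ℓ, ℓ = 2 ^ (128 * k * w) → ∀ (m n : ℕ) (A : List (List F))
      (v : Fin n → Fin m → F), n ≤ 2 ^ ℓ → A.length = n →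
      (∀ e : Fin n, v e = sem m (A.getD e [])) → NS F v s₁ → NS F (dl F v) s₂ →
      (∀ g, 1 ≤ g → Gir F v univ g → Dn F v univ g (c₁ * ℓ)) ∧
      ∀ (FL : List F) (𝒟 : List (List ℕ)), (∀ a, a ∈ FL) → ∀ j ≤ 128 * k * w,
        HA n 𝒟 (4 * 4 ^ j) (2 ^ (K * ℓ)) →
        EnumOK F v (enum (w + 2) c FL (List.range m) (List.range n) A 𝒟) (4 ^ j) := by
  obtain ⟨h, hh, hcube⟩ := exists_noCube F (s₁ + s₂)
  obtain ⟨C, c0, htau⟩ := exists_tau F (s₁ + s₂)
  obtain ⟨q, hq⟩ : ∃ q, q = Fintype.card F := ⟨_, rfl⟩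
  obtain ⟨e, he⟩ : ∃ e, e = lE q h := ⟨_, rfl⟩
  have he12 : 12 ≤ e := by rw [he, lE]; omega
  obtain ⟨w, hw9, μ₀, hgam⟩ := gam_bound q h e C c0
  obtain ⟨k₀, hk₀⟩ := small_stage e w (μ₀ + (q ^ 2 + q + 2) + C * 4 ^ c0)
  refine ⟨w, 2 * 2 ^ h + 3 + 2 * (C * (8 * e + 4) ^ c0), 2 * (1 + 4 * (C * 5 ^ c0)) + 1,
    8 * (C * 4 ^ c0) + 4, k₀, hw9, ?_⟩
  intro k hk ℓ hℓ m n A v hn hA hv h1 h2
  obtain ⟨hx, hst⟩ := hk₀ k hk
  obtain ⟨μ, hμ⟩ : ∃ μ, μ = 2 ^ (128 * k) := ⟨_, rfl⟩
  rw [← hμ] at hx hst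
  have hℓμ : ℓ = μ ^ w := by rw [hℓ, hμ, ← pow_mul]
  have hμ1 : 1 ≤ μ := by omega
  have hμℓ : μ ≤ ℓ := by
    rw [hℓμ]
    exact Nat.le_self_pow (by omega) μ
  have hq2 : 1 + n * q ^ 2 ≤ 2 ^ (2 * ℓ) := lin_class hn (by omega)
  have hq1 : 1 + n * q ≤ 2 ^ (2 * ℓ) := lin_class hn (by omega)
  have hq0 : 1 + n * 1 ≤ 2 ^ (2 * ℓ) := lin_class hn (by omega)
  have hwords : ∀ (u : Fin n → Fin m → F) (E S : Finset (Fin n)) (d x : ℕ), 1 ≤ x →
      Tame F u E (s₁ + s₂) → S ⊆ E → Gir F u S d →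
      #(words F u S (x * d)) ≤ 2 ^ (2 * ℓ * (C * x ^ c0)) := by
    intro u E S d x hx1 hT hS hG
    refine (natarajan _ (C * x ^ c0) fun T hT' => htau u S T d x hx1 (hT.mono hS) hG hT').trans ?_
    rw [pow_mul 2 (2 * ℓ), Fintype.card_fin, ← hq]
    exact Nat.pow_le_pow_left hq2 _
  refine ⟨fun g hg hG => ?_, fun FL 𝒟 hFL j hj hHA => ?_⟩
  · have hT : Tame F v univ (s₁ + s₂) := by
      have := tame_of_NS (w := v) (O := ∅) h1 h2 fun y => by simp
      rwa [compl_empty] at this
    intro S hS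
    obtain ⟨D, a1, a2, a3⟩ := dn_of_words (L := 2 * ℓ * (C * 4 ^ c0))
      (fun S hS d hd => hwords v univ S d 4 (by omega) hT hS hd) hg hG S hS
    refine ⟨D, a1, a2.trans (Nat.mul_le_mul_right _ ?_), a3⟩
    have : 1 ≤ ℓ := by omega
    nlinarith
  · obtain ⟨γ, hγ⟩ : ∃ γ, γ = 4 ^ j := ⟨_, rfl⟩
    have hγ1 : 1 ≤ γ := by rw [hγ]; exact Nat.one_le_pow _ _ (by omega)
    have hγ2 : γ ≤ 4 ^ (128 * k * w) := by rw [hγ]; exact Nat.pow_le_pow_right (by omega) hj
    rw [← hγ] at hHA ⊢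
    refine enum_spec (B := 8 * e) (a := μ) (τ := C * 5 ^ c0) (s := w + 1)
      (L := 2 * ℓ * (C * 4 ^ c0)) hA hv hFL hγ1 (by omega) hHA le_rfl ?_ fun O u hu hG => ?_
    · rw [pow_succ, ← hℓμ]
      have b1 : C * 4 ^ c0 + 1 ≤ μ := by omega
      have b2 : 1 ≤ ℓ := by omega
      obtain ⟨X, hX⟩ : ∃ X, X = C * 4 ^ c0 := ⟨_, rfl⟩
      rw [← hX] at b1 ⊢
      have b3 : 16 * (2 * ℓ * X + 1) ≤ 8 * 12 * (ℓ * μ) := by nlinarith
      calc 4 * γ * (4 * (2 * ℓ * X + 1)) = γ * (16 * (2 * ℓ * X + 1)) := by ring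
        _ ≤ γ * (8 * e * (ℓ * μ)) := Nat.mul_le_mul_left _
          (b3.trans (Nat.mul_le_mul_right _ (by omega)))
        _ = 8 * e * γ * (ℓ * μ) := by ring
    have hT : Tame F u Oᶜ (s₁ + s₂) := tame_of_NS h1 h2 hu
    refine ⟨?_, fun T hT' => htau u Oᶜ T γ 5 (by omega) hT hG hT',
      fun S hS d hd => hwords u Oᶜ S d 4 (by omega) hT hS hd, fun i hi E' hE' hG' => ?_⟩
    · refine (hwords u Oᶜ Oᶜ γ (8 * e + 4) (by omega) hT Subset.rfl hG).trans
        (Nat.pow_le_pow_right (by omega) ?_)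
      obtain ⟨X, hX⟩ : ∃ X, X = C * (8 * e + 4) ^ c0 := ⟨_, rfl⟩
      rw [← hX]
      calc 2 * ℓ * X = (2 * X) * ℓ := by ring
        _ ≤ _ := Nat.mul_le_mul_right _ (by omega)
    · have hT' := hT.mono hE'
      obtain ⟨g, hg⟩ : ∃ g, g = 8 * e * γ * μ ^ i := ⟨_, rfl⟩
      have hμi : 1 ≤ μ ^ i := Nat.one_le_pow _ _ hμ1
      have ea : 8 * e * γ * μ ^ (i + 1) = g * μ := by rw [hg]; ring
      rw [← hg] at hG'
      have hga : g ≤ g * μ := Nat.le_mul_of_pos_right _ hμ1
      have ha2 : g * μ ≤ 2 ^ μ := by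
        rw [← ea]
        refine le_trans ?_ hst
        exact Nat.mul_le_mul (Nat.mul_le_mul_left _ hγ2) (Nat.pow_le_pow_right hμ1 (by omega))
      have htr : Traces (code F u E') ((2 * h + 1) * (g * μ)) (C * ((2 * h + 1) * μ) ^ c0) := by
        refine traces_of_shat fun T hS => htau u E' T g ((2 * h + 1) * μ)
          (Nat.mul_pos (by omega) hμ1) hT' hG' ?_
        rwa [show (2 * h + 1) * μ * g = (2 * h + 1) * (g * μ) by ring]
      obtain ⟨𝒬, a1, a2, a3⟩ := cover (u := 8 * γ * μ ^ i) (R := e * μ) hh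
        (Nat.mul_pos (by omega) hμi) (by rw [← hq, ← he, hg]; exact le_of_eq (by ring)) hga
        (by rw [hg]; exact le_of_eq (by ring)) (dist_code.2 hG') htr (hcube u E' hT')
      refine ⟨𝒬, a1.trans ?_, fun P hP => le_trans (Nat.le_mul_of_pos_right _ hμi) (a2 P hP),
        fun y b1 b2 b3 b4 => a3 y (mem_code.2 ⟨b1, b2⟩) b3 (ea ▸ b4)⟩
      rw [Fintype.card_fin, ← hq, lGam]
      have c1 := hgam μ (by omega) g (g * μ) hga ha2
      rw [← hℓμ] at c1
      have c2 : (n + 1) ^ 2 ^ h ≤ 2 ^ (2 * ℓ * 2 ^ h) := by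
        rw [pow_mul 2 (2 * ℓ)]
        exact Nat.pow_le_pow_left (by omega) _
      refine (Nat.mul_le_mul (Nat.mul_le_mul c2 c1) (show n * q + 1 ≤ 2 ^ (2 * ℓ) by omega)).trans ?_
      rw [← pow_add, ← pow_add]
      refine Nat.pow_le_pow_right (by omega) ?_
      calc 2 * ℓ * 2 ^ h + ℓ + 2 * ℓ = (2 * 2 ^ h + 3) * ℓ := by ring
        _ ≤ _ := Nat.mul_le_mul_right _ (by omega)

end Pool.Agent.P.MP_c2d640_lc

set_option autoImplicit false
set_option linter.unusedSectionVars false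

/-! The main theorem. -/

namespace Pool.Agent.P.MP_c2d640_lc

open Finset Submodule Pool.Agent.P.MP_eb0bd2_lc
open scoped Classical

theorem filter_lt_range {g n : ℕ} (h : g ≤ n) :
    (List.range n).filter (fun e => decide (e < g)) = List.range g := by
  obtain ⟨k, rfl⟩ := Nat.exists_eq_add_of_le h
  rw [List.range_add, List.filter_append, List.filter_eq_self.2 (by simp),
    List.filter_eq_nil_iff.2 (by simp), List.append_nil]

theorem Dn.mono_c {F V ι : Type} [Field F] [AddCommGroup V] [Module F V] [Fintype ι]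
    [DecidableEq ι] {v : ι → V} {E : Finset ι} {d c c' : ℕ} (h : Dn F v E d c) (hc : c ≤ c') :
    Dn F v E d c' := fun S hS =>
  let ⟨D, a1, a2, a3⟩ := h S hS
  ⟨D, a1, a2.trans (Nat.mul_le_mul_right _ hc), a3⟩

/-- A smallest dependent set is among the candidates. -/
theorem mem_cands (F : Type) [Field F] [Fintype F] (s₁ s₂ : ℕ) (FL : List F) (hFL : ∀ a, a ∈ FL) :
    ∃ C s c n₀ : ℕ, ∀ (m n : ℕ) (A : List (List F)) (v : Fin n → Fin m → F), A.length = n →
      (∀ e : Fin n, v e = sem m (A.getD e [])) → NS F v s₁ → NS F (dl F v) s₂ →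
      ∀ y : Fin n → F, ev F v y = 0 → y ≠ 0 → Gir F v univ #(supp y) →
      ∃ Y ∈ cands n₀ (List.range m) (List.range n) A
        (enum s c FL (List.range m) (List.range n) A (fam (List.range n) ((n + 2) ^ C))),
        fs n Y = supp y := by
  obtain ⟨w, K, c, c₁, k₀, hw, hE⟩ := class_enum F s₁ s₂
  obtain ⟨C₁, hH⟩ := ha_params K w hw
  obtain ⟨C', hL⟩ := length_bound (2 ^ (128 * w) * C₁) (w + 2) c FL.length
  obtain ⟨k₁, hS⟩ := small_sum (c₁ + C') w (by omega)
  obtain ⟨n₀, hn₀⟩ := exists_scale w (k₀ + k₁ + 4) (by omega)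
  refine ⟨2 ^ (128 * w) * C₁, w + 2, c, n₀, fun m n A v hA hv h1 h2 y y1 y2 hG => ?_⟩
  have hg1 : 1 ≤ #(supp y) := card_pos.2 (by
    obtain ⟨e, he⟩ := Function.ne_iff.1 y2
    exact ⟨e, mem_supp.2 he⟩)
  have hgn : #(supp y) ≤ n := by simpa using card_le_univ (supp y)
  simp only [cands, List.mem_append, List.mem_flatMap, List.length_range]
  rcases le_or_gt n n₀ with hn | hn
  · refine ⟨(supp y).toList.map Fin.val, Or.inl (Or.inl (mem_tuples.2 ⟨by simp; omega, ?_⟩)), ?_⟩
    · simp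
    · ext e
      simp [Fin.val_inj]
  obtain ⟨k, k1, k2, k3⟩ := hn₀ n hn
  set J := 128 * k * w with hJ
  set En := enum (w + 2) c FL (List.range m) (List.range n) A
    (fam (List.range n) ((n + 2) ^ (2 ^ (128 * w) * C₁))) with hEn
  obtain ⟨hD, hE⟩ := hE k (by omega) _ rfl m n A v k2 hA hv h1 h2
  have hOK : ∀ j ≤ J, EnumOK F v En (4 ^ j) := fun j hj => hE FL _ hFL j hj
    (hH k (by omega) _ rfl n k2 _ (by
      rw [mul_comm C₁, pow_mul, pow_mul (n + 2)]
      exact Nat.pow_le_pow_left k3 _) j hj)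
  have hfs : fs n [] = ∅ := by ext; simp
  rcases lt_or_ge #(supp y) (4 * 4 ^ J) with hg | hg
  · have j1 : 4 ^ Nat.log 4 #(supp y) ≤ #(supp y) := Nat.pow_log_le_self 4 (by omega)
    have j2 : #(supp y) < 4 ^ (Nat.log 4 #(supp y) + 1) := Nat.lt_pow_succ_log_self (by norm_num) _
    have j3 : Nat.log 4 #(supp y) < J + 1 :=
      (Nat.pow_lt_pow_iff_right (a := 4) (by norm_num)).1 (by rw [pow_succ]; omega)
    obtain ⟨Y, a1, a2⟩ := hOK _ (Nat.lt_succ_iff.1 j3) [] (by simp)
      (fun z z1 z2 => by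
        rw [hfs, sdiff_empty]
        exact j1.trans (hG z (fun e he => absurd (mem_univ e) he) z1 z2)) y y1 y2
      (by rw [hfs, sdiff_empty]; rw [pow_succ] at j2; omega)
    exact ⟨Y, Or.inl (Or.inr a1), a2⟩
  have hJ1 : 1 ≤ J := Nat.mul_pos (by omega) (by omega)
  have hJ4 : J < 4 ^ J := Nat.lt_pow_self (by norm_num)
  have hl : 1 ≤ 2 ^ J := Nat.one_le_two_pow
  have hsum := hS k (by omega) _ rfl
  rw [← hJ] at hsum hD
  obtain ⟨O, a1, a2, a3, a4⟩ := sparse_spec (A := A) (En := En) (J := J) (b := (c₁ + C') * 2 ^ J)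
    hv hG hgn ((hD _ hg1 hG).mono_c (Nat.mul_le_mul_right _ (Nat.le_add_right c₁ C')))
    (fun j hj => hOK j hj.le) (fun O Y hY => sublist_of_mem_enum hY)
    (fun O => by
      refine le_trans (Nat.mul_le_mul_left _ (length_enum_le _ _ _ _ _ _ _ O)) ?_
      rw [List.length_range]
      exact (hL _ n _ _ hl k2 hgn (length_fam_le _ _)).trans (Nat.pow_le_pow_right (by norm_num)
        (Nat.mul_le_mul_right _ (Nat.le_add_left _ _))))
    hg hsum (X := supp y) le_rfl
  obtain ⟨Y, b1, b2⟩ := hOK J le_rfl O a2 a3 y y1 y2 a4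
  refine ⟨Y, Or.inr ⟨[#(supp y), J, 2 * ((c₁ + C') * 2 ^ J)], mem_tuples.2 ⟨by simp, ?_⟩, O, ?_, b1⟩,
    b2⟩
  · have := Nat.mul_le_mul_left (2 * ((c₁ + C') * 2 ^ J)) hJ1
    simp only [List.mem_cons, List.not_mem_nil, or_false, List.mem_range]
    rintro x (rfl | rfl | rfl) <;> omega
  · simpa [filter_lt_range hgn, filter_lt_range (show J ≤ n by omega)] using a1

theorem main_det (F : Type) [Field F] [Finite F] [N487b59b3 F]
    (𝓜 : (n : ℕ) → Set (Submodule F (Fin n → F))) (hM : MinorClosed 𝓜)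
    (hP : ∃ (a b : ℕ) (P : Matrix (Fin a) (Fin b) F), (∀ i j, P i j ∈ (⊥ : Subfield F)) ∧
      rowSpace P ∉ 𝓜 b) :
    ∃ f : List (List F) → ℕ, N68a2faeb.IsPolyTime f ∧
      ∀ (m n : ℕ) (A : Matrix (Fin m) (Fin n) F), rowSpace A ∈ 𝓜 n →
        f (columns A) = (girth A).toNat := by
  have := Fintype.ofFinite F
  obtain ⟨s₁, s₂, hc⟩ := ns_of_class F 𝓜 hM hP
  obtain ⟨C, s, c, n₀, h⟩ := mem_cands F s₁ s₂ univ.toList (by simp)
  refine ⟨dalgo C s c n₀ univ.toList, (pt_dalgo _ _ _ _ _).isPolyTime, fun m n A hA => ?_⟩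
  have hv : ∀ e : Fin n, A.col e = sem m ((columns A).getD e []) := fun e => (sem_columns A e).symm
  rw [dalgo, length_columns]
  rcases girth_cases A with h0 | ⟨X, h1, h2⟩
  · rw [girth_eq_top h0, ENat.toNat_top]
    rcases Nat.eq_zero_or_pos n with rfl | hn
    · exact pick_zero (v := fun e : Fin 0 => e.elim0) (fun e => e.elim0) _ fun Y => by
        simp [Subsingleton.elim Y ∅]
    · rw [head_columns A hn]
      exact pick_zero hv _ h0
  · have hX : X.Nonempty := nonempty_iff_ne_empty.2 fun h0 => h1 (by simp [h0])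
    have hmin : ∀ y : Fin n → F, ev F A.col y = 0 → y ≠ 0 → #X ≤ #(supp y) := fun y y2 y3 =>
      h2 _ fun h => y3 (indep_iff_ev.1 h y (on_iff.2 Subset.rfl) y2)
    obtain ⟨y, y1, y2, y3⟩ : ∃ y : Fin n → F, On X y ∧ ev F A.col y = 0 ∧ y ≠ 0 := by
      by_contra hcon
      push Not at hcon
      exact h1 (indep_iff_ev.2 hcon)
    have hy : supp y = X := eq_of_subset_of_card_le (on_iff.1 y1) (hmin y y2 y3)
    rw [girth_eq_card h1 h2, ENat.toNat_natCast, head_columns A hX.choose.pos]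
    refine pick_eq hv h1 h2 ?_
    rw [← hy]
    exact h m n _ A.col (length_columns A) hv (hc m n A hA).1 (hc m n A hA).2 y y2 y3
      fun z _ z2 z3 => hy ▸ hmin z z2 z3

end Pool.Agent.P.MP_c2d640_lc
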