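import Pool.Agent.P.MP_c2d640_lc.G7

set_option autoImplicit false
set_option linter.unusedSectionVars false

/-! Listing all circuits of size at most a fixed multiple of the girth. -/

namespace Pool.Agent.P.MP_c2d640_lc

open Finset Submodule Pool.Agent.P.MP_eb0bd2_lc
open scoped Classical

/-- The procedure lists all dependencies with at most `4 δ` terms outside `O`. -/
def EnumOKn (F : Type) [Field F] {V : Type} [AddCommGroup V] [Module F V] {n : ℕ} (v : Fin n → V)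
    (En : List ℕ → List (List ℕ)) (γ δ : ℕ) : Prop :=
  ∀ O : List ℕ, (∀ b ∈ O, b < n) → GirOff F v (fs n O) γ → ∀ y : Fin n → F, ev F v y = 0 → y ≠ 0 →
    #(supp y \ fs n O) ≤ 4 * δ → ∃ Y ∈ En O, fs n Y = supp y

section
variable {F : Type} [Field F] {m n : ℕ} {A : List (List F)} {v : Fin n → Fin m → F}
  {En : List ℕ → List (List ℕ)}

theorem sparse_spec_nr (hv : ∀ e : Fin n, v e = sem m (A.getD e [])) {g J b c t : ℕ}
    (hg : Gir F v univ g) (hgn : g ≤ n) (hD : Dn F v univ g c)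
    (hE : ∀ j < J, EnumOK F v En (4 ^ j)) (hE1 : ∀ O, ∀ Y ∈ En O, Y.Sublist (List.range n))
    (hE2 : ∀ O, g * n * (En O).length ≤ 2 ^ b) (hJ : 4 * 4 ^ J ≤ g)
    (hsum : 3 * (2 * c + 1 + 2 * b * J) ≤ 4 * 4 ^ J) {X : Finset (Fin n)} (hX : #X ≤ t * g) :
    ∃ O ∈ sparse (List.range m) (List.range n) (List.range g) (List.range J) A (2 * b) En,
      (∀ e ∈ O, e < n) ∧ GirOff F v (fs n O) (4 ^ J) ∧ #(X \ fs n O) ≤ 4 * (t * 4 ^ J) := by
  have hp : 0 < 4 ^ J := by positivity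
  have hJn : J < 4 ^ J := Nat.lt_pow_self (by norm_num)
  have hg0 : 0 < g := by omega
  have hN : ∀ e ∈ List.range n, e < n := fun e he => List.mem_range.1 he
  have key : ∀ j ≤ J, ∀ Os, Os = (List.range j).foldl
      (sround (List.range n) (List.range g) (2 * b) En)
      (bases (List.range m) (List.range n) A (g * n)) → Os.length = g * n ∧
      (∀ O ∈ Os, (∀ e ∈ O, e < n) ∧ GirOff F v (fs n O) (4 ^ j)) ∧
      ∀ e < n, 3 * load Os e ≤ (3 * (2 * c + 1 + 2 * b * j) + 8 * 4 ^ j) * n := by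
    intro j
    induction j with
    | zero =>
      rintro - Os rfl
      simp only [List.range_zero, List.foldl_nil]
      refine ⟨length_bases _ _, fun B hB => ?_, fun e he => ?_⟩
      · obtain ⟨h1, h2⟩ := bases_indep hv hN _ B hB
        refine ⟨fun e he => hN e (h1 e he), fun y hy hy0 => ?_⟩
        rw [pow_zero, Nat.one_le_iff_ne_zero]
        intro h3
        refine hy0 (indep_iff_ev.1 h2 y (fun e he => ?_) hy)
        by_contra h4
        exact notMem_empty e (card_eq_zero.1 h3 ▸ mem_sdiff.2 ⟨mem_supp.2 h4, he⟩)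
      · have h1 := bases_load hv hN hg0 (fun S _ => hD S (subset_univ _)) (List.mem_range.2 he)
        nlinarith
    | succ j ih =>
      rintro hj Os rfl
      obtain ⟨h1, h2, h3⟩ := ih (by omega) _ rfl
      rw [List.range_succ, List.foldl_append, List.foldl_cons, List.foldl_nil]
      generalize (List.range j).foldl (sround (List.range n) (List.range g) (2 * b) En)
        (bases (List.range m) (List.range n) A (g * n)) = Os at h1 h2 h3
      have h4 : 4 ^ (j + 1) ≤ 4 ^ J := Nat.pow_le_pow_right (by norm_num) hj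
      have h5 : b * 1 ≤ b * J := Nat.mul_le_mul_left _ (by omega)
      have h6 : 8 * 4 ^ j + 2 * b ≤ g := by
        rw [pow_succ] at h4
        rw [mul_assoc] at hsum
        omega
      refine ⟨by rw [sround, length_thin, h1], sround_spec hg (by omega) (hE j (by omega)) hE1
        (fun O => h1 ▸ hE2 O) h6 h2, fun e he => ?_⟩
      have h7 := load_thin (k := 8 * 4 ^ j + 2 * b) (colour (List.range n) (List.range g)
        (8 * 4 ^ j + 2 * b) (constraints g En Os)) h1 e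
      have h8 := h3 e he
      simp only [sround, List.length_range, min_eq_left (show j ≤ n by omega)]
      rw [pow_succ]
      nlinarith
  obtain ⟨h1, h2, h3⟩ := key J le_rfl _ rfl
  simp only [sparse, List.length_range]
  generalize (List.range J).foldl (sround (List.range n) (List.range g) (2 * b) En)
    (bases (List.range m) (List.range n) A (g * n)) = Os at h1 h2 h3
  obtain ⟨O, hO, h4⟩ := exists_of_sum_load (X.map Fin.valEmbedding) (4 * (t * 4 ^ J)) Os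
    (List.length_pos_iff.1 (by rw [h1]; exact Nat.mul_pos hg0 (by omega))) (by
      have h5 : ∀ e ∈ X.map Fin.valEmbedding, load Os e ≤ 4 * 4 ^ J * n := by
        intro e he
        obtain ⟨x, -, rfl⟩ := mem_map.1 he
        have h6 := h3 x.val x.isLt
        have h7 := Nat.mul_le_mul_right n (Nat.add_le_add_right hsum (8 * 4 ^ J))
        show load Os x.val ≤ _
        nlinarith
      refine (sum_le_card_nsmul _ _ _ h5).trans ?_
      rw [card_map, smul_eq_mul, h1]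
      exact (Nat.mul_le_mul_right _ hX).trans (le_of_eq (by ring)))
  refine ⟨O, hO, (h2 O hO).1, (h2 O hO).2, le_trans (le_of_eq ?_) h4⟩
  rw [filter_map, card_map]
  congr 1
  ext e
  simp

theorem enum_spec_nr [Fintype F] (hA : A.length = n) (hv : ∀ e : Fin n, v e = sem m (A.getD e []))
    {FL : List F} (hFL : ∀ a, a ∈ FL) {𝒟 : List (List ℕ)} {γ₀ t γ B a M τ s L c : ℕ} (hγ₀ : 1 ≤ γ₀)
    (ht : 1 ≤ t) (hγe : γ = t * γ₀)
    (hB : 1 ≤ B) (hHA : HA n 𝒟 (4 * γ) M) (hc : 2 * (t * (1 + 4 * τ)) + 1 ≤ c)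
    (hfin : 4 * γ * (4 * (L + 1)) ≤ B * γ * a ^ s)
    (hw : ∀ (O : Finset (Fin n)) (w : Fin n → Fin m → F),
      (∀ y : Fin n → F, ev F w y = 0 ↔ ev F v y ∈ span F (v '' O)) → Gir F w Oᶜ γ₀ →
      #(words F w Oᶜ ((B + 4) * γ)) ≤ M ∧ (∀ T, Shat (words F w Oᶜ (5 * γ)) T → #T ≤ τ) ∧
      (∀ S ⊆ Oᶜ, ∀ d, Gir F w S d → #(words F w S (4 * d)) ≤ 2 ^ L) ∧
      ∀ i < s, ∀ E' ⊆ Oᶜ, Gir F w E' (B * γ * a ^ i) → ∃ 𝒬 : Finset (Finset (Fin n)), #𝒬 ≤ M ∧
        (∀ P ∈ 𝒬, 8 * γ ≤ #P) ∧ ∀ y : Fin n → F, On E' y → ev F w y = 0 → y ≠ 0 →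
          #(supp y) ≤ B * γ * a ^ (i + 1) → ∃ P ∈ 𝒬, P ⊆ supp y) :
    EnumOKn F v (enum (s + 1) c FL (List.range m) (List.range n) A 𝒟) γ₀ γ := by
  intro O hO hG y hy hy0 hout
  have hle : γ₀ ≤ γ := hγe ▸ Nat.le_mul_of_pos_left _ ht
  have hγ : 1 ≤ γ := hγ₀.trans hle
  have hcon := conM_spec (m := m) hA hv hO
  set w : Fin n → Fin m → F := fun e => sem m ((conM (List.range m) A O).getD e []) with hwd
  have hgir := gir_enum hcon hG
  obtain ⟨w1, w2, w3, w4⟩ := hw _ w hcon hgir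
  obtain ⟨Ds, D, I, d1, d2, d3, d4, d5, d6⟩ := stages (v := w) (E := (fs n O)ᶜ)
    (X := supp y \ fs n O) {D | ∃ D₀ ∈ 𝒟, fs n D₀ = D} hγ hB hout (fun 𝒬 h1 h2 => by
      obtain ⟨D, hD, h⟩ := hHA _ 𝒬 hout h1 h2
      exact ⟨_, ⟨D, hD, rfl⟩, h⟩) w1 w2 w4
  have hf : ∀ D' : Finset (Fin n), ∃ D₀ : List ℕ, D' ∈ Ds → D₀ ∈ 𝒟 ∧ fs n D₀ = D' := fun D' => by
    by_cases h : D' ∈ Ds
    · obtain ⟨D₀, h1, h2⟩ := d2 D' h
      exact ⟨D₀, fun _ => ⟨h1, h2⟩⟩
    · exact ⟨[], fun h' => (h h').elim⟩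
  choose f hf using hf
  have a1 : ∀ e : Fin n, e.val ∈ (Ds.map f).flatten ↔ e ∈ D := fun e => by
    rw [d3, List.mem_flatten]
    constructor
    · rintro ⟨l, hl, he⟩
      obtain ⟨D', hD', rfl⟩ := List.mem_map.1 hl
      exact ⟨D', hD', (hf D' hD').2 ▸ mem_fs.2 he⟩
    · rintro ⟨D', hD', he⟩
      exact ⟨f D', List.mem_map.2 ⟨D', hD', rfl⟩, mem_fs.1 ((hf D' hD').2.symm ▸ he)⟩
  set N : List ℕ := (List.range n).filter fun e => decide (e ∉ O ∧ e ∉ (Ds.map f).flatten) with hN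
  have a2 : fs n N = (fs n O)ᶜ \ D := by
    ext e
    rw [mem_fs, hN, List.mem_filter, List.mem_range, decide_eq_true_iff, a1, mem_sdiff, mem_compl,
      mem_fs]
    exact ⟨fun h => h.2, fun h => ⟨e.2, h⟩⟩
  have a3 : ∀ e ∈ N, e < n := fun e he => List.mem_range.1 (List.mem_filter.1 he).1
  have a4 : 1 ≤ B * γ * a ^ s := le_trans (Nat.mul_pos (by omega) (by omega)) hfin
  have a5 := dn_of_words (fun S hS => w3 S (hS.trans (sdiff_subset.trans sdiff_subset))) a4 d6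
  have a7 := dn_add (by omega) (le_trans (Nat.mul_le_mul_right _ (Nat.mul_le_mul_left 4 hle)) hfin)
    (hgir.mono sdiff_subset le_rfl) d5 a5
  have a6 : Dn F w ((fs n O)ᶜ \ D) (4 * γ) (t * (1 + 4 * τ)) := fun S hS => by
    obtain ⟨D', e1, e2, e3⟩ := a7 S hS
    refine ⟨D', e1, ?_, e3⟩
    calc 4 * γ * #D' = t * (4 * γ₀ * #D') := by rw [hγe]; ring
      _ ≤ t * ((1 + 4 * τ) * #S) := Nat.mul_le_mul_left _ e2
      _ = _ := by ring
  rw [← a2] at a6
  obtain ⟨Bs, b1, b2⟩ := bases_good (A := conM (List.range m) A O) (w := w) (fun _ => rfl) a3 a6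
    (X := supp y \ fs n O) (fun e he => by
      rw [a2, mem_sdiff, mem_compl]
      exact ⟨(mem_sdiff.1 he).2, fun h => disjoint_left.1 d4 h he⟩)
    (card_pos.1 (lt_of_lt_of_le hγ₀ (hG y hy hy0))) hout
  obtain ⟨b3, b4⟩ := bases_indep (A := conM (List.range m) A O) (w := w) (fun _ => rfl) a3 _ Bs b1
  obtain ⟨p, p1, p2⟩ := cand_spec hv hFL (B := O ++ Bs) (fun b hb =>
      (List.mem_append.1 hb).elim (hO b) fun h => a3 b (b3 b h))
    (indep_enum hγ₀ hcon hG b4 fun e he => by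
      rw [mem_fs, List.mem_append] at he
      exact he.imp mem_fs.2 mem_fs.2) hy (c := c) (le_trans (card_le_card fun e he => by
      rw [mem_sdiff, mem_fs, List.mem_append, not_or] at he
      exact mem_sdiff.2 ⟨mem_sdiff.2 ⟨he.1, fun h => he.2.1 (mem_fs.1 h)⟩,
        fun h => he.2.2 (mem_fs.1 h)⟩) (b2.trans hc))
  refine ⟨_, ?_, p2⟩
  unfold enum
  refine List.mem_flatMap.2 ⟨Ds.map f, mem_tuples.2 ⟨by rwa [List.length_map], fun x hx => ?_⟩,
    List.mem_flatMap.2 ⟨Bs, ?_, List.mem_map.2 ⟨p, p1, rfl⟩⟩⟩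
  · obtain ⟨D', hD', rfl⟩ := List.mem_map.1 hx
    exact (hf D' hD').1
  · rw [List.length_range]
    exact b1

end

theorem class_enum_nr (F : Type) [Field F] [Fintype F] (s₁ s₂ t : ℕ) (ht : 1 ≤ t) : ∃ w K c c₁ k₀ : ℕ, 9 ≤ w ∧
    ∀ k, k₀ ≤ k → ∀ ℓ, ℓ = 2 ^ (128 * k * w) → ∀ (m n : ℕ) (A : List (List F))
      (v : Fin n → Fin m → F), n ≤ 2 ^ ℓ → A.length = n →
      (∀ e : Fin n, v e = sem m (A.getD e [])) → NS F v s₁ → NS F (dl F v) s₂ →
      (∀ g, 1 ≤ g → Gir F v univ g → Dn F v univ g (c₁ * ℓ)) ∧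
      ∀ (FL : List F) (𝒟 : List (List ℕ)), (∀ a, a ∈ FL) → ∀ j ≤ 128 * k * w,
        HA n 𝒟 (4 * 4 ^ j) (2 ^ (K * ℓ)) → ∀ γ₀, 1 ≤ γ₀ → 4 ^ j = t * γ₀ →
        EnumOKn F v (enum (w + 2) c FL (List.range m) (List.range n) A 𝒟) γ₀ (4 ^ j) := by
  obtain ⟨h, hh, hcube⟩ := exists_noCube F (s₁ + s₂)
  obtain ⟨C, c0, htau⟩ := exists_tau F (s₁ + s₂)
  obtain ⟨q, hq⟩ : ∃ q, q = Fintype.card F := ⟨_, rfl⟩
  obtain ⟨e, he⟩ : ∃ e, e = lE q h := ⟨_, rfl⟩
  have he12 : 12 ≤ e := by rw [he, lE]; omega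
  obtain ⟨w, hw9, μ₀, hgam⟩ := gam_bound q h e C c0
  obtain ⟨k₀, hk₀⟩ := small_stage e w (μ₀ + (q ^ 2 + q + 2) + C * 4 ^ c0)
  refine ⟨w, 2 * 2 ^ h + 3 + 2 * (C * ((8 * e + 4) * t) ^ c0),
    2 * (t * (1 + 4 * (C * (5 * t) ^ c0))) + 1,
    8 * (C * 4 ^ c0) + 4, k₀, hw9, ?_⟩
  intro k hk ℓ hℓ m n A v hn hA hv h1 h2
  obtain ⟨hx, hst⟩ := hk₀ k hk
  obtain ⟨μ, hμ⟩ : ∃ μ, μ = 2 ^ (128 * k) := ⟨_, rfl⟩
  rw [← hμ] at hx hst
  have hℓμ : ℓ = μ ^ w := by rw [hℓ, hμ, ← pow_mul]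
  have hμ1 : 1 ≤ μ := by omega
  have hμℓ : μ ≤ ℓ := by
    rw [hℓμ]
    exact Nat.le_self_pow (by omega) μ
  have hq2 : 1 + n * q ^ 2 ≤ 2 ^ (2 * ℓ) := lin_class hn (by omega)
  have hq1 : 1 + n * q ≤ 2 ^ (2 * ℓ) := lin_class hn (by omega)
  have hq0 : 1 + n * 1 ≤ 2 ^ (2 * ℓ) := lin_class hn (by omega)
  have hwords : ∀ (u : Fin n → Fin m → F) (E S : Finset (Fin n)) (d x : ℕ), 1 ≤ x →
      Tame F u E (s₁ + s₂) → S ⊆ E → Gir F u S d →
      #(words F u S (x * d)) ≤ 2 ^ (2 * ℓ * (C * x ^ c0)) := by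
    intro u E S d x hx1 hT hS hG
    refine (natarajan _ (C * x ^ c0) fun T hT' => htau u S T d x hx1 (hT.mono hS) hG hT').trans ?_
    rw [pow_mul 2 (2 * ℓ), Fintype.card_fin, ← hq]
    exact Nat.pow_le_pow_left hq2 _
  refine ⟨fun g hg hG => ?_, fun FL 𝒟 hFL j hj hHA γ₀ hγ₀ hγe => ?_⟩
  · have hT : Tame F v univ (s₁ + s₂) := by
      have := tame_of_NS (w := v) (O := ∅) h1 h2 fun y => by simp
      rwa [compl_empty] at this
    intro S hS
    obtain ⟨D, a1, a2, a3⟩ := dn_of_words (L := 2 * ℓ * (C * 4 ^ c0))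
      (fun S hS d hd => hwords v univ S d 4 (by omega) hT hS hd) hg hG S hS
    refine ⟨D, a1, a2.trans (Nat.mul_le_mul_right _ ?_), a3⟩
    have : 1 ≤ ℓ := by omega
    nlinarith
  · obtain ⟨γ, hγ⟩ : ∃ γ, γ = 4 ^ j := ⟨_, rfl⟩
    have hγ1 : 1 ≤ γ := by rw [hγ]; exact Nat.one_le_pow _ _ (by omega)
    have hγ2 : γ ≤ 4 ^ (128 * k * w) := by rw [hγ]; exact Nat.pow_le_pow_right (by omega) hj
    rw [← hγ] at hHA hγe ⊢
    refine enum_spec_nr (B := 8 * e) (a := μ) (τ := C * (5 * t) ^ c0) (s := w + 1)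
      (L := 2 * ℓ * (C * 4 ^ c0)) hA hv hFL hγ₀ ht hγe (by omega) hHA le_rfl ?_ fun O u hu hG => ?_
    · rw [pow_succ, ← hℓμ]
      have b1 : C * 4 ^ c0 + 1 ≤ μ := by omega
      have b2 : 1 ≤ ℓ := by omega
      obtain ⟨X, hX⟩ : ∃ X, X = C * 4 ^ c0 := ⟨_, rfl⟩
      rw [← hX] at b1 ⊢
      have b3 : 16 * (2 * ℓ * X + 1) ≤ 8 * 12 * (ℓ * μ) := by nlinarith
      calc 4 * γ * (4 * (2 * ℓ * X + 1)) = γ * (16 * (2 * ℓ * X + 1)) := by ring
        _ ≤ γ * (8 * e * (ℓ * μ)) := Nat.mul_le_mul_left _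
          (b3.trans (Nat.mul_le_mul_right _ (by omega)))
        _ = 8 * e * γ * (ℓ * μ) := by ring
    have hT : Tame F u Oᶜ (s₁ + s₂) := tame_of_NS h1 h2 hu
    refine ⟨?_, fun T hT' => htau u Oᶜ T γ₀ (5 * t) (by omega) hT hG
      (by rw [mul_assoc, ← hγe]; exact hT'),
      fun S hS d hd => hwords u Oᶜ S d 4 (by omega) hT hS hd, fun i hi E' hE' hG' => ?_⟩
    · have hw0 := hwords u Oᶜ Oᶜ γ₀ ((8 * e + 4) * t) (Nat.mul_pos (by omega) ht) hT Subset.rfl hG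
      rw [mul_assoc (8 * e + 4), ← hγe] at hw0
      refine hw0.trans (Nat.pow_le_pow_right (by omega) ?_)
      obtain ⟨X, hX⟩ : ∃ X, X = C * ((8 * e + 4) * t) ^ c0 := ⟨_, rfl⟩
      rw [← hX]
      calc 2 * ℓ * X = (2 * X) * ℓ := by ring
        _ ≤ _ := Nat.mul_le_mul_right _ (by omega)
    · have hT' := hT.mono hE'
      obtain ⟨g, hg⟩ : ∃ g, g = 8 * e * γ * μ ^ i := ⟨_, rfl⟩
      have hμi : 1 ≤ μ ^ i := Nat.one_le_pow _ _ hμ1
      have ea : 8 * e * γ * μ ^ (i + 1) = g * μ := by rw [hg]; ring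
      rw [← hg] at hG'
      have hga : g ≤ g * μ := Nat.le_mul_of_pos_right _ hμ1
      have ha2 : g * μ ≤ 2 ^ μ := by
        rw [← ea]
        refine le_trans ?_ hst
        exact Nat.mul_le_mul (Nat.mul_le_mul_left _ hγ2) (Nat.pow_le_pow_right hμ1 (by omega))
      have htr : Traces (code F u E') ((2 * h + 1) * (g * μ)) (C * ((2 * h + 1) * μ) ^ c0) := by
        refine traces_of_shat fun T hS => htau u E' T g ((2 * h + 1) * μ)
          (Nat.mul_pos (by omega) hμ1) hT' hG' ?_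
        rwa [show (2 * h + 1) * μ * g = (2 * h + 1) * (g * μ) by ring]
      obtain ⟨𝒬, a1, a2, a3⟩ := cover (u := 8 * γ * μ ^ i) (R := e * μ) hh
        (Nat.mul_pos (by omega) hμi) (by rw [← hq, ← he, hg]; exact le_of_eq (by ring)) hga
        (by rw [hg]; exact le_of_eq (by ring)) (dist_code.2 hG') htr (hcube u E' hT')
      refine ⟨𝒬, a1.trans ?_, fun P hP => le_trans (Nat.le_mul_of_pos_right _ hμi) (a2 P hP),
        fun y b1 b2 b3 b4 => a3 y (mem_code.2 ⟨b1, b2⟩) b3 (ea ▸ b4)⟩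
      rw [Fintype.card_fin, ← hq, lGam]
      have c1 := hgam μ (by omega) g (g * μ) hga ha2
      rw [← hℓμ] at c1
      have c2 : (n + 1) ^ 2 ^ h ≤ 2 ^ (2 * ℓ * 2 ^ h) := by
        rw [pow_mul 2 (2 * ℓ)]
        exact Nat.pow_le_pow_left (by omega) _
      refine (Nat.mul_le_mul (Nat.mul_le_mul c2 c1) (show n * q + 1 ≤ 2 ^ (2 * ℓ) by omega)).trans ?_
      rw [← pow_add, ← pow_add]
      refine Nat.pow_le_pow_right (by omega) ?_
      calc 2 * ℓ * 2 ^ h + ℓ + 2 * ℓ = (2 * 2 ^ h + 3) * ℓ := by ring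
        _ ≤ _ := Nat.mul_le_mul_right _ (by omega)

theorem mem_cands_nr (F : Type) [Field F] [Fintype F] (s₁ s₂ r : ℕ) (FL : List F)
    (hFL : ∀ a, a ∈ FL) :
    ∃ C s c n₀ : ℕ, ∀ (m n : ℕ) (A : List (List F)) (v : Fin n → Fin m → F), A.length = n →
      (∀ e : Fin n, v e = sem m (A.getD e [])) → NS F v s₁ → NS F (dl F v) s₂ →
      ∀ (g : ℕ) (y : Fin n → F), 1 ≤ g → ev F v y = 0 → y ≠ 0 → Gir F v univ g →
      #(supp y) ≤ 4 ^ r * g →
      ∃ Y ∈ cands n₀ (List.range m) (List.range n) A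
        (enum s c FL (List.range m) (List.range n) A (fam (List.range n) ((n + 2) ^ C))),
        fs n Y = supp y := by
  have hr : 1 ≤ 4 ^ r := Nat.one_le_pow _ _ (by omega)
  obtain ⟨w, K, c, c₁, k₀, hw, hE⟩ := class_enum_nr F s₁ s₂ (4 ^ r) hr
  obtain ⟨C₁, hH⟩ := ha_params K w hw
  obtain ⟨C', hL⟩ := length_bound (2 ^ (128 * w) * C₁) (w + 2) c FL.length
  obtain ⟨k₁, hS⟩ := small_sum ((c₁ + C' + 1) * 4 ^ r) w (by omega)
  obtain ⟨n₀, hn₀⟩ := exists_scale w (k₀ + k₁ + r + 4) (by omega)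
  refine ⟨2 ^ (128 * w) * C₁, w + 2, c, n₀, fun m n A v hA hv h1 h2 g y hg1 y1 y2 hG hy => ?_⟩
  have hyn : #(supp y) ≤ n := by simpa using card_le_univ (supp y)
  have hgn : g ≤ n := (hG y (fun e he => absurd (mem_univ e) he) y1 y2).trans hyn
  simp only [cands, List.mem_append, List.mem_flatMap, List.length_range]
  rcases le_or_gt n n₀ with hn | hn
  · refine ⟨(supp y).toList.map Fin.val, Or.inl (Or.inl (mem_tuples.2 ⟨by simp; omega, ?_⟩)), ?_⟩
    · simp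
    · ext e
      simp [Fin.val_inj]
  obtain ⟨k, k1, k2, k3⟩ := hn₀ n hn
  set J := 128 * k * w with hJ
  set En := enum (w + 2) c FL (List.range m) (List.range n) A
    (fam (List.range n) ((n + 2) ^ (2 ^ (128 * w) * C₁))) with hEn
  obtain ⟨hD, hE⟩ := hE k (by omega) _ rfl m n A v k2 hA hv h1 h2
  have hJk : 128 * k ≤ J := Nat.le_mul_of_pos_right _ (by omega)
  obtain ⟨I, hI⟩ : ∃ I, J = r + I := ⟨J - r, by omega⟩
  have hOK : ∀ j ≤ I, EnumOKn F v En (4 ^ j) (4 ^ (r + j)) := fun j hj =>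
    hE FL _ hFL (r + j) (by omega)
    (hH k (by omega) _ rfl n k2 _ (by
      rw [mul_comm C₁, pow_mul, pow_mul (n + 2)]
      exact Nat.pow_le_pow_left k3 _) (r + j) (by omega)) _ (Nat.one_le_pow _ _ (by omega))
      (pow_add _ _ _)
  have hfs : fs n [] = ∅ := by ext; simp
  rcases lt_or_ge g (4 * 4 ^ I) with hg | hg
  · have j1 : 4 ^ Nat.log 4 g ≤ g := Nat.pow_log_le_self 4 (by omega)
    have j2 : g < 4 ^ (Nat.log 4 g + 1) := Nat.lt_pow_succ_log_self (by norm_num) _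
    have j3 : Nat.log 4 g < I + 1 :=
      (Nat.pow_lt_pow_iff_right (a := 4) (by norm_num)).1 (by rw [pow_succ]; omega)
    obtain ⟨Y, a1, a2⟩ := hOK _ (Nat.lt_succ_iff.1 j3) [] (by simp)
      (fun z z1 z2 => by
        rw [hfs, sdiff_empty]
        exact j1.trans (hG z (fun e he => absurd (mem_univ e) he) z1 z2)) y y1 y2
      (by
        rw [hfs, sdiff_empty]
        exact hy.trans ((Nat.mul_le_mul_left _ j2.le).trans (le_of_eq (by ring))))
    exact ⟨Y, Or.inl (Or.inr a1), a2⟩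
  have hJ1 : 1 ≤ I := by omega
  have hJ4 : I < 4 ^ I := Nat.lt_pow_self (by norm_num)
  have hl : 1 ≤ 2 ^ J := Nat.one_le_two_pow
  have hsum0 := hS k (by omega) _ rfl
  rw [← hJ] at hsum0 hD
  have hsum : 3 * (2 * ((c₁ + C') * 2 ^ J) + 1 + 2 * ((c₁ + C') * 2 ^ J) * I) ≤ 4 * 4 ^ I := by
    refine Nat.le_of_mul_le_mul_left (c := 4 ^ r) ?_ hr
    have e4 : 4 ^ J = 4 ^ r * 4 ^ I := by rw [hI, pow_add]
    rw [e4] at hsum0
    have hIJ : I ≤ J := by omega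
    generalize 2 ^ J = l at hsum0 hl ⊢
    generalize 4 ^ r = t at hsum0 hr ⊢
    generalize c₁ + C' = x at hsum0 ⊢
    have b1 : t * 1 ≤ t * l := Nat.mul_le_mul_left _ hl
    have b2 : x * t * l * I ≤ x * t * l * J := Nat.mul_le_mul_left _ hIJ
    nlinarith [Nat.zero_le (t * l * J)]
  obtain ⟨O, a1, a2, a3, a4⟩ := sparse_spec_nr (A := A) (En := En) (J := I) (t := 4 ^ r)
    (b := (c₁ + C') * 2 ^ J)
    hv hG hgn ((hD _ hg1 hG).mono_c (Nat.mul_le_mul_right _ (Nat.le_add_right c₁ C')))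
    (fun j hj O o1 o2 z z1 z2 z3 => hOK j hj.le O o1 o2 z z1 z2 (z3.trans
      (Nat.mul_le_mul_left _ (Nat.pow_le_pow_right (by omega) (by omega)))))
    (fun O Y hY => sublist_of_mem_enum hY)
    (fun O => by
      refine le_trans (Nat.mul_le_mul_left _ (length_enum_le _ _ _ _ _ _ _ O)) ?_
      rw [List.length_range]
      exact (hL _ n _ _ hl k2 hgn (length_fam_le _ _)).trans (Nat.pow_le_pow_right (by norm_num)
        (Nat.mul_le_mul_right _ (Nat.le_add_left _ _))))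
    hg hsum (X := supp y) hy
  obtain ⟨Y, b1, b2⟩ := hOK I le_rfl O a2 a3 y y1 y2 (by rw [pow_add]; exact a4)
  refine ⟨Y, Or.inr ⟨[g, I, 2 * ((c₁ + C') * 2 ^ J)], mem_tuples.2 ⟨by simp, ?_⟩, O, ?_, b1⟩,
    b2⟩
  · have := Nat.mul_le_mul_left (2 * ((c₁ + C') * 2 ^ J)) hJ1
    simp only [List.mem_cons, List.not_mem_nil, or_false, List.mem_range]
    rintro x (rfl | rfl | rfl) <;> omega
  · simpa [filter_lt_range hgn, filter_lt_range (show I ≤ n by omega)] using a1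

end Pool.Agent.P.MP_c2d640_lc
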