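import Pool.Agent.P.MP_c2d640_lc.Near

set_option autoImplicit false
set_option linter.unusedSectionVars false

/-! The listing algorithm. -/

namespace Pool.Agent.P.MP_c2d640_lc

open Finset Submodule Pool.Agent.Lib.PolyTime Pool.Agent.P.MP_eb0bd2_lc
open scoped Classical

variable {F : Type} [Field F]

/-- Test for being a circuit. -/
noncomputable def circ (R : List ℕ) (A : List (List F)) (Y : List ℕ) : Bool :=
  dep R A Y && Y.all fun x => !dep R A (Y.filter fun e => decide (e ≠ x))

/-- The candidates that are circuits of size at most `b`. -/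
noncomputable def shortc (R N : List ℕ) (A : List (List F)) (𝒞 : List (List ℕ)) (b : ℕ) :
    List (List ℕ) :=
  ((𝒞.map fun Y => N.filter fun e => decide (e ∈ Y)).filter fun Y =>
    circ R A Y && decide (Y.length ≤ b)).dedup

/-- The girth and the list of the short circuits. -/
noncomputable def nalgo (x C s c n₀ : ℕ) (FL : List F) (A : List (List F)) : ℕ × List (List ℕ) :=
  (dalgo C s c n₀ FL A, shortc (List.range (A.headD []).length) (List.range A.length) A
    (cands n₀ (List.range (A.headD []).length) (List.range A.length) A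
      (enum s c FL (List.range (A.headD []).length) (List.range A.length) A
        (fam (List.range A.length) ((A.length + 2) ^ C)))) (x * dalgo C s c n₀ FL A))

section PT
variable {α : Type} [N487b59b3 α] [N487b59b3 F] [Finite F]
variable {R N : α → List ℕ} {A : α → List (List F)}

attribute [local irreducible] dep

@[fun_prop] theorem circ_pt {Y : α → List ℕ} (hR : PT R) (hA : PT A) (hY : PT Y) :
    PT fun a => circ (R a) (A a) (Y a) := by
  unfold circ
  fun_prop

attribute [local irreducible] circ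

theorem shortc_pt {𝒞 : α → List (List ℕ)} {b : α → ℕ} (hR : PT R) (hN : PT N) (hA : PT A)
    (hC : PT 𝒞) (hb : PT b) : PT fun a => shortc (R a) (N a) (A a) (𝒞 a) (b a) := by
  unfold shortc
  refine pt_dedup ?_
  fun_prop

theorem pt_nalgo (x C s c n₀ : ℕ) (FL : List F) :
    PT (nalgo x C s c n₀ FL : List (List F) → ℕ × List (List ℕ)) := by
  have hR : PT fun A : List (List F) => List.range (A.headD []).length := by fun_prop
  have hN : PT fun A : List (List F) => List.range A.length := by fun_prop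
  have hD : PT fun A : List (List F) => fam (List.range A.length) ((A.length + 2) ^ C) :=
    pt_fam hN (by fun_prop) (by fun_prop)
  have hg := pt_dalgo C s c n₀ FL
  exact PT.pair hg (shortc_pt hR hN PT.id (cands_pt2 n₀ hR hN PT.id
    (pt_enum s c FL (hR.comp PT.id.fst) (hN.comp PT.id.fst) PT.id.fst (hD.comp PT.id.fst)
      PT.id.snd)) (PT.mul (PT.const x) hg))

end PT

variable {m n : ℕ}

theorem circ_iff (A : Matrix (Fin m) (Fin n) F) {Y : List ℕ} (hY : ∀ e ∈ Y, e < n) :
    circ (List.range m) (columns A) Y = true ↔ IsCircuit A (fs n Y) := by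
  have hv : ∀ e : Fin n, A.col e = sem m ((columns A).getD e []) := fun e => (sem_columns A e).symm
  have key : ∀ x : Fin n, fs n (Y.filter fun e => decide (e ≠ x.val)) = (fs n Y).erase x := by
    intro x; ext e; simp [Fin.val_inj, and_comm]
  have hlt : ∀ x, ∀ e ∈ Y.filter fun e => decide (e ≠ x), e < n :=
    fun x e he => hY e (List.mem_filter.1 he).1
  simp only [circ, Bool.and_eq_true, List.all_eq_true, Bool.not_eq_true', ← Bool.not_eq_true]
  rw [dep_iff hv hY]
  constructor
  · rintro ⟨h1, h2⟩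
    refine ⟨h1, fun Z hZ hZY e he => ?_⟩
    by_contra hc
    have h3 := h2 e.val (mem_fs.1 he)
    rw [dep_iff hv (hlt _), key, not_not] at h3
    exact hZ (h3.mono (coe_subset.2 fun a ha => mem_erase.2 ⟨fun b => hc (b ▸ ha), hZY ha⟩))
  · intro h
    refine ⟨h.1, fun x hx hd => ?_⟩
    rw [dep_iff hv (hlt _), key ⟨x, hY x hx⟩] at hd
    exact notMem_erase _ _ (h.2 hd (erase_subset _ _) (mem_fs.2 hx : (⟨x, hY x hx⟩ : Fin n) ∈ _))

theorem filter_eq_sort (Y : List ℕ) :
    ((List.range n).filter fun e => decide (e ∈ Y)) = ((fs n Y).sort (· ≤ ·)).map Fin.val := by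
  refine List.Pairwise.eq_of_mem_iff (r := (· < ·)) (List.pairwise_lt_range.filter _) ?_ fun a => ?_
  · rw [List.pairwise_map]
    exact (sortedLT_sort (fs n Y)).pairwise
  · simp only [List.mem_filter, List.mem_range, decide_eq_true_eq, List.mem_map, mem_sort, mem_fs]
    exact ⟨fun h => ⟨⟨a, h.1⟩, h.2, rfl⟩, fun ⟨b, h1, h2⟩ => h2 ▸ ⟨b.2, h1⟩⟩

theorem circuit_word {A : Matrix (Fin m) (Fin n) F} {C : Finset (Fin n)} (h : IsCircuit A C) :
    ∃ y : Fin n → F, ev F A.col y = 0 ∧ y ≠ 0 ∧ supp y = C := by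
  obtain ⟨y, y1, y2, y3⟩ : ∃ y : Fin n → F, On C y ∧ ev F A.col y = 0 ∧ y ≠ 0 := by
    by_contra hcon
    push Not at hcon
    exact h.1 (indep_iff_ev.2 hcon)
  exact ⟨y, y2, y3, Subset.antisymm (on_iff.1 y1) (h.2
    (fun h => y3 (indep_iff_ev.1 h y (on_iff.2 Subset.rfl) y2)) (on_iff.1 y1))⟩

theorem mem_shortc (A : Matrix (Fin m) (Fin n) F) (𝒞 : List (List ℕ)) (b : ℕ) (L : List ℕ) :
    L ∈ shortc (List.range m) (List.range n) (columns A) 𝒞 b ↔
      ∃ Y ∈ 𝒞, IsCircuit A (fs n Y) ∧ #(fs n Y) ≤ b ∧ L = ((fs n Y).sort (· ≤ ·)).map Fin.val := by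
  have hfs : ∀ Y : List ℕ, fs n ((List.range n).filter fun e => decide (e ∈ Y)) = fs n Y := by
    intro Y
    ext e
    simp
  have hlt : ∀ Y : List ℕ, ∀ e ∈ (List.range n).filter fun e => decide (e ∈ Y), e < n :=
    fun Y e he => List.mem_range.1 (List.mem_filter.1 he).1
  rw [shortc, List.mem_dedup, List.mem_filter, List.mem_map, Bool.and_eq_true, decide_eq_true_eq]
  constructor
  · rintro ⟨⟨Y, hY, rfl⟩, h1, h2⟩
    rw [circ_iff A (hlt Y), hfs] at h1
    rw [length_eq_card_fs List.filter_sublist, hfs] at h2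
    exact ⟨Y, hY, h1, h2, filter_eq_sort Y⟩
  · rintro ⟨Y, hY, h1, h2, rfl⟩
    rw [← filter_eq_sort]
    refine ⟨⟨Y, hY, rfl⟩, ?_, ?_⟩
    · rw [circ_iff A (hlt Y), hfs]; exact h1
    · rw [length_eq_card_fs List.filter_sublist, hfs]; exact h2

theorem main_near (F : Type) [Field F] [Finite F] [N487b59b3 F]
    (𝓜 : (n : ℕ) → Set (Submodule F (Fin n → F))) (hM : MinorClosed 𝓜)
    (hP : ∃ (a b : ℕ) (P : Matrix (Fin a) (Fin b) F), (∀ i j, P i j ∈ (⊥ : Subfield F)) ∧
      rowSpace P ∉ 𝓜 b) (x : ℕ) :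
    ∃ f : List (List F) → ℕ × List (List ℕ), PT f ∧
      ∀ (m n : ℕ) (A : Matrix (Fin m) (Fin n) F), rowSpace A ∈ 𝓜 n →
        (f (columns A)).1 = (girth A).toNat ∧ (f (columns A)).2.Nodup ∧
        ∀ L, L ∈ (f (columns A)).2 ↔ ∃ C : Finset (Fin n), IsCircuit A C ∧
          (C.card : ℕ∞) ≤ x * girth A ∧ L = (C.sort (· ≤ ·)).map Fin.val := by
  have := Fintype.ofFinite F
  obtain ⟨s₁, s₂, hc⟩ := ns_of_class F 𝓜 hM hP
  obtain ⟨C, s, c, n₀, h⟩ := mem_cands_nr F s₁ s₂ x univ.toList (by simp)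
  refine ⟨nalgo x C s c n₀ univ.toList, pt_nalgo _ _ _ _ _ _, fun m n A hA => ?_⟩
  have hv : ∀ e : Fin n, A.col e = sem m ((columns A).getD e []) := fun e => (sem_columns A e).symm
  have hx : x ≤ 4 ^ x := (Nat.lt_pow_self (by norm_num)).le
  have hx1 : 1 ≤ 4 ^ x := Nat.one_le_pow _ _ (by norm_num)
  rcases girth_cases A with h0 | ⟨X, h1, h2⟩
  · refine ⟨?_, List.nodup_dedup _, fun L => ⟨fun hL => ?_, fun ⟨C, a, _⟩ => (a.1 (h0 C)).elim⟩⟩
    · change dalgo C s c n₀ univ.toList (columns A) = _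
      rw [dalgo, length_columns, girth_eq_top h0, ENat.toNat_top]
      rcases Nat.eq_zero_or_pos n with rfl | hn
      · exact pick_zero (v := fun e : Fin 0 => e.elim0) (fun e => e.elim0) _ fun Y => by
          simp [Subsingleton.elim Y ∅]
      · rw [head_columns A hn]
        exact pick_zero hv _ h0
    · exfalso
      simp only [nalgo, length_columns] at hL
      rcases Nat.eq_zero_or_pos n with rfl | hn
      · simp [shortc, circ, dep] at hL
      · rw [head_columns A hn] at hL
        obtain ⟨Y, _, a, _⟩ := (mem_shortc A _ _ L).1 hL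
        exact a.1 (h0 _)
  · have hX : X.Nonempty := nonempty_iff_ne_empty.2 fun h0 => h1 (by simp [h0])
    have hG : Gir F A.col univ #X := fun y _ y2 y3 =>
      h2 _ fun h => y3 (indep_iff_ev.1 h y (on_iff.2 Subset.rfl) y2)
    have all : ∀ Z, IsCircuit A Z → #Z ≤ 4 ^ x * #X → ∃ Y ∈ cands n₀ (List.range m) (List.range n)
        (columns A) (enum s c univ.toList (List.range m) (List.range n) (columns A)
          (fam (List.range n) ((n + 2) ^ C))), fs n Y = Z := fun Z hZ hb => by
      obtain ⟨y, y1, y2, rfl⟩ := circuit_word hZ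
      exact h m n _ A.col (length_columns A) hv (hc m n A hA).1 (hc m n A hA).2 _ y
        (card_pos.2 hX) y1 y2 hG hb
    have hXc : IsCircuit A X := ⟨h1, fun Y hY hYX => (eq_of_subset_of_card_le hYX (h2 Y hY)).ge⟩
    have e1 : dalgo C s c n₀ univ.toList (columns A) = #X := by
      rw [dalgo, length_columns, head_columns A hX.choose.pos]
      exact pick_eq hv h1 h2 (all X hXc (Nat.le_mul_of_pos_left _ hx1))
    refine ⟨?_, List.nodup_dedup _, fun L => ?_⟩
    · rw [girth_eq_card h1 h2, ENat.toNat_natCast]; exact e1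
    · simp only [nalgo, length_columns, head_columns A hX.choose.pos, e1]
      rw [mem_shortc, girth_eq_card h1 h2]
      constructor
      · rintro ⟨Y, _, a, b, c⟩
        exact ⟨_, a, by exact_mod_cast b, c⟩
      · rintro ⟨Z, a, b, c⟩
        have b' : #Z ≤ x * #X := by exact_mod_cast b
        obtain ⟨Y, y1, rfl⟩ := all Z a (b'.trans (Nat.mul_le_mul_right _ hx))
        exact ⟨Y, y1, a, b', c⟩

end Pool.Agent.P.MP_c2d640_lc
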