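import Pool.Agent.P.MP_c2d640_lc.Near2

set_option autoImplicit false

namespace Pool.Agent.P.MP_c2d640_lc.VariantShortCircuits

open Pool.Agent.P.MP_c2d640_lc

/-- For every finite field `F`, every minor-closed class of `F`-represented matroids that omits the
row space of some matrix over the prime subfield and every `α`, a deterministic polynomial-time
algorithm outputs the girth together with the list of all circuits of size at most `α` times the
girth (infinite girth is reported as `0`). -/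
theorem result (F : Type) [Field F] [Finite F] [N487b59b3 F]
    (𝓜 : (n : ℕ) → Set (Submodule F (Fin n → F))) (hM : MinorClosed 𝓜)
    (hP : ∃ (a b : ℕ) (P : Matrix (Fin a) (Fin b) F), (∀ i j, P i j ∈ (⊥ : Subfield F)) ∧
      rowSpace P ∉ 𝓜 b) (α : ℕ) :
    ∃ f : List (List F) → ℕ × List (List ℕ), N68a2faeb.IsPolyTime f ∧
      ∀ (m n : ℕ) (A : Matrix (Fin m) (Fin n) F), rowSpace A ∈ 𝓜 n →
        (f (columns A)).1 = (girth A).toNat ∧ (f (columns A)).2.Nodup ∧
        ∀ L, L ∈ (f (columns A)).2 ↔ ∃ C : Finset (Fin n), IsCircuit A C ∧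
          (C.card : ℕ∞) ≤ α * girth A ∧ L = (C.sort (· ≤ ·)).map Fin.val :=
  let ⟨f, h1, h2⟩ := main_near F 𝓜 hM hP α
  ⟨f, h1.isPolyTime, h2⟩

/-- Q1 is the first component of the output. -/
theorem case_Q1 (F : Type) [Field F] [Finite F] [N487b59b3 F]
    (𝓜 : (n : ℕ) → Set (Submodule F (Fin n → F))) (hM : MinorClosed 𝓜)
    (hP : ∃ (a b : ℕ) (P : Matrix (Fin a) (Fin b) F), (∀ i j, P i j ∈ (⊥ : Subfield F)) ∧
      rowSpace P ∉ 𝓜 b) :
    ∃ f : List (List F) → ℕ, N68a2faeb.IsPolyTime f ∧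
      ∀ (m n : ℕ) (A : Matrix (Fin m) (Fin n) F), rowSpace A ∈ 𝓜 n →
        f (columns A) = (girth A).toNat :=
  let ⟨f, h1, h2⟩ := main_near F 𝓜 hM hP 1
  ⟨fun A => (f A).1, h1.fst.isPolyTime, fun m n A hA => (h2 m n A hA).1⟩

end Pool.Agent.P.MP_c2d640_lc.VariantShortCircuits
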